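import Pool.Agent.H73.TO.Defs
import Pool.Agent.H63.KO.FlagConn

/-! # TO.Lat2 : a `PolyLat` is atomic and coatomic

`exists_atom`, `exists_coatom`: a flag `φ` through `x` (`exists_flag`, H63/KO/FlagConn.lean: `φ.f (rk x) = x`), `φ.f 1 ≤ x`, `φ.f d ≥ x`. `le_of_atoms` follows from the CLAIM: if `¬ x ≤ m` there is `a ≤ x`, `rk a = 1`, `¬ a ≤ m`. Strong induction on `rk x`. `rk x = 0`: `x = bot ≤ m` impossible. `rk x = 1`: `a = x`.
`rk x ≥ 2`: with a flag through `x` choose `z < u < x` of ranks `rk x - 2`, `rk x - 1`, and `u' ≠ u` with `z < u' < x` (`diam`), `rk u' = rk x - 1`. If `¬ u ≤ m` or `¬ u' ≤ m`: induction. Otherwise let `n` be the meet of `x` and `m` (`P.meet`): `u ≤ n`, `u' ≤ n`, `n ≤ x`; `rk n = rk u` would give `u = n = u'` (`PolyLat.eq_of_le`),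
so `rk n = rk x`, `n = x`, `x ≤ m`, a contradiction. `le_of_coatoms` follows from the dual CLAIM: if `¬ x ≤ y` there is `b ≥ y`, `rk b = d`, `¬ x ≤ b`. Induction on `d + 1 - rk y`. `rk y = d + 1`: `y = top` impossible; `rk y = d`: `b = y`. Otherwise a flag through `y` gives `y < u < w` of ranks `rk y + 1`, `rk y + 2`, and `u' ≠ u`,
`y < u' < w` (`diam`). If `¬ x ≤ u` or `¬ x ≤ u'`: induction. Otherwise the meet `n` of `u, u'` has `y ≤ n`, `x ≤ n`, `n ≤ u`, `n ≠ u` (else `u ≤ u'`, equal ranks, `u = u'`), so `rk n = rk y`, `n = y`, `x ≤ y`, a contradiction. -/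

namespace H73.TO

open H63.KO

variable {L : Type} [PartialOrder L] (P : PolyLat L)

theorem exists_atom {x : L} (hx : 1 ≤ P.rk x) : ∃ a, a ≤ x ∧ P.rk a = 1 := by
  obtain ⟨φ, hφ⟩ := exists_flag (P := P) x
  refine ⟨φ.f 1, ?_, φ.rk (by omega)⟩
  calc φ.f 1 ≤ φ.f (P.rk x) := φ.mono hx
    _ = x := hφ

theorem exists_coatom {x : L} (hx : P.rk x ≤ P.d) : ∃ b, x ≤ b ∧ P.rk b = P.d := by
  obtain ⟨φ, hφ⟩ := exists_flag (P := P) x
  refine ⟨φ.f P.d, ?_, φ.rk (by omega)⟩
  calc x = φ.f (P.rk x) := hφ.symm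
    _ ≤ φ.f P.d := φ.mono hx

private theorem rk_le_top (x : L) : P.rk x ≤ P.d + 1 := by
  have h := PolyLat.rk_le (P := P) (P.le_top x)
  rwa [P.rk_top] at h

private theorem eq_bot {x : L} (h : P.rk x = 0) : P.bot = x :=
  PolyLat.eq_of_le (P := P) (P.bot_le x) (by rw [P.rk_bot, h])

private theorem eq_top {x : L} (h : P.rk x = P.d + 1) : x = P.top :=
  PolyLat.eq_of_le (P := P) (P.le_top x) (by rw [P.rk_top, h])

private theorem claim_atoms (m : L) : ∀ (n : ℕ) (x : L), P.rk x = n → ¬ x ≤ m →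
    ∃ a, a ≤ x ∧ P.rk a = 1 ∧ ¬ a ≤ m := by
  intro n
  induction n using Nat.strong_induction_on with
  | _ n ih =>
    intro x hn hx
    rcases Nat.lt_or_ge n 2 with h2 | h2
    · rcases Nat.eq_zero_or_pos n with h0 | h0
      · exact absurd ((eq_bot P (by omega)).symm.le.trans (P.bot_le m)) hx
      · exact ⟨x, le_rfl, by omega, hx⟩
    · have hd := rk_le_top P x
      obtain ⟨φ, hφ⟩ := exists_flag (P := P) x
      have h1 : φ.f (P.rk x - 2) < φ.f (P.rk x - 1) := φ.lt (by omega) (by omega)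
      have h3 : φ.f (P.rk x - 1) < φ.f (P.rk x) := φ.lt (by omega) (by omega)
      have hr1 : P.rk (φ.f (P.rk x - 2)) = P.rk x - 2 := φ.rk (by omega)
      have hr2 : P.rk (φ.f (P.rk x - 1)) = P.rk x - 1 := φ.rk (by omega)
      rw [hφ] at h3
      generalize φ.f (P.rk x - 2) = z at h1 hr1
      generalize φ.f (P.rk x - 1) = u at h1 h3 hr2
      obtain ⟨u', hzu, hux, hne, -⟩ := P.diam z x u h1 h3 (by omega)
      have hr3 : P.rk u' = P.rk x - 1 := by
        have a1 := P.rk_lt _ _ hzu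
        have a2 := P.rk_lt _ _ hux
        omega
      by_cases hu : u ≤ m
      · by_cases hu' : u' ≤ m
        · exfalso
          obtain ⟨C, hC1, hC2, hC⟩ := P.meet x m
          have b1 := hC u h3.le hu
          have b2 := hC u' hux.le hu'
          have c1 := PolyLat.rk_le (P := P) b1
          have c2 := PolyLat.rk_le (P := P) hC1
          have hcase : P.rk C = P.rk u ∨ P.rk C = P.rk x := by omega
          rcases hcase with hc | hc
          · have e1 := PolyLat.eq_of_le (P := P) b1 hc.symm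
            have e2 := PolyLat.eq_of_le (P := P) b2 (by omega)
            exact hne (e2.trans e1.symm)
          · have e1 := PolyLat.eq_of_le (P := P) hC1 hc
            exact hx (e1 ▸ hC2)
        · obtain ⟨a, ha1, ha2, ha3⟩ := ih (P.rk u') (by omega) u' rfl hu'
          exact ⟨a, ha1.trans hux.le, ha2, ha3⟩
      · obtain ⟨a, ha1, ha2, ha3⟩ := ih (P.rk u) (by omega) u rfl hu
        exact ⟨a, ha1.trans h3.le, ha2, ha3⟩

private theorem claim_coatoms (x : L) : ∀ (n : ℕ) (y : L), P.d + 1 - P.rk y = n → ¬ x ≤ y →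
    ∃ b, y ≤ b ∧ P.rk b = P.d ∧ ¬ x ≤ b := by
  intro n
  induction n using Nat.strong_induction_on with
  | _ n ih =>
    intro y hn hx
    have hd := rk_le_top P y
    rcases Nat.lt_or_ge n 2 with h2 | h2
    · rcases Nat.eq_zero_or_pos n with h0 | h0
      · exact absurd ((P.le_top x).trans (eq_top P (x := y) (by omega)).symm.le) hx
      · exact ⟨y, le_rfl, by omega, hx⟩
    · obtain ⟨φ, hφ⟩ := exists_flag (P := P) y
      have h1 : φ.f (P.rk y) < φ.f (P.rk y + 1) := φ.lt (by omega) (by omega)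
      have h3 : φ.f (P.rk y + 1) < φ.f (P.rk y + 2) := φ.lt (by omega) (by omega)
      have hr1 : P.rk (φ.f (P.rk y + 1)) = P.rk y + 1 := φ.rk (by omega)
      have hr2 : P.rk (φ.f (P.rk y + 2)) = P.rk y + 2 := φ.rk (by omega)
      rw [hφ] at h1
      generalize φ.f (P.rk y + 1) = u at h1 h3 hr1
      generalize φ.f (P.rk y + 2) = w at h3 hr2
      obtain ⟨u', hyu, huw, hne, -⟩ := P.diam y w u h1 h3 (by omega)
      have hr3 : P.rk u' = P.rk y + 1 := by
        have a1 := P.rk_lt _ _ hyu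
        have a2 := P.rk_lt _ _ huw
        omega
      by_cases hu : x ≤ u
      · by_cases hu' : x ≤ u'
        · exfalso
          obtain ⟨C, hC1, hC2, hC⟩ := P.meet u u'
          have b1 := hC y h1.le hyu.le
          have b2 := hC x hu hu'
          have c1 := PolyLat.rk_le (P := P) b1
          have c2 := PolyLat.rk_le (P := P) hC1
          have hcase : P.rk C = P.rk u ∨ P.rk C = P.rk y := by omega
          rcases hcase with hc | hc
          · have e1 := PolyLat.eq_of_le (P := P) hC1 hc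
            have e2 := PolyLat.eq_of_le (P := P) hC2 (by omega)
            exact hne (e2.symm.trans e1)
          · have e1 := PolyLat.eq_of_le (P := P) b1 hc.symm
            exact hx (e1 ▸ b2)
        · obtain ⟨a, ha1, ha2, ha3⟩ := ih (P.d + 1 - P.rk u') (by omega) u' rfl hu'
          exact ⟨a, hyu.le.trans ha1, ha2, ha3⟩
      · obtain ⟨a, ha1, ha2, ha3⟩ := ih (P.d + 1 - P.rk u) (by omega) u rfl hu
        exact ⟨a, h1.le.trans ha1, ha2, ha3⟩

theorem le_of_atoms {x y : L} (h : ∀ a, P.rk a = 1 → a ≤ x → a ≤ y) : x ≤ y := by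
  by_contra hx
  obtain ⟨a, h1, h2, h3⟩ := claim_atoms P y (P.rk x) x rfl hx
  exact h3 (h a h2 h1)

theorem le_of_coatoms {x y : L} (h : ∀ b, P.rk b = P.d → y ≤ b → x ≤ b) : x ≤ y := by
  by_contra hx
  obtain ⟨b, h1, h2, h3⟩ := claim_coatoms P x (P.d + 1 - P.rk y) y rfl hx
  exact h3 (h b h2 h1)

end H73.TO
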