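import Pool.Agent.H73.TO.CPot

/-! # TO.PsiB : the action is free

`cpot h` gives `F`; replace `F` by `(F (ξ v₀))⁻¹ * F`, so `F (ξ v) = 1` for all `v` (joined by edges: `h.conn`; `wrd = 1` on edges, `hedge`; at steps `q = s i p` of `Reach` with `q = p` nothing happens). Claim: for all `w` and all `v`: `F (ψ w (ξ v)) = w`. Induction on `w` from the right (`CoxeterSystem.simple_induction_right`):
for `w * simple n` take `(i, v')` with `ω i v' = n`, `s i v' = v'` (`h.cov`): `ψ (w * simple n) (ξ v') = ψ w (ρ i (ξ v')) = ρ i (ψ w (ξ v'))`, so `F` there is `w * simple n` (`T.π (ψ w (ξ v')) = v'`); and for fixed `w'` the value `F (ψ w' (ξ v))` does not depend on `v` (edges again, `ψ w'` is an automorphism). So `ψ w (ξ v) = ψ w' (ξ v')` gives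
`w = w'` (apply `F`; normalise `F` at `v₀ = v`) and `v = v'` (apply `T.π`). -/

namespace H73.TO

open H63.KO

variable {X V B : Type} {S : FSys X}

theorem psi_inj [Finite X] {T : Typ S V} {M : CoxeterMatrix B} {ω : ℕ → V → B} {a b : ℕ}
    (h : CLab T M ω a b) (ξ : V → X) (hξ : ∀ v, T.π (ξ v) = v)
    (hedge : ∀ i, a ≤ i → i ≤ b → ∀ v, T.s i v ≠ v → ξ (T.s i v) = S.ρ i (ξ v))
    (ψ : M.Group →* Equiv.Perm X) (hψ : ∀ w, IsAut S (ψ w)) (hπ : ∀ w x, T.π (ψ w x) = T.π x)
    (hsemi : ∀ i, a ≤ i → i ≤ b → ∀ v, T.s i v = v → ψ (M.simple (ω i v)) (ξ v) = S.ρ i (ξ v))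
    {w w' : M.Group} {v v' : V} (heq : ψ w (ξ v) = ψ w' (ξ v')) : w = w' ∧ v = v' := by
  obtain ⟨F, hF⟩ := cpot h
  have hst : ∀ g u, T.π (ψ g (ξ u)) = u := fun g u => by rw [hπ, hξ]
  have hA : ∀ g u t, Reach T.s a b u t → F (ψ g (ξ t)) = F (ψ g (ξ u)) := by
    intro g u t hr
    induction hr with
    | refl => rfl
    | @tail p q _ hs ih =>
      obtain ⟨i, h1, h2, rfl⟩ := hs
      by_cases hc : T.s i p = p
      · rw [hc, ih]
      · rw [hedge i h1 h2 p hc, hψ g i (ξ p), hF i h1 h2, hst, ih]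
        unfold wrd
        rw [if_neg hc, mul_one]
  have hB : ∀ g : M.Group, ∀ u, F (ψ g (ξ u)) = F (ξ v) * g := by
    intro g
    refine M.toCoxeterSystem.simple_induction_right (p := fun g => ∀ u, F (ψ g (ξ u)) = F (ξ v) * g) g ?_ ?_
    · intro u
      rw [hA 1 v u (h.conn v u), map_one, mul_one]
      rfl
    · intro w n ih u
      rw [CoxeterMatrix.toCoxeterSystem_simple]
      obtain ⟨i, t, h1, h2, h3, h4⟩ := h.cov n
      rw [hA (w * M.simple n) t u (h.conn t u), map_mul, Equiv.Perm.mul_apply, ← h4, hsemi i h1 h2 t h3,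
        hψ w i (ξ t), hF i h1 h2, hst, ih t]
      unfold wrd
      rw [if_pos h3, mul_assoc]
  refine ⟨?_, ?_⟩
  · have := hB w v
    rw [heq, hB w' v'] at this
    exact (mul_left_cancel this).symm
  · rw [← hst w v, heq, hst]

end H73.TO
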