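import Pool.Agent.H73.TO.PsiA
import Pool.Agent.H73.TO.PsiB

/-! # TO.Psi : a Coxeter labelling gives a chart (glue); `Chart.surj`

`Chart.surj`: start with `x = C.ψ 1 (C.ξ v₀)`; the set of flags of the form `C.ψ w (C.ξ v)` is closed under `ρ i`, `1 ≤ i ≤ d` (`C.aut`, `C.edge` if `s i v ≠ v`, `C.semi` if `s i v = v`: `ρ i (ψ w (ξ v)) = ψ w (ψ (simple (ω i v)) (ξ v)) = ψ (w * simple (ω i v)) (ξ v)`); `S.conn`. -/

namespace H73.TO

open H63.KO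

variable {X V B : Type} {S : FSys X}

theorem exists_chart [Finite X] {T : Typ S V} {M : CoxeterMatrix B} {ω : ℕ → V → B} {a b : ℕ}
    (h : CLab T M ω a b) (hR : CRel T M ω a b) (ξ : V → X) (hξ : ∀ v, T.π (ξ v) = v)
    (hedge : ∀ i, a ≤ i → i ≤ b → ∀ v, T.s i v ≠ v → ξ (T.s i v) = S.ρ i (ξ v))
    (hθ : ∀ n : B, ∃ θ : Equiv.Perm X, IsAut S θ ∧
      ∀ i, a ≤ i → i ≤ b → ∀ v, T.s i v = v → ω i v = n → θ (ξ v) = S.ρ i (ξ v)) :
    ∃ C : Chart S T.s ω M a b, C.ξ = ξ ∧ ∀ w x, T.π (C.ψ w x) = T.π x := by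
  obtain ⟨ψ, h1, h2, h3⟩ := exists_psi h hR ξ hξ hedge hθ
  exact ⟨⟨ξ, ψ, h1, hedge, h3, fun _ _ _ _ heq => psi_inj h ξ hξ hedge ψ h1 h2 h3 heq⟩, rfl, h2⟩

/-- the Coxeter group of a chart of a finite flag system is finite -/
theorem Chart.finite [Finite X] [Nonempty V] {s : ℕ → V → V} {ω : ℕ → V → B} {M : CoxeterMatrix B}
    {a b : ℕ} (C : Chart S s ω M a b) : Finite M.Group := by
  obtain ⟨v⟩ := ‹Nonempty V›
  exact Finite.of_injective (fun w => C.ψ w (C.ξ v)) (fun w w' h => (C.inj w v w' v h).1)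

/-- a chart for all labels reaches all flags -/
theorem Chart.surj [Nonempty V] {s : ℕ → V → V} {ω : ℕ → V → B} {M : CoxeterMatrix B}
    (C : Chart S s ω M 1 S.d) (x : X) : ∃ w v, x = C.ψ w (C.ξ v) := by
  obtain ⟨v₀⟩ := ‹Nonempty V›
  have key : ∀ y, (∃ w v, y = C.ψ w (C.ξ v)) → ∀ i, 1 ≤ i → i ≤ S.d →
      ∃ w v, S.ρ i y = C.ψ w (C.ξ v) := by
    rintro y ⟨w, v, rfl⟩ i h1 h2
    by_cases hs : s i v = v
    · refine ⟨w * M.simple (ω i v), v, ?_⟩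
      rw [map_mul, Equiv.Perm.mul_apply, C.semi i h1 h2 v hs]
      exact (C.aut w i _).symm
    · refine ⟨w, s i v, ?_⟩
      rw [C.edge i h1 h2 v hs]
      exact (C.aut w i _).symm
  have h := S.conn (C.ψ 1 (C.ξ v₀)) x
  induction h with
  | refl => exact ⟨1, v₀, rfl⟩
  | tail _ hq ih =>
    obtain ⟨i, h1, h2, rfl⟩ := hq
    exact key _ ih i h1 h2

end H73.TO
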