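import Pool.Agent.H73.TO.Mat
import Pool.Agent.H73.TO.Psi

/-! # TO.C1b : type I_1, the relations seen in the flag system, and the diagram

Let `T` have the states `0 -1- 1 -2- 2` (`s = sI 1`: label 1 exchanges 0, 1, label 2 exchanges 1, 2) and `per 1 = 3`. `ω = om1 hd`: `ω 1 _ = ω 2 _ = idx 0` (Z), `ω 3 v = idx 1` for `v = 0, 1` (Q), `ω 3 2 = idx 2` (R), `ω i _ = idx (i - 1)` for `i ≥ 4` (W_i). `cox1 T` (Mat.lean): `M Z Q = per 2 0`, `M Q R = per 2 1 / 2`,
`M Z R = 2`, `M Q W_4 = per 3 0`, `M R W_4 = per 3 2`, `M W_k W_(k+1) = per k 0` for `4 ≤ k`, `k + 1 ≤ d`, all others 2. (`three_le_per`; `per 2 1` is even by `two_dvd_per` and `≥ 3`, so `per 2 1 / 2 ≥ 2`; `idx` is injective on numbers `< d`, `(idx hd k).val = k` for `k ≤ d - 1`.)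
`CRel`: the pair `{Z, Q}` by the second alternative at label `i = 2`, state 0; `{Q, R}` by the third alternative, `i = 2`, `v = 1` (for the pair in the order `R, Q`: `v = 2`); `{Z, R}`: first alternative, labels 1, 3 at the state 2; `{Q, W_4}`: second, `i = 3`, state 0; `{R, W_4}`: second, `i = 3`, state 2; `{W_k, W_(k+1)}`: second, `i = k`, state 0; the rest first alternative:
`{Z, W_k}` (`k ≥ 4`): labels `1, k` at the state 2; `{Q, W_k}` (`k ≥ 5`): labels `3, k` at 0; `{R, W_k}` (`k ≥ 5`): labels `3, k` at 2; `{W_i, W_k}` (`4 ≤ i`, `i + 2 ≤ k`): any state. Every element of `Fin d` is `idx hd k` with `k < d`: 0, 1, 2 or `k = i - 1`, `4 ≤ i ≤ d`. `CRel` quantifies over ordered pairs: do `m < n` and transfer by symmetry of `M` where possible.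
`dlink_one`: the edges `0 - 1 - 3 - 4 - ... - (d-1)` and `2 - 3` have entries `≥ 3`; `DLink` is symmetric. -/

namespace H73.TO

open H63.KO

variable {X : Type} {S : FSys X}

private theorem s_eq {T : Typ S (Fin 3)} (hs : ∀ i v, T.s i v = sI 1 i v) {i : ℕ} (h1 : i ≠ 1) (h2 : i ≠ 2) (v : Fin 3) :
    T.s i v = v := by
  rw [hs]
  unfold sI
  rw [if_neg h1, if_neg (by omega)]

private theorem s_one {T : Typ S (Fin 3)} (hs : ∀ i v, T.s i v = sI 1 i v) : T.s 1 2 = 2 := by
  rw [hs]
  unfold sI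
  rw [if_pos rfl]
  decide

private theorem s_two {T : Typ S (Fin 3)} (hs : ∀ i v, T.s i v = sI 1 i v) : T.s 2 0 = 0 := by
  rw [hs]
  unfold sI
  rw [if_neg (by omega), if_pos rfl]
  decide

private theorem s_two' {T : Typ S (Fin 3)} (hs : ∀ i v, T.s i v = sI 1 i v) : T.s 2 1 = 2 := by
  rw [hs]
  unfold sI
  rw [if_neg (by omega), if_pos rfl]
  decide

private theorem om_low (hd : 4 ≤ S.d) {i : ℕ} (hi : i ≤ 2) (v : Fin 3) : om1 hd i v = idx hd 0 := by
  unfold om1
  rw [if_pos hi]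

private theorem om_three (hd : 4 ≤ S.d) {v : Fin 3} (hv : v ≠ 2) : om1 hd 3 v = idx hd 1 := by
  unfold om1
  rw [if_neg (by omega), if_pos rfl, if_neg hv]

private theorem om_three' (hd : 4 ≤ S.d) : om1 hd 3 2 = idx hd 2 := by
  unfold om1
  rw [if_neg (by omega), if_pos rfl, if_pos rfl]

private theorem om_high (hd : 4 ≤ S.d) {i : ℕ} (hi : 3 ≤ i) (v : Fin 3) : om1 hd (i + 1) v = idx hd i := by
  unfold om1
  rw [if_neg (by omega), if_neg (by omega), Nat.add_sub_cancel]

private theorem idx_eq (hd : 4 ≤ S.d) {k : ℕ} {m : Fin S.d} (h : m.val = k) : idx hd k = m := by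
  apply Fin.ext
  show min k (S.d - 1) = m.val
  have := m.isLt
  omega

private theorem tab_rev (T : Typ S (Fin 3)) {k l : ℕ} (h : k < l) : tab1 T l k = 2 := by
  unfold tab1
  rw [if_neg (by omega), if_neg (by omega), if_neg (by omega), if_neg (by omega), if_neg (by omega)]

private theorem even_per [Finite X] (hd : 4 ≤ S.d) (T : Typ S (Fin 3)) (hs : ∀ i v, T.s i v = sI 1 i v) : 2 ∣ T.per 2 1 := by
  apply T.two_dvd_per 2 1
  · rw [s_two' hs]
    decide
  · exact s_eq hs (by omega) (by omega) _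
  · exact s_eq hs (by omega) (by omega) _

private theorem half_per [Finite X] (hd : 4 ≤ S.d) (T : Typ S (Fin 3)) (hs : ∀ i v, T.s i v = sI 1 i v) :
    2 ≤ T.per 2 1 / 2 := by
  have h1 := T.three_le_per (i := 2) (by omega) (by omega) 1
  obtain ⟨c, hc⟩ := even_per hd T hs
  omega

private theorem two_le_tab [Finite X] (hd : 4 ≤ S.d) (T : Typ S (Fin 3)) (hs : ∀ i v, T.s i v = sI 1 i v) {k l : ℕ}
    (hl : l < S.d) : 2 ≤ tab1 T k l := by
  unfold tab1
  split_ifs with h1 h2 h3 h4 h5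
  · have := T.three_le_per (i := 2) (by omega) (by omega) 0
    omega
  · exact half_per hd T hs
  · have := T.three_le_per (i := 3) (by omega) (by omega) 0
    omega
  · have := T.three_le_per (i := 3) (by omega) (by omega) 2
    omega
  · have := T.three_le_per (i := l) (by omega) (by omega) 0
    omega
  · exact le_rfl

private theorem cox_lt [Finite X] (hd : 4 ≤ S.d) (T : Typ S (Fin 3)) (hs : ∀ i v, T.s i v = sI 1 i v) {m n : Fin S.d}
    (h : m.val < n.val) : cox1 T m n = tab1 T m.val n.val := by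
  have h2 := two_le_tab hd T hs (k := m.val) n.isLt
  unfold cox1
  refine mkCox_apply (m := fun p q : Fin S.d => tab1 T p.val q.val) (fun e => ?_) ?_ ?_
  · rw [e] at h
    exact lt_irrefl _ h
  · show tab1 T m.val n.val ≠ 1
    omega
  · show tab1 T n.val m.val ≤ tab1 T m.val n.val
    rw [tab_rev T h]
    exact h2

/-- the four alternatives -/
private def Alt (T : Typ S (Fin 3)) (M : CoxeterMatrix (Fin S.d)) (ω : ℕ → Fin 3 → Fin S.d) (a b : ℕ) (m n : Fin S.d) : Prop :=
    (∃ i k v, a ≤ i ∧ i ≤ b ∧ a ≤ k ∧ k ≤ b ∧ (i + 2 ≤ k ∨ k + 2 ≤ i) ∧ T.s i v = v ∧ T.s k v = v ∧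
      ω i v = m ∧ ω k v = n ∧ M m n = 2) ∨
    (∃ i v, a ≤ i ∧ i + 1 ≤ b ∧ T.s i v = v ∧ T.s (i + 1) v = v ∧
      ((ω i v = m ∧ ω (i + 1) v = n) ∨ (ω i v = n ∧ ω (i + 1) v = m)) ∧ T.per i v = M m n) ∨
    (∃ i v, a ≤ i ∧ i + 1 ≤ b ∧ T.s i v ≠ v ∧ T.s (i + 1) v = v ∧ T.s (i + 1) (T.s i v) = T.s i v ∧
      ω (i + 1) v = m ∧ ω (i + 1) (T.s i v) = n ∧ T.per i v = 2 * M m n) ∨
    (∃ i v, a ≤ i ∧ i + 1 ≤ b ∧ T.s (i + 1) v ≠ v ∧ T.s i v = v ∧ T.s i (T.s (i + 1) v) = T.s (i + 1) v ∧
      ω i v = m ∧ ω i (T.s (i + 1) v) = n ∧ T.per i v = 2 * M m n)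

private theorem Alt.symm [Finite X] {T : Typ S (Fin 3)} {M : CoxeterMatrix (Fin S.d)} {ω : ℕ → Fin 3 → Fin S.d} {a b : ℕ}
    {m n : Fin S.d} (h : Alt T M ω a b m n) : Alt T M ω a b n m := by
  have hM : M n m = M m n := M.symmetric n m
  rcases h with ⟨i, k, v, h1, h2, h3, h4, h5, h6, h7, h8, h9, h10⟩ | ⟨i, v, h1, h2, h3, h4, h5, h6⟩ |
    ⟨i, v, h1, h2, h3, h4, h5, h6, h7, h8⟩ | ⟨i, v, h1, h2, h3, h4, h5, h6, h7, h8⟩
  · exact Or.inl ⟨k, i, v, h3, h4, h1, h2, h5.symm, h7, h6, h9, h8, by rw [hM]; exact h10⟩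
  · exact Or.inr (Or.inl ⟨i, v, h1, h2, h3, h4, h5.symm, by rw [hM]; exact h6⟩)
  · refine Or.inr (Or.inr (Or.inl ⟨i, T.s i v, h1, h2, ?_, h5, ?_, h7, ?_, ?_⟩))
    · rw [T.s_inv]
      exact fun e => h3 e.symm
    · rw [T.s_inv]
      exact h4
    · rw [T.s_inv]
      exact h6
    · rw [T.per_self, hM]
      exact h8
  · refine Or.inr (Or.inr (Or.inr ⟨i, T.s (i + 1) v, h1, h2, ?_, h5, ?_, h7, ?_, ?_⟩))
    · rw [T.s_inv]
      exact fun e => h3 e.symm
    · rw [T.s_inv]
      exact h4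
    · rw [T.s_inv]
      exact h6
    · rw [T.per_succ, hM]
      exact h8

private theorem alt_far [Finite X] (hd : 4 ≤ S.d) (T : Typ S (Fin 3)) (hs : ∀ i v, T.s i v = sI 1 i v) {m n : Fin S.d}
    (h : m.val < n.val) (i k : ℕ) (v : Fin 3) (hi : 1 ≤ i) (hik : i + 2 ≤ k) (hk : k ≤ S.d) (hv : T.s i v = v)
    (hm : om1 hd i v = m) (hn : om1 hd k v = n) (ht : tab1 T m.val n.val = 2) :
    Alt T (cox1 T) (om1 hd) 1 S.d m n :=
  Or.inl ⟨i, k, v, hi, by omega, by omega, hk, Or.inl hik, hv, s_eq hs (by omega) (by omega) v, hm, hn, by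
    rw [cox_lt hd T hs h]
    exact ht⟩

private theorem alt_lt [Finite X] (hd : 4 ≤ S.d) (T : Typ S (Fin 3)) (hs : ∀ i v, T.s i v = sI 1 i v) {m n : Fin S.d}
    (h : m.val < n.val) : Alt T (cox1 T) (om1 hd) 1 S.d m n := by
  have hc := cox_lt hd T hs h
  have hn := n.isLt
  obtain ⟨k, hk⟩ : ∃ k, k = m.val := ⟨_, rfl⟩
  obtain ⟨l, hl⟩ : ∃ l, l = n.val := ⟨_, rfl⟩
  rw [← hk, ← hl] at hc
  rw [← hl] at hn
  have hkl : k < l := by rw [hk, hl]; exact h
  have h3 : ∀ v : Fin 3, T.s 3 v = v := s_eq hs (by omega) (by omega)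
  have h4 : ∀ v : Fin 3, T.s 4 v = v := s_eq hs (by omega) (by omega)
  have hz : ∀ i : ℕ, i ≠ 1 → T.s i 0 = 0 := by
    intro i hi
    by_cases h2 : i = 2
    · rw [h2]
      exact s_two hs
    · exact s_eq hs hi h2 0
  by_cases c1 : k = 0
  · subst c1
    by_cases c2 : l = 1
    · -- Z, Q
      subst c2
      refine Or.inr (Or.inl ⟨2, 0, by omega, by omega, s_two hs, h3 0, Or.inl ⟨?_, ?_⟩, ?_⟩)
      · rw [om_low hd le_rfl]
        exact idx_eq hd hk.symm
      · rw [om_three hd (by decide)]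
        exact idx_eq hd hl.symm
      · rw [hc]
        unfold tab1
        rw [if_pos ⟨rfl, rfl⟩]
    · by_cases c3 : l = 2
      · -- Z, R
        subst c3
        refine alt_far hd T hs h 1 3 2 le_rfl le_rfl (by omega) (s_one hs) ?_ ?_ ?_
        · rw [om_low hd (by omega)]
          exact idx_eq hd hk.symm
        · rw [om_three' hd]
          exact idx_eq hd hl.symm
        · rw [← hk, ← hl]
          unfold tab1
          rw [if_neg (by omega), if_neg (by omega), if_neg (by omega), if_neg (by omega), if_neg (by omega)]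
      · -- Z, W
        refine alt_far hd T hs h 1 (l + 1) 2 le_rfl (by omega) (by omega) (s_one hs) ?_ ?_ ?_
        · rw [om_low hd (by omega)]
          exact idx_eq hd hk.symm
        · rw [om_high hd (by omega)]
          exact idx_eq hd hl.symm
        · rw [← hk, ← hl]
          unfold tab1
          rw [if_neg (by omega), if_neg (by omega), if_neg (by omega), if_neg (by omega), if_neg (by omega)]
  by_cases c2 : k = 1
  · subst c2
    by_cases c3 : l = 2
    · -- Q, R
      subst c3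
      refine Or.inr (Or.inr (Or.inl ⟨2, 1, by omega, by omega, ?_, h3 1, h3 _, ?_, ?_, ?_⟩))
      · rw [s_two' hs]
        decide
      · rw [om_three hd (by decide)]
        exact idx_eq hd hk.symm
      · rw [s_two' hs, om_three' hd]
        exact idx_eq hd hl.symm
      · rw [hc]
        unfold tab1
        rw [if_neg (by omega), if_pos ⟨rfl, rfl⟩]
        exact (Nat.mul_div_cancel' (even_per hd T hs)).symm
    · by_cases c4 : l = 3
      · -- Q, W_4
        subst c4
        refine Or.inr (Or.inl ⟨3, 0, by omega, by omega, h3 0, h4 0, Or.inl ⟨?_, ?_⟩, ?_⟩)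
        · rw [om_three hd (by decide)]
          exact idx_eq hd hk.symm
        · rw [om_high hd le_rfl]
          exact idx_eq hd hl.symm
        · rw [hc]
          unfold tab1
          rw [if_neg (by omega), if_neg (by omega), if_pos ⟨rfl, rfl⟩]
      · -- Q, W
        refine alt_far hd T hs h 3 (l + 1) 0 (by omega) (by omega) (by omega) (h3 0) ?_ ?_ ?_
        · rw [om_three hd (by decide)]
          exact idx_eq hd hk.symm
        · rw [om_high hd (by omega)]
          exact idx_eq hd hl.symm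
        · rw [← hk, ← hl]
          unfold tab1
          rw [if_neg (by omega), if_neg (by omega), if_neg (by omega), if_neg (by omega), if_neg (by omega)]
  by_cases c3 : k = 2
  · subst c3
    by_cases c4 : l = 3
    · -- R, W_4
      subst c4
      refine Or.inr (Or.inl ⟨3, 2, by omega, by omega, h3 2, h4 2, Or.inl ⟨?_, ?_⟩, ?_⟩)
      · rw [om_three' hd]
        exact idx_eq hd hk.symm
      · rw [om_high hd le_rfl]
        exact idx_eq hd hl.symm
      · rw [hc]
        unfold tab1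
        rw [if_neg (by omega), if_neg (by omega), if_neg (by omega), if_pos ⟨rfl, rfl⟩]
    · -- R, W
      refine alt_far hd T hs h 3 (l + 1) 2 (by omega) (by omega) (by omega) (h3 2) ?_ ?_ ?_
      · rw [om_three' hd]
        exact idx_eq hd hk.symm
      · rw [om_high hd (by omega)]
        exact idx_eq hd hl.symm
      · rw [← hk, ← hl]
        unfold tab1
        rw [if_neg (by omega), if_neg (by omega), if_neg (by omega), if_neg (by omega), if_neg (by omega)]
  by_cases c4 : l = k + 1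
  · -- W_i, W_(i+1)
    refine Or.inr (Or.inl ⟨k + 1, 0, by omega, by omega, hz _ (by omega), hz _ (by omega), Or.inl ⟨?_, ?_⟩, ?_⟩)
    · rw [om_high hd (by omega)]
      exact idx_eq hd hk.symm
    · rw [om_high hd (by omega), ← c4]
      exact idx_eq hd hl.symm
    · rw [hc]
      unfold tab1
      rw [if_neg (by omega), if_neg (by omega), if_neg (by omega), if_neg (by omega), if_pos ⟨by omega, c4⟩, c4]
  · -- W_i, W_j
    refine alt_far hd T hs h (k + 1) (l + 1) 0 (by omega) (by omega) (by omega) (hz _ (by omega)) ?_ ?_ ?_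
    · rw [om_high hd (by omega)]
      exact idx_eq hd hk.symm
    · rw [om_high hd (by omega)]
      exact idx_eq hd hl.symm
    · rw [← hk, ← hl]
      unfold tab1
      rw [if_neg (by omega), if_neg (by omega), if_neg (by omega), if_neg (by omega), if_neg (by omega)]

theorem crel_one [Finite X] (hd : 4 ≤ S.d) (T : Typ S (Fin 3)) (hs : ∀ i v, T.s i v = sI 1 i v) :
    CRel T (cox1 T) (om1 hd) 1 S.d := by
  intro m n hmn _
  rcases lt_or_gt_of_ne (fun e => hmn (Fin.ext e) : m.val ≠ n.val) with h | h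
  · exact alt_lt hd T hs h
  · exact (alt_lt hd T hs h).symm

private theorem edge_lt [Finite X] (hd : 4 ≤ S.d) (T : Typ S (Fin 3)) (hs : ∀ i v, T.s i v = sI 1 i v) {m n : Fin S.d}
    (h : m.val < n.val) (ht : 3 ≤ tab1 T m.val n.val) : DLink (cox1 T) m n ∧ DLink (cox1 T) n m := by
  have hne : m ≠ n := fun e => by rw [e] at h; exact lt_irrefl _ h
  have h1 : cox1 T m n ≠ 2 := by
    rw [cox_lt hd T hs h]
    omega
  have h2 : cox1 T n m ≠ 2 := by
    rw [(cox1 T).symmetric n m]
    exact h1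
  exact ⟨Relation.ReflTransGen.single ⟨hne, h1⟩, Relation.ReflTransGen.single ⟨hne.symm, h2⟩⟩

private theorem link_three [Finite X] (hd : 4 ≤ S.d) (T : Typ S (Fin 3)) (hs : ∀ i v, T.s i v = sI 1 i v) (k : ℕ) :
    ∀ m : Fin S.d, m.val = k + 3 → DLink (cox1 T) m (idx hd 3) ∧ DLink (cox1 T) (idx hd 3) m := by
  induction k with
  | zero =>
    intro m hm
    rw [idx_eq hd (k := 3) hm]
    exact ⟨Relation.ReflTransGen.refl, Relation.ReflTransGen.refl⟩
  | succ k ih =>
    intro m hm
    have hmd := m.isLt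
    have hlt : k + 3 < S.d := by omega
    obtain ⟨a, b⟩ := ih ⟨k + 3, hlt⟩ rfl
    have h3 : 3 ≤ tab1 T (⟨k + 3, hlt⟩ : Fin S.d).val m.val := by
      have hval : (⟨k + 3, hlt⟩ : Fin S.d).val = k + 3 := rfl
      rw [hval, hm]
      unfold tab1
      rw [if_neg (by omega), if_neg (by omega), if_neg (by omega), if_neg (by omega), if_pos ⟨by omega, by omega⟩]
      exact T.three_le_per (by omega) (by omega) 0
    obtain ⟨c, e⟩ := edge_lt hd T hs (m := ⟨k + 3, hlt⟩) (n := m) (by show k + 3 < m.val; omega) h3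
    exact ⟨e.trans a, b.trans c⟩

private theorem link_all [Finite X] (hd : 4 ≤ S.d) (T : Typ S (Fin 3)) (hs : ∀ i v, T.s i v = sI 1 i v) (m : Fin S.d) :
    DLink (cox1 T) m (idx hd 3) ∧ DLink (cox1 T) (idx hd 3) m := by
  have v3 : (idx hd 3).val = 3 := by
    show min 3 (S.d - 1) = 3
    omega
  have v1 : (idx hd 1).val = 1 := by
    show min 1 (S.d - 1) = 1
    omega
  by_cases h3 : 3 ≤ m.val
  · exact link_three hd T hs (m.val - 3) m (by omega)
  · have h13 : DLink (cox1 T) (idx hd 1) (idx hd 3) ∧ DLink (cox1 T) (idx hd 3) (idx hd 1) := by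
      apply edge_lt hd T hs
      · rw [v1, v3]
        omega
      · rw [v1, v3]
        unfold tab1
        rw [if_neg (by omega), if_neg (by omega), if_pos ⟨rfl, rfl⟩]
        exact T.three_le_per (by omega) (by omega) 0
    by_cases h2 : m.val = 2
    · apply edge_lt hd T hs
      · rw [h2, v3]
        omega
      · rw [h2, v3]
        unfold tab1
        rw [if_neg (by omega), if_neg (by omega), if_neg (by omega), if_pos ⟨rfl, rfl⟩]
        exact T.three_le_per (by omega) (by omega) 2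
    · by_cases h1 : m.val = 1
      · rw [← idx_eq hd h1]
        exact h13
      · have h0 : m.val = 0 := by omega
        obtain ⟨a, b⟩ : DLink (cox1 T) m (idx hd 1) ∧ DLink (cox1 T) (idx hd 1) m := by
          apply edge_lt hd T hs
          · rw [h0, v1]
            omega
          · rw [h0, v1]
            unfold tab1
            rw [if_pos ⟨rfl, rfl⟩]
            exact T.three_le_per (by omega) (by omega) 0
        exact ⟨a.trans h13.1, h13.2.trans b⟩

theorem dlink_one [Finite X] (hd : 4 ≤ S.d) (T : Typ S (Fin 3)) (hs : ∀ i v, T.s i v = sI 1 i v)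
    (m n : Fin S.d) : DLink (cox1 T) m n :=
  (link_all hd T hs m).1.trans (link_all hd T hs n).2

end H73.TO
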