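import Pool.Agent.H73.TO.TypB

/-! # TO.Xi : base flags of the states, and the automorphisms of the walls

`semi_aut`: `T.π (ρ k x) = T.s k (T.π x) = T.π x`, so `T.fib`. `aut_slide`: `θ (ρ i x) = ρ i (θ x) = ρ i (ρ k x) = ρ k (ρ i x)`. `aut_three`: with `x1 = ρ i x0`, `x2 = ρ (i+1) x1` and `per i x0 = 3`:
`θ x2 = ρ (i+1) (ρ i (θ x0)) = ρ (i+1) ρ i ρ (i+1) x0 = ρ i ρ (i+1) ρ i x0 = ρ i x2` (from `(ρ i ρ (i+1))^3 x0 = x0`, `per_iter`, and `S.inv`).
`xi_one`: `x0` of state 0 (`T.surj`), `ξ 0 = x0`, `ξ 1 = ρ 1 x0`, `ξ 2 = ρ 2 (ρ 1 x0)`; `θ` from `semi_aut` (label 2 at the state 0) and `aut_three` with `i = 1`.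
`xi_six`: `ξ (0, true) = x0`, `ξ (1, true) = ρ j x0`, `ξ (2, true) = ρ (j+1) ρ j x0`, `ξ (1, false) = ρ (j-1) ξ (2, true)`, `ξ (0, false) = ρ j ξ (1, false)`, `ξ (2, false) = ρ (j+1) ξ (1, false)`; the last edge, label `j - 1` from `(1, true)` to `(2, false)`, holds by `S.comm`
for `j - 1, j + 1`. The automorphism `θ e`: `semi_aut` for the label `j + 1` at `(0, e)`; `aut_three` with `i = j` from `(0, e)` to `(2, e)`; `aut_three` with `i = j - 1` from `(2, e)` (`θ = ρ j` there) to `(0, !e)`. -/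

namespace H73.TO

open H63.KO

variable {X V : Type} {S : FSys X}

theorem Typ.semi_aut (T : Typ S V) {k : ℕ} {x : X} (h : T.s k (T.π x) = T.π x) :
    ∃ θ : Equiv.Perm X, IsAut S θ ∧ θ x = S.ρ k x := by
  obtain ⟨θ, h1, _, h3⟩ := T.fib x (S.ρ k x) (by rw [T.hs, h])
  exact ⟨θ, h1, h3⟩

private theorem ρ_comm {i k : ℕ} (hik : i + 2 ≤ k ∨ k + 2 ≤ i) (x : X) :
    S.ρ i (S.ρ k x) = S.ρ k (S.ρ i x) := by
  rcases hik with h | h
  · exact S.comm i k h x
  · exact (S.comm k i h x).symm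

theorem aut_slide {θ : Equiv.Perm X} (hθ : IsAut S θ) {i k : ℕ} (hik : i + 2 ≤ k ∨ k + 2 ≤ i) {x : X}
    (h : θ x = S.ρ k x) : θ (S.ρ i x) = S.ρ k (S.ρ i x) := by
  rw [hθ, h, ρ_comm hik]

/-- the braid relation at a flag with period three -/
private theorem braid [Finite X] {i : ℕ} {x : X} (hper : S.per i x = 3) :
    S.ρ (i + 1) (S.ρ i (S.ρ (i + 1) x)) = S.ρ i (S.ρ (i + 1) (S.ρ i x)) := by
  have h := S.per_iter i x
  rw [hper] at h
  have h1 : S.ρ i (S.ρ (i + 1) (S.ρ i (S.ρ (i + 1) (S.ρ i (S.ρ (i + 1) x))))) = x := h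
  have h2 := congrArg (fun z => S.ρ i (S.ρ (i + 1) (S.ρ i z))) h1
  simp only [S.inv] at h2
  exact h2

theorem aut_three [Finite X] {θ : Equiv.Perm X} (hθ : IsAut S θ) {i : ℕ} {x : X} (hper : S.per i x = 3)
    (h : θ x = S.ρ (i + 1) x) :
    θ (S.ρ (i + 1) (S.ρ i x)) = S.ρ i (S.ρ (i + 1) (S.ρ i x)) := by
  rw [hθ, hθ, h, braid hper]

theorem xi_one [Finite X] (hd : 2 ≤ S.d) (T : Typ S (Fin 3)) (hs : ∀ i v, T.s i v = sI 1 i v)
    (hper : ∀ v, T.per 1 v = 3) :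
    ∃ ξ : Fin 3 → X, (∀ v, T.π (ξ v) = v) ∧ (∀ i v, T.s i v ≠ v → ξ (T.s i v) = S.ρ i (ξ v)) ∧
      ∃ θ : Equiv.Perm X, IsAut S θ ∧ θ (ξ 0) = S.ρ 2 (ξ 0) ∧ θ (ξ 2) = S.ρ 1 (ξ 2) := by
  obtain ⟨x, hx⟩ := T.surj 0
  have hp1 : T.π (S.ρ 1 x) = 1 := by
    rw [T.hs, hx, hs]
    decide
  have hp2 : T.π (S.ρ 2 (S.ρ 1 x)) = 2 := by
    rw [T.hs, hp1, hs]
    decide
  refine ⟨![x, S.ρ 1 x, S.ρ 2 (S.ρ 1 x)], ?_, ?_, ?_⟩
  · intro v
    fin_cases v
    · exact hx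
    · exact hp1
    · exact hp2
  · intro i v hv
    rw [hs] at hv ⊢
    by_cases h1 : i = 1
    · subst h1
      fin_cases v
      · rfl
      · exact (S.inv 1 x).symm
      · exact absurd (by decide) hv
    · by_cases h2 : i = 2
      · subst h2
        fin_cases v
        · exact absurd (by decide) hv
        · rfl
        · exact (S.inv 2 _).symm
      · exfalso
        apply hv
        unfold sI
        rw [if_neg h1, if_neg h2]
  · obtain ⟨θ, h1, h2⟩ := T.semi_aut (k := 2) (x := x) (by rw [hx, hs]; decide)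
    refine ⟨θ, h1, h2, ?_⟩
    have h3 : S.per 1 x = 3 := by rw [← T.per_pi, hper]
    exact aut_three h1 h3 h2

theorem xi_six [Finite X] (T : Typ S (Fin 3 × Bool)) {j : ℕ} (h1 : 2 ≤ j) (h2 : j + 1 ≤ S.d)
    (hs : ∀ i v, T.s i v = sS j i v) (hper : ∀ v, T.per j v = 3) (hper' : ∀ v, T.per (j - 1) v = 3) :
    ∃ ξ : Fin 3 × Bool → X, (∀ v, T.π (ξ v) = v) ∧
      (∀ i v, T.s i v ≠ v → ξ (T.s i v) = S.ρ i (ξ v)) ∧
      ∀ e : Bool, ∃ θ : Equiv.Perm X, IsAut S θ ∧ θ (ξ (0, e)) = S.ρ (j + 1) (ξ (0, e)) ∧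
        θ (ξ (2, e)) = S.ρ j (ξ (2, e)) ∧ θ (ξ (0, !e)) = S.ρ (j - 1) (ξ (0, !e)) := by
  obtain ⟨x, hx⟩ := T.surj (0, true)
  obtain ⟨m, rfl⟩ : ∃ m, j = m + 1 := ⟨j - 1, by omega⟩
  rw [Nat.add_sub_cancel] at hper' ⊢
  -- the values of `s`
  have sj : ∀ v, T.s (m + 1) v = (Equiv.swap 0 1 v.1, v.2) := by
    intro v
    rw [hs]
    unfold sS
    rw [if_pos rfl]
  have sj1 : ∀ v, T.s (m + 1 + 1) v = (Equiv.swap 1 2 v.1, v.2) := by
    intro v
    rw [hs]
    unfold sS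
    rw [if_neg (by omega), if_pos rfl]
  have sm : ∀ v, T.s m v = (Equiv.swap 1 2 v.1, if v.1 = 0 then v.2 else !v.2) := by
    intro v
    rw [hs]
    unfold sS
    rw [if_neg (by omega), if_neg (by omega), if_pos rfl]
  have so : ∀ i, i ≠ m + 1 → i ≠ m + 1 + 1 → i ≠ m → ∀ v, T.s i v = v := by
    intro i e1 e2 e3 v
    rw [hs]
    unfold sS
    rw [if_neg e1, if_neg e2, if_neg (by omega)]
  -- the flags
  set a1 : X := S.ρ (m + 1) x with ha1
  set a2 : X := S.ρ (m + 1 + 1) a1 with ha2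
  set b1 : X := S.ρ m a2 with hb1
  set b0 : X := S.ρ (m + 1) b1 with hb0
  set b2 : X := S.ρ (m + 1 + 1) b1 with hb2
  have pa1 : T.π a1 = (1, true) := by
    rw [ha1, T.hs, hx, sj]
    rfl
  have pa2 : T.π a2 = (2, true) := by
    rw [ha2, T.hs, pa1, sj1]
    rfl
  have pb1 : T.π b1 = (1, false) := by
    rw [hb1, T.hs, pa2, sm]
    rfl
  have pb0 : T.π b0 = (0, false) := by
    rw [hb0, T.hs, pb1, sj]
    rfl
  have pb2 : T.π b2 = (2, false) := by
    rw [hb2, T.hs, pb1, sj1]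
    rfl
  have last : S.ρ m a1 = b2 := by
    rw [hb2, hb1, ha2, S.comm m (m + 1 + 1) (by omega), S.inv]
  let ξ : Fin 3 × Bool → X := fun v => if v.2 = true then ![x, a1, a2] v.1 else ![b0, b1, b2] v.1
  have e0t : ξ (0, true) = x := rfl
  have e1t : ξ (1, true) = a1 := rfl
  have e2t : ξ (2, true) = a2 := rfl
  have e0f : ξ (0, false) = b0 := rfl
  have e1f : ξ (1, false) = b1 := rfl
  have e2f : ξ (2, false) = b2 := rfl
  have hpi : ∀ v, T.π (ξ v) = v := by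
    rintro ⟨v, e⟩
    cases e
    · fin_cases v
      · exact pb0
      · exact pb1
      · exact pb2
    · fin_cases v
      · exact hx
      · exact pa1
      · exact pa2
  have hE : ∀ i v, T.s i v ≠ v → ξ (T.s i v) = S.ρ i (ξ v) := by
    rintro i ⟨v, e⟩ hv
    by_cases i1 : i = m + 1
    · subst i1
      rw [sj] at hv ⊢
      cases e
      · fin_cases v
        · show b1 = S.ρ (m + 1) b0
          rw [hb0, S.inv]
        · rfl
        · exact absurd rfl hv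
      · fin_cases v
        · rfl
        · show x = S.ρ (m + 1) a1
          rw [ha1, S.inv]
        · exact absurd rfl hv
    by_cases i2 : i = m + 1 + 1
    · subst i2
      rw [sj1] at hv ⊢
      cases e
      · fin_cases v
        · exact absurd rfl hv
        · rfl
        · show b1 = S.ρ (m + 1 + 1) b2
          rw [hb2, S.inv]
      · fin_cases v
        · exact absurd rfl hv
        · rfl
        · show a1 = S.ρ (m + 1 + 1) a2
          rw [ha2, S.inv]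
    by_cases i3 : i = m
    · subst i3
      rw [sm] at hv ⊢
      cases e
      · fin_cases v
        · exact absurd rfl hv
        · show a2 = S.ρ i b1
          rw [hb1, S.inv]
        · show a1 = S.ρ i b2
          rw [← last, S.inv]
      · fin_cases v
        · exact absurd rfl hv
        · exact last.symm
        · rfl
    · exact absurd (so i i1 i2 i3 _) hv
  refine ⟨ξ, hpi, hE, ?_⟩
  -- the edges at each `e`
  have g1 : ∀ e, ξ (1, e) = S.ρ (m + 1) (ξ (0, e)) := by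
    intro e
    have := hE (m + 1) (0, e) (by rw [sj]; intro h; exact (by decide : Equiv.swap (0 : Fin 3) 1 0 ≠ 0) (congrArg Prod.fst h))
    rw [sj] at this
    exact this
  have g2 : ∀ e, ξ (2, e) = S.ρ (m + 1 + 1) (S.ρ (m + 1) (ξ (0, e))) := by
    intro e
    have := hE (m + 1 + 1) (1, e) (by rw [sj1]; intro h; exact (by decide : Equiv.swap (1 : Fin 3) 2 1 ≠ 1) (congrArg Prod.fst h))
    rw [sj1, g1] at this
    exact this
  have g3 : ∀ e, ξ (0, !e) = S.ρ (m + 1) (S.ρ m (ξ (2, e))) := by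
    intro e
    have h3 := hE m (2, e) (by rw [sm]; intro h; exact (by decide : Equiv.swap (1 : Fin 3) 2 2 ≠ 2) (congrArg Prod.fst h))
    rw [sm] at h3
    have h4 : ξ (1, !e) = S.ρ m (ξ (2, e)) := h3
    rw [← h4, g1, S.inv]
  intro e
  obtain ⟨θ, t1, t2⟩ := T.semi_aut (k := m + 1 + 1) (x := ξ (0, e)) (by rw [hpi, sj1]; rfl)
  have t3 : θ (ξ (2, e)) = S.ρ (m + 1) (ξ (2, e)) := by
    rw [g2]
    exact aut_three t1 (by rw [← T.per_pi, hper]) t2
  refine ⟨θ, t1, t2, t3, ?_⟩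
  rw [g3]
  have t5 : S.per m (ξ (2, e)) = 3 := by rw [← T.per_pi, hper']
  exact aut_three t1 t5 t3

end H73.TO
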