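import Pool.Agent.H73.TO.C1a
import Pool.Agent.H73.TO.C1b
import Pool.Agent.H73.TO.Xi

/-! # TO.C1 : type I_1, the chart

`xi_one` gives the base flags `ξ` and the automorphism of `Z`; `clab_one`, `crel_one`, `dlink_one`, `exists_chart`. `hθ`: `Z = idx 0`: `xi_one` (`ω i v = idx 0`, `s i v = v`, `1 ≤ i ≤ d` only for `(2, 0)`, `(1, 2)`); `Q = idx 1`: `semi_aut` for label 3 at `ξ 0`, `aut_slide` along label 1 to `ξ 1`; `R = idx 2`: `semi_aut` at `ξ 2`;
`W_i = idx (i - 1)`, `i ≥ 4`: `semi_aut` at `ξ 0`, `aut_slide` along label 1 to `ξ 1` and along label 2 to `ξ 2`. (`T.s` is `sI 1`.) -/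

namespace H73.TO

open H63.KO

variable {X : Type} {S : FSys X}

/-- the value of `om1` -/
private theorem om1_val {d : ℕ} (hd : 4 ≤ d) (i : ℕ) (v : Fin 3) :
    (om1 hd i v).val = if i ≤ 2 then 0 else if i = 3 then (if v = 2 then 2 else 1)
      else min (i - 1) (d - 1) := by
  unfold om1 idx
  split_ifs <;> simp <;> omega

/-- label 1 fixes only the state 2 -/
private theorem fix_one {v : Fin 3} (h : sI 1 1 v = v) : v = 2 := by
  revert v; decide

/-- label 2 fixes only the state 0 -/
private theorem fix_two {v : Fin 3} (h : sI 1 2 v = v) : v = 0 := by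
  revert v; decide

private theorem sI_far {i : ℕ} (hi : 3 ≤ i) (v : Fin 3) : sI 1 i v = v := by
  unfold sI
  rw [if_neg (by omega), if_neg (by omega)]

theorem chart_one [Finite X] (hd : 4 ≤ S.d) (T : Typ S (Fin 3)) (hs : ∀ i v, T.s i v = sI 1 i v)
    (hper : ∀ v, T.per 1 v = 3) :
    ∃ (M : CoxeterMatrix (Fin S.d)) (C : Chart S T.s (om1 hd) M 1 S.d),
      (∀ v, T.π (C.ξ v) = v) ∧ (∀ w x, T.π (C.ψ w x) = T.π x) ∧ ∀ m n, DLink M m n := by
  obtain ⟨ξ, hξ, hedge, θ, hθ, hθ0, hθ2⟩ := xi_one (by omega) T hs hper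
  have e01 : ξ 1 = S.ρ 1 (ξ 0) := by
    have h1 : T.s 1 0 = 1 := by rw [hs]; decide
    have h2 := hedge 1 0 (by rw [h1]; decide)
    rwa [h1] at h2
  have e12 : ξ 2 = S.ρ 2 (ξ 1) := by
    have h1 : T.s 2 1 = 2 := by rw [hs]; decide
    have h2 := hedge 2 1 (by rw [h1]; decide)
    rwa [h1] at h2
  have hθ' : ∀ n : Fin S.d, ∃ θ : Equiv.Perm X, IsAut S θ ∧
      ∀ i, 1 ≤ i → i ≤ S.d → ∀ v, T.s i v = v → om1 hd i v = n → θ (ξ v) = S.ρ i (ξ v) := by
    intro n
    rcases Nat.lt_or_ge n.val 1 with h0 | h0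
    · -- the generator Z
      refine ⟨θ, hθ, ?_⟩
      intro i hi1 hi2 v hv hn
      have hval := congrArg Fin.val hn
      rw [om1_val] at hval
      have hi : i ≤ 2 := by
        by_contra hcon
        rw [if_neg hcon] at hval
        split_ifs at hval <;> omega
      rw [hs] at hv
      obtain rfl | rfl : i = 1 ∨ i = 2 := by omega
      · rw [fix_one hv]; exact hθ2
      · rw [fix_two hv]; exact hθ0
    rcases Nat.lt_or_ge n.val 2 with h1 | h1
    · -- the generator Q
      obtain ⟨φ, hφ, hφ0⟩ := T.semi_aut (k := 3) (x := ξ 0)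
        (by rw [hs]; exact sI_far le_rfl _)
      refine ⟨φ, hφ, ?_⟩
      intro i hi1 hi2 v hv hn
      have hval := congrArg Fin.val hn
      rw [om1_val] at hval
      have hiv : i = 3 ∧ v ≠ 2 := by
        split_ifs at hval with a1 a2 a3
        · omega
        · omega
        · exact ⟨a2, a3⟩
        · omega
      obtain ⟨rfl, hv2⟩ := hiv
      have hv01 : v = 0 ∨ v = 1 := by clear hv hn hval; revert v; decide
      rcases hv01 with rfl | rfl
      · exact hφ0
      · rw [e01]; exact aut_slide hφ (by omega) hφ0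
    rcases Nat.lt_or_ge n.val 3 with h2 | h2
    · -- the generator R
      obtain ⟨φ, hφ, hφ0⟩ := T.semi_aut (k := 3) (x := ξ 2)
        (by rw [hs]; exact sI_far le_rfl _)
      refine ⟨φ, hφ, ?_⟩
      intro i hi1 hi2 v hv hn
      have hval := congrArg Fin.val hn
      rw [om1_val] at hval
      have hiv : i = 3 ∧ v = 2 := by
        split_ifs at hval with a1 a2 a3
        · omega
        · exact ⟨a2, a3⟩
        · omega
        · omega
      obtain ⟨rfl, rfl⟩ := hiv
      exact hφ0
    · -- the generators W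
      obtain ⟨φ, hφ, hφ0⟩ := T.semi_aut (k := n.val + 1) (x := ξ 0)
        (by rw [hs]; exact sI_far (by omega) _)
      have hφ1 : φ (ξ 1) = S.ρ (n.val + 1) (ξ 1) := by
        rw [e01]; exact aut_slide hφ (by omega) hφ0
      have hφ2 : φ (ξ 2) = S.ρ (n.val + 1) (ξ 2) := by
        rw [e12]; exact aut_slide hφ (by omega) hφ1
      refine ⟨φ, hφ, ?_⟩
      intro i hi1 hi2 v hv hn
      have hval := congrArg Fin.val hn
      rw [om1_val] at hval
      have hi : i = n.val + 1 := by
        split_ifs at hval with a1 a2 a3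
        · omega
        · omega
        · omega
        · omega
      rw [hi]
      have hv012 : v = 0 ∨ v = 1 ∨ v = 2 := by
        clear hv hn hval; revert v; decide
      rcases hv012 with rfl | rfl | rfl
      · exact hφ0
      · exact hφ1
      · exact hφ2
  obtain ⟨C, hC, hC2⟩ := exists_chart (clab_one hd T hs hper) (crel_one hd T hs) ξ hξ
    (fun i _ _ v hv => hedge i v hv) hθ'
  exact ⟨cox1 T, C, by rw [hC]; exact hξ, hC2, dlink_one hd T hs⟩

end H73.TO
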