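import Pool.Agent.H73.TO.Mat
import Pool.Agent.H73.TO.Psi

/-! # TO.C1a : type I_1, the Coxeter labelling

Let `T` have the states `0 -1- 1 -2- 2` (`s = sI 1`: label 1 exchanges 0, 1, label 2 exchanges 1, 2) and `per 1 = 3`. `ω = om1 hd`: `ω 1 _ = ω 2 _ = idx 0` (Z), `ω 3 v = idx 1` for `v = 0, 1` (Q), `ω 3 2 = idx 2` (R), `ω i _ = idx (i - 1)` for `i ≥ 4` (W_i). `cox1 T` (Mat.lean): `M Z Q = per 2 0`, `M Q R = per 2 1 / 2`,
`M Z R = 2`, `M Q W_4 = per 3 0`, `M R W_4 = per 3 2`, `M W_k W_(k+1) = per k 0` for `4 ≤ k`, `k + 1 ≤ d`, all others 2. (`three_le_per`; `per 2 1` is even by `two_dvd_per` and `≥ 3`, so `per 2 1 / 2 ≥ 2`; `idx` is injective on numbers `< d`, `(idx hd k).val = k` for `k ≤ d - 1`.)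
`CLab` for `[1, d]`: `cov`: Z = (2, 0), Q = (3, 0), R = (3, 2), W_i = (i, 0). `conn`: labels 1, 2. slide: label 1 moves 0, 1: all labels `k ≥ 3` have the same generator at 0 and 1; label 2 moves 1, 2: labels `k ≥ 4` constant. comm: `(1, k)`: only the state 2 is fixed by label 1: generators Z and (R or W_k): 2; `(2, k)`, `k ≥ 4`: state 0: Z, W_k: 2; `(3, k)`, `k ≥ 5`; `(i, k)`: 2.
pA: `i = 2` at the state 0 (`M Z Q = per 2 0`), `i = 3` at 0, 1 (`per 3 0`; `per 3 1 = per 3 0` by `per_far` with label 1), at 2 (`per 3 2`), `i ≥ 4` (`per i` is constant: `per_far` with the labels 1, 2). pB: `i = 2`: label 2 moves 1, 2, `2 * M Q R = per 2 1 = per 2 2`. pC: `i = 1` at the state 0: generators Z, Z: `3 * 1 = 3 = per 1`. pB': never. mid: `i = 1` at the state 1. -/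

namespace H73.TO

open H63.KO

variable {X : Type} {S : FSys X}

private theorem s_eq {T : Typ S (Fin 3)} (hs : ∀ i v, T.s i v = sI 1 i v) {i : ℕ} (h1 : i ≠ 1) (h2 : i ≠ 2) (v : Fin 3) :
    T.s i v = v := by
  rw [hs]
  unfold sI
  rw [if_neg h1, if_neg (by omega)]

private theorem s_one {T : Typ S (Fin 3)} (hs : ∀ i v, T.s i v = sI 1 i v) : T.s 1 2 = 2 := by
  rw [hs]
  unfold sI
  rw [if_pos rfl]
  decide

private theorem s_two {T : Typ S (Fin 3)} (hs : ∀ i v, T.s i v = sI 1 i v) : T.s 2 0 = 0 := by
  rw [hs]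
  unfold sI
  rw [if_neg (by omega), if_pos rfl]
  decide

private theorem s_two' {T : Typ S (Fin 3)} (hs : ∀ i v, T.s i v = sI 1 i v) : T.s 2 1 = 2 := by
  rw [hs]
  unfold sI
  rw [if_neg (by omega), if_pos rfl]
  decide

private theorem om_low (hd : 4 ≤ S.d) {i : ℕ} (hi : i ≤ 2) (v : Fin 3) : om1 hd i v = idx hd 0 := by
  unfold om1
  rw [if_pos hi]

private theorem om_three (hd : 4 ≤ S.d) {v : Fin 3} (hv : v ≠ 2) : om1 hd 3 v = idx hd 1 := by
  unfold om1
  rw [if_neg (by omega), if_pos rfl, if_neg hv]

private theorem om_three' (hd : 4 ≤ S.d) : om1 hd 3 2 = idx hd 2 := by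
  unfold om1
  rw [if_neg (by omega), if_pos rfl, if_pos rfl]

private theorem om_high (hd : 4 ≤ S.d) {i : ℕ} (hi : 3 ≤ i) (v : Fin 3) : om1 hd (i + 1) v = idx hd i := by
  unfold om1
  rw [if_neg (by omega), if_neg (by omega), Nat.add_sub_cancel]

private theorem idx_eq (hd : 4 ≤ S.d) {k : ℕ} {m : Fin S.d} (h : m.val = k) : idx hd k = m := by
  apply Fin.ext
  show min k (S.d - 1) = m.val
  have := m.isLt
  omega

private theorem tab_rev (T : Typ S (Fin 3)) {k l : ℕ} (h : k < l) : tab1 T l k = 2 := by
  unfold tab1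
  rw [if_neg (by omega), if_neg (by omega), if_neg (by omega), if_neg (by omega), if_neg (by omega)]

private theorem even_per [Finite X] (hd : 4 ≤ S.d) (T : Typ S (Fin 3)) (hs : ∀ i v, T.s i v = sI 1 i v) : 2 ∣ T.per 2 1 := by
  apply T.two_dvd_per 2 1
  · rw [s_two' hs]
    decide
  · exact s_eq hs (by omega) (by omega) _
  · exact s_eq hs (by omega) (by omega) _

private theorem half_per [Finite X] (hd : 4 ≤ S.d) (T : Typ S (Fin 3)) (hs : ∀ i v, T.s i v = sI 1 i v) :
    2 ≤ T.per 2 1 / 2 := by
  have h1 := T.three_le_per (i := 2) (by omega) (by omega) 1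
  obtain ⟨c, hc⟩ := even_per hd T hs
  omega

private theorem two_le_tab [Finite X] (hd : 4 ≤ S.d) (T : Typ S (Fin 3)) (hs : ∀ i v, T.s i v = sI 1 i v) {k l : ℕ}
    (hl : l < S.d) : 2 ≤ tab1 T k l := by
  unfold tab1
  split_ifs with h1 h2 h3 h4 h5
  · have := T.three_le_per (i := 2) (by omega) (by omega) 0
    omega
  · exact half_per hd T hs
  · have := T.three_le_per (i := 3) (by omega) (by omega) 0
    omega
  · have := T.three_le_per (i := 3) (by omega) (by omega) 2
    omega
  · have := T.three_le_per (i := l) (by omega) (by omega) 0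
    omega
  · exact le_rfl

private theorem cox_lt [Finite X] (hd : 4 ≤ S.d) (T : Typ S (Fin 3)) (hs : ∀ i v, T.s i v = sI 1 i v) {m n : Fin S.d}
    (h : m.val < n.val) : cox1 T m n = tab1 T m.val n.val := by
  have h2 := two_le_tab hd T hs (k := m.val) n.isLt
  unfold cox1
  refine mkCox_apply (m := fun p q : Fin S.d => tab1 T p.val q.val) (fun e => ?_) ?_ ?_
  · rw [e] at h
    exact lt_irrefl _ h
  · show tab1 T m.val n.val ≠ 1
    omega
  · show tab1 T n.val m.val ≤ tab1 T m.val n.val
    rw [tab_rev T h]
    exact h2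

private theorem s10 {T : Typ S (Fin 3)} (hs : ∀ i v, T.s i v = sI 1 i v) : T.s 1 0 = 1 := by
  rw [hs]
  unfold sI
  rw [if_pos rfl]
  decide

private theorem s11 {T : Typ S (Fin 3)} (hs : ∀ i v, T.s i v = sI 1 i v) : T.s 1 1 = 0 := by
  rw [hs]
  unfold sI
  rw [if_pos rfl]
  decide

private theorem s22 {T : Typ S (Fin 3)} (hs : ∀ i v, T.s i v = sI 1 i v) : T.s 2 2 = 1 := by
  rw [hs]
  unfold sI
  rw [if_neg (by omega), if_pos rfl]
  decide

private theorem low {T : Typ S (Fin 3)} (hs : ∀ i v, T.s i v = sI 1 i v) {i : ℕ} {v : Fin 3} (h : T.s i v ≠ v) :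
    i = 1 ∨ i = 2 := by
  by_contra h1
  push Not at h1
  exact h (s_eq hs h1.1 h1.2 v)

private theorem fin3 (v : Fin 3) : v = 0 ∨ v = 1 ∨ v = 2 := by
  fin_cases v <;> simp

private theorem idx_val (hd : 4 ≤ S.d) {k : ℕ} (h : k < S.d) : (idx hd k).val = k := by
  show min k (S.d - 1) = k
  omega

private theorem cox_idx [Finite X] (hd : 4 ≤ S.d) (T : Typ S (Fin 3)) (hs : ∀ i v, T.s i v = sI 1 i v) {p q : ℕ}
    (h : p < q) (hq : q < S.d) : cox1 T (idx hd p) (idx hd q) = tab1 T p q := by
  have h1 := idx_val hd (k := p) (by omega)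
  have h2 := idx_val hd hq
  rw [cox_lt hd T hs (m := idx hd p) (n := idx hd q) (by omega), h1, h2]

theorem clab_one [Finite X] (hd : 4 ≤ S.d) (T : Typ S (Fin 3)) (hs : ∀ i v, T.s i v = sI 1 i v)
    (hper : ∀ v, T.per 1 v = 3) : CLab T (cox1 T) (om1 hd) 1 S.d := by
  refine ⟨le_rfl, by omega, le_rfl, fun u v => T.reach u v, ?_, ?_, ?_, ?_, ?_, ?_, ?_, ?_⟩
  · -- cov
    intro n
    have hn := n.isLt
    by_cases h0 : n.val = 0
    · exact ⟨2, 0, by omega, by omega, s_two hs, by rw [om_low hd le_rfl]; exact idx_eq hd h0⟩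
    by_cases h1 : n.val = 1
    · exact ⟨3, 0, by omega, by omega, s_eq hs (by omega) (by omega) _,
        by rw [om_three hd (by decide)]; exact idx_eq hd h1⟩
    by_cases h2 : n.val = 2
    · exact ⟨3, 2, by omega, by omega, s_eq hs (by omega) (by omega) _,
        by rw [om_three' hd]; exact idx_eq hd h2⟩
    · exact ⟨n.val + 1, 0, by omega, by omega, s_eq hs (by omega) (by omega) _,
        by rw [om_high hd (by omega)]; exact idx_eq hd rfl⟩
  · -- slide
    intro i k hi1 hi2 hk1 hk2 hik v hv hkv
    rcases low hs hv with rfl | rfl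
    · obtain ⟨k', rfl⟩ : ∃ k', k = k' + 1 := ⟨k - 1, by omega⟩
      by_cases hk : k' = 2
      · subst hk
        have h1 : v ≠ 2 := by
          rintro rfl
          exact hv (s_one hs)
        have h2 : T.s 1 v ≠ 2 := by
          rcases fin3 v with rfl | rfl | rfl
          · rw [s10 hs]; decide
          · rw [s11 hs]; decide
          · exact absurd rfl h1
        show om1 hd 3 _ = om1 hd 3 _
        rw [om_three hd h1, om_three hd h2]
      · rw [om_high hd (by omega), om_high hd (by omega)]
    · obtain ⟨k', rfl⟩ : ∃ k', k = k' + 1 := ⟨k - 1, by omega⟩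
      rw [om_high hd (by omega), om_high hd (by omega)]
  · -- comm
    intro i k hi hik hk v hiv hkv
    right
    obtain ⟨k', rfl⟩ : ∃ k', k = k' + 1 := ⟨k - 1, by omega⟩
    by_cases h1 : i ≤ 2
    · rw [om_low hd h1]
      by_cases h2 : k' = 2
      · subst h2
        have h3 : i = 1 := by omega
        subst h3
        have h4 : v = 2 := by
          rcases fin3 v with rfl | rfl | rfl
          · rw [s10 hs] at hiv
            exact absurd hiv (by decide)
          · rw [s11 hs] at hiv
            exact absurd hiv (by decide)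
          · rfl
        subst h4
        show cox1 T _ (om1 hd 3 2) = 2
        rw [om_three' hd, cox_idx hd T hs (by omega) (by omega)]
        unfold tab1
        rw [if_neg (by omega), if_neg (by omega), if_neg (by omega), if_neg (by omega), if_neg (by omega)]
      · rw [om_high hd (by omega), cox_idx hd T hs (by omega) (by omega)]
        unfold tab1
        rw [if_neg (by omega), if_neg (by omega), if_neg (by omega), if_neg (by omega), if_neg (by omega)]
    by_cases h2 : i = 3
    · subst h2
      rw [om_high hd (i := k') (by omega)]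
      by_cases h3 : v = 2
      · subst h3
        rw [om_three' hd, cox_idx hd T hs (by omega) (by omega)]
        unfold tab1
        rw [if_neg (by omega), if_neg (by omega), if_neg (by omega), if_neg (by omega), if_neg (by omega)]
      · rw [om_three hd h3, cox_idx hd T hs (by omega) (by omega)]
        unfold tab1
        rw [if_neg (by omega), if_neg (by omega), if_neg (by omega), if_neg (by omega), if_neg (by omega)]
    · obtain ⟨i', rfl⟩ : ∃ i', i = i' + 1 := ⟨i - 1, by omega⟩
      rw [om_high hd (by omega), om_high hd (by omega), cox_idx hd T hs (by omega) (by omega)]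
      unfold tab1
      rw [if_neg (by omega), if_neg (by omega), if_neg (by omega), if_neg (by omega), if_neg (by omega)]
  · -- pA
    intro i hi hi1 v hiv hiv'
    by_cases h1 : i = 1
    · subst h1
      exfalso
      rcases fin3 v with rfl | rfl | rfl
      · rw [s10 hs] at hiv
        exact absurd hiv (by decide)
      · rw [s11 hs] at hiv
        exact absurd hiv (by decide)
      · have h5 : T.s 2 2 = 2 := hiv'
        rw [s22 hs] at h5
        exact absurd h5 (by decide)
    by_cases h2 : i = 2
    · subst h2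
      have h4 : v = 0 := by
        rcases fin3 v with rfl | rfl | rfl
        · rfl
        · rw [s_two' hs] at hiv
          exact absurd hiv (by decide)
        · rw [s22 hs] at hiv
          exact absurd hiv (by decide)
      subst h4
      show cox1 T _ (om1 hd 3 0) ∣ _
      rw [om_low hd le_rfl, om_three hd (by decide), cox_idx hd T hs (by omega) (by omega)]
      unfold tab1
      rw [if_pos (by omega)]
    by_cases h3 : i = 3
    · subst h3
      rw [om_high hd (i := 3) le_rfl]
      by_cases h4 : v = 2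
      · subst h4
        rw [om_three' hd, cox_idx hd T hs (by omega) (by omega)]
        unfold tab1
        rw [if_neg (by omega), if_neg (by omega), if_neg (by omega), if_pos (by omega)]
      · rw [om_three hd h4, cox_idx hd T hs (by omega) (by omega)]
        unfold tab1
        rw [if_neg (by omega), if_neg (by omega), if_pos (by omega)]
        rcases fin3 v with rfl | rfl | rfl
        · exact dvd_rfl
        · have h5 := T.per_far (i := 3) (j := 1) (by omega) 0
          rw [s10 hs] at h5
          rw [h5]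
        · exact absurd rfl h4
    · obtain ⟨i', rfl⟩ : ∃ i', i = i' + 1 := ⟨i - 1, by omega⟩
      rw [om_high hd (by omega), om_high hd (by omega), cox_idx hd T hs (by omega) (by omega)]
      unfold tab1
      rw [if_neg (by omega), if_neg (by omega), if_neg (by omega), if_neg (by omega), if_pos (by omega)]
      have h5 := T.per_far (i := i' + 1) (j := 1) (by omega) 0
      rw [s10 hs] at h5
      have h6 := T.per_far (i := i' + 1) (j := 2) (by omega) 1
      rw [s_two' hs] at h6
      rcases fin3 v with rfl | rfl | rfl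
      · exact dvd_rfl
      · rw [h5]
      · rw [h6, h5]
  · -- pB
    intro i hi hi1 v hv hv1 hv2
    rcases low hs hv with rfl | rfl
    · exfalso
      rcases fin3 v with rfl | rfl | rfl
      · rw [s10 hs] at hv2
        have h5 : T.s 2 1 = 1 := hv2
        rw [s_two' hs] at h5
        exact absurd h5 (by decide)
      · have h5 : T.s 2 1 = 1 := hv1
        rw [s_two' hs] at h5
        exact absurd h5 (by decide)
      · exact hv (s_one hs)
    · have hh : 2 * (T.per 2 1 / 2) = T.per 2 1 := Nat.mul_div_cancel' (even_per hd T hs)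
      have ht : cox1 T (idx hd 1) (idx hd 2) = T.per 2 1 / 2 := by
        rw [cox_idx hd T hs (by omega) (by omega)]
        unfold tab1
        rw [if_neg (by omega), if_pos (by omega)]
      show 2 * cox1 T (om1 hd 3 v) (om1 hd 3 (T.s 2 v)) ∣ T.per 2 v
      rcases fin3 v with rfl | rfl | rfl
      · exact absurd (s_two hs) hv
      · rw [s_two' hs, om_three hd (by decide), om_three' hd, ht, hh]
      · have h5 : T.per 2 (T.s 2 1) = T.per 2 1 := T.per_self 2 1
        rw [s_two' hs] at h5
        rw [s22 hs, om_three' hd, om_three hd (v := 1) (by decide), (cox1 T).symmetric, ht, hh, h5]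
  · -- pB'
    intro i hi hi1 v hv hv1 hv2
    exfalso
    rcases low hs hv with h | h
    · omega
    · have h1 : i = 1 := by omega
      subst h1
      rcases fin3 v with rfl | rfl | rfl
      · exact hv (s_two hs)
      · rw [s11 hs] at hv1
        exact absurd hv1 (by decide)
      · have h5 : T.s 1 (T.s 2 2) = T.s 2 2 := hv2
        rw [s22 hs, s11 hs] at h5
        exact absurd h5 (by decide)
  · -- pC
    intro i hi hi1 v hv hv1 hv2
    rcases low hs hv with rfl | rfl
    · have h0 : v = 0 := by
        rcases fin3 v with rfl | rfl | rfl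
        · rfl
        · have h5 : T.s 2 1 = 1 := hv1
          rw [s_two' hs] at h5
          exact absurd h5 (by decide)
        · exact absurd (s_one hs) hv
      subst h0
      show T.s 1 (T.s 2 (T.s 1 0)) = T.s 2 (T.s 1 0) ∧ 3 * cox1 T (om1 hd 2 0) (om1 hd 1 (T.s 2 (T.s 1 0))) ∣ T.per 1 0
      rw [s10 hs, s_two' hs, s_one hs, om_low hd (by omega), om_low hd (by omega), hper]
      refine ⟨rfl, ?_⟩
      rw [(cox1 T).diagonal]
    · exact absurd (s_eq hs (by omega) (by omega) _) hv2
  · -- mid
    intro i hi hi1 v hv hv1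
    rcases low hs hv with rfl | rfl
    · have h0 : v = 1 := by
        rcases fin3 v with rfl | rfl | rfl
        · exact absurd (s_two hs) hv1
        · rfl
        · exact absurd (s_one hs) hv
      subst h0
      show T.s 2 (T.s 1 1) = T.s 1 1 ∧ T.s 1 (T.s 2 1) = T.s 2 1
      rw [s11 hs, s_two' hs, s_two hs, s_one hs]
      exact ⟨rfl, rfl⟩
    · exact absurd (s_eq hs (by omega) (by omega) _) hv1

end H73.TO
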