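import Pool.Agent.H73.TO.Mat
import Pool.Agent.H73.TO.Psi

/-! # TO.C2b : type II_2, the relations seen in the flag system, and the diagram

States `(v, e)`, `s = sS 2`: label 2 exchanges `(0, e), (1, e)`; 3 exchanges `(1, e), (2, e)`; 1 exchanges `(1, e), (2, !e)`; all others fix. `ω = om2 hd`: `U e = gU e = ω 3 (0, e) = ω 2 (2, e) = ω 1 (0, !e)` (numbers 0, 1), `P e = gP e = ω 4 (0, e) = ω 4 (1, e) = ω 4 (2, !e)` (numbers 2, 3), `W_i = ω i _ = idx (i - 1)` for `i ≥ 5`.
`cox2 T` (Mat.lean): `M (U e) (P e) = per 3 (0, true)`, `M (P true) (P false) = per 3 (1, true) / 2`, `M (P e) W_5 = per 4 (0, true)` (if `d ≥ 5`), `M W_k W_(k+1) = per k (0, true)` for `5 ≤ k`, `k + 1 ≤ d`, all others 2. The periods: `hfl` (`per i (flip6 v) = per i v`); `per 3` is constant on `{(1,e), (2,e')}`, `per 4` and `per k`, `k ≥ 5`, are constant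
(`per_far` with the labels 1, 2 and `hfl`). `per 3 (1, e)` is even (`two_dvd_per`) and `≥ 3` (`three_le_per`).
`CRel`: `{U e, P e}`: second alternative, `i = 3` at `(0, e)`; `{P true, P false}`: third alternative, `i = 3`, `v = (1, e)` (pair `P e, P !e`); `{P e, W_5}`: second, `i = 4`, at `(0, e)`; `{W_k, W_(k+1)}`: second, `i = k`; first alternative (far labels): `{U true, U false}`: labels 1, 3 at `(0, e)`; `{U e, P !e}`: labels 2, 4 at `(2, e)`;
`{U e, W_k}`: labels 3, k (k ≥ 5) at `(0, e)`; `{P e, W_k}`, `k ≥ 6`: labels 4, k at `(0, e)`; `{W_i, W_k}`. Every element of `Fin d` is a `gU`, a `gP` or `idx hd (i - 1)`, `5 ≤ i ≤ d`. `tau_two`: the table is invariant under the exchange of 0, 1 and 2, 3 (`tau2` fixes the other indices). `dlink`: entries `≥ 3`: `U e - P e`; for `d ≥ 5` also `P e - W_5 - W_6 - ...`. -/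

namespace H73.TO

open H63.KO

variable {X : Type} {S : FSys X}

private theorem cb_idx {d : ℕ} (hd : 4 ≤ d) {k : ℕ} (m : Fin d) (h : m.val = k) : idx hd k = m := by
  apply Fin.ext
  show min k (d - 1) = m.val
  have := m.isLt
  omega

private theorem cb_idxv {d : ℕ} (hd : 4 ≤ d) {k : ℕ} (h : k < d) : (idx hd k).val = k := by
  show min k (d - 1) = k
  omega

private theorem cb_ge (i : ℕ) (h : 4 ≤ i) (v : Fin 3 × Bool) : sS 2 i v = v := by
  unfold sS
  rw [if_neg (by omega), if_neg (by omega), if_neg (by omega)]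

private theorem cb_om (i : ℕ) {d : ℕ} (hd : 4 ≤ d) (h : 5 ≤ i) (v : Fin 3 × Bool) : om2 hd i v = idx hd (i - 1) := by
  unfold om2
  rw [if_neg (by omega), if_neg (by omega), if_neg (by omega)]

/-- the entries as a function of the numbers -/
private noncomputable def cbG (T : Typ S (Fin 3 × Bool)) (k l : ℕ) : ℕ :=
  if k = l then 1 else if max (tab2 T k l) (tab2 T l k) = 1 then 2 else max (tab2 T k l) (tab2 T l k)

private theorem cb_cox (T : Typ S (Fin 3 × Bool)) (m n : Fin S.d) : cox2 T m n = cbG T m.val n.val := by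
  show (if m = n then 1 else if max (tab2 T m.val n.val) (tab2 T n.val m.val) = 1 then 2
    else max (tab2 T m.val n.val) (tab2 T n.val m.val)) = cbG T m.val n.val
  unfold cbG
  by_cases h : m = n
  · rw [if_pos h, if_pos (congrArg Fin.val h)]
  · rw [if_neg h, if_neg (fun h' => h (Fin.ext h'))]

private theorem cb_tgt (T : Typ S (Fin 3 × Bool)) {k l : ℕ} (h : k < l) : tab2 T l k = 2 := by
  unfold tab2
  rw [if_neg (by omega), if_neg (by omega), if_neg (by omega), if_neg (by omega)]

private theorem cb_lt (T : Typ S (Fin 3 × Bool)) {m n : Fin S.d} (h : m.val < n.val)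
    (h2 : 2 ≤ tab2 T m.val n.val) : cox2 T m n = tab2 T m.val n.val := by
  rw [cb_cox]
  unfold cbG
  rw [cb_tgt T h, max_eq_left h2, if_neg (by omega), if_neg (by omega)]

private theorem cb_02 (T : Typ S (Fin 3 × Bool)) : tab2 T 0 2 = T.per 3 (0, true) := by
  unfold tab2
  rw [if_pos (by omega)]

private theorem cb_13 (T : Typ S (Fin 3 × Bool)) : tab2 T 1 3 = T.per 3 (0, true) := by
  unfold tab2
  rw [if_pos (by omega)]

private theorem cb_23 (T : Typ S (Fin 3 × Bool)) : tab2 T 2 3 = T.per 3 (1, true) / 2 := by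
  unfold tab2
  rw [if_neg (by omega), if_pos (by omega)]

private theorem cb_24 (T : Typ S (Fin 3 × Bool)) {k : ℕ} (h : k = 2 ∨ k = 3) : tab2 T k 4 = T.per 4 (0, true) := by
  unfold tab2
  rw [if_neg (by omega), if_neg (by omega), if_pos (by omega)]

private theorem cb_kk (T : Typ S (Fin 3 × Bool)) {k : ℕ} (h : 4 ≤ k) :
    tab2 T k (k + 1) = T.per (k + 1) (0, true) := by
  unfold tab2
  rw [if_neg (by omega), if_neg (by omega), if_neg (by omega), if_pos (by omega)]

private theorem cb_two (T : Typ S (Fin 3 × Bool)) {k l : ℕ} (h1 : ¬ ((k = 0 ∧ l = 2) ∨ (k = 1 ∧ l = 3)))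
    (h2 : ¬ (k = 2 ∧ l = 3)) (h3 : ¬ ((k = 2 ∨ k = 3) ∧ l = 4)) (h4 : ¬ (4 ≤ k ∧ l = k + 1)) : tab2 T k l = 2 := by
  unfold tab2
  rw [if_neg h1, if_neg h2, if_neg h3, if_neg h4]

/-- one pair of generators, up to exchange -/
private def CbP {X V B : Type} {S : FSys X} (T : Typ S V) (M : CoxeterMatrix B) (ω : ℕ → V → B)
    (a b : ℕ) (m n : B) : Prop :=
  (∃ i k v, a ≤ i ∧ i ≤ b ∧ a ≤ k ∧ k ≤ b ∧ (i + 2 ≤ k ∨ k + 2 ≤ i) ∧ T.s i v = v ∧ T.s k v = v ∧
      ω i v = m ∧ ω k v = n ∧ M m n = 2) ∨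
    (∃ i v, a ≤ i ∧ i + 1 ≤ b ∧ T.s i v = v ∧ T.s (i + 1) v = v ∧
      ((ω i v = m ∧ ω (i + 1) v = n) ∨ (ω i v = n ∧ ω (i + 1) v = m)) ∧ T.per i v = M m n) ∨
    (∃ i v, a ≤ i ∧ i + 1 ≤ b ∧ T.s i v ≠ v ∧ T.s (i + 1) v = v ∧ T.s (i + 1) (T.s i v) = T.s i v ∧
      ω (i + 1) v = m ∧ ω (i + 1) (T.s i v) = n ∧ T.per i v = 2 * M m n) ∨
    (∃ i v, a ≤ i ∧ i + 1 ≤ b ∧ T.s (i + 1) v ≠ v ∧ T.s i v = v ∧ T.s i (T.s (i + 1) v) = T.s (i + 1) v ∧
      ω i v = m ∧ ω i (T.s (i + 1) v) = n ∧ T.per i v = 2 * M m n)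

private theorem CbP.symm {X V B : Type} [Finite X] {S : FSys X} {T : Typ S V} {M : CoxeterMatrix B} {ω : ℕ → V → B}
    {a b : ℕ} {m n : B} (h : CbP T M ω a b m n) : CbP T M ω a b n m := by
  have hM : M n m = M m n := M.symmetric n m
  rcases h with ⟨i, k, v, h1, h2, h3, h4, h5, h6, h7, h8, h9, h10⟩ | ⟨i, v, h1, h2, h3, h4, h5, h6⟩ |
    ⟨i, v, h1, h2, h3, h4, h5, h6, h7, h8⟩ | ⟨i, v, h1, h2, h3, h4, h5, h6, h7, h8⟩
  · exact Or.inl ⟨k, i, v, h3, h4, h1, h2, h5.symm, h7, h6, h9, h8, by rw [hM]; exact h10⟩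
  · exact Or.inr (Or.inl ⟨i, v, h1, h2, h3, h4, h5.symm, by rw [hM]; exact h6⟩)
  · refine Or.inr (Or.inr (Or.inl ⟨i, T.s i v, h1, h2, ?_, h5, ?_, h7, ?_, ?_⟩))
    · rw [T.s_inv]
      exact Ne.symm h3
    · rw [T.s_inv]
      exact h4
    · rw [T.s_inv]
      exact h6
    · rw [T.per_self, hM]
      exact h8
  · refine Or.inr (Or.inr (Or.inr ⟨i, T.s (i + 1) v, h1, h2, ?_, h5, ?_, h7, ?_, ?_⟩))
    · rw [T.s_inv]
      exact Ne.symm h3
    · rw [T.s_inv]
      exact h4
    · rw [T.s_inv]
      exact h6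
    · rw [T.per_succ, hM]
      exact h8

private theorem cb_even [Finite X] (T : Typ S (Fin 3 × Bool)) (hs : ∀ i v, T.s i v = sS 2 i v) :
    2 ∣ T.per 3 (1, true) := by
  refine T.two_dvd_per 3 (1, true) ?_ ?_ ?_
  · rw [hs]
    decide
  · rw [hs, cb_ge 4 le_rfl]
  · rw [hs (3 + 1), cb_ge 4 le_rfl]

private theorem cb_fl (T : Typ S (Fin 3 × Bool)) (hfl : ∀ i v, T.per i (flip6 v) = T.per i v) (i : ℕ) :
    T.per i (0, false) = T.per i (0, true) := hfl i (0, true)

private theorem cb_main [Finite X] (hd : 4 ≤ S.d) (T : Typ S (Fin 3 × Bool)) (hs : ∀ i v, T.s i v = sS 2 i v)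
    (hfl : ∀ i v, T.per i (flip6 v) = T.per i v) {m n : Fin S.d} (h : m.val < n.val) :
    CbP T (cox2 T) (om2 hd) 1 S.d m n := by
  have hn := n.isLt
  have hge : ∀ i, 4 ≤ i → ∀ v, T.s i v = v := fun i hi v => by rw [hs, cb_ge i hi]
  have h3t : ∀ e, T.s 3 (0, e) = (0, e) := fun e => by rw [hs]; cases e <;> decide
  have h2t : ∀ e, T.s 2 (2, e) = (2, e) := fun e => by rw [hs]; cases e <;> decide
  have h1t : ∀ e, T.s 1 (0, e) = (0, e) := fun e => by rw [hs]; cases e <;> decide
  have o3 : ∀ v, om2 hd 3 v = gU hd v.2 := fun v => rfl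
  have o2 : ∀ v, om2 hd 2 v = gU hd v.2 := fun v => rfl
  have o1 : ∀ v, om2 hd 1 v = gU hd (!v.2) := fun v => rfl
  have o4 : ∀ v, om2 hd 4 v = gP hd (if v.1 = 2 then !v.2 else v.2) := fun v => rfl
  have hfar : ∀ i k v, 1 ≤ i → i ≤ S.d → 1 ≤ k → k ≤ S.d → (i + 2 ≤ k ∨ k + 2 ≤ i) → T.s i v = v → T.s k v = v →
      om2 hd i v = m → om2 hd k v = n → tab2 T m.val n.val = 2 → CbP T (cox2 T) (om2 hd) 1 S.d m n :=
    fun i k v a1 a2 a3 a4 a5 a6 a7 a8 a9 a10 =>
      Or.inl ⟨i, k, v, a1, a2, a3, a4, a5, a6, a7, a8, a9, by rw [cb_lt T h (by omega), a10]⟩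
  have hnear : ∀ i v, 1 ≤ i → i + 1 ≤ S.d → T.s i v = v → T.s (i + 1) v = v → om2 hd i v = m → om2 hd (i + 1) v = n →
      T.per i v = tab2 T m.val n.val → CbP T (cox2 T) (om2 hd) 1 S.d m n := by
    intro i v a1 a2 a3 a4 a5 a6 a7
    have h3 := T.three_le_per a1 a2 v
    exact Or.inr (Or.inl ⟨i, v, a1, a2, a3, a4, Or.inl ⟨a5, a6⟩, by rw [cb_lt T h (by omega), a7]⟩)
  have hm : m.val = 0 ∨ m.val = 1 ∨ m.val = 2 ∨ m.val = 3 ∨ 4 ≤ m.val := by omega
  rcases hm with hm | hm | hm | hm | hm
  · -- m = U true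
    have hn' : n.val = 1 ∨ n.val = 2 ∨ n.val = 3 ∨ 4 ≤ n.val := by omega
    rcases hn' with hn' | hn' | hn' | hn'
    · refine hfar 3 1 (0, true) (by omega) (by omega) le_rfl (by omega) (by omega) (h3t _) (h1t _) ?_ ?_ ?_
      · rw [o3]
        exact cb_idx hd m hm
      · rw [o1]
        exact cb_idx hd n hn'
      · exact cb_two T (by omega) (by omega) (by omega) (by omega)
    · refine hnear 3 (0, true) (by omega) (by omega) (h3t _) (hge _ (by omega) _) ?_ ?_ ?_
      · rw [o3]
        exact cb_idx hd m hm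
      · rw [o4]
        exact cb_idx hd n hn'
      · rw [hm, hn', cb_02]
    · refine hfar 2 4 (2, true) (by omega) (by omega) (by omega) (by omega) (by omega) (h2t _) (hge _ (by omega) _) ?_ ?_ ?_
      · rw [o2]
        exact cb_idx hd m hm
      · rw [o4]
        exact cb_idx hd n hn'
      · exact cb_two T (by omega) (by omega) (by omega) (by omega)
    · refine hfar 3 (n.val + 1) (0, true) (by omega) (by omega) (by omega) (by omega) (by omega) (h3t _)
        (hge _ (by omega) _) ?_ ?_ ?_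
      · rw [o3]
        exact cb_idx hd m hm
      · rw [cb_om _ hd (by omega)]
        exact cb_idx hd n (by omega)
      · exact cb_two T (by omega) (by omega) (by omega) (by omega)
  · -- m = U false
    have hn' : n.val = 2 ∨ n.val = 3 ∨ 4 ≤ n.val := by omega
    rcases hn' with hn' | hn' | hn'
    · refine hfar 2 4 (2, false) (by omega) (by omega) (by omega) (by omega) (by omega) (h2t _) (hge _ (by omega) _) ?_ ?_ ?_
      · rw [o2]
        exact cb_idx hd m hm
      · rw [o4]
        exact cb_idx hd n hn'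
      · exact cb_two T (by omega) (by omega) (by omega) (by omega)
    · refine hnear 3 (0, false) (by omega) (by omega) (h3t _) (hge _ (by omega) _) ?_ ?_ ?_
      · rw [o3]
        exact cb_idx hd m hm
      · rw [o4]
        exact cb_idx hd n hn'
      · rw [hm, hn', cb_13, cb_fl T hfl]
    · refine hfar 3 (n.val + 1) (0, false) (by omega) (by omega) (by omega) (by omega) (by omega) (h3t _)
        (hge _ (by omega) _) ?_ ?_ ?_
      · rw [o3]
        exact cb_idx hd m hm
      · rw [cb_om _ hd (by omega)]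
        exact cb_idx hd n (by omega)
      · exact cb_two T (by omega) (by omega) (by omega) (by omega)
  · -- m = P true
    have hn' : n.val = 3 ∨ n.val = 4 ∨ 5 ≤ n.val := by omega
    rcases hn' with hn' | hn' | hn'
    · have h33 : T.s 3 (1, true) = (2, true) := by
        rw [hs]
        decide
      have hev := cb_even T hs
      have h3 := T.three_le_per (i := 3) (by omega) (by omega) (1, true)
      refine Or.inr (Or.inr (Or.inl ⟨3, (1, true), by omega, by omega, ?_, hge _ (by omega) _, hge _ (by omega) _, ?_, ?_, ?_⟩))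
      · rw [h33]
        decide
      · rw [o4]
        exact cb_idx hd m hm
      · rw [h33, o4]
        exact cb_idx hd n hn'
      · have h4 : tab2 T m.val n.val = T.per 3 (1, true) / 2 := by rw [hm, hn', cb_23]
        rw [cb_lt T h (by omega), h4]
        omega
    · refine hnear 4 (0, true) (by omega) (by omega) (hge _ (by omega) _) (hge _ (by omega) _) ?_ ?_ ?_
      · rw [o4]
        exact cb_idx hd m hm
      · rw [cb_om _ hd (by omega)]
        exact cb_idx hd n hn'
      · rw [hm, hn', cb_24 T (Or.inl rfl)]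
    · refine hfar 4 (n.val + 1) (0, true) (by omega) (by omega) (by omega) (by omega) (by omega) (hge _ (by omega) _)
        (hge _ (by omega) _) ?_ ?_ ?_
      · rw [o4]
        exact cb_idx hd m hm
      · rw [cb_om _ hd (by omega)]
        exact cb_idx hd n (by omega)
      · exact cb_two T (by omega) (by omega) (by omega) (by omega)
  · -- m = P false
    have hn' : n.val = 4 ∨ 5 ≤ n.val := by omega
    rcases hn' with hn' | hn'
    · refine hnear 4 (0, false) (by omega) (by omega) (hge _ (by omega) _) (hge _ (by omega) _) ?_ ?_ ?_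
      · rw [o4]
        exact cb_idx hd m hm
      · rw [cb_om _ hd (by omega)]
        exact cb_idx hd n hn'
      · rw [hm, hn', cb_24 T (Or.inr rfl), cb_fl T hfl]
    · refine hfar 4 (n.val + 1) (0, false) (by omega) (by omega) (by omega) (by omega) (by omega) (hge _ (by omega) _)
        (hge _ (by omega) _) ?_ ?_ ?_
      · rw [o4]
        exact cb_idx hd m hm
      · rw [cb_om _ hd (by omega)]
        exact cb_idx hd n (by omega)
      · exact cb_two T (by omega) (by omega) (by omega) (by omega)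
  · -- m = W
    by_cases hn' : n.val = m.val + 1
    · refine hnear (m.val + 1) (0, true) (by omega) (by omega) (hge _ (by omega) _) (hge _ (by omega) _) ?_ ?_ ?_
      · rw [cb_om _ hd (by omega)]
        exact cb_idx hd m (by omega)
      · rw [cb_om _ hd (by omega)]
        exact cb_idx hd n (by omega)
      · rw [hn', cb_kk T hm]
    · refine hfar (m.val + 1) (n.val + 1) (0, true) (by omega) (by omega) (by omega) (by omega) (by omega)
        (hge _ (by omega) _) (hge _ (by omega) _) ?_ ?_ ?_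
      · rw [cb_om _ hd (by omega)]
        exact cb_idx hd m (by omega)
      · rw [cb_om _ hd (by omega)]
        exact cb_idx hd n (by omega)
      · exact cb_two T (by omega) (by omega) (by omega) (by omega)

theorem crel_two [Finite X] (hd : 4 ≤ S.d) (T : Typ S (Fin 3 × Bool)) (hs : ∀ i v, T.s i v = sS 2 i v)
    (hfl : ∀ i v, T.per i (flip6 v) = T.per i v) : CRel T (cox2 T) (om2 hd) 1 S.d := by
  intro m n hmn _
  rcases lt_or_gt_of_ne (fun h => hmn (Fin.ext h) : m.val ≠ n.val) with h | h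
  · exact cb_main hd T hs hfl h
  · exact (cb_main hd T hs hfl h).symm

/-- the symmetry on the numbers -/
private def cbt (k : ℕ) : ℕ := if k = 0 then 1 else if k = 1 then 0 else if k = 2 then 3 else if k = 3 then 2 else k

private theorem cb_tau {d : ℕ} (hd : 4 ≤ d) (m : Fin d) : (tau2 hd m).val = cbt m.val := by
  have hm := m.isLt
  have e0 : gU hd true = idx hd 0 := rfl
  have e1 : gU hd false = idx hd 1 := rfl
  have e2 : gP hd true = idx hd 2 := rfl
  have e3 : gP hd false = idx hd 3 := rfl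
  have v0 := cb_idxv hd (k := 0) (by omega)
  have v1 := cb_idxv hd (k := 1) (by omega)
  have v2 := cb_idxv hd (k := 2) (by omega)
  have v3 := cb_idxv hd (k := 3) (by omega)
  have hne : ∀ {k l : ℕ}, (idx hd k).val = k → (idx hd l).val = l → k ≠ l → idx hd k ≠ idx hd l :=
    fun {k l} a b c h => c (by rw [← a, ← b, h])
  have hcase : m.val = 0 ∨ m.val = 1 ∨ m.val = 2 ∨ m.val = 3 ∨ 4 ≤ m.val := by omega
  unfold tau2 cbt
  rw [Equiv.Perm.mul_apply, e0, e1, e2, e3]
  rcases hcase with h | h | h | h | h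
  · rw [if_pos h, ← cb_idx hd m h, Equiv.swap_apply_of_ne_of_ne (hne v0 v2 (by omega)) (hne v0 v3 (by omega)),
      Equiv.swap_apply_left, v1]
  · rw [if_neg (by omega), if_pos h, ← cb_idx hd m h,
      Equiv.swap_apply_of_ne_of_ne (hne v1 v2 (by omega)) (hne v1 v3 (by omega)), Equiv.swap_apply_right, v0]
  · rw [if_neg (by omega), if_neg (by omega), if_pos h, ← cb_idx hd m h, Equiv.swap_apply_left,
      Equiv.swap_apply_of_ne_of_ne (hne v3 v0 (by omega)) (hne v3 v1 (by omega)), v3]
  · rw [if_neg (by omega), if_neg (by omega), if_neg (by omega), if_pos h, ← cb_idx hd m h, Equiv.swap_apply_right,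
      Equiv.swap_apply_of_ne_of_ne (hne v2 v0 (by omega)) (hne v2 v1 (by omega)), v2]
  · have hm' : ∀ {k : ℕ}, (idx hd k).val = k → k < 4 → m ≠ idx hd k := fun {k} a b hh => by
      rw [← hh] at a
      omega
    rw [if_neg (by omega), if_neg (by omega), if_neg (by omega), if_neg (by omega),
      Equiv.swap_apply_of_ne_of_ne (hm' v2 (by omega)) (hm' v3 (by omega)),
      Equiv.swap_apply_of_ne_of_ne (hm' v0 (by omega)) (hm' v1 (by omega))]

private theorem cb_G (T : Typ S (Fin 3 × Bool)) (k l : ℕ) : cbG T (cbt k) (cbt l) = cbG T k l := by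
  have hG : ∀ k l, cbG T k l = cbG T l k := fun k l => by
    unfold cbG
    rw [max_comm]
    by_cases h : k = l
    · rw [if_pos h, if_pos h.symm]
    · rw [if_neg h, if_neg (Ne.symm h)]
  have hval : ∀ k l k' l', (k = l ↔ k' = l') → tab2 T k l = tab2 T k' l' → tab2 T l k = tab2 T l' k' →
      cbG T k l = cbG T k' l' := fun k l k' l' h1 h2 h3 => by
    unfold cbG
    rw [h2, h3]
    by_cases h : k = l
    · rw [if_pos h, if_pos (h1.1 h)]
    · rw [if_neg h, if_neg (fun h' => h (h1.2 h'))]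
  have h2 : ∀ k l, ¬ ((k = 0 ∧ l = 2) ∨ (k = 1 ∧ l = 3)) → ¬ (k = 2 ∧ l = 3) → ¬ ((k = 2 ∨ k = 3) ∧ l = 4) →
      ¬ (4 ≤ k ∧ l = k + 1) → tab2 T k l = 2 := fun k l => cb_two T
  have key : ∀ k l, k ≤ l → cbG T (cbt k) (cbt l) = cbG T k l := by
    intro k l hkl
    have t0 : cbt 0 = 1 := rfl
    have t1 : cbt 1 = 0 := rfl
    have t2 : cbt 2 = 3 := rfl
    have t3 : cbt 3 = 2 := rfl
    have t4 : ∀ k, 4 ≤ k → cbt k = k := fun k h => by
      unfold cbt
      rw [if_neg (by omega), if_neg (by omega), if_neg (by omega), if_neg (by omega)]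
    by_cases hkl' : k = l
    · subst hkl'
      exact hval _ _ _ _ ⟨fun _ => rfl, fun _ => rfl⟩ (by
        have : k = 0 ∨ k = 1 ∨ k = 2 ∨ k = 3 ∨ 4 ≤ k := by omega
        rcases this with rfl | rfl | rfl | rfl | h
        · rw [t0, h2 _ _ (by omega) (by omega) (by omega) (by omega), h2 _ _ (by omega) (by omega) (by omega) (by omega)]
        · rw [t1, h2 _ _ (by omega) (by omega) (by omega) (by omega), h2 _ _ (by omega) (by omega) (by omega) (by omega)]
        · rw [t2, h2 _ _ (by omega) (by omega) (by omega) (by omega), h2 _ _ (by omega) (by omega) (by omega) (by omega)]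
        · rw [t3, h2 _ _ (by omega) (by omega) (by omega) (by omega), h2 _ _ (by omega) (by omega) (by omega) (by omega)]
        · rw [t4 _ h]) (by
        have : k = 0 ∨ k = 1 ∨ k = 2 ∨ k = 3 ∨ 4 ≤ k := by omega
        rcases this with rfl | rfl | rfl | rfl | h
        · rw [t0, h2 _ _ (by omega) (by omega) (by omega) (by omega), h2 _ _ (by omega) (by omega) (by omega) (by omega)]
        · rw [t1, h2 _ _ (by omega) (by omega) (by omega) (by omega), h2 _ _ (by omega) (by omega) (by omega) (by omega)]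
        · rw [t2, h2 _ _ (by omega) (by omega) (by omega) (by omega), h2 _ _ (by omega) (by omega) (by omega) (by omega)]
        · rw [t3, h2 _ _ (by omega) (by omega) (by omega) (by omega), h2 _ _ (by omega) (by omega) (by omega) (by omega)]
        · rw [t4 _ h])
    · have hlt : k < l := by omega
      have hk : k = 0 ∨ k = 1 ∨ k = 2 ∨ k = 3 ∨ 4 ≤ k := by omega
      have hl : l = 1 ∨ l = 2 ∨ l = 3 ∨ 4 ≤ l := by omega
      have tgt : ∀ {k l : ℕ}, k < l → tab2 T l k = 2 := fun h => cb_tgt T h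
      rcases hk with rfl | rfl | rfl | rfl | hk
      · rcases hl with rfl | rfl | rfl | hl
        · rw [t0, t1]
          exact hG 1 0
        · rw [t0, t2]
          exact hval 1 3 0 2 (by omega) (by rw [cb_02, cb_13]) (by rw [tgt (by omega), tgt (by omega)])
        · rw [t0, t3]
          exact hval 1 2 0 3 (by omega)
            (by rw [h2 _ _ (by omega) (by omega) (by omega) (by omega), h2 _ _ (by omega) (by omega) (by omega) (by omega)])
            (by rw [tgt (by omega), tgt (by omega)])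
        · rw [t0, t4 l hl]
          exact hval 1 l 0 l (by omega)
            (by rw [h2 _ _ (by omega) (by omega) (by omega) (by omega), h2 _ _ (by omega) (by omega) (by omega) (by omega)])
            (by rw [tgt (by omega), tgt (by omega)])
      · rcases hl with rfl | rfl | rfl | hl
        · omega
        · rw [t1, t2]
          exact hval 0 3 1 2 (by omega)
            (by rw [h2 _ _ (by omega) (by omega) (by omega) (by omega), h2 _ _ (by omega) (by omega) (by omega) (by omega)])
            (by rw [tgt (by omega), tgt (by omega)])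
        · rw [t1, t3]
          exact hval 0 2 1 3 (by omega) (by rw [cb_02, cb_13]) (by rw [tgt (by omega), tgt (by omega)])
        · rw [t1, t4 l hl]
          exact hval 0 l 1 l (by omega)
            (by rw [h2 _ _ (by omega) (by omega) (by omega) (by omega), h2 _ _ (by omega) (by omega) (by omega) (by omega)])
            (by rw [tgt (by omega), tgt (by omega)])
      · rcases hl with rfl | rfl | rfl | hl
        · omega
        · omega
        · rw [t2, t3]
          exact hG 3 2
        · rw [t2, t4 l hl]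
          refine hval 3 l 2 l (by omega) ?_ (by rw [tgt (by omega), tgt (by omega)])
          by_cases hl4 : l = 4
          · rw [hl4, cb_24 T (Or.inr rfl), cb_24 T (Or.inl rfl)]
          · rw [h2 _ _ (by omega) (by omega) (by omega) (by omega), h2 _ _ (by omega) (by omega) (by omega) (by omega)]
      · rcases hl with rfl | rfl | rfl | hl
        · omega
        · omega
        · omega
        · rw [t3, t4 l hl]
          refine hval 2 l 3 l (by omega) ?_ (by rw [tgt (by omega), tgt (by omega)])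
          by_cases hl4 : l = 4
          · rw [hl4, cb_24 T (Or.inr rfl), cb_24 T (Or.inl rfl)]
          · rw [h2 _ _ (by omega) (by omega) (by omega) (by omega), h2 _ _ (by omega) (by omega) (by omega) (by omega)]
      · rw [t4 k hk, t4 l (by omega)]
  rcases le_total k l with h | h
  · exact key k l h
  · rw [hG, key l k h, hG]

theorem tau_two (hd : 4 ≤ S.d) (T : Typ S (Fin 3 × Bool)) (m n : Fin S.d) :
    cox2 T (tau2 hd m) (tau2 hd n) = cox2 T m n := by
  rw [cb_cox, cb_cox, cb_tau, cb_tau]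
  exact cb_G T _ _

private theorem cb_step (T : Typ S (Fin 3 × Bool)) {m n : Fin S.d} (h : m.val < n.val)
    (h3 : 3 ≤ tab2 T m.val n.val) : DLink (cox2 T) m n ∧ DLink (cox2 T) n m := by
  have h1 : cox2 T m n = tab2 T m.val n.val := cb_lt T h (by omega)
  have hne : m ≠ n := fun hh => by
    rw [hh] at h
    omega
  have h2 : cox2 T n m = cox2 T m n := (cox2 T).symmetric n m
  exact ⟨Relation.ReflTransGen.single ⟨hne, by omega⟩, Relation.ReflTransGen.single ⟨hne.symm, by omega⟩⟩

theorem dlink_two [Finite X] (hd : 4 ≤ S.d) (T : Typ S (Fin 3 × Bool)) (e : Bool) :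
    DLink (cox2 T) (gU hd e) (gP hd e) := by
  have h3 := T.three_le_per (i := 3) (by omega) (by omega) (0, true)
  cases e
  · have v1 := cb_idxv hd (k := 1) (by omega)
    have v3 := cb_idxv hd (k := 3) (by omega)
    have e1 : gU hd false = idx hd 1 := rfl
    have e3 : gP hd false = idx hd 3 := rfl
    rw [e1, e3]
    refine (cb_step T (by rw [v1, v3]; omega) ?_).1
    rw [v1, v3, cb_13]
    exact h3
  · have v0 := cb_idxv hd (k := 0) (by omega)
    have v2 := cb_idxv hd (k := 2) (by omega)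
    have e0 : gU hd true = idx hd 0 := rfl
    have e2 : gP hd true = idx hd 2 := rfl
    rw [e0, e2]
    refine (cb_step T (by rw [v0, v2]; omega) ?_).1
    rw [v0, v2, cb_02]
    exact h3

theorem dlink_two' [Finite X] (hd : 5 ≤ S.d) (T : Typ S (Fin 3 × Bool)) (m n : Fin S.d) :
    DLink (cox2 T) m n := by
  have h3 := T.three_le_per (i := 3) (by omega) (by omega) (0, true)
  have h4 := T.three_le_per (i := 4) (by omega) (by omega) (0, true)
  have key : ∀ k : ℕ, ∀ hk : k < S.d, DLink (cox2 T) ⟨k, hk⟩ ⟨4, by omega⟩ ∧ DLink (cox2 T) ⟨4, by omega⟩ ⟨k, hk⟩ := by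
    intro k
    induction k using Nat.strong_induction_on with
    | _ k ih =>
      intro hk
      have s24 : DLink (cox2 T) ⟨2, by omega⟩ ⟨4, by omega⟩ ∧ DLink (cox2 T) ⟨4, by omega⟩ ⟨2, by omega⟩ :=
        cb_step T (show (2 : ℕ) < 4 by omega) (by
          show 3 ≤ tab2 T 2 4
          rw [cb_24 T (Or.inl rfl)]
          exact h4)
      have s34 : DLink (cox2 T) ⟨3, by omega⟩ ⟨4, by omega⟩ ∧ DLink (cox2 T) ⟨4, by omega⟩ ⟨3, by omega⟩ :=
        cb_step T (show (3 : ℕ) < 4 by omega) (by
          show 3 ≤ tab2 T 3 4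
          rw [cb_24 T (Or.inr rfl)]
          exact h4)
      have s02 : DLink (cox2 T) ⟨0, by omega⟩ ⟨2, by omega⟩ ∧ DLink (cox2 T) ⟨2, by omega⟩ ⟨0, by omega⟩ :=
        cb_step T (show (0 : ℕ) < 2 by omega) (by
          show 3 ≤ tab2 T 0 2
          rw [cb_02]
          exact h3)
      have s13 : DLink (cox2 T) ⟨1, by omega⟩ ⟨3, by omega⟩ ∧ DLink (cox2 T) ⟨3, by omega⟩ ⟨1, by omega⟩ :=
        cb_step T (show (1 : ℕ) < 3 by omega) (by
          show 3 ≤ tab2 T 1 3
          rw [cb_13]
          exact h3)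
      have hcase : k = 0 ∨ k = 1 ∨ k = 2 ∨ k = 3 ∨ k = 4 ∨ 5 ≤ k := by omega
      rcases hcase with rfl | rfl | rfl | rfl | rfl | h
      · exact ⟨s02.1.trans s24.1, s24.2.trans s02.2⟩
      · exact ⟨s13.1.trans s34.1, s34.2.trans s13.2⟩
      · exact s24
      · exact s34
      · exact ⟨Relation.ReflTransGen.refl, Relation.ReflTransGen.refl⟩
      · obtain ⟨j, rfl⟩ : ∃ j, k = j + 1 := ⟨k - 1, by omega⟩
        have hj := ih j (by omega) (by omega)
        have hst : DLink (cox2 T) ⟨j, by omega⟩ ⟨j + 1, hk⟩ ∧ DLink (cox2 T) ⟨j + 1, hk⟩ ⟨j, by omega⟩ :=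
          cb_step T (show j < j + 1 by omega) (by
            show 3 ≤ tab2 T j (j + 1)
            rw [cb_kk T (by omega)]
            exact T.three_le_per (by omega) (by omega) _)
        exact ⟨hst.2.trans hj.1, hj.2.trans hst.1⟩
  exact (key m.val m.isLt).1.trans (key n.val n.isLt).2

end H73.TO
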