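import Pool.Agent.H73.TO.C2a
import Pool.Agent.H73.TO.C2b
import Pool.Agent.H73.TO.Xi

/-! # TO.C2 : type II_2, the chart

`xi_six` (`j = 2`) gives the base flags `ξ` and the automorphisms of `U e`; `clab_two`, `crel_two`, `tau_two`, `dlink_two`, `dlink_two'`, `exists_chart`. `hθ`: `U e = gU hd e`: the fixed pairs `(i, v)` with `om2 hd i v = gU hd e`, `1 ≤ i ≤ d` are `(3, (0, e))`, `(2, (2, e))`, `(1, (0, !e))`: `xi_six`.
`P e`: pairs `(4, (0, e))`, `(4, (1, e))`, `(4, (2, !e))`: `semi_aut` for label 4 at `ξ (0, e)`, `aut_slide` along label 2 to `(1, e)` and along label 1 to `(2, !e)`. `W_i`, `i ≥ 5`: all six states: `semi_aut` at `(0, true)`, slides along the labels 1, 2, 3: `(0,t) -2- (1,t) -3- (2,t) -1- (1,f) -2- (0,f)`, `(1,f) -3- (2,f)`. -/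

namespace H73.TO

open H63.KO

variable {X : Type} {S : FSys X}

private theorem c2_e1 (e : Bool) : sS 2 2 (0, e) = (1, e) := by
  cases e <;> decide

private theorem c2_e2 (e : Bool) : sS 2 3 (1, e) = (2, e) := by
  cases e <;> decide

private theorem c2_e3 (e : Bool) : sS 2 1 (1, e) = (2, !e) := by
  cases e <;> decide

private theorem c2_fix1 {v : Fin 3 × Bool} (h : sS 2 1 v = v) : v.1 = 0 := by
  revert v; decide

private theorem c2_fix2 {v : Fin 3 × Bool} (h : sS 2 2 v = v) : v.1 = 2 := by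
  revert v; decide

private theorem c2_fix3 {v : Fin 3 × Bool} (h : sS 2 3 v = v) : v.1 = 0 := by
  revert v; decide

private theorem c2_far {i : ℕ} (hi : 4 ≤ i) (v : Fin 3 × Bool) : sS 2 i v = v := by
  unfold sS
  rw [if_neg (by omega), if_neg (by omega), if_neg (by omega)]

private theorem c2_vU {d : ℕ} (hd : 4 ≤ d) (e : Bool) : (gU hd e).val = if e then 0 else 1 := by
  unfold gU idx
  cases e
  · show min 1 (d - 1) = 1
    omega
  · show min 0 (d - 1) = 0
    omega

private theorem c2_vP {d : ℕ} (hd : 4 ≤ d) (e : Bool) : (gP hd e).val = if e then 2 else 3 := by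
  unfold gP idx
  cases e
  · show min 3 (d - 1) = 3
    omega
  · show min 2 (d - 1) = 2
    omega

private theorem c2_o1 {d : ℕ} (hd : 4 ≤ d) (v : Fin 3 × Bool) : om2 hd 1 v = gU hd (!v.2) := by
  unfold om2; rw [if_pos rfl]

private theorem c2_o23 {d : ℕ} (hd : 4 ≤ d) {i : ℕ} (hi : i = 2 ∨ i = 3) (v : Fin 3 × Bool) :
    om2 hd i v = gU hd v.2 := by
  unfold om2; rw [if_neg (by omega), if_pos hi]

private theorem c2_o4 {d : ℕ} (hd : 4 ≤ d) (v : Fin 3 × Bool) :
    om2 hd 4 v = gP hd (if v.1 = 2 then !v.2 else v.2) := by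
  unfold om2; rw [if_neg (by omega), if_neg (by omega), if_pos rfl]

private theorem c2_oW {d : ℕ} (hd : 4 ≤ d) {i : ℕ} (hi : 5 ≤ i) (hi' : i ≤ d) (v : Fin 3 × Bool) :
    (om2 hd i v).val = i - 1 := by
  unfold om2; rw [if_neg (by omega), if_neg (by omega), if_neg (by omega)]
  show min (i - 1) (d - 1) = i - 1
  omega

private theorem c2_lt2 {d : ℕ} (hd : 4 ≤ d) (e : Bool) : (gU hd e).val < 2 := by
  rw [c2_vU]; split_ifs <;> omega

private theorem c2_ge2 {d : ℕ} (hd : 4 ≤ d) (e : Bool) : 2 ≤ (gP hd e).val ∧ (gP hd e).val < 4 := by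
  rw [c2_vP]; split_ifs <;> omega

private theorem c2_injU {d : ℕ} (hd : 4 ≤ d) {e f : Bool} (h : gU hd e = gU hd f) : e = f := by
  have h1 := congrArg Fin.val h
  rw [c2_vU, c2_vU] at h1
  cases e <;> cases f <;> simp at h1 ⊢

private theorem c2_injP {d : ℕ} (hd : 4 ≤ d) {e f : Bool} (h : gP hd e = gP hd f) : e = f := by
  have h1 := congrArg Fin.val h
  rw [c2_vP, c2_vP] at h1
  cases e <;> cases f <;> simp at h1 ⊢

theorem chart_two [Finite X] (hd : 4 ≤ S.d) (T : Typ S (Fin 3 × Bool)) (hs : ∀ i v, T.s i v = sS 2 i v)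
    (hfl : ∀ i v, T.per i (flip6 v) = T.per i v) (hper : ∀ v, T.per 2 v = 3) (hper' : ∀ v, T.per 1 v = 3) :
    ∃ (M : CoxeterMatrix (Fin S.d)) (C : Chart S T.s (om2 hd) M 1 S.d),
      (∀ v, T.π (C.ξ v) = v) ∧ (∀ w x, T.π (C.ψ w x) = T.π x) ∧
      (∀ m n, M (tau2 hd m) (tau2 hd n) = M m n) ∧ (∀ e, DLink M (gU hd e) (gP hd e)) ∧
      (5 ≤ S.d → ∀ m n, DLink M m n) := by
  obtain ⟨ξ, hξ, hedge, hU⟩ := xi_six (j := 2) T le_rfl (by omega) hs hper hper'
  have e1 : ∀ e : Bool, ξ (1, e) = S.ρ 2 (ξ (0, e)) := by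
    intro e
    have h := hedge 2 (0, e) (by rw [hs, c2_e1]; simp)
    rwa [hs, c2_e1] at h
  have e2 : ∀ e : Bool, ξ (2, e) = S.ρ 3 (ξ (1, e)) := by
    intro e
    have h := hedge 3 (1, e) (by rw [hs, c2_e2]; simp)
    rwa [hs, c2_e2] at h
  have e3 : ∀ e : Bool, ξ (2, !e) = S.ρ 1 (ξ (1, e)) := by
    intro e
    have h := hedge 1 (1, e) (by rw [hs, c2_e3]; simp)
    rwa [hs, c2_e3] at h
  -- the walls U e
  have hθU : ∀ e : Bool, ∃ θ : Equiv.Perm X, IsAut S θ ∧
      ∀ i, 1 ≤ i → i ≤ S.d → ∀ v, T.s i v = v → om2 hd i v = gU hd e → θ (ξ v) = S.ρ i (ξ v) := by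
    intro e
    obtain ⟨θ, ha, hb, hc, hdd⟩ := hU e
    refine ⟨θ, ha, ?_⟩
    rintro i hi1 hi2 ⟨a, f⟩ hsv hom
    rw [hs] at hsv
    have hcase : i = 1 ∨ i = 2 ∨ i = 3 ∨ i = 4 ∨ 5 ≤ i := by omega
    rcases hcase with rfl | rfl | rfl | rfl | h5
    · rw [c2_o1] at hom
      have hf : (!f) = e := c2_injU hd hom
      have ha0 : a = 0 := c2_fix1 hsv
      subst ha0
      have hf' : f = !e := by rw [← hf, Bool.not_not]
      subst hf'
      exact hdd
    · rw [c2_o23 hd (Or.inl rfl)] at hom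
      have hf : f = e := c2_injU hd hom
      have ha0 : a = 2 := c2_fix2 hsv
      subst ha0
      subst hf
      exact hc
    · rw [c2_o23 hd (Or.inr rfl)] at hom
      have hf : f = e := c2_injU hd hom
      have ha0 : a = 0 := c2_fix3 hsv
      subst ha0
      subst hf
      exact hb
    · exfalso
      rw [c2_o4] at hom
      have h1 := congrArg Fin.val hom
      have h2 := c2_lt2 hd e
      have h3 := c2_ge2 hd (if ((a, f) : Fin 3 × Bool).1 = 2 then !((a, f) : Fin 3 × Bool).2 else ((a, f) : Fin 3 × Bool).2)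
      omega
    · exfalso
      have h1 := congrArg Fin.val hom
      have h2 := c2_lt2 hd e
      rw [c2_oW hd h5 hi2] at h1
      omega
  -- the walls P e
  have hθP : ∀ e : Bool, ∃ θ : Equiv.Perm X, IsAut S θ ∧
      ∀ i, 1 ≤ i → i ≤ S.d → ∀ v, T.s i v = v → om2 hd i v = gP hd e → θ (ξ v) = S.ρ i (ξ v) := by
    intro e
    obtain ⟨θ, ha, hb⟩ := T.semi_aut (k := 4) (x := ξ (0, e)) (by rw [hs, c2_far le_rfl])
    have k1 : θ (ξ (1, e)) = S.ρ 4 (ξ (1, e)) := by
      rw [e1 e]; exact aut_slide ha (Or.inl (by omega)) hb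
    have k2 : θ (ξ (2, !e)) = S.ρ 4 (ξ (2, !e)) := by
      rw [e3 e]; exact aut_slide ha (Or.inl (by omega)) k1
    refine ⟨θ, ha, ?_⟩
    rintro i hi1 hi2 ⟨a, f⟩ hsv hom
    have hcase : i = 1 ∨ i = 2 ∨ i = 3 ∨ i = 4 ∨ 5 ≤ i := by omega
    have hge := c2_ge2 hd e
    rcases hcase with rfl | rfl | rfl | rfl | h5
    · exfalso
      rw [c2_o1] at hom
      have h1 := congrArg Fin.val hom
      have h2 := c2_lt2 hd (!((a, f) : Fin 3 × Bool).2)
      omega
    · exfalso
      rw [c2_o23 hd (Or.inl rfl)] at hom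
      have h1 := congrArg Fin.val hom
      have h2 := c2_lt2 hd (((a, f) : Fin 3 × Bool).2)
      omega
    · exfalso
      rw [c2_o23 hd (Or.inr rfl)] at hom
      have h1 := congrArg Fin.val hom
      have h2 := c2_lt2 hd (((a, f) : Fin 3 × Bool).2)
      omega
    · rw [c2_o4] at hom
      have hf := c2_injP hd hom
      fin_cases a
      · simp at hf
        subst hf
        exact hb
      · simp at hf
        subst hf
        exact k1
      · have hf' : f = !e := by
          clear hsv hom k1 k2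
          revert hf
          cases f <;> cases e <;> simp
        subst hf'
        exact k2
    · exfalso
      have h1 := congrArg Fin.val hom
      rw [c2_oW hd h5 hi2] at h1
      omega
  -- the other walls
  have hθW : ∀ k : ℕ, 5 ≤ k → k ≤ S.d → ∃ θ : Equiv.Perm X, IsAut S θ ∧ ∀ v, θ (ξ v) = S.ρ k (ξ v) := by
    intro k hk _
    obtain ⟨θ, ha, hb⟩ := T.semi_aut (k := k) (x := ξ (0, true)) (by rw [hs, c2_far (by omega)])
    have t1 : θ (ξ (1, true)) = S.ρ k (ξ (1, true)) := by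
      rw [e1 true]; exact aut_slide ha (Or.inl (by omega)) hb
    have t2 : θ (ξ (2, true)) = S.ρ k (ξ (2, true)) := by
      rw [e2 true]; exact aut_slide ha (Or.inl (by omega)) t1
    have f1' : ξ (1, false) = S.ρ 1 (ξ (2, true)) := by
      have h := e3 false
      have h' : ξ (2, true) = S.ρ 1 (ξ (1, false)) := h
      rw [h', S.inv]
    have f1 : θ (ξ (1, false)) = S.ρ k (ξ (1, false)) := by
      rw [f1']; exact aut_slide ha (Or.inl (by omega)) t2
    have f0' : ξ (0, false) = S.ρ 2 (ξ (1, false)) := by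
      rw [e1 false, S.inv]
    have f0 : θ (ξ (0, false)) = S.ρ k (ξ (0, false)) := by
      rw [f0']; exact aut_slide ha (Or.inl (by omega)) f1
    have f2 : θ (ξ (2, false)) = S.ρ k (ξ (2, false)) := by
      rw [e2 false]; exact aut_slide ha (Or.inl (by omega)) f1
    refine ⟨θ, ha, ?_⟩
    rintro ⟨a, f⟩
    fin_cases a <;> cases f
    · exact f0
    · exact hb
    · exact f1
    · exact t1
    · exact f2
    · exact t2
  have hθ : ∀ n : Fin S.d, ∃ θ : Equiv.Perm X, IsAut S θ ∧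
      ∀ i, 1 ≤ i → i ≤ S.d → ∀ v, T.s i v = v → om2 hd i v = n → θ (ξ v) = S.ρ i (ξ v) := by
    intro n
    have hn := n.isLt
    have hcase : n.val = 0 ∨ n.val = 1 ∨ n.val = 2 ∨ n.val = 3 ∨ 4 ≤ n.val := by omega
    rcases hcase with h | h | h | h | h
    · have hn' : n = gU hd true := Fin.ext (by rw [h, c2_vU]; rfl)
      rw [hn']; exact hθU true
    · have hn' : n = gU hd false := Fin.ext (by rw [h, c2_vU]; rfl)
      rw [hn']; exact hθU false
    · have hn' : n = gP hd true := Fin.ext (by rw [h, c2_vP]; rfl)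
      rw [hn']; exact hθP true
    · have hn' : n = gP hd false := Fin.ext (by rw [h, c2_vP]; rfl)
      rw [hn']; exact hθP false
    · obtain ⟨θ, ha, hb⟩ := hθW (n.val + 1) (by omega) (by omega)
      refine ⟨θ, ha, ?_⟩
      intro i hi1 hi2 v hsv hom
      have h1 := congrArg Fin.val hom
      have hi : i = n.val + 1 := by
        have hc : i = 1 ∨ (i = 2 ∨ i = 3) ∨ i = 4 ∨ 5 ≤ i := by omega
        rcases hc with rfl | hc | rfl | h5
        · rw [c2_o1] at h1
          have := c2_lt2 hd (!v.2)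
          omega
        · rw [c2_o23 hd hc] at h1
          have := c2_lt2 hd v.2
          omega
        · rw [c2_o4] at h1
          have := c2_ge2 hd (if v.1 = 2 then !v.2 else v.2)
          omega
        · rw [c2_oW hd h5 hi2] at h1
          omega
      rw [hi]
      exact hb v
  obtain ⟨C, hCξ, hCψ⟩ := exists_chart (clab_two hd T hs hfl hper hper')
    (crel_two hd T hs hfl) ξ hξ (fun i _ _ v hv => hedge i v hv) hθ
  refine ⟨cox2 T, C, ?_, hCψ, tau_two hd T, dlink_two hd T, fun h5 => dlink_two' h5 T⟩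
  intro v
  rw [hCξ]
  exact hξ v

end H73.TO
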