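import Pool.Agent.H73.TO.Mat
import Pool.Agent.H73.TO.Psi

/-! # TO.C2a : type II_2, the Coxeter labelling

States `(v, e)`, `s = sS 2`: label 2 exchanges `(0, e), (1, e)`; 3 exchanges `(1, e), (2, e)`; 1 exchanges `(1, e), (2, !e)`; all others fix. `ω = om2 hd`: `U e = gU e = ω 3 (0, e) = ω 2 (2, e) = ω 1 (0, !e)` (numbers 0, 1), `P e = gP e = ω 4 (0, e) = ω 4 (1, e) = ω 4 (2, !e)` (numbers 2, 3), `W_i = ω i _ = idx (i - 1)` for `i ≥ 5`.
`cox2 T` (Mat.lean): `M (U e) (P e) = per 3 (0, true)`, `M (P true) (P false) = per 3 (1, true) / 2`, `M (P e) W_5 = per 4 (0, true)` (if `d ≥ 5`), `M W_k W_(k+1) = per k (0, true)` for `5 ≤ k`, `k + 1 ≤ d`, all others 2. The periods: `hfl` (`per i (flip6 v) = per i v`); `per 3` is constant on `{(1,e), (2,e')}`, `per 4` and `per k`, `k ≥ 5`, are constant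
(`per_far` with the labels 1, 2 and `hfl`). `per 3 (1, e)` is even (`two_dvd_per`) and `≥ 3` (`three_le_per`).
`CLab` for `[1, d]`: `cov`: U e = (3, (0, e)), P e = (4, (0, e)), W_i = (i, (0, true)). `conn`: labels 1, 2, 3 join the six states. slide: label 1 moves `(1, e), (2, !e)`: `ω 4 (1, e) = P e = ω 4 (2, !e)`, `k ≥ 5` constant (label 3 also moves them); label 2 moves `(0, e), (1, e)`: `ω 4` equal, `k ≥ 5`; label 3 moves `(1, e), (2, e)`: `k ≥ 5`; `k = 1`: both moved.
comm: `(1, 3)` at `(0, e)`: U (!e), U e: 2; `(1, 4)` at `(0, e)`: U (!e), P e: 2; `(2, 4)` at `(2, e)`: U e, P (!e): 2; `(3, k)`, `k ≥ 5`, at `(0, e)`; `(1, k), (2, k)`, `k ≥ 5`; `(4, k)`, `k ≥ 6`; `(i, k)`: 2. pA: `i = 3` at `(0, e)`; `i = 4` everywhere (if `5 ≤ d`); `i ≥ 5`. pB: `i = 3` at `(1, e)`, `(2, e)`: `2 * M (P e) (P !e) = per 3 (1, e)`.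
pC: `i = 1` at `(2, e)` (path `(2, e) -1- (1, !e) -2- (0, !e)`): generators `ω 2 (2, e) = U e`, `ω 1 (0, !e) = U e`: `3 * 1 = per 1`; `i = 2` at `(0, e)`: `ω 3 (0, e) = U e = ω 2 (2, e)`: `3 = per 2`. mid: `i = 1` and `i = 2` at `(1, e)`. pB': never. Checked by a program. -/

namespace H73.TO

open H63.KO

variable {X : Type} {S : FSys X}

private theorem s1_eq {T : Typ S (Fin 3 × Bool)} (hs : ∀ i v, T.s i v = sS 2 i v) (a : Fin 3) (e : Bool) :
    T.s 1 (a, e) = (Equiv.swap 1 2 a, if a = 0 then e else !e) := by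
  rw [hs]; revert a e; decide

private theorem s2_eq {T : Typ S (Fin 3 × Bool)} (hs : ∀ i v, T.s i v = sS 2 i v) (a : Fin 3) (e : Bool) :
    T.s 2 (a, e) = (Equiv.swap 0 1 a, e) := by
  rw [hs]; revert a e; decide

private theorem s3_eq {T : Typ S (Fin 3 × Bool)} (hs : ∀ i v, T.s i v = sS 2 i v) (a : Fin 3) (e : Bool) :
    T.s 3 (a, e) = (Equiv.swap 1 2 a, e) := by
  rw [hs]; revert a e; decide

private theorem s4_eq {T : Typ S (Fin 3 × Bool)} (hs : ∀ i v, T.s i v = sS 2 i v) {i : ℕ} (hi : 4 ≤ i)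
    (v : Fin 3 × Bool) : T.s i v = v := by
  rw [hs]
  unfold sS
  rw [if_neg (by omega), if_neg (by omega), if_neg (by omega)]

private theorem sw12_0 : Equiv.swap (1 : Fin 3) 2 0 = 0 := by decide
private theorem sw12_1 : Equiv.swap (1 : Fin 3) 2 1 = 2 := by decide
private theorem sw12_2 : Equiv.swap (1 : Fin 3) 2 2 = 1 := by decide
private theorem sw01_0 : Equiv.swap (0 : Fin 3) 1 0 = 1 := by decide
private theorem sw01_1 : Equiv.swap (0 : Fin 3) 1 1 = 0 := by decide
private theorem sw01_2 : Equiv.swap (0 : Fin 3) 1 2 = 2 := by decide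

private theorem s1_0 {T : Typ S (Fin 3 × Bool)} (hs : ∀ i v, T.s i v = sS 2 i v) (e : Bool) :
    T.s 1 (0, e) = (0, e) := by rw [s1_eq hs, sw12_0, if_pos rfl]
private theorem s1_1 {T : Typ S (Fin 3 × Bool)} (hs : ∀ i v, T.s i v = sS 2 i v) (e : Bool) :
    T.s 1 (1, e) = (2, !e) := by rw [s1_eq hs, sw12_1, if_neg (by decide)]
private theorem s1_2 {T : Typ S (Fin 3 × Bool)} (hs : ∀ i v, T.s i v = sS 2 i v) (e : Bool) :
    T.s 1 (2, e) = (1, !e) := by rw [s1_eq hs, sw12_2, if_neg (by decide)]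
private theorem s2_0 {T : Typ S (Fin 3 × Bool)} (hs : ∀ i v, T.s i v = sS 2 i v) (e : Bool) :
    T.s 2 (0, e) = (1, e) := by rw [s2_eq hs, sw01_0]
private theorem s2_1 {T : Typ S (Fin 3 × Bool)} (hs : ∀ i v, T.s i v = sS 2 i v) (e : Bool) :
    T.s 2 (1, e) = (0, e) := by rw [s2_eq hs, sw01_1]
private theorem s2_2 {T : Typ S (Fin 3 × Bool)} (hs : ∀ i v, T.s i v = sS 2 i v) (e : Bool) :
    T.s 2 (2, e) = (2, e) := by rw [s2_eq hs, sw01_2]
private theorem s3_0 {T : Typ S (Fin 3 × Bool)} (hs : ∀ i v, T.s i v = sS 2 i v) (e : Bool) :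
    T.s 3 (0, e) = (0, e) := by rw [s3_eq hs, sw12_0]
private theorem s3_1 {T : Typ S (Fin 3 × Bool)} (hs : ∀ i v, T.s i v = sS 2 i v) (e : Bool) :
    T.s 3 (1, e) = (2, e) := by rw [s3_eq hs, sw12_1]
private theorem s3_2 {T : Typ S (Fin 3 × Bool)} (hs : ∀ i v, T.s i v = sS 2 i v) (e : Bool) :
    T.s 3 (2, e) = (1, e) := by rw [s3_eq hs, sw12_2]

private theorem ne10 (e e' : Bool) : ((1 : Fin 3), e) ≠ (0, e') := by
  intro h
  have h' : (1 : Fin 3) = 0 := congrArg Prod.fst h
  revert h'; decide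
private theorem ne01 (e e' : Bool) : ((0 : Fin 3), e) ≠ (1, e') := by
  intro h
  have h' : (0 : Fin 3) = 1 := congrArg Prod.fst h
  revert h'; decide
private theorem ne12 (e e' : Bool) : ((1 : Fin 3), e) ≠ (2, e') := by
  intro h
  have h' : (1 : Fin 3) = 2 := congrArg Prod.fst h
  revert h'; decide
private theorem ne21 (e e' : Bool) : ((2 : Fin 3), e) ≠ (1, e') := by
  intro h
  have h' : (2 : Fin 3) = 1 := congrArg Prod.fst h
  revert h'; decide

/-- the periods `per i`, `i ≥ 4`, are constant -/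
private theorem perC [Finite X] {T : Typ S (Fin 3 × Bool)} (hs : ∀ i v, T.s i v = sS 2 i v)
    (hfl : ∀ i v, T.per i (flip6 v) = T.per i v) {i : ℕ} (hi : 4 ≤ i) (v : Fin 3 × Bool) :
    T.per i v = T.per i (0, true) := by
  have h0 : ∀ e, T.per i (0, e) = T.per i (0, true) := by
    intro e
    cases e
    · exact hfl i (0, true)
    · rfl
  have h1 : ∀ e, T.per i (1, e) = T.per i (0, true) := by
    intro e
    have h := T.per_far (i := i) (j := 2) (Or.inl (by omega)) ((0 : Fin 3), e)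
    rw [s2_0 hs] at h
    rw [h, h0]
  have h2 : ∀ e, T.per i (2, e) = T.per i (0, true) := by
    intro e
    have h := T.per_far (i := i) (j := 1) (Or.inl (by omega)) ((1 : Fin 3), !e)
    rw [s1_1 hs, Bool.not_not] at h
    rw [h, h1]
  obtain ⟨a, e⟩ := v
  fin_cases a
  · exact h0 e
  · exact h1 e
  · exact h2 e

private theorem per3_0 {T : Typ S (Fin 3 × Bool)}
    (hfl : ∀ i v, T.per i (flip6 v) = T.per i v) (e : Bool) :
    T.per 3 (0, e) = T.per 3 (0, true) := by
  cases e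
  · exact hfl 3 (0, true)
  · rfl

private theorem per3_1 {T : Typ S (Fin 3 × Bool)}
    (hfl : ∀ i v, T.per i (flip6 v) = T.per i v) (e : Bool) :
    T.per 3 (1, e) = T.per 3 (1, true) := by
  cases e
  · exact hfl 3 (1, true)
  · rfl

private theorem per3_2 [Finite X] {T : Typ S (Fin 3 × Bool)} (hs : ∀ i v, T.s i v = sS 2 i v)
    (hfl : ∀ i v, T.per i (flip6 v) = T.per i v) (e : Bool) :
    T.per 3 (2, e) = T.per 3 (1, true) := by
  have h := T.per_self 3 ((1 : Fin 3), e)
  rw [s3_1 hs] at h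
  rw [h, per3_1 hfl]

private theorem even3 [Finite X] {T : Typ S (Fin 3 × Bool)} (hs : ∀ i v, T.s i v = sS 2 i v) :
    2 ∣ T.per 3 (1, true) := by
  refine T.two_dvd_per 3 _ ?_ ?_ ?_
  · rw [s3_1 hs]; exact ne21 _ _
  · exact s4_eq hs (by omega) _
  · exact s4_eq hs (by omega) _

/-- the reversed entries of the table -/
private theorem tab2_rev (T : Typ S (Fin 3 × Bool)) {k l : ℕ} (h : k < l) : tab2 T l k = 2 := by
  unfold tab2
  rw [if_neg (by omega), if_neg (by omega), if_neg (by omega), if_neg (by omega)]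

private theorem cox_lt (T : Typ S (Fin 3 × Bool)) {p q : Fin S.d} (h : p.val < q.val)
    (h2 : 2 ≤ tab2 T p.val q.val) : cox2 T p q = tab2 T p.val q.val := by
  have hr := tab2_rev T h
  refine mkCox_apply (m := fun p q : Fin S.d => tab2 T p.val q.val) (i := p) (j := q) ?_ ?_ ?_
  · intro hh; rw [hh] at h; exact lt_irrefl _ h
  · show tab2 T p.val q.val ≠ 1
    omega
  · show tab2 T q.val p.val ≤ tab2 T p.val q.val
    omega

private theorem cox_gt (T : Typ S (Fin 3 × Bool)) {p q : Fin S.d} (h : q.val < p.val)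
    (h2 : 2 ≤ tab2 T q.val p.val) : cox2 T p q = tab2 T q.val p.val := by
  have hr := tab2_rev T h
  refine mkCox_apply' (m := fun p q : Fin S.d => tab2 T p.val q.val) (i := p) (j := q) ?_ ?_ ?_
  · intro hh; rw [hh] at h; exact lt_irrefl _ h
  · show tab2 T q.val p.val ≠ 1
    omega
  · show tab2 T p.val q.val ≤ tab2 T q.val p.val
    omega

private theorem vU {d : ℕ} (hd : 4 ≤ d) (e : Bool) : (gU hd e).val = if e then 0 else 1 := by
  cases e
  · show min 1 (d - 1) = 1
    omega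
  · show min 0 (d - 1) = 0
    omega

private theorem vP {d : ℕ} (hd : 4 ≤ d) (e : Bool) : (gP hd e).val = if e then 2 else 3 := by
  cases e
  · show min 3 (d - 1) = 3
    omega
  · show min 2 (d - 1) = 2
    omega

private theorem vI {d : ℕ} (hd : 4 ≤ d) {k : ℕ} (hk : k + 1 ≤ d) : (idx hd k).val = k := by
  show min k (d - 1) = k
  omega

private theorem cox_two (T : Typ S (Fin 3 × Bool)) {p q : Fin S.d} (h : p.val ≠ q.val)
    (h2 : tab2 T (min p.val q.val) (max p.val q.val) = 2) : cox2 T p q = 2 := by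
  rcases lt_or_gt_of_ne h with h1 | h1
  · rw [min_eq_left h1.le, max_eq_right h1.le] at h2
    rw [cox_lt T h1 h2.ge, h2]
  · rw [min_eq_right (le_of_lt h1), max_eq_left (le_of_lt h1)] at h2
    rw [cox_gt T h1 h2.ge, h2]

theorem clab_two [Finite X] (hd : 4 ≤ S.d) (T : Typ S (Fin 3 × Bool)) (hs : ∀ i v, T.s i v = sS 2 i v)
    (hfl : ∀ i v, T.per i (flip6 v) = T.per i v) (hper : ∀ v, T.per 2 v = 3)
    (hper' : ∀ v, T.per 1 v = 3) : CLab T (cox2 T) (om2 hd) 1 S.d := by
  have o1 : ∀ v, om2 hd 1 v = gU hd (!v.2) := fun v => by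
    unfold om2; rw [if_pos rfl]
  have o2 : ∀ v, om2 hd 2 v = gU hd v.2 := fun v => by
    unfold om2; rw [if_neg (by omega), if_pos (by omega)]
  have o3 : ∀ v, om2 hd 3 v = gU hd v.2 := fun v => by
    unfold om2; rw [if_neg (by omega), if_pos (by omega)]
  have o4 : ∀ v, om2 hd 4 v = gP hd (if v.1 = 2 then !v.2 else v.2) := fun v => by
    unfold om2; rw [if_neg (by omega), if_neg (by omega), if_pos rfl]
  have o40 : ∀ e, om2 hd 4 (0, e) = gP hd e := fun e => by
    rw [o4]; rw [if_neg (show ¬ (0 : Fin 3) = 2 by decide)]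
  have o41 : ∀ e, om2 hd 4 (1, e) = gP hd e := fun e => by
    rw [o4]; rw [if_neg (show ¬ (1 : Fin 3) = 2 by decide)]
  have o42 : ∀ e, om2 hd 4 (2, e) = gP hd (!e) := fun e => by
    rw [o4]; rw [if_pos rfl]
  have o5 : ∀ i, 5 ≤ i → ∀ v, om2 hd i v = idx hd (i - 1) := fun i hi v => by
    unfold om2; rw [if_neg (by omega), if_neg (by omega), if_neg (by omega)]
  -- values of the matrix
  have m2 : ∀ p q : Fin S.d, p.val ≠ q.val →
      ¬ ((min p.val q.val = 0 ∧ max p.val q.val = 2) ∨ (min p.val q.val = 1 ∧ max p.val q.val = 3)) →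
      ¬ (min p.val q.val = 2 ∧ max p.val q.val = 3) →
      ¬ ((min p.val q.val = 2 ∨ min p.val q.val = 3) ∧ max p.val q.val = 4) →
      ¬ (4 ≤ min p.val q.val ∧ max p.val q.val = min p.val q.val + 1) → cox2 T p q = 2 := by
    intro p q h h1 h2 h3 h4
    refine cox_two T h ?_
    unfold tab2
    rw [if_neg h1, if_neg h2, if_neg h3, if_neg h4]
  have p3 : 3 ≤ T.per 3 (0, true) := T.three_le_per (by omega) (by omega) _
  have p3' : 3 ≤ T.per 3 (1, true) := T.three_le_per (by omega) (by omega) _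
  have e3 : 2 ∣ T.per 3 (1, true) := even3 hs
  have mUP : ∀ e, cox2 T (gU hd e) (gP hd e) = T.per 3 (0, true) := by
    intro e
    have ht : tab2 T (gU hd e).val (gP hd e).val = T.per 3 (0, true) := by
      rw [vU, vP]
      unfold tab2
      cases e
      · rw [if_pos (by simp)]
      · rw [if_pos (by simp)]
    rw [cox_lt T (by rw [vU, vP]; cases e <;> simp) (by rw [ht]; omega), ht]
  have mPP : ∀ e, cox2 T (gP hd e) (gP hd (!e)) = T.per 3 (1, true) / 2 := by
    intro e
    have ht : tab2 T 2 3 = T.per 3 (1, true) / 2 := by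
      unfold tab2
      rw [if_neg (by omega), if_pos (by omega)]
    cases e
    · have hv1 : (gP hd false).val = 3 := by rw [vP]; rfl
      have hv2 : (gP hd (!false)).val = 2 := by rw [vP]; rfl
      rw [cox_gt T (by rw [hv1, hv2]; omega) (by rw [hv1, hv2, ht]; omega), hv1, hv2, ht]
    · have hv1 : (gP hd true).val = 2 := by rw [vP]; rfl
      have hv2 : (gP hd (!true)).val = 3 := by rw [vP]; rfl
      rw [cox_lt T (by rw [hv1, hv2]; omega) (by rw [hv1, hv2, ht]; omega), hv1, hv2, ht]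
  have mPW : 5 ≤ S.d → ∀ e, cox2 T (gP hd e) (idx hd 4) = T.per 4 (0, true) := by
    intro h5 e
    have p4 : 3 ≤ T.per 4 (0, true) := T.three_le_per (by omega) (by omega) _
    have ht : tab2 T (gP hd e).val (idx hd 4).val = T.per 4 (0, true) := by
      rw [vP, vI hd (by omega)]
      unfold tab2
      cases e
      · rw [if_neg (by simp), if_neg (by simp), if_pos (by simp)]
      · rw [if_neg (by simp), if_neg (by simp), if_pos (by simp)]
    rw [cox_lt T (by rw [vP, vI hd (by omega)]; cases e <;> simp) (by rw [ht]; omega), ht]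
  have mWW : ∀ i, 5 ≤ i → i + 1 ≤ S.d → cox2 T (idx hd (i - 1)) (idx hd i) = T.per i (0, true) := by
    intro i hi hid
    have p4 : 3 ≤ T.per i (0, true) := T.three_le_per (by omega) (by omega) _
    have ht : tab2 T (idx hd (i - 1)).val (idx hd i).val = T.per i (0, true) := by
      rw [vI hd (by omega), vI hd (by omega)]
      unfold tab2
      rw [if_neg (by omega), if_neg (by omega), if_neg (by omega), if_pos (by omega)]
    rw [cox_lt T (by rw [vI hd (by omega), vI hd (by omega)]; omega) (by rw [ht]; omega), ht]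
  have mUU : ∀ e, cox2 T (gU hd (!e)) (gU hd e) = 2 := by
    intro e
    have hv1 : (gU hd true).val = 0 := by rw [vU]; rfl
    have hv2 : (gU hd false).val = 1 := by rw [vU]; rfl
    cases e
    · refine m2 _ _ ?_ ?_ ?_ ?_ ?_ <;> simp only [Bool.not_false, hv1, hv2] <;> omega
    · refine m2 _ _ ?_ ?_ ?_ ?_ ?_ <;> simp only [Bool.not_true, hv1, hv2] <;> omega
  have mUP' : ∀ e, cox2 T (gU hd (!e)) (gP hd e) = 2 := by
    intro e
    have hv1 : (gU hd true).val = 0 := by rw [vU]; rfl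
    have hv2 : (gU hd false).val = 1 := by rw [vU]; rfl
    have hv3 : (gP hd true).val = 2 := by rw [vP]; rfl
    have hv4 : (gP hd false).val = 3 := by rw [vP]; rfl
    cases e
    · refine m2 _ _ ?_ ?_ ?_ ?_ ?_ <;> simp only [Bool.not_false, hv1, hv4] <;> omega
    · refine m2 _ _ ?_ ?_ ?_ ?_ ?_ <;> simp only [Bool.not_true, hv2, hv3] <;> omega
  have mUW : ∀ e k, 5 ≤ k → k ≤ S.d → cox2 T (gU hd e) (idx hd (k - 1)) = 2 := by
    intro e k hk hkd
    have hv : (idx hd (k - 1)).val = k - 1 := vI hd (by omega)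
    have hv1 : (gU hd e).val ≤ 1 := by rw [vU]; cases e <;> simp
    refine m2 _ _ ?_ ?_ ?_ ?_ ?_ <;> omega
  have mPW' : ∀ e k, 6 ≤ k → k ≤ S.d → cox2 T (gP hd e) (idx hd (k - 1)) = 2 := by
    intro e k hk hkd
    have hv : (idx hd (k - 1)).val = k - 1 := vI hd (by omega)
    have hv1 : (gP hd e).val ≤ 3 := by rw [vP]; cases e <;> simp
    refine m2 _ _ ?_ ?_ ?_ ?_ ?_ <;> omega
  have mWW' : ∀ i k, 5 ≤ i → i + 2 ≤ k → k ≤ S.d → cox2 T (idx hd (i - 1)) (idx hd (k - 1)) = 2 := by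
    intro i k hi hik hkd
    have hv : (idx hd (k - 1)).val = k - 1 := vI hd (by omega)
    have hv1 : (idx hd (i - 1)).val = i - 1 := vI hd (by omega)
    refine m2 _ _ ?_ ?_ ?_ ?_ ?_ <;> omega
  refine ⟨le_refl 1, by omega, le_refl _, fun u v => T.reach u v, ?_, ?_, ?_, ?_, ?_, ?_, ?_, ?_⟩
  · -- cov
    intro n
    by_cases h0 : n.val = 0
    · refine ⟨3, (0, true), by omega, by omega, s3_0 hs _, ?_⟩
      rw [o3]; apply Fin.ext; rw [vU, h0]; rfl
    by_cases h1 : n.val = 1
    · refine ⟨3, (0, false), by omega, by omega, s3_0 hs _, ?_⟩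
      rw [o3]; apply Fin.ext; rw [vU, h1]; rfl
    by_cases h2 : n.val = 2
    · refine ⟨4, (0, true), by omega, by omega, s4_eq hs (by omega) _, ?_⟩
      rw [o40]; apply Fin.ext; rw [vP, h2]; rfl
    by_cases h3 : n.val = 3
    · refine ⟨4, (0, false), by omega, by omega, s4_eq hs (by omega) _, ?_⟩
      rw [o40]; apply Fin.ext; rw [vP, h3]; rfl
    have hn := n.isLt
    refine ⟨n.val + 1, (0, true), by omega, by omega, s4_eq hs (by omega) _, ?_⟩
    rw [o5 _ (by omega)]; apply Fin.ext; rw [vI hd (by omega)]; omega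
  · -- slide
    intro i k hi hid hk hkd hik v h1 h2
    obtain ⟨a, e⟩ := v
    have hi3 : i ≤ 3 := by
      by_contra h
      exact h1 (s4_eq hs (by omega) _)
    by_cases hk5 : 5 ≤ k
    · rw [o5 k hk5, o5 k hk5]
    interval_cases i
    · have hk34 : k = 3 ∨ k = 4 := by omega
      rcases hk34 with rfl | rfl
      · fin_cases a
        · exact absurd (s1_0 hs e) h1
        · exact absurd ((s3_1 hs e).symm.trans h2) (ne21 _ _)
        · exact absurd ((s3_2 hs e).symm.trans h2) (ne12 _ _)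
      · fin_cases a
        · exact absurd (s1_0 hs e) h1
        · show om2 hd 4 (T.s 1 (1, e)) = om2 hd 4 (1, e)
          rw [s1_1 hs, o42, o41, Bool.not_not]
        · show om2 hd 4 (T.s 1 (2, e)) = om2 hd 4 (2, e)
          rw [s1_2 hs, o42, o41]
    · have hk34 : k = 4 := by omega
      subst hk34
      fin_cases a
      · show om2 hd 4 (T.s 2 (0, e)) = om2 hd 4 (0, e)
        rw [s2_0 hs, o40, o41]
      · show om2 hd 4 (T.s 2 (1, e)) = om2 hd 4 (1, e)
        rw [s2_1 hs, o40, o41]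
      · exact absurd (s2_2 hs e) h1
    · have hk1 : k = 1 := by omega
      subst hk1
      fin_cases a
      · exact absurd (s3_0 hs e) h1
      · exact absurd ((s1_1 hs e).symm.trans h2) (ne21 _ _)
      · exact absurd ((s1_2 hs e).symm.trans h2) (ne12 _ _)
  · -- comm
    intro i k hi hik hkd v h1 h2
    obtain ⟨a, e⟩ := v
    right
    by_cases hi4 : 4 ≤ i
    · rw [o5 k (by omega)]
      rcases Nat.eq_or_lt_of_le hi4 with h4 | h4
      · subst h4
        rw [o4]
        exact mPW' _ k (by omega) hkd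
      · rw [o5 i h4]
        exact mWW' i k h4 hik hkd
    have hi3 : i ≤ 3 := by omega
    interval_cases i
    · -- i = 1
      have ha : a = 0 := by
        fin_cases a
        · rfl
        · exact absurd ((s1_1 hs e).symm.trans h1) (ne21 _ _)
        · exact absurd ((s1_2 hs e).symm.trans h1) (ne12 _ _)
      subst ha
      rw [o1]
      by_cases hk5 : 5 ≤ k
      · rw [o5 k hk5]
        exact mUW _ k hk5 hkd
      · have hk34 : k = 3 ∨ k = 4 := by omega
        rcases hk34 with rfl | rfl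
        · rw [o3]
          exact mUU e
        · rw [o40]
          exact mUP' e
    · -- i = 2
      have ha : a = 2 := by
        fin_cases a
        · exact absurd ((s2_0 hs e).symm.trans h1) (ne10 _ _)
        · exact absurd ((s2_1 hs e).symm.trans h1) (ne01 _ _)
        · rfl
      subst ha
      rw [o2]
      by_cases hk5 : 5 ≤ k
      · rw [o5 k hk5]
        exact mUW _ k hk5 hkd
      · have hk34 : k = 4 := by omega
        subst hk34
        rw [o42]
        have h := mUP' (!e)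
        rw [Bool.not_not] at h
        exact h
    · -- i = 3
      rw [o3, o5 k (by omega)]
      exact mUW _ k (by omega) hkd
  · -- pA
    intro i hi hid v h1 h2
    obtain ⟨a, e⟩ := v
    by_cases hi4 : 4 ≤ i
    · rw [perC hs hfl hi4]
      rcases Nat.eq_or_lt_of_le hi4 with h4 | h4
      · subst h4
        rw [o4, o5 (4 + 1) (by omega)]
        show cox2 T (gP hd _) (idx hd 4) ∣ _
        rw [mPW (by omega)]
      · rw [o5 i h4, o5 (i + 1) (by omega)]
        show cox2 T (idx hd (i - 1)) (idx hd i) ∣ _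
        rw [mWW i h4 hid]
    have hi3 : i ≤ 3 := by omega
    interval_cases i
    · fin_cases a
      · exact absurd ((s2_0 hs e).symm.trans h2) (ne10 _ _)
      · exact absurd ((s1_1 hs e).symm.trans h1) (ne21 _ _)
      · exact absurd ((s1_2 hs e).symm.trans h1) (ne12 _ _)
    · fin_cases a
      · exact absurd ((s2_0 hs e).symm.trans h1) (ne10 _ _)
      · exact absurd ((s2_1 hs e).symm.trans h1) (ne01 _ _)
      · exact absurd ((s3_2 hs e).symm.trans h2) (ne12 _ _)
    · have ha : a = 0 := by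
        fin_cases a
        · rfl
        · exact absurd ((s3_1 hs e).symm.trans h1) (ne21 _ _)
        · exact absurd ((s3_2 hs e).symm.trans h1) (ne12 _ _)
      subst ha
      rw [o3]
      show cox2 T (gU hd e) (om2 hd 4 (0, e)) ∣ _
      rw [o40, mUP, per3_0 hfl e]
  · -- pB
    intro i hi hid v h1 h2 h3
    obtain ⟨a, e⟩ := v
    have hi3 : i ≤ 3 := by
      by_contra h
      exact h1 (s4_eq hs (by omega) _)
    interval_cases i
    · fin_cases a
      · exact absurd (s1_0 hs e) h1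
      · exact absurd ((s2_1 hs e).symm.trans h2) (ne01 _ _)
      · exfalso
        have h3' : T.s 2 (T.s 1 (2, e)) = T.s 1 (2, e) := h3
        rw [s1_2 hs, s2_1 hs] at h3'
        exact ne01 _ _ h3'
    · fin_cases a
      · exfalso
        have h3' : T.s 3 (T.s 2 (0, e)) = T.s 2 (0, e) := h3
        rw [s2_0 hs, s3_1 hs] at h3'
        exact ne21 _ _ h3'
      · exact absurd ((s3_1 hs e).symm.trans h2) (ne21 _ _)
      · exact absurd (s2_2 hs e) h1
    · fin_cases a
      · exact absurd (s3_0 hs e) h1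
      · show 2 * cox2 T (om2 hd 4 (1, e)) (om2 hd 4 (T.s 3 (1, e))) ∣ T.per 3 (1, e)
        rw [s3_1 hs, o41, o42, mPP, per3_1 hfl e, Nat.mul_div_cancel' e3]
      · show 2 * cox2 T (om2 hd 4 (2, e)) (om2 hd 4 (T.s 3 (2, e))) ∣ T.per 3 (2, e)
        rw [s3_2 hs, o41, o42, per3_2 hs hfl]
        have h := mPP (!e)
        rw [Bool.not_not] at h
        rw [h, Nat.mul_div_cancel' e3]
  · -- pB'
    intro i hi hid v h1 h2 h3
    obtain ⟨a, e⟩ := v
    exfalso
    have hi3 : i ≤ 2 := by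
      by_contra h
      exact h1 (s4_eq hs (by omega) _)
    interval_cases i
    · fin_cases a
      · have h3' : T.s 1 (T.s 2 (0, e)) = T.s 2 (0, e) := h3
        rw [s2_0 hs, s1_1 hs] at h3'
        exact ne21 _ _ h3'
      · exact absurd ((s1_1 hs e).symm.trans h2) (ne21 _ _)
      · exact h1 (s2_2 hs e)
    · fin_cases a
      · exact h1 (s3_0 hs e)
      · exact absurd ((s2_1 hs e).symm.trans h2) (ne01 _ _)
      · have h3' : T.s 2 (T.s 3 (2, e)) = T.s 3 (2, e) := h3
        rw [s3_2 hs, s2_1 hs] at h3'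
        exact ne01 _ _ h3'
  · -- pC
    intro i hi hid v h1 h2 h3
    obtain ⟨a, e⟩ := v
    have hi3 : i ≤ 2 := by
      by_contra h
      exact h3 (s4_eq hs (by omega) _)
    interval_cases i
    · fin_cases a
      · exact absurd (s1_0 hs e) h1
      · exact absurd ((s2_1 hs e).symm.trans h2) (ne01 _ _)
      · show T.s 1 (T.s 2 (T.s 1 (2, e))) = T.s 2 (T.s 1 (2, e)) ∧
          3 * cox2 T (om2 hd 2 (2, e)) (om2 hd 1 (T.s 2 (T.s 1 (2, e)))) ∣ T.per 1 (2, e)
        rw [s1_2 hs, s2_1 hs, s1_0 hs, o1, o2, hper']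
        refine ⟨rfl, ?_⟩
        show 3 * cox2 T (gU hd e) (gU hd (!!e)) ∣ 3
        rw [Bool.not_not]
        have h : cox2 T (gU hd e) (gU hd e) = 1 := mkCox_self _
        rw [h]
    · fin_cases a
      · show T.s 2 (T.s 3 (T.s 2 (0, e))) = T.s 3 (T.s 2 (0, e)) ∧
          3 * cox2 T (om2 hd 3 (0, e)) (om2 hd 2 (T.s 3 (T.s 2 (0, e)))) ∣ T.per 2 (0, e)
        rw [s2_0 hs, s3_1 hs, s2_2 hs, o3, o2, hper]
        refine ⟨rfl, ?_⟩
        show 3 * cox2 T (gU hd e) (gU hd e) ∣ 3
        have h : cox2 T (gU hd e) (gU hd e) = 1 := mkCox_self _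
        rw [h]
      · exact absurd ((s3_1 hs e).symm.trans h2) (ne21 _ _)
      · exact absurd (s2_2 hs e) h1
  · -- mid
    intro i hi hid v h1 h2
    obtain ⟨a, e⟩ := v
    have hi3 : i ≤ 2 := by
      by_contra h
      exact h2 (s4_eq hs (by omega) _)
    interval_cases i
    · fin_cases a
      · exact absurd (s1_0 hs e) h1
      · show T.s 2 (T.s 1 (1, e)) = T.s 1 (1, e) ∧ T.s 1 (T.s 2 (1, e)) = T.s 2 (1, e)
        rw [s1_1 hs, s2_2 hs, s2_1 hs, s1_0 hs]
        exact ⟨rfl, rfl⟩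
      · exact absurd (s2_2 hs e) h2
    · fin_cases a
      · exact absurd (s3_0 hs e) h2
      · show T.s 3 (T.s 2 (1, e)) = T.s 2 (1, e) ∧ T.s 2 (T.s 3 (1, e)) = T.s 3 (1, e)
        rw [s2_1 hs, s3_0 hs, s3_1 hs, s2_2 hs]
        exact ⟨rfl, rfl⟩
      · exact absurd (s2_2 hs e) h1

end H73.TO
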