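import Pool.Agent.H73.TO.Mat
import Pool.Agent.H73.TO.Psi

/-! # TO.C3b : interior type II_j, the relations seen in the flag system

States `(v, e)`, `s = sS j`: label `j` exchanges `(0, e), (1, e)`; `j + 1` exchanges `(1, e), (2, e)`; `j - 1` exchanges `(1, e), (2, !e)`. `ω = om3 j`: `U e = (0, e) = ω (j+1) (0, e) = ω j (2, e) = ω (j-1) (0, !e)`, `P e = (1, e) = ω (j+2) (0, e) = ω (j+2) (1, e) = ω (j+2) (2, !e)`, `R e = (2, e) = ω (j-2) (v, e)` for all `v`.
`cox3 T j` (Mat.lean): `M (U e) (P e) = per (j+1) (0, true)`, `M (P true) (P false) = per (j+1) (1, true) / 2`, `M (R e) (U !e) = per (j-2) (0, true)`, `M (R true) (R false) = per (j-2) (1, true) / 2`, all others 2. (`hfl`: periods do not depend on `e`; even periods: `two_dvd_per` for `i = j+1` at `(1, e)`, `two_dvd_per'` for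
`i = j - 2` at `(1, e)`: label `j - 1` moves it; `per (j-2)` at `(1, e)` and `(2, !e)` agree; `three_le_per`.)
`CRel`: `{U e, P e}`: second alternative, `i = j+1` at `(0, e)`; `{R e, U !e}`: second, `i = j-2` at `(0, e)` (there `ω (j-2) = R e`, `ω (j-1) = U !e`); `{P true, P false}`: third, `i = j+1`, `v = (1, e)`; `{R true, R false}`: fourth, `i = j-2`, `v = (1, e)`; first alternative (far labels): `{U true, U false}`: `j-1, j+1` at `(0, e)`;
`{U e, P !e}`: `j, j+2` at `(2, e)`; `{R e, U e}`: `j-2, j` at `(2, e)`; `{R e, P e'}`: `j-2, j+2` at `(0, e)` if `e' = e`, at `(2, e)` if `e' = !e`. -/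

namespace H73.TO

open H63.KO

variable {X : Type} {S : FSys X}

private theorem sS_a (t : ℕ) (v : Fin 3 × Bool) : sS (t + 2) t v = v := by
  unfold sS
  rw [if_neg (by omega), if_neg (by omega), if_neg (by omega)]

private theorem sS_b (t : ℕ) (v : Fin 3 × Bool) :
    sS (t + 2) (t + 1) v = (Equiv.swap 1 2 v.1, if v.1 = 0 then v.2 else !v.2) := by
  unfold sS
  rw [if_neg (by omega), if_neg (by omega), if_pos (by omega)]

private theorem sS_c (t : ℕ) (v : Fin 3 × Bool) :
    sS (t + 2) (t + 2) v = (Equiv.swap 0 1 v.1, v.2) := by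
  unfold sS
  rw [if_pos rfl]

private theorem sS_d (t : ℕ) (v : Fin 3 × Bool) :
    sS (t + 2) (t + 3) v = (Equiv.swap 1 2 v.1, v.2) := by
  unfold sS
  rw [if_neg (by omega), if_pos (by omega)]

private theorem sS_e (t : ℕ) (v : Fin 3 × Bool) : sS (t + 2) (t + 4) v = v := by
  unfold sS
  rw [if_neg (by omega), if_neg (by omega), if_neg (by omega)]

private theorem om_a (t : ℕ) (v : Fin 3 × Bool) : om3 (t + 2) t v = (2, v.2) := by
  unfold om3
  rw [if_neg (by omega), if_neg (by omega), if_neg (by omega)]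

private theorem om_b (t : ℕ) (v : Fin 3 × Bool) : om3 (t + 2) (t + 1) v = (0, !v.2) := by
  unfold om3
  rw [if_pos (by omega)]

private theorem om_c (t : ℕ) (v : Fin 3 × Bool) : om3 (t + 2) (t + 2) v = (0, v.2) := by
  unfold om3
  rw [if_neg (by omega), if_pos (by omega)]

private theorem om_d (t : ℕ) (v : Fin 3 × Bool) : om3 (t + 2) (t + 3) v = (0, v.2) := by
  unfold om3
  rw [if_neg (by omega), if_pos (by omega)]

private theorem om_e (t : ℕ) (v : Fin 3 × Bool) :
    om3 (t + 2) (t + 4) v = (1, if v.1 = 2 then !v.2 else v.2) := by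
  unfold om3
  rw [if_neg (by omega), if_neg (by omega), if_pos (by omega)]

private theorem cox_val {T : Typ S (Fin 3 × Bool)} {j : ℕ} {m n : Fin 3 × Bool} (h : m ≠ n) {a b : ℕ}
    (h1 : tab3 T j m n = a) (h2 : tab3 T j n m = b) (h3 : b ≤ a) (h4 : a ≠ 1) :
    cox3 T j m n = a ∧ cox3 T j n m = a := by
  have e1 : cox3 T j m n = tab3 T j m n :=
    mkCox_apply (m := tab3 T j) h (by rw [h1]; exact h4) (by rw [h1, h2]; exact h3)
  have e2 : cox3 T j n m = tab3 T j m n :=
    mkCox_apply' (m := tab3 T j) h.symm (by rw [h1]; exact h4) (by rw [h1, h2]; exact h3)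
  rw [e1, e2, h1]
  exact ⟨rfl, rfl⟩

theorem crel_three [Finite X] (T : Typ S (Fin 3 × Bool)) {j : ℕ} (h1 : 3 ≤ j) (h2 : j + 2 ≤ S.d)
    (hs : ∀ i v, T.s i v = sS j i v) (hfl : ∀ i v, T.per i (flip6 v) = T.per i v) :
    CRel T (cox3 T j) (om3 j) (j - 2) (j + 2) := by
  obtain ⟨t, rfl⟩ : ∃ t, j = t + 2 := ⟨j - 2, by omega⟩
  have ht : 1 ≤ t := by omega
  have htt : t + 2 - 2 = t := by omega
  rw [htt]
  have sa : ∀ v, T.s t v = v := fun v => by rw [hs, sS_a]
  have sb : ∀ v : Fin 3 × Bool, T.s (t + 1) v = (Equiv.swap 1 2 v.1, if v.1 = 0 then v.2 else !v.2) :=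
    fun v => by rw [hs, sS_b]
  have sc : ∀ v : Fin 3 × Bool, T.s (t + 2) v = (Equiv.swap 0 1 v.1, v.2) := fun v => by rw [hs, sS_c]
  have sd : ∀ v : Fin 3 × Bool, T.s (t + 3) v = (Equiv.swap 1 2 v.1, v.2) := fun v => by rw [hs, sS_d]
  have se : ∀ v, T.s (t + 4) v = v := fun v => by rw [hs, sS_e]
  have pfl : ∀ i (a : Fin 3) e, T.per i (a, e) = T.per i (a, true) := by
    intro i a e
    cases e
    · have := hfl i (a, true)
      exact this
    · rfl
  -- parities
  have pB : 2 ∣ T.per (t + 3) (1, true) := by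
    refine T.two_dvd_per (t + 3) (1, true) ?_ ?_ ?_
    · rw [sd]; decide
    · rw [se]
    · rw [se]
  have pD : 2 ∣ T.per t (1, true) := by
    refine T.two_dvd_per' t (1, true) ?_ ?_ ?_
    · rw [sb]; decide
    · rw [sa]
    · rw [sa]
  have tA := T.three_le_per (i := t + 3) (by omega) (by omega) (0, true)
  have tB := T.three_le_per (i := t + 3) (by omega) (by omega) (1, true)
  have tC := T.three_le_per (i := t) (by omega) (by omega) (0, true)
  have tD := T.three_le_per (i := t) (by omega) (by omega) (1, true)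
  obtain ⟨b, hb⟩ := pB
  obtain ⟨d, hd⟩ := pD
  have hb2 : T.per (t + 3) (1, true) / 2 = b := by omega
  have hd2 : T.per t (1, true) / 2 = d := by omega
  -- matrix entries
  have hUU : ∀ e : Bool, cox3 T (t + 2) (0, e) (0, !e) = 2 := by
    intro e
    refine (cox_val (m := ((0 : Fin 3), e)) (n := ((0 : Fin 3), !e)) (a := 2) (b := 2) ?_ ?_ ?_ le_rfl (by norm_num)).1
    · cases e <;> decide
    · cases e <;> simp [tab3]
    · cases e <;> simp [tab3]
  have hUP : ∀ e : Bool, cox3 T (t + 2) (0, e) (1, e) = T.per (t + 3) (0, true) ∧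
      cox3 T (t + 2) (1, e) (0, e) = T.per (t + 3) (0, true) := by
    intro e
    refine cox_val (m := ((0 : Fin 3), e)) (n := ((1 : Fin 3), e)) (b := 2) ?_ ?_ ?_ (by omega) (by omega)
    · cases e <;> decide
    · cases e <;> simp [tab3]
    · cases e <;> simp [tab3]
  have hUP' : ∀ e : Bool, cox3 T (t + 2) (0, e) (1, !e) = 2 ∧ cox3 T (t + 2) (1, !e) (0, e) = 2 := by
    intro e
    refine cox_val (m := ((0 : Fin 3), e)) (n := ((1 : Fin 3), !e)) (b := 2) ?_ ?_ ?_ (by omega) (by omega)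
    · cases e <;> decide
    · cases e <;> simp [tab3]
    · cases e <;> simp [tab3]
  have hRU : ∀ e : Bool, cox3 T (t + 2) (2, e) (0, !e) = T.per t (0, true) ∧
      cox3 T (t + 2) (0, !e) (2, e) = T.per t (0, true) := by
    intro e
    refine cox_val (m := ((2 : Fin 3), e)) (n := ((0 : Fin 3), !e)) (b := 2) ?_ ?_ ?_ (by omega) (by omega)
    · cases e <;> decide
    · cases e <;> simp [tab3]
    · cases e <;> simp [tab3]
  have hRU' : ∀ e : Bool, cox3 T (t + 2) (2, e) (0, e) = 2 ∧ cox3 T (t + 2) (0, e) (2, e) = 2 := by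
    intro e
    refine cox_val (m := ((2 : Fin 3), e)) (n := ((0 : Fin 3), e)) (b := 2) ?_ ?_ ?_ (by omega) (by omega)
    · cases e <;> decide
    · cases e <;> simp [tab3]
    · cases e <;> simp [tab3]
  have hPP : ∀ e : Bool, cox3 T (t + 2) (1, e) (1, !e) = b := by
    intro e
    refine (cox_val (m := ((1 : Fin 3), e)) (n := ((1 : Fin 3), !e)) (b := b) ?_ ?_ ?_ le_rfl (by omega)).1
    · cases e <;> decide
    · rw [← hb2]; cases e <;> simp [tab3]
    · rw [← hb2]; cases e <;> simp [tab3]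
  have hRR : ∀ e : Bool, cox3 T (t + 2) (2, e) (2, !e) = d := by
    intro e
    refine (cox_val (m := ((2 : Fin 3), e)) (n := ((2 : Fin 3), !e)) (b := d) ?_ ?_ ?_ le_rfl (by omega)).1
    · cases e <;> decide
    · rw [← hd2]; cases e <;> simp [tab3]
    · rw [← hd2]; cases e <;> simp [tab3]
  have hRP : ∀ e e' : Bool, cox3 T (t + 2) (2, e) (1, e') = 2 ∧ cox3 T (t + 2) (1, e') (2, e) = 2 := by
    intro e e'
    refine cox_val (m := ((2 : Fin 3), e)) (n := ((1 : Fin 3), e')) (b := 2) ?_ ?_ ?_ (by omega) (by omega)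
    · cases e <;> cases e' <;> decide
    · cases e <;> cases e' <;> simp [tab3]
    · cases e <;> cases e' <;> simp [tab3]
  -- the alternatives
  have far : ∀ (i k : ℕ) (v m n : Fin 3 × Bool), t ≤ i → i + 2 ≤ k → k ≤ t + 2 + 2 → T.s i v = v →
      T.s k v = v → om3 (t + 2) i v = m → om3 (t + 2) k v = n → cox3 T (t + 2) m n = 2 →
      (∃ i k v, t ≤ i ∧ i ≤ t + 2 + 2 ∧ t ≤ k ∧ k ≤ t + 2 + 2 ∧ (i + 2 ≤ k ∨ k + 2 ≤ i) ∧ T.s i v = v ∧
        T.s k v = v ∧ om3 (t + 2) i v = m ∧ om3 (t + 2) k v = n ∧ cox3 T (t + 2) m n = 2) := by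
    intro i k v m n q1 q2 q3 q4 q5 q6 q7 q8
    exact ⟨i, k, v, q1, by omega, by omega, q3, Or.inl q2, q4, q5, q6, q7, q8⟩
  have far' : ∀ (i k : ℕ) (v m n : Fin 3 × Bool), t ≤ i → i + 2 ≤ k → k ≤ t + 2 + 2 → T.s i v = v →
      T.s k v = v → om3 (t + 2) i v = m → om3 (t + 2) k v = n → cox3 T (t + 2) n m = 2 →
      (∃ i k v, t ≤ i ∧ i ≤ t + 2 + 2 ∧ t ≤ k ∧ k ≤ t + 2 + 2 ∧ (i + 2 ≤ k ∨ k + 2 ≤ i) ∧ T.s i v = v ∧
        T.s k v = v ∧ om3 (t + 2) i v = n ∧ om3 (t + 2) k v = m ∧ cox3 T (t + 2) n m = 2) := by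
    intro i k v m n q1 q2 q3 q4 q5 q6 q7 q8
    exact ⟨k, i, v, by omega, q3, q1, by omega, Or.inr q2, q5, q4, q7, q6, q8⟩
  rintro ⟨x, e⟩ ⟨y, e'⟩ hne -
  have h3 : ∀ z : Fin 3, z = 0 ∨ z = 1 ∨ z = 2 := by decide
  have hx := h3 x
  have hy := h3 y
  have hee : e' = e ∨ e' = !e := by cases e <;> cases e' <;> simp
  rcases hx with rfl | rfl | rfl <;> rcases hy with rfl | rfl | rfl <;> rcases hee with rfl | rfl
  · exact absurd rfl hne
  · -- U e, U !e
    refine Or.inl (far (t + 1) (t + 3) (0, !e) _ _ (by omega) (by omega) (by omega) ?_ ?_ ?_ ?_ (hUU e))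
    · rw [sb]; cases e <;> decide
    · rw [sd]; cases e <;> decide
    · rw [om_b]; simp
    · rw [om_d]
  · -- U, P same
    refine Or.inr (Or.inl ⟨t + 3, (0, e'), by omega, by omega, ?_, ?_, Or.inl ⟨?_, ?_⟩, ?_⟩)
    · rw [sd]; cases e' <;> decide
    · exact se _
    · rw [om_d]
    · exact (om_e t (0, e')).trans (by simp)
    · rw [(hUP e').1, pfl]
  · -- U e, P !e
    refine Or.inl (far (t + 2) (t + 4) (2, e) _ _ (by omega) (by omega) (by omega) ?_ ?_ ?_ ?_ (hUP' e).1)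
    · rw [sc]; cases e <;> decide
    · exact se _
    · rw [om_c]
    · rw [om_e]; simp
  · -- U e, R e
    refine Or.inl (far' t (t + 2) (2, e') _ _ (by omega) (by omega) (by omega) ?_ ?_ ?_ ?_ (hRU' e').2)
    · exact sa _
    · rw [sc]; cases e' <;> decide
    · rw [om_a]
    · rw [om_c]
  · -- U e, R !e
    refine Or.inr (Or.inl ⟨t, (0, !e), by omega, by omega, ?_, ?_, Or.inr ⟨?_, ?_⟩, ?_⟩)
    · exact sa _
    · rw [sb]; cases e <;> decide
    · rw [om_a]
    · rw [om_b]; simp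
    · have := (hRU (!e)).2
      rw [Bool.not_not] at this
      rw [this, pfl]
  · -- P e, U e
    refine Or.inr (Or.inl ⟨t + 3, (0, e'), by omega, by omega, ?_, ?_, Or.inr ⟨?_, ?_⟩, ?_⟩)
    · rw [sd]; cases e' <;> decide
    · exact se _
    · rw [om_d]
    · exact (om_e t (0, e')).trans (by simp)
    · rw [(hUP e').2, pfl]
  · -- P e, U !e
    have h7 := (hUP' (!e)).2
    rw [Bool.not_not] at h7
    refine Or.inl (far' (t + 2) (t + 4) (2, !e) _ _ (by omega) (by omega) (by omega) ?_ ?_ ?_ ?_ h7)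
    · rw [sc]; cases e <;> decide
    · exact se _
    · rw [om_c]
    · rw [om_e]; simp
  · exact absurd rfl hne
  · -- P e, P !e
    refine Or.inr (Or.inr (Or.inl ⟨t + 3, (1, e), by omega, by omega, ?_, ?_, ?_, ?_, ?_, ?_⟩))
    · rw [sd]; cases e <;> decide
    · exact se _
    · exact se _
    · exact (om_e t (1, e)).trans (by simp)
    · rw [sd]
      refine (om_e t _).trans ?_
      cases e <;> decide
    · rw [hPP, pfl, hb]
  · -- P e, R e
    refine Or.inl (far' t (t + 4) (0, e') _ _ (by omega) (by omega) (by omega) ?_ ?_ ?_ ?_ (hRP e' e').2)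
    · exact sa _
    · exact se _
    · rw [om_a]
    · rw [om_e]; simp
  · -- P e, R !e
    refine Or.inl (far' t (t + 4) (2, !e) _ _ (by omega) (by omega) (by omega) ?_ ?_ ?_ ?_ (hRP (!e) e).2)
    · exact sa _
    · exact se _
    · rw [om_a]
    · rw [om_e]; simp
  · -- R e, U e
    refine Or.inl (far t (t + 2) (2, e') _ _ (by omega) (by omega) (by omega) ?_ ?_ ?_ ?_ (hRU' e').1)
    · exact sa _
    · rw [sc]; cases e' <;> decide
    · rw [om_a]
    · rw [om_c]
  · -- R e, U !e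
    refine Or.inr (Or.inl ⟨t, (0, e), by omega, by omega, ?_, ?_, Or.inl ⟨?_, ?_⟩, ?_⟩)
    · exact sa _
    · rw [sb]; cases e <;> decide
    · rw [om_a]
    · rw [om_b]
    · rw [(hRU e).1, pfl]
  · -- R e, P e
    refine Or.inl (far t (t + 4) (0, e') _ _ (by omega) (by omega) (by omega) ?_ ?_ ?_ ?_ (hRP e' e').1)
    · exact sa _
    · exact se _
    · rw [om_a]
    · rw [om_e]; simp
  · -- R e, P !e
    refine Or.inl (far t (t + 4) (2, e) _ _ (by omega) (by omega) (by omega) ?_ ?_ ?_ ?_ (hRP e (!e)).1)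
    · exact sa _
    · exact se _
    · rw [om_a]
    · rw [om_e]; simp
  · exact absurd rfl hne
  · -- R e, R !e
    refine Or.inr (Or.inr (Or.inr ⟨t, (1, e), by omega, by omega, ?_, ?_, ?_, ?_, ?_, ?_⟩))
    · rw [sb]; cases e <;> decide
    · exact sa _
    · exact sa _
    · rw [om_a]
    · rw [sb]
      refine (om_a t _).trans ?_
      cases e <;> decide
    · rw [hRR, pfl, hd]

end H73.TO
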