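import Pool.Agent.H73.TO.C3a
import Pool.Agent.H73.TO.C3b
import Pool.Agent.H73.TO.Xi

/-! # TO.C3 : interior type II_j, the chart for the labels `[j - 2, j + 2]`

`xi_six` gives `ξ` and the automorphisms of `U e` (fixed pairs of `(0, e)` in `[j-2, j+2]`: `(j+1, (0, e))`, `(j, (2, e))`, `(j-1, (0, !e))`); `clab_three`, `crel_three`, `exists_chart` (`T.s = sS j` by `funext`). `P e = (1, e)`: pairs `(j+2, (0, e)), (j+2, (1, e)), (j+2, (2, !e))`: `semi_aut` at `(0, e)`, slides along `j` and `j - 1`.
`R e = (2, e)`: pairs `(j-2, (v, e))`: `semi_aut` at `(0, e)`, slides along `j` and `j + 1`. The two entries are 2 (`mkCox_apply`). -/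

namespace H73.TO

open H63.KO

variable {X : Type} {S : FSys X}

private theorem c3_sj (j : ℕ) (e : Bool) : sS j j (0, e) = (1, e) := by
  unfold sS; rw [if_pos rfl]; rfl

private theorem c3_sj2 (j : ℕ) (e : Bool) : sS j (j + 1) (1, e) = (2, e) := by
  unfold sS; rw [if_neg (by omega), if_pos rfl]; rfl

private theorem c3_sj3 (j : ℕ) (hj : 1 ≤ j) (e : Bool) : sS j (j - 1) (1, e) = (2, !e) := by
  unfold sS; rw [if_neg (by omega), if_neg (by omega), if_pos (by omega)]; rfl

private theorem c3_far (j i : ℕ) (h1 : i ≠ j) (h2 : i ≠ j + 1) (h3 : i + 1 ≠ j) (v : Fin 3 × Bool) :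
    sS j i v = v := by
  unfold sS; rw [if_neg h1, if_neg h2, if_neg h3]

private theorem c3_01_0 : Equiv.swap (0 : Fin 3) 1 0 ≠ 0 := by decide
private theorem c3_01_1 : Equiv.swap (0 : Fin 3) 1 1 ≠ 1 := by decide
private theorem c3_12_1 : Equiv.swap (1 : Fin 3) 2 1 ≠ 1 := by decide
private theorem c3_12_2 : Equiv.swap (1 : Fin 3) 2 2 ≠ 2 := by decide

theorem chart_three [Finite X] (T : Typ S (Fin 3 × Bool)) {j : ℕ} (h1 : 3 ≤ j) (h2 : j + 2 ≤ S.d)
    (hs : ∀ i v, T.s i v = sS j i v) (hfl : ∀ i v, T.per i (flip6 v) = T.per i v)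
    (hper : ∀ v, T.per j v = 3) (hper' : ∀ v, T.per (j - 1) v = 3) :
    ∃ (M : CoxeterMatrix (Fin 3 × Bool)) (_ : Chart S (sS j) (om3 j) M (j - 2) (j + 2)),
      M (2, true) (1, false) = 2 ∧ M (2, false) (1, true) = 2 := by
  obtain ⟨ξ, hξ, hedge, hU⟩ := xi_six T (by omega) (by omega) hs hper hper'
  have hTs : T.s = sS j := funext fun i => funext fun v => hs i v
  have e1 : ∀ e : Bool, ξ (1, e) = S.ρ j (ξ (0, e)) := by
    intro e
    have h := hedge j (0, e) (by rw [hs, c3_sj]; simp)
    rwa [hs, c3_sj] at h
  have e2 : ∀ e : Bool, ξ (2, e) = S.ρ (j + 1) (ξ (1, e)) := by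
    intro e
    have h := hedge (j + 1) (1, e) (by rw [hs, c3_sj2]; simp)
    rwa [hs, c3_sj2] at h
  have e3 : ∀ e : Bool, ξ (2, !e) = S.ρ (j - 1) (ξ (1, e)) := by
    intro e
    have h := hedge (j - 1) (1, e) (by rw [hs, c3_sj3 j (by omega)]; simp)
    rwa [hs, c3_sj3 j (by omega)] at h
  have hθ : ∀ n : Fin 3 × Bool, ∃ θ : Equiv.Perm X, IsAut S θ ∧
      ∀ i, j - 2 ≤ i → i ≤ j + 2 → ∀ v, T.s i v = v → om3 j i v = n → θ (ξ v) = S.ρ i (ξ v) := by
    rintro ⟨k, e⟩
    fin_cases k
    · obtain ⟨θ, ha, hb, hc, hd⟩ := hU e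
      refine ⟨θ, ha, ?_⟩
      rintro i hi1 hi2 ⟨a, f⟩ hsv hom
      rw [hs] at hsv
      have hcase : i = j - 2 ∨ i = j - 1 ∨ i = j ∨ i = j + 1 ∨ i = j + 2 := by omega
      rcases hcase with rfl | rfl | rfl | rfl | rfl
      · exfalso
        unfold om3 at hom
        rw [if_neg (by omega), if_neg (by omega), if_neg (by omega)] at hom
        simp at hom
      · unfold om3 at hom
        rw [if_pos (by omega)] at hom
        unfold sS at hsv
        rw [if_neg (by omega), if_neg (by omega), if_pos (by omega)] at hsv
        have hf : f = !e := by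
          have := (Prod.ext_iff.mp hom).2
          simp only at this
          rw [← this, Bool.not_not]
        subst hf
        fin_cases a
        · exact hd
        · exact absurd (Prod.ext_iff.mp hsv).1 c3_12_1
        · exact absurd (Prod.ext_iff.mp hsv).1 c3_12_2
      · unfold om3 at hom
        rw [if_neg (by omega), if_pos (by omega)] at hom
        unfold sS at hsv
        rw [if_pos rfl] at hsv
        have hf : f = e := (Prod.ext_iff.mp hom).2
        subst hf
        fin_cases a
        · exact absurd (Prod.ext_iff.mp hsv).1 c3_01_0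
        · exact absurd (Prod.ext_iff.mp hsv).1 c3_01_1
        · exact hc
      · unfold om3 at hom
        rw [if_neg (by omega), if_pos (by omega)] at hom
        unfold sS at hsv
        rw [if_neg (by omega), if_pos rfl] at hsv
        have hf : f = e := (Prod.ext_iff.mp hom).2
        subst hf
        fin_cases a
        · exact hb
        · exact absurd (Prod.ext_iff.mp hsv).1 c3_12_1
        · exact absurd (Prod.ext_iff.mp hsv).1 c3_12_2
      · exfalso
        unfold om3 at hom
        rw [if_neg (by omega), if_neg (by omega), if_pos rfl] at hom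
        simp at hom
    · obtain ⟨θ, ha, hb⟩ := T.semi_aut (k := j + 2) (x := ξ (0, e))
        (by rw [hs, c3_far j (j + 2) (by omega) (by omega) (by omega)])
      have k1 : θ (ξ (1, e)) = S.ρ (j + 2) (ξ (1, e)) := by
        rw [e1 e]; exact aut_slide ha (Or.inl (by omega)) hb
      have k2 : θ (ξ (2, !e)) = S.ρ (j + 2) (ξ (2, !e)) := by
        rw [e3 e]; exact aut_slide ha (Or.inl (by omega)) k1
      refine ⟨θ, ha, ?_⟩
      rintro i hi1 hi2 ⟨a, f⟩ hsv hom
      have hcase : i = j - 2 ∨ i = j - 1 ∨ i = j ∨ i = j + 1 ∨ i = j + 2 := by omega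
      rcases hcase with rfl | rfl | rfl | rfl | rfl
      · exfalso
        unfold om3 at hom
        rw [if_neg (by omega), if_neg (by omega), if_neg (by omega)] at hom
        simp at hom
      · exfalso
        unfold om3 at hom
        rw [if_pos (by omega)] at hom
        simp at hom
      · exfalso
        unfold om3 at hom
        rw [if_neg (by omega), if_pos (by omega)] at hom
        simp at hom
      · exfalso
        unfold om3 at hom
        rw [if_neg (by omega), if_pos (by omega)] at hom
        simp at hom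
      · unfold om3 at hom
        rw [if_neg (by omega), if_neg (by omega), if_pos rfl] at hom
        have hf := (Prod.ext_iff.mp hom).2
        fin_cases a
        · simp at hf
          subst hf
          exact hb
        · simp at hf
          subst hf
          exact k1
        · have hf' : f = !e := by
            clear hsv hom k1 k2
            revert hf
            cases f <;> cases e <;> simp
          subst hf'
          exact k2
    · obtain ⟨θ, ha, hb⟩ := T.semi_aut (k := j - 2) (x := ξ (0, e))
        (by rw [hs, c3_far j (j - 2) (by omega) (by omega) (by omega)])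
      have k1 : θ (ξ (1, e)) = S.ρ (j - 2) (ξ (1, e)) := by
        rw [e1 e]; exact aut_slide ha (Or.inr (by omega)) hb
      have k2 : θ (ξ (2, e)) = S.ρ (j - 2) (ξ (2, e)) := by
        rw [e2 e]; exact aut_slide ha (Or.inr (by omega)) k1
      refine ⟨θ, ha, ?_⟩
      rintro i hi1 hi2 ⟨a, f⟩ hsv hom
      have hcase : i = j - 2 ∨ i = j - 1 ∨ i = j ∨ i = j + 1 ∨ i = j + 2 := by omega
      rcases hcase with rfl | rfl | rfl | rfl | rfl
      · unfold om3 at hom
        rw [if_neg (by omega), if_neg (by omega), if_neg (by omega)] at hom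
        have hf : f = e := (Prod.ext_iff.mp hom).2
        subst hf
        fin_cases a
        · exact hb
        · exact k1
        · exact k2
      · exfalso
        unfold om3 at hom
        rw [if_pos (by omega)] at hom
        simp at hom
      · exfalso
        unfold om3 at hom
        rw [if_neg (by omega), if_pos (by omega)] at hom
        simp at hom
      · exfalso
        unfold om3 at hom
        rw [if_neg (by omega), if_pos (by omega)] at hom
        simp at hom
      · exfalso
        unfold om3 at hom
        rw [if_neg (by omega), if_neg (by omega), if_pos rfl] at hom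
        simp at hom
  obtain ⟨C, _, _⟩ := exists_chart (clab_three T h1 h2 hs hfl hper hper')
    (crel_three T h1 h2 hs hfl) ξ hξ (fun i _ _ v hv => hedge i v hv) hθ
  rw [hTs] at C
  refine ⟨cox3 T j, C, ?_, ?_⟩
  · have ht : tab3 T j (2, true) (1, false) = 2 := by unfold tab3; simp
    have ht' : tab3 T j (1, false) (2, true) = 2 := by unfold tab3; simp
    unfold cox3
    rw [mkCox_apply (by decide) (by rw [ht]; norm_num) (by rw [ht, ht']), ht]
  · have ht : tab3 T j (2, false) (1, true) = 2 := by unfold tab3; simp
    have ht' : tab3 T j (1, true) (2, false) = 2 := by unfold tab3; simp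
    unfold cox3
    rw [mkCox_apply (by decide) (by rw [ht]; norm_num) (by rw [ht, ht']), ht]

end H73.TO
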