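import Pool.Agent.H73.TO.Mat
import Pool.Agent.H73.TO.Psi

/-! # TO.C3a : interior type II_j, the Coxeter labelling for the labels `[j - 2, j + 2]`

States `(v, e)`, `s = sS j`: label `j` exchanges `(0, e), (1, e)`; `j + 1` exchanges `(1, e), (2, e)`; `j - 1` exchanges `(1, e), (2, !e)`. `ω = om3 j`: `U e = (0, e) = ω (j+1) (0, e) = ω j (2, e) = ω (j-1) (0, !e)`, `P e = (1, e) = ω (j+2) (0, e) = ω (j+2) (1, e) = ω (j+2) (2, !e)`, `R e = (2, e) = ω (j-2) (v, e)` for all `v`.
`cox3 T j` (Mat.lean): `M (U e) (P e) = per (j+1) (0, true)`, `M (P true) (P false) = per (j+1) (1, true) / 2`, `M (R e) (U !e) = per (j-2) (0, true)`, `M (R true) (R false) = per (j-2) (1, true) / 2`, all others 2. (`hfl`: periods do not depend on `e`; even periods: `two_dvd_per` for `i = j+1` at `(1, e)`, `two_dvd_per'` for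
`i = j - 2` at `(1, e)`: label `j - 1` moves it; `per (j-2)` at `(1, e)` and `(2, !e)` agree; `three_le_per`.)
`CLab`: slide: label `j-1` moves `(1, e), (2, !e)`: `ω (j+2)` equal `P e`; label `j` moves `(0, e), (1, e)`: `ω (j-2)`, `ω (j+2)` equal; label `j+1` moves `(1, e), (2, e)`: `ω (j-2)` equal. comm: `(j-2, j)` at `(2, e)`: R e, U e: 2; `(j-2, j+1)` at `(0, e)`: R e, U e; `(j-2, j+2)`: R, P: 2;
`(j-1, j+1)` at `(0, e)`: U (!e), U e; `(j-1, j+2)` at `(0, e)`: U (!e), P e; `(j, j+2)` at `(2, e)`: U e, P (!e). pA: `i = j-2` at `(0, e)`: R e, U (!e); `i = j+1` at `(0, e)`: U e, P e. pB: `i = j+1` at `(1, e)`, `(2, e)`: P e, P (!e); pB': `i = j-2` at `(1, e)`, `(2, !e)`: R e, R (!e).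
pC: `i = j-1` at `(2, e)` (path to `(1, !e)`, `(0, !e)`): `ω j (2, e) = U e = ω (j-1) (0, !e)`; `i = j` at `(0, e)`: U e, U e; period 3. mid at `(1, e)`. `cov`: U e = (j+1, (0, e)), P e = (j+2, (0, e)), R e = (j-2, (0, e)). Only five labels and six states occur: write `i = j - 2 + k`, `k ≤ 4`. Checked by a program. -/

namespace H73.TO

open H63.KO

variable {X : Type} {S : FSys X}

private theorem s_0 (T : Typ S (Fin 3 × Bool)) {a : ℕ} (hs : ∀ i v, T.s i v = sS (a + 2) i v)
    (v : Fin 3 × Bool) : T.s a v = v := by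
  rw [hs]
  unfold sS
  rw [if_neg (by omega), if_neg (by omega), if_neg (by omega)]

private theorem s_1 (T : Typ S (Fin 3 × Bool)) {a : ℕ} (hs : ∀ i v, T.s i v = sS (a + 2) i v)
    (v : Fin 3 × Bool) : T.s (a + 1) v = (Equiv.swap 1 2 v.1, if v.1 = 0 then v.2 else !v.2) := by
  rw [hs]
  unfold sS
  rw [if_neg (by omega), if_neg (by omega), if_pos (by omega)]

private theorem s_2 (T : Typ S (Fin 3 × Bool)) {a : ℕ} (hs : ∀ i v, T.s i v = sS (a + 2) i v)
    (v : Fin 3 × Bool) : T.s (a + 2) v = (Equiv.swap 0 1 v.1, v.2) := by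
  rw [hs]
  unfold sS
  rw [if_pos rfl]

private theorem s_3 (T : Typ S (Fin 3 × Bool)) {a : ℕ} (hs : ∀ i v, T.s i v = sS (a + 2) i v)
    (v : Fin 3 × Bool) : T.s (a + 3) v = (Equiv.swap 1 2 v.1, v.2) := by
  rw [hs]
  unfold sS
  rw [if_neg (by omega), if_pos (by omega)]

private theorem s_4 (T : Typ S (Fin 3 × Bool)) {a : ℕ} (hs : ∀ i v, T.s i v = sS (a + 2) i v)
    (v : Fin 3 × Bool) : T.s (a + 4) v = v := by
  rw [hs]
  unfold sS
  rw [if_neg (by omega), if_neg (by omega), if_neg (by omega)]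

private theorem o_0 (a : ℕ) (v : Fin 3 × Bool) : om3 (a + 2) a v = (2, v.2) := by
  unfold om3
  rw [if_neg (by omega), if_neg (by omega), if_neg (by omega)]

private theorem o_1 (a : ℕ) (v : Fin 3 × Bool) : om3 (a + 2) (a + 1) v = (0, !v.2) := by
  unfold om3
  rw [if_pos (by omega)]

private theorem o_2 (a : ℕ) (v : Fin 3 × Bool) : om3 (a + 2) (a + 2) v = (0, v.2) := by
  unfold om3
  rw [if_neg (by omega), if_pos (by omega)]

private theorem o_3 (a : ℕ) (v : Fin 3 × Bool) : om3 (a + 2) (a + 3) v = (0, v.2) := by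
  unfold om3
  rw [if_neg (by omega), if_pos (by omega)]

private theorem o_4 (a : ℕ) (v : Fin 3 × Bool) :
    om3 (a + 2) (a + 4) v = (1, if v.1 = 2 then !v.2 else v.2) := by
  unfold om3
  rw [if_neg (by omega), if_neg (by omega), if_pos (by omega)]

/-- the states under the five labels -/
private def sv (k : Fin 5) (v : Fin 3 × Bool) : Fin 3 × Bool :=
  match k with
  | 0 => v
  | 1 => (Equiv.swap 1 2 v.1, if v.1 = 0 then v.2 else !v.2)
  | 2 => (Equiv.swap 0 1 v.1, v.2)
  | 3 => (Equiv.swap 1 2 v.1, v.2)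
  | 4 => v

/-- the generators of the five labels -/
private def ov (k : Fin 5) (v : Fin 3 × Bool) : Fin 3 × Bool :=
  match k with
  | 0 => (2, v.2)
  | 1 => (0, !v.2)
  | 2 => (0, v.2)
  | 3 => (0, v.2)
  | 4 => (1, if v.1 = 2 then !v.2 else v.2)

private theorem s_k (T : Typ S (Fin 3 × Bool)) {a : ℕ} (hs : ∀ i v, T.s i v = sS (a + 2) i v)
    (k : Fin 5) (v : Fin 3 × Bool) : T.s (a + k.val) v = sv k v := by
  fin_cases k
  · exact s_0 T hs v
  · exact s_1 T hs v
  · exact s_2 T hs v
  · exact s_3 T hs v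
  · exact s_4 T hs v

private theorem o_k (a : ℕ) (k : Fin 5) (v : Fin 3 × Bool) :
    om3 (a + 2) (a + k.val) v = ov k v := by
  fin_cases k
  · exact o_0 a v
  · exact o_1 a v
  · exact o_2 a v
  · exact o_3 a v
  · exact o_4 a v

/-- the entries which are 2 -/
private def gd (p q : Fin 3 × Bool) : Bool :=
  decide (p ≠ q) && !(decide ((p.1 = 0 ∧ q.1 = 1 ∧ p.2 = q.2) ∨ (q.1 = 0 ∧ p.1 = 1 ∧ q.2 = p.2) ∨
    (p.1 = 2 ∧ q.1 = 0 ∧ p.2 ≠ q.2) ∨ (q.1 = 2 ∧ p.1 = 0 ∧ q.2 ≠ p.2) ∨
    (p.1 = 1 ∧ q.1 = 1) ∨ (p.1 = 2 ∧ q.1 = 2)))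

private theorem tab3_gd (T : Typ S (Fin 3 × Bool)) (j : ℕ) (p q : Fin 3 × Bool)
    (h : gd p q = true) : tab3 T j p q = 2 := by
  unfold tab3
  rw [if_neg, if_neg, if_neg, if_neg]
  all_goals revert h; revert p q; decide

private theorem gd_symm (p q : Fin 3 × Bool) (h : gd p q = true) : gd q p = true := by
  revert h; revert p q; decide

private theorem gd_ne (p q : Fin 3 × Bool) (h : gd p q = true) : p ≠ q := by
  revert h; revert p q; decide

private theorem M_gd (T : Typ S (Fin 3 × Bool)) (j : ℕ) (p q : Fin 3 × Bool)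
    (h : gd p q = true) : cox3 T j p q = 2 := by
  have h1 := tab3_gd T j p q h
  have h2 := tab3_gd T j q p (gd_symm p q h)
  unfold cox3
  rw [mkCox_apply (gd_ne p q h) (by rw [h1]; norm_num) (by rw [h1, h2]), h1]

private theorem fin3 (x : Fin 3) : x = 0 ∨ x = 1 ∨ x = 2 := by
  revert x; decide

theorem clab_three [Finite X] (T : Typ S (Fin 3 × Bool)) {j : ℕ} (h1 : 3 ≤ j) (h2 : j + 2 ≤ S.d)
    (hs : ∀ i v, T.s i v = sS j i v) (hfl : ∀ i v, T.per i (flip6 v) = T.per i v)
    (hper : ∀ v, T.per j v = 3) (hper' : ∀ v, T.per (j - 1) v = 3) :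
    CLab T (cox3 T j) (om3 j) (j - 2) (j + 2) := by
  obtain ⟨a, rfl⟩ : ∃ a, j = a + 2 := ⟨j - 2, by omega⟩
  have ea : a + 2 - 2 = a := by omega
  have ea1 : a + 2 - 1 = a + 1 := by omega
  rw [ea1] at hper'
  rw [ea]
  have S0 := s_0 T hs
  have S4 := s_4 T hs
  have n01 : ∀ e e' : Bool, ((0, e) : Fin 3 × Bool) ≠ (1, e') := by decide
  have n12 : ∀ e e' : Bool, ((1, e) : Fin 3 × Bool) ≠ (2, e') := by decide
  have A0 : ∀ e, T.s (a + 1) (0, e) = (0, e) := by
    intro e; rw [s_1 T hs]; cases e <;> rfl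
  have A1 : ∀ e, T.s (a + 1) (1, e) = (2, !e) := by
    intro e; rw [s_1 T hs]; cases e <;> rfl
  have A2 : ∀ e, T.s (a + 1) (2, e) = (1, !e) := by
    intro e; rw [s_1 T hs]; cases e <;> rfl
  have B0 : ∀ e, T.s (a + 2) (0, e) = (1, e) := by
    intro e; rw [s_2 T hs]; cases e <;> rfl
  have B1 : ∀ e, T.s (a + 2) (1, e) = (0, e) := by
    intro e; rw [s_2 T hs]; cases e <;> rfl
  have B2 : ∀ e, T.s (a + 2) (2, e) = (2, e) := by
    intro e; rw [s_2 T hs]; cases e <;> rfl
  have C0 : ∀ e, T.s (a + 3) (0, e) = (0, e) := by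
    intro e; rw [s_3 T hs]; cases e <;> rfl
  have C1 : ∀ e, T.s (a + 3) (1, e) = (2, e) := by
    intro e; rw [s_3 T hs]; cases e <;> rfl
  have C2 : ∀ e, T.s (a + 3) (2, e) = (1, e) := by
    intro e; rw [s_3 T hs]; cases e <;> rfl
  -- the periods
  have f3 : ∀ e, T.per (a + 3) (0, e) = T.per (a + 3) (0, true) := by
    intro e
    cases e
    · exact hfl (a + 3) (0, true)
    · rfl
  have f0 : ∀ e, T.per a (0, e) = T.per a (0, true) := by
    intro e
    cases e
    · exact hfl a (0, true)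
    · rfl
  have g3 : ∀ e, T.per (a + 3) (1, e) = T.per (a + 3) (1, true) := by
    intro e
    cases e
    · exact hfl (a + 3) (1, true)
    · rfl
  have g0 : ∀ e, T.per a (1, e) = T.per a (1, true) := by
    intro e
    cases e
    · exact hfl a (1, true)
    · rfl
  have k3 : ∀ e, T.per (a + 3) (2, e) = T.per (a + 3) (1, true) := by
    intro e
    rw [← g3 e, ← T.per_self (a + 3) (1, e), C1]
  have k0 : ∀ e, T.per a (2, e) = T.per a (1, true) := by
    intro e
    rw [← g0 (!e), ← T.per_succ a (1, !e), A1, Bool.not_not]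
  have l3 : 3 ≤ T.per (a + 3) (0, true) := T.three_le_per (by omega) (by omega) _
  have l0 : 3 ≤ T.per a (0, true) := T.three_le_per (by omega) (by omega) _
  have m3 : 3 ≤ T.per (a + 3) (1, true) := T.three_le_per (by omega) (by omega) _
  have m0 : 3 ≤ T.per a (1, true) := T.three_le_per (by omega) (by omega) _
  have d3 : 2 ∣ T.per (a + 3) (1, true) := by
    apply T.two_dvd_per
    · rw [C1]; exact (n12 _ _).symm
    · exact S4 _
    · exact S4 _
  have d0 : 2 ∣ T.per a (1, true) := by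
    apply T.two_dvd_per'
    · rw [A1]; exact (n12 _ _).symm
    · exact S0 _
    · exact S0 _
  -- the entries
  have M1 : ∀ e, cox3 T (a + 2) (0, e) (1, e) = T.per (a + 3) (0, true) := by
    intro e
    have h3 : tab3 T (a + 2) (0, e) (1, e) = T.per (a + 3) (0, true) := by
      unfold tab3
      rw [if_pos ⟨rfl, rfl, rfl⟩]
    have h4 : tab3 T (a + 2) (1, e) (0, e) = 2 := by
      unfold tab3
      rw [if_neg, if_neg, if_neg, if_neg]
      all_goals cases e <;> decide
    unfold cox3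
    rw [mkCox_apply (n01 _ _) (by rw [h3]; omega) (by rw [h3, h4]; omega), h3]
  have M2 : ∀ e, cox3 T (a + 2) (2, e) (0, !e) = T.per a (0, true) := by
    intro e
    have h3 : tab3 T (a + 2) (2, e) (0, !e) = T.per a (0, true) := by
      unfold tab3
      rw [if_neg (by cases e <;> decide), if_pos (by cases e <;> decide)]
      rfl
    have h4 : tab3 T (a + 2) (0, !e) (2, e) = 2 := by
      unfold tab3
      rw [if_neg, if_neg, if_neg, if_neg]
      all_goals cases e <;> decide
    unfold cox3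
    rw [mkCox_apply (by cases e <;> decide) (by rw [h3]; omega) (by rw [h3, h4]; omega), h3]
  have M3 : ∀ e, cox3 T (a + 2) (1, e) (1, !e) = T.per (a + 3) (1, true) / 2 := by
    intro e
    have h3 : ∀ e', tab3 T (a + 2) (1, e') (1, !e') = T.per (a + 3) (1, true) / 2 := by
      intro e'
      unfold tab3
      rw [if_neg (by cases e' <;> decide), if_neg (by cases e' <;> decide),
        if_pos (by cases e' <;> decide)]
    have h4 : tab3 T (a + 2) (1, !e) (1, e) = T.per (a + 3) (1, true) / 2 := by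
      have := h3 (!e)
      rwa [Bool.not_not] at this
    unfold cox3
    rw [mkCox_apply (by cases e <;> decide) (by rw [h3]; omega) (by rw [h3, h4]), h3]
  have M4 : ∀ e, cox3 T (a + 2) (2, e) (2, !e) = T.per a (1, true) / 2 := by
    intro e
    have h3 : ∀ e', tab3 T (a + 2) (2, e') (2, !e') = T.per a (1, true) / 2 := by
      intro e'
      unfold tab3
      rw [if_neg (by cases e' <;> decide), if_neg (by cases e' <;> decide),
        if_neg (by cases e' <;> decide), if_pos (by cases e' <;> decide)]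
      rfl
    have h4 : tab3 T (a + 2) (2, !e) (2, e) = T.per a (1, true) / 2 := by
      have := h3 (!e)
      rwa [Bool.not_not] at this
    unfold cox3
    rw [mkCox_apply (by cases e <;> decide) (by rw [h3]; omega) (by rw [h3, h4]), h3]
  have Mself : ∀ e, cox3 T (a + 2) (0, e) (0, e) = 1 := fun e => mkCox_self _
  -- reduction to the five labels
  have lab : ∀ i, a ≤ i → i ≤ a + 2 + 2 → ∃ k : Fin 5, i = a + k.val := by
    intro i h3 h4
    exact ⟨⟨i - a, by omega⟩, by simp only []; omega⟩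
  have lab4 : ∀ i, a ≤ i → i + 1 ≤ a + 2 + 2 → i = a ∨ i = a + 1 ∨ i = a + 2 ∨ i = a + 3 := by
    intro i h3 h4
    omega
  have st : ∀ i, a ≤ i → i ≤ a + 2 + 2 → ∀ u v : Fin 3 × Bool, v = T.s i u →
      Reach T.s a (a + 2 + 2) u v := by
    intro i hi1 hi2 u v hv
    exact Relation.ReflTransGen.single ⟨i, hi1, hi2, hv⟩
  refine ⟨by omega, by omega, by omega, ?_, ?_, ?_, ?_, ?_, ?_, ?_, ?_, ?_⟩
  · -- conn
    have flip : ∀ e, Reach T.s a (a + 2 + 2) (1, e) (1, !e) := by
      intro e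
      exact (st (a + 3) (by omega) (by omega) (1, e) (2, e) (C1 e).symm).trans
        (st (a + 1) (by omega) (by omega) (2, e) (1, !e) (A2 e).symm)
    have to1 : ∀ u : Fin 3 × Bool, Reach T.s a (a + 2 + 2) u (1, u.2) := by
      rintro ⟨x, e⟩
      obtain rfl | rfl | rfl := fin3 x
      · exact st (a + 2) (by omega) (by omega) _ _ (B0 e).symm
      · exact Relation.ReflTransGen.refl
      · exact st (a + 3) (by omega) (by omega) _ _ (C2 e).symm
    have of1 : ∀ u : Fin 3 × Bool, Reach T.s a (a + 2 + 2) (1, u.2) u := by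
      rintro ⟨x, e⟩
      obtain rfl | rfl | rfl := fin3 x
      · exact st (a + 2) (by omega) (by omega) _ _ (B1 e).symm
      · exact Relation.ReflTransGen.refl
      · exact st (a + 3) (by omega) (by omega) _ _ (C1 e).symm
    intro u v
    refine (to1 u).trans (Relation.ReflTransGen.trans ?_ (of1 v))
    by_cases h : u.2 = v.2
    · rw [h]
    · have h3 : v.2 = !u.2 := by
        revert h
        cases u.2 <;> cases v.2 <;> simp
      rw [h3]
      exact flip u.2
  · -- cov
    rintro ⟨x, e⟩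
    obtain rfl | rfl | rfl := fin3 x
    · exact ⟨a + 3, (0, e), by omega, by omega, C0 e, o_3 a _⟩
    · exact ⟨a + 4, (0, e), by omega, by omega, S4 _, o_4 a _⟩
    · exact ⟨a, (0, e), by omega, by omega, S0 _, o_0 a _⟩
  · -- slide
    intro i k hi1 hi2 hk1 hk2 hik v
    obtain ⟨i, rfl⟩ := lab i hi1 hi2
    obtain ⟨k, rfl⟩ := lab k hk1 hk2
    rw [s_k T hs, s_k T hs, o_k, o_k]
    have hik' : i.val + 2 ≤ k.val ∨ k.val + 2 ≤ i.val := by omega
    have key : ∀ i k : Fin 5, (i.val + 2 ≤ k.val ∨ k.val + 2 ≤ i.val) → ∀ v, sv i v ≠ v →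
        sv k v = v → ov k (sv i v) = ov k v := by decide
    exact key i k hik' v
  · -- comm
    intro i k hi1 hik hk2 v
    obtain ⟨i, rfl⟩ := lab i hi1 (by omega)
    obtain ⟨k, rfl⟩ := lab k (by omega) hk2
    rw [s_k T hs, s_k T hs, o_k, o_k]
    intro q1 q2
    have hik' : i.val + 2 ≤ k.val := by omega
    have key : ∀ i k : Fin 5, i.val + 2 ≤ k.val → ∀ v, sv i v = v → sv k v = v →
        ov i v = ov k v ∨ gd (ov i v) (ov k v) = true := by decide
    rcases key i k hik' v q1 q2 with q | q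
    · exact Or.inl q
    · exact Or.inr (M_gd T (a + 2) _ _ q)
  · -- pA
    intro i hi1 hi2 v
    rcases lab4 i hi1 hi2 with rfl | rfl | rfl | rfl
    · intro _ q
      rcases v with ⟨x, e⟩
      obtain rfl | rfl | rfl := fin3 x
      · rw [o_0, o_1]
        show cox3 T (i + 2) (2, e) (0, !e) ∣ T.per i (0, e)
        rw [M2, f0 e]
      · rw [A1] at q
        exact absurd q (n12 _ _).symm
      · rw [A2] at q
        exact absurd q (n12 _ _)
    · intro q q'
      rcases v with ⟨x, e⟩
      obtain rfl | rfl | rfl := fin3 x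
      · exact absurd ((B0 e).symm.trans q') (n01 _ _).symm
      · exact absurd ((B1 e).symm.trans q') (n01 _ _)
      · exact absurd ((A2 e).symm.trans q) (n12 _ _)
    · intro q q'
      rcases v with ⟨x, e⟩
      obtain rfl | rfl | rfl := fin3 x
      · exact absurd ((B0 e).symm.trans q) (n01 _ _).symm
      · exact absurd ((B1 e).symm.trans q) (n01 _ _)
      · exact absurd ((C2 e).symm.trans q') (n12 _ _)
    · intro q _
      rcases v with ⟨x, e⟩
      obtain rfl | rfl | rfl := fin3 x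
      · have e4 : om3 (a + 2) (a + 3 + 1) (0, e) = (1, e) := o_4 a (0, e)
        rw [o_3, e4]
        show cox3 T (a + 2) (0, e) (1, e) ∣ T.per (a + 3) (0, e)
        rw [M1, f3 e]
      · exact absurd ((C1 e).symm.trans q) (n12 _ _).symm
      · exact absurd ((C2 e).symm.trans q) (n12 _ _)
  · -- pB
    intro i hi1 hi2 v
    rcases lab4 i hi1 hi2 with rfl | rfl | rfl | rfl
    · intro q
      exact absurd (S0 v) q
    · intro q q' q2
      rcases v with ⟨x, e⟩
      obtain rfl | rfl | rfl := fin3 x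
      · exact absurd (A0 e) q
      · exact absurd ((B1 e).symm.trans q') (n01 _ _)
      · rw [A2] at q2
        exact absurd ((B1 (!e)).symm.trans q2) (n01 _ _)
    · intro q q' q2
      rcases v with ⟨x, e⟩
      obtain rfl | rfl | rfl := fin3 x
      · rw [B0] at q2
        exact absurd ((C1 e).symm.trans q2) (n12 _ _).symm
      · exact absurd ((C1 e).symm.trans q') (n12 _ _).symm
      · exact absurd (B2 e) q
    · intro q _ _
      rcases v with ⟨x, e⟩
      obtain rfl | rfl | rfl := fin3 x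
      · exact absurd (C0 e) q
      · have e4 : om3 (a + 2) (a + 3 + 1) (1, e) = (1, e) := o_4 a (1, e)
        have e5 : om3 (a + 2) (a + 3 + 1) (2, e) = (1, !e) := o_4 a (2, e)
        rw [C1, e4, e5, M3, g3 e, Nat.mul_div_cancel' d3]
      · have e4 : om3 (a + 2) (a + 3 + 1) (1, e) = (1, e) := o_4 a (1, e)
        have e5 : om3 (a + 2) (a + 3 + 1) (2, e) = (1, !e) := o_4 a (2, e)
        have e1 : cox3 T (a + 2) (1, !e) (1, e) = T.per (a + 3) (1, true) / 2 := by
          have := M3 (!e)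
          rwa [Bool.not_not] at this
        rw [C2, e4, e5, e1, k3 e, Nat.mul_div_cancel' d3]
  · -- pB'
    intro i hi1 hi2 v
    rcases lab4 i hi1 hi2 with rfl | rfl | rfl | rfl
    · intro q _ _
      rcases v with ⟨x, e⟩
      obtain rfl | rfl | rfl := fin3 x
      · exact absurd (A0 e) q
      · rw [A1, o_0, o_0]
        show 2 * cox3 T (i + 2) (2, e) (2, !e) ∣ T.per i (1, e)
        rw [M4, g0 e, Nat.mul_div_cancel' d0]
      · rw [A2, o_0, o_0]
        show 2 * cox3 T (i + 2) (2, e) (2, !e) ∣ T.per i (2, e)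
        rw [M4, k0 e, Nat.mul_div_cancel' d0]
    · intro q q' q2
      rcases v with ⟨x, e⟩
      obtain rfl | rfl | rfl := fin3 x
      · have q3 : T.s (a + 1) (T.s (a + 2) (0, e)) = T.s (a + 2) (0, e) := q2
        rw [B0] at q3
        exact absurd ((A1 e).symm.trans q3) (n12 _ _).symm
      · exact absurd ((A1 e).symm.trans q') (n12 _ _).symm
      · exact absurd (B2 e) q
    · intro q q' q2
      rcases v with ⟨x, e⟩
      obtain rfl | rfl | rfl := fin3 x
      · exact absurd (C0 e) q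
      · exact absurd ((B1 e).symm.trans q') (n01 _ _)
      · have q3 : T.s (a + 2) (T.s (a + 3) (2, e)) = T.s (a + 3) (2, e) := q2
        rw [C2] at q3
        exact absurd ((B1 e).symm.trans q3) (n01 _ _)
    · intro q
      exact absurd (S4 v) q
  · -- pC
    intro i hi1 hi2 v
    rcases lab4 i hi1 hi2 with rfl | rfl | rfl | rfl
    · intro q
      exact absurd (S0 v) q
    · intro q q' _
      rcases v with ⟨x, e⟩
      obtain rfl | rfl | rfl := fin3 x
      · exact absurd (A0 e) q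
      · exact absurd ((B1 e).symm.trans q') (n01 _ _)
      · have e2 : T.s (a + 1 + 1) (1, !e) = (0, !e) := B1 (!e)
        have e4 : om3 (a + 2) (a + 1 + 1) (2, e) = (0, e) := o_2 a (2, e)
        have e5 : om3 (a + 2) (a + 1) (0, !e) = (0, e) := by rw [o_1]; simp
        rw [A2, e2, A0, e4, e5, hper', Mself]
        exact ⟨rfl, dvd_refl _⟩
    · intro q q' _
      rcases v with ⟨x, e⟩
      obtain rfl | rfl | rfl := fin3 x
      · have e2 : T.s (a + 2 + 1) (1, e) = (2, e) := C1 e
        have e4 : om3 (a + 2) (a + 2 + 1) (0, e) = (0, e) := o_3 a (0, e)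
        have e5 : om3 (a + 2) (a + 2) (2, e) = (0, e) := o_2 a (2, e)
        rw [B0, e2, B2, e4, e5, hper, Mself]
        exact ⟨rfl, dvd_refl _⟩
      · exact absurd ((C1 e).symm.trans q') (n12 _ _).symm
      · exact absurd (B2 e) q
    · intro _ _ q2
      exact absurd (S4 _) q2
  · -- mid
    intro i hi1 hi2 v
    rcases lab4 i hi1 hi2 with rfl | rfl | rfl | rfl
    · intro q
      exact absurd (S0 v) q
    · intro q q'
      rcases v with ⟨x, e⟩
      obtain rfl | rfl | rfl := fin3 x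
      · exact absurd (A0 e) q
      · show T.s (a + 2) (T.s (a + 1) (1, e)) = T.s (a + 1) (1, e) ∧
          T.s (a + 1) (T.s (a + 2) (1, e)) = T.s (a + 2) (1, e)
        rw [A1, B1, B2, A0]
        exact ⟨rfl, rfl⟩
      · exact absurd (B2 e) q'
    · intro q q'
      rcases v with ⟨x, e⟩
      obtain rfl | rfl | rfl := fin3 x
      · exact absurd (C0 e) q'
      · show T.s (a + 3) (T.s (a + 2) (1, e)) = T.s (a + 2) (1, e) ∧
          T.s (a + 2) (T.s (a + 3) (1, e)) = T.s (a + 3) (1, e)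
        rw [B1, C1, C0, B2]
        exact ⟨rfl, rfl⟩
      · exact absurd (B2 e) q
    · intro _ q'
      exact absurd (S4 v) q'

end H73.TO
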