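import Pool.Agent.H73.TO.TypB

/-! # TO.Rk2 : the rank 2 relations of a Coxeter labelling

Let `h : CLab T M ω a b`, `w = wrd T.s M ω` (`M.simple (ω i v)` if `s i v = v`, `1` otherwise) and `f (u, g) = (s i (s (i+1) u), g * w (i+1) u * w i (s (i+1) u))`.
The orbit of `v` under `s i, s (i + 1)` has 1, 2 or 3 states (`pA`, `pB`, `pB'`, `pC`, `mid`; case distinction on whether `s i v = v`, `s (i+1) v = v`).
1 state: `f (v, g) = (v, g * σ τ)` with `σ = simple (ω (i+1) v)`, `τ = simple (ω i v)`; `(σ τ) ^ n = 1` if `M .. ∣ n` (`CoxeterMatrix.simple_mul_simple_pow`-type lemma of Mathlib: `M.toCoxeterSystem.simple_mul_simple_pow`).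
2 states `v, v'`, edge with label `i` (semi-edges `σ = simple (ω (i+1) v)`, `σ' = simple (ω (i+1) v')`): `f (v, g) = (v', g σ)`, `f (v', g) = (v, g σ')`, so `f^[2] (v, g) = (v, g σ σ')`; the period is even.
2 states, edge with label `i + 1`: `f (v, g) = (v', g * w i v')` and so on. 3 states `v0 -i- v1 -(i+1)- v2` with semi-edges `σ = simple (ω (i+1) v0)`, `σ' = simple (ω i v2)`:
`f (v0, g) = (v1, g σ)`, `f (v1, g) = (v2, g σ')` (`s (i+1) v1 = v2`, then label `i` fixes `v2`), `f (v2, g) = (v0, g)`: so `f^[3]` multiplies by `σ σ'` at `v0`, by a conjugate or inverse at the other states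
(at `v1`: `σ' σ`; at `v2`: `σ σ'`), and `3 M ∣ per`. The period is constant on the orbit (`per_self`, `per_succ`); the divisibility for `v1`, `v2` comes from `pC` at `v0`. -/

namespace H73.TO

open H63.KO

variable {X V B : Type} {S : FSys X}

private theorem wrd_fix (s : ℕ → V → V) (M : CoxeterMatrix B) (ω : ℕ → V → B) {i : ℕ} {v : V}
    (h : s i v = v) : wrd s M ω i v = M.simple (ω i v) := by
  unfold wrd
  rw [if_pos h]

private theorem wrd_mov (s : ℕ → V → V) (M : CoxeterMatrix B) (ω : ℕ → V → B) {i : ℕ} {v : V}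
    (h : s i v ≠ v) : wrd s M ω i v = 1 := by
  unfold wrd
  rw [if_neg h]

private theorem simple_sq (M : CoxeterMatrix B) (m : B) : M.simple m * M.simple m = 1 := by
  have h := M.toCoxeterSystem.simple_mul_simple_self m
  rwa [M.toCoxeterSystem_simple] at h

private theorem simple_pow (M : CoxeterMatrix B) (m n : B) : (M.simple m * M.simple n) ^ M m n = 1 := by
  have h := M.toCoxeterSystem.simple_mul_simple_pow m n
  rwa [M.toCoxeterSystem_simple] at h

private theorem simple_pow' (M : CoxeterMatrix B) (m n : B) : (M.simple n * M.simple m) ^ M m n = 1 := by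
  have h := M.toCoxeterSystem.simple_mul_simple_pow' m n
  rwa [M.toCoxeterSystem_simple] at h

private theorem iter_mul {G : Type} [Group G] (f : V × G → V × G) (v : V) (x : G) (k : ℕ)
    (h : ∀ g, f^[k] (v, g) = (v, g * x)) (j : ℕ) (g : G) : f^[k * j] (v, g) = (v, g * x ^ j) := by
  induction j generalizing g with
  | zero => simp
  | succ j ih =>
    rw [Nat.mul_succ, Nat.add_comm, Function.iterate_add_apply, ih, h, pow_succ, mul_assoc]

private theorem iter_fin {G : Type} [Group G] (f : V × G → V × G) (v : V) (x : G) (k m per : ℕ)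
    (h : ∀ g, f^[k] (v, g) = (v, g * x)) (hx : x ^ m = 1) (hd : k * m ∣ per) :
    (f^[per] (v, 1)).2 = 1 := by
  obtain ⟨c, rfl⟩ := hd
  rw [Nat.mul_assoc, iter_mul f v x k h (m * c) 1, pow_mul, hx, one_pow, mul_one]

theorem clab_rel [Finite X] {T : Typ S V} {M : CoxeterMatrix B} {ω : ℕ → V → B} {a b : ℕ}
    (h : CLab T M ω a b) (i : ℕ) (h1 : a ≤ i) (h2 : i + 1 ≤ b) (v : V) :
    ((fun p : V × M.Group => (T.s i (T.s (i + 1) p.1),
      p.2 * wrd T.s M ω (i + 1) p.1 * wrd T.s M ω i (T.s (i + 1) p.1)))^[T.per i v] (v, 1)).2 = 1 := by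
  set f : V × M.Group → V × M.Group := fun p : V × M.Group => (T.s i (T.s (i + 1) p.1),
      p.2 * wrd T.s M ω (i + 1) p.1 * wrd T.s M ω i (T.s (i + 1) p.1)) with hf
  have fdef : ∀ u g, f (u, g) = (T.s i (T.s (i + 1) u),
      g * wrd T.s M ω (i + 1) u * wrd T.s M ω i (T.s (i + 1) u)) := fun u g => rfl
  by_cases hi : T.s i v = v
  · by_cases hj : T.s (i + 1) v = v
    · -- one state
      apply iter_fin f v (M.simple (ω (i + 1) v) * M.simple (ω i v)) 1 (M (ω i v) (ω (i + 1) v))
      · intro g
        rw [Function.iterate_one, fdef, hj, hi, wrd_fix T.s M ω hj, wrd_fix T.s M ω hi, mul_assoc]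
      · exact simple_pow' M _ _
      · rw [one_mul]
        exact h.pA i h1 h2 v hi hj
    · by_cases hk : T.s i (T.s (i + 1) v) = T.s (i + 1) v
      · -- two states, edge with label i + 1
        have e1 : T.s (i + 1) (T.s (i + 1) v) = v := T.s_inv (i + 1) v
        have e2 : T.s (i + 1) (T.s (i + 1) v) ≠ T.s (i + 1) v := by
          rw [e1]; exact fun e => hj e.symm
        apply iter_fin f v (M.simple (ω i (T.s (i + 1) v)) * M.simple (ω i v)) 2
          (M (ω i v) (ω i (T.s (i + 1) v)))
        · intro g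
          rw [Function.iterate_succ_apply, Function.iterate_one, fdef v, hk, fdef, e1, hi,
            wrd_mov T.s M ω hj, wrd_mov T.s M ω e2, wrd_fix T.s M ω hk, wrd_fix T.s M ω hi,
            mul_one, mul_one, mul_assoc]
        · exact simple_pow' M _ _
        · exact h.pB' i h1 h2 v hj hi hk
      · -- three states, v is the end moved by i + 1
        have e1 : T.s (i + 1) (T.s (i + 1) v) = v := T.s_inv (i + 1) v
        have e2 : T.s (i + 1) (T.s (i + 1) v) ≠ T.s (i + 1) v := by
          rw [e1]; exact fun e => hj e.symm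
        obtain ⟨m1, -⟩ := h.mid i h1 h2 (T.s (i + 1) v) hk e2
        set v1 := T.s (i + 1) v with hv1
        set v0 := T.s i v1 with hv0
        have e3 : T.s i v0 = v1 := T.s_inv i v1
        have e4 : T.s i v0 ≠ v0 := by
          rw [e3]; exact fun e => hk e.symm
        have e5 : T.s (i + 1) (T.s i v0) ≠ T.s i v0 := by
          rw [e3]; exact e2
        obtain ⟨-, c2⟩ := h.pC i h1 h2 v0 e4 m1 e5
        rw [e3, e1] at c2
        have hp : T.per i v0 = T.per i v := by
          rw [hv0, T.per_self, hv1, T.per_succ]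
        rw [hp] at c2
        apply iter_fin f v (M.simple (ω (i + 1) v0) * M.simple (ω i v)) 3
          (M (ω (i + 1) v0) (ω i v))
        · intro g
          rw [Function.iterate_succ_apply, Function.iterate_succ_apply, Function.iterate_one,
            fdef v, ← hv1, ← hv0, wrd_mov T.s M ω hj, wrd_mov T.s M ω hk, fdef v0, m1, e3,
            wrd_fix T.s M ω m1, wrd_mov T.s M ω e4, fdef v1, e1, hi, wrd_mov T.s M ω e2,
            wrd_fix T.s M ω hi]
          simp only [mul_one, mul_assoc]
        · exact simple_pow M _ _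
        · exact c2
  · by_cases hj : T.s (i + 1) v = v
    · by_cases hk : T.s (i + 1) (T.s i v) = T.s i v
      · -- two states, edge with label i
        have e1 : T.s i (T.s i v) = v := T.s_inv i v
        have e2 : T.s i (T.s i v) ≠ T.s i v := by
          rw [e1]; exact fun e => hi e.symm
        apply iter_fin f v (M.simple (ω (i + 1) v) * M.simple (ω (i + 1) (T.s i v))) 2
          (M (ω (i + 1) v) (ω (i + 1) (T.s i v)))
        · intro g
          rw [Function.iterate_succ_apply, Function.iterate_one, fdef v, hj, fdef, hk, e1,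
            wrd_fix T.s M ω hj, wrd_mov T.s M ω hi, wrd_fix T.s M ω hk, wrd_mov T.s M ω e2]
          simp only [mul_one, mul_assoc]
        · exact simple_pow M _ _
        · exact h.pB i h1 h2 v hi hj hk
      · -- three states, v is the end moved by i
        have e1 : T.s i (T.s i v) = v := T.s_inv i v
        have e2 : T.s i (T.s i v) ≠ T.s i v := by
          rw [e1]; exact fun e => hi e.symm
        obtain ⟨c1, c2⟩ := h.pC i h1 h2 v hi hj hk
        set v1 := T.s i v with hv1
        set v2 := T.s (i + 1) v1 with hv2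
        have e3 : T.s (i + 1) v2 = v1 := T.s_inv (i + 1) v1
        have e4 : T.s (i + 1) v2 ≠ v2 := by
          rw [e3]; exact fun e => hk e.symm
        apply iter_fin f v (M.simple (ω (i + 1) v) * M.simple (ω i v2)) 3
          (M (ω (i + 1) v) (ω i v2))
        · intro g
          rw [Function.iterate_succ_apply, Function.iterate_succ_apply, Function.iterate_one,
            fdef v, hj, ← hv1, wrd_fix T.s M ω hj, wrd_mov T.s M ω hi, fdef v1, ← hv2, c1,
            wrd_mov T.s M ω hk, wrd_fix T.s M ω c1, fdef v2, e3, e1, wrd_mov T.s M ω e4,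
            wrd_mov T.s M ω e2]
          simp only [mul_one, mul_assoc]
        · exact simple_pow M _ _
        · exact c2
    · -- the middle
      obtain ⟨m1, m2⟩ := h.mid i h1 h2 v hi hj
      have e1 : T.s i (T.s i v) = v := T.s_inv i v
      have e2 : T.s (i + 1) (T.s (i + 1) v) = v := T.s_inv (i + 1) v
      set v0 := T.s i v with hv0
      set v2 := T.s (i + 1) v with hv2
      have e3 : T.s i v0 ≠ v0 := by
        rw [e1]; exact fun e => hi e.symm
      have e4 : T.s (i + 1) (T.s i v0) ≠ T.s i v0 := by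
        rw [e1]; exact hj
      have e5 : T.s (i + 1) v2 ≠ v2 := by
        rw [e2]; exact fun e => hj e.symm
      obtain ⟨-, c2⟩ := h.pC i h1 h2 v0 e3 m1 e4
      rw [e1, ← hv2] at c2
      have hp : T.per i v0 = T.per i v := by
        rw [hv0, T.per_self]
      rw [hp] at c2
      apply iter_fin f v (M.simple (ω i v2) * M.simple (ω (i + 1) v0)) 3
        (M (ω (i + 1) v0) (ω i v2))
      · intro g
        rw [Function.iterate_succ_apply, Function.iterate_succ_apply, Function.iterate_one,
          fdef v, ← hv2, m2, wrd_mov T.s M ω hj, wrd_fix T.s M ω m2, fdef v2, e2, ← hv0,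
          wrd_mov T.s M ω e5, wrd_mov T.s M ω hi, fdef v0, m1, e1, wrd_fix T.s M ω m1,
          wrd_mov T.s M ω e3]
        simp only [mul_one, mul_assoc]
      · exact simple_pow' M _ _
      · exact c2

theorem clab_inv [Finite X] {T : Typ S V} {M : CoxeterMatrix B} {ω : ℕ → V → B} {a b : ℕ}
    (h : CLab T M ω a b) (i : ℕ) (v : V) :
    wrd T.s M ω i v * wrd T.s M ω i (T.s i v) = 1 := by
  by_cases hi : T.s i v = v
  · rw [hi, wrd_fix T.s M ω hi]
    exact simple_sq M _
  · have e : T.s i (T.s i v) ≠ T.s i v := by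
      rw [T.s_inv]; exact fun e => hi e.symm
    rw [wrd_mov T.s M ω hi, wrd_mov T.s M ω e, one_mul]

theorem clab_comm [Finite X] {T : Typ S V} {M : CoxeterMatrix B} {ω : ℕ → V → B} {a b : ℕ}
    (h : CLab T M ω a b) (i k : ℕ) (h1 : a ≤ i) (h2 : i + 2 ≤ k) (h3 : k ≤ b) (v : V) :
    wrd T.s M ω i v * wrd T.s M ω k (T.s i v) = wrd T.s M ω k v * wrd T.s M ω i (T.s k v) := by
  have hc : T.s i (T.s k v) = T.s k (T.s i v) := T.s_comm (Or.inl h2) v
  by_cases hi : T.s i v = v
  · by_cases hk : T.s k v = v
    · rw [hi, hk, wrd_fix T.s M ω hi, wrd_fix T.s M ω hk]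
      rcases h.comm i k h1 h2 h3 v hi hk with e | e
      · rw [e]
      · have h4 := simple_pow M (ω i v) (ω k v)
        rw [e, pow_two] at h4
        have h5 := simple_sq M (ω i v)
        have h6 := simple_sq M (ω k v)
        calc M.simple (ω i v) * M.simple (ω k v)
            = M.simple (ω i v) * M.simple (ω k v) * (M.simple (ω i v) * M.simple (ω k v)) *
              (M.simple (ω k v) * M.simple (ω i v)) := by
              rw [mul_assoc (M.simple (ω i v) * M.simple (ω k v)),
                mul_assoc (M.simple (ω i v)) (M.simple (ω k v)) (M.simple (ω k v) * M.simple (ω i v)),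
                ← mul_assoc (M.simple (ω k v)) (M.simple (ω k v)) (M.simple (ω i v)), h6, one_mul, h5,
                mul_one]
          _ = M.simple (ω k v) * M.simple (ω i v) := by
              rw [h4, one_mul]
    · have e1 : T.s i (T.s k v) = T.s k v := by rw [hc, hi]
      have e2 := h.slide k i (by omega) h3 h1 (by omega) (Or.inr h2) v hk hi
      rw [hi, wrd_fix T.s M ω hi, wrd_mov T.s M ω hk, wrd_fix T.s M ω e1, e2, mul_one, one_mul]
  · by_cases hk : T.s k v = v
    · have e1 : T.s k (T.s i v) = T.s i v := by rw [← hc, hk]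
      have e2 := h.slide i k h1 (by omega) (by omega) h3 (Or.inl h2) v hi hk
      rw [hk, wrd_fix T.s M ω hk, wrd_mov T.s M ω hi, wrd_fix T.s M ω e1, e2, mul_one, one_mul]
    · have e1 : T.s k (T.s i v) ≠ T.s i v := by
        rw [← hc]
        intro e
        apply hk
        have := congrArg (T.s i) e
        rwa [T.s_inv, T.s_inv] at this
      have e2 : T.s i (T.s k v) ≠ T.s k v := by
        rw [hc]
        intro e
        apply hi
        have := congrArg (T.s k) e
        rwa [T.s_inv, T.s_inv] at this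
      rw [wrd_mov T.s M ω hi, wrd_mov T.s M ω hk, wrd_mov T.s M ω e1, wrd_mov T.s M ω e2]

end H73.TO
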