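import Pool.Agent.H73.TO.Pot
import Pool.Agent.H73.TO.Rk2

/-! # TO.CPot : the potential of a Coxeter labelling with values in the Coxeter group, and finiteness

`cpot`: `pot` with `w = wrd T.s M ω`, `clab_inv`, `clab_comm`, `clab_rel`. `cpot_surj`: the set `{F x}` is closed under right multiplication by every generator `n`:
given `x`, `h.cov n` gives `(i, v)` with `ω i v = n`, `s i v = v`; `h.conn` a path of states from `T.π x` to `v` with labels in `[a, b]`; follow it in `X`, but at each step `q = s i p` with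
`p = q` do nothing and at a step with `p ≠ q` apply `ρ i` (then `F` does not change); so there is `y` with `F y = F x`, `T.π y = v`, and `F (ρ i y) = F x * simple n`. Every element of
`M.Group` is a product of simple ones (`CoxeterSystem.simple_induction_left` or `_right`, applied to `(F x₀)⁻¹ * g`). `finite_group`: `X` is finite and `F` is surjective. -/

namespace H73.TO

open H63.KO

variable {X V B : Type} {S : FSys X}

theorem cpot [Finite X] {T : Typ S V} {M : CoxeterMatrix B} {ω : ℕ → V → B} {a b : ℕ}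
    (h : CLab T M ω a b) :
    ∃ F : X → M.Group, ∀ i, a ≤ i → i ≤ b → ∀ x, F (S.ρ i x) = F x * wrd T.s M ω i (T.π x) :=
  pot T (wrd T.s M ω) h.one_le h.lt h.le (fun i _ _ v => clab_inv h i v)
    (fun i k h1 h2 h3 v => clab_comm h i k h1 h2 h3 v) (fun i h1 h2 v => clab_rel h i h1 h2 v)

theorem cpot_surj [Nonempty X] {T : Typ S V} {M : CoxeterMatrix B} {ω : ℕ → V → B} {a b : ℕ}
    (h : CLab T M ω a b) {F : X → M.Group}
    (hF : ∀ i, a ≤ i → i ≤ b → ∀ x, F (S.ρ i x) = F x * wrd T.s M ω i (T.π x)) :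
    Function.Surjective F := by
  have key : ∀ (x : X) (v : V), Reach T.s a b (T.π x) v → ∃ y, F y = F x ∧ T.π y = v := by
    intro x v hv
    induction hv with
    | refl => exact ⟨x, rfl, rfl⟩
    | @tail p q _ hs ih =>
      obtain ⟨y, hy, hp⟩ := ih
      obtain ⟨i, h1, h2, rfl⟩ := hs
      by_cases hc : T.s i p = p
      · exact ⟨y, hy, by rw [hp, hc]⟩
      · refine ⟨S.ρ i y, ?_, ?_⟩
        · rw [hF i h1 h2 y, hp, hy]
          unfold wrd
          rw [if_neg hc, mul_one]
        · rw [T.hs, hp]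
  have step : ∀ (x : X) (n : B), ∃ z, F z = F x * M.simple n := by
    intro x n
    obtain ⟨i, v, h1, h2, h3, h4⟩ := h.cov n
    obtain ⟨y, hy, hv⟩ := key x v (h.conn _ _)
    refine ⟨S.ρ i y, ?_⟩
    rw [hF i h1 h2 y, hv, hy]
    unfold wrd
    rw [if_pos h3, h4]
  obtain ⟨x₀⟩ := ‹Nonempty X›
  have all : ∀ g : M.Group, ∃ y, F y = F x₀ * g := by
    intro g
    refine M.toCoxeterSystem.simple_induction_right (p := fun g => ∃ y, F y = F x₀ * g) g ?_ ?_
    · exact ⟨x₀, (mul_one _).symm⟩
    · rintro w i ⟨y, hy⟩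
      obtain ⟨z, hz⟩ := step y i
      refine ⟨z, ?_⟩
      rw [hz, hy, mul_assoc, CoxeterMatrix.toCoxeterSystem_simple]
  intro g
  obtain ⟨y, hy⟩ := all ((F x₀)⁻¹ * g)
  exact ⟨y, by rw [hy, mul_inv_cancel_left]⟩

theorem finite_group [Finite X] [Nonempty X] {T : Typ S V} {M : CoxeterMatrix B} {ω : ℕ → V → B} {a b : ℕ}
    (h : CLab T M ω a b) : Finite M.Group := by
  obtain ⟨F, hF⟩ := cpot h
  exact Finite.of_surjective F (cpot_surj h hF)

end H73.TO
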