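import Pool.Agent.H63.KO.Stmt

/-! # TO.CombIso : the number of combinatorial flag orbits is an invariant of the face lattice (complete) -/

namespace H73.TO

open KOrbit

private theorem map_smul_flag {L L' : Type} [PartialOrder L] [PartialOrder L'] (e : L ≃o L')
    (g : L ≃o L) (Ψ : Flag L) :
    ((e.symm.trans g).trans e) • (Flag.map e Ψ) = Flag.map e (g • Ψ) := by
  apply SetLike.coe_injective
  change ((e.symm.trans g).trans e) '' (e '' (Ψ : Set L)) = e '' (g '' (Ψ : Set L))
  rw [Set.image_image, Set.image_image]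
  refine Set.image_congr fun a _ => ?_
  simp

theorem orbit_card {L L' : Type} [PartialOrder L] [PartialOrder L'] (e : L ≃o L') :
    Nat.card (MulAction.orbitRel.Quotient (L ≃o L) (Flag L)) =
      Nat.card (MulAction.orbitRel.Quotient (L' ≃o L') (Flag L')) := by
  refine Nat.card_congr (Quotient.congr (Flag.map e) ?_)
  intro Φ Ψ
  constructor
  · rintro ⟨g, hg⟩
    refine ⟨(e.symm.trans g).trans e, ?_⟩
    change g • Ψ = Φ at hg
    change ((e.symm.trans g).trans e) • (Flag.map e Ψ) = Flag.map e Φ
    rw [map_smul_flag, hg]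
  · rintro ⟨g, hg⟩
    refine ⟨(e.trans g).trans e.symm, ?_⟩
    change g • (Flag.map e Ψ) = Flag.map e Φ at hg
    change ((e.trans g).trans e.symm) • Ψ = Φ
    apply (Flag.map e).injective
    rw [← map_smul_flag, ← hg]
    congr 1
    ext x
    simp

theorem comb_iso {d d' : ℕ} {Q : Set (Euc d)} {Q' : Set (Euc d')} (e : Face Q ≃o Face Q') :
    combOrbits Q = combOrbits Q' := orbit_card e

end H73.TO
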