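import Pool.Agent.H73.TO.Lat2

/-! # TO.ConvF : the faces of the realization

`P : PolyLat L`, `p` on the atoms, `f` on the coatoms with `⟨p a, f b⟩ ≤ 1`, equality iff `a ≤ b` (hypothesis `Inc`). `Q = conv {p a}`, `hull x = conv {p a | a ≤ x}`. `exposed_hull`: `hull x` is an exposed face of `Q`: the functional `g = ∑ b ≥ x, f b` (finite sum, coatoms `b`) satisfies `g (p a) ≤ N` (`N` = number of coatoms above `x`),
equality iff `a ≤ b` for all coatoms `b ≥ x` iff `a ≤ x` (`le_of_coatoms`). So for `q = ∑ t_a p a` in `Q`: `g q ≤ N` with equality iff all `a` with `t_a > 0` are `≤ x`. If `hull x` is nonempty it is `{q ∈ Q | g q = N}` and `N` is the maximum of `g` on `Q`: exposed (`IsExposed`: `B.Nonempty → ∃ l, B = {x ∈ A | ∀ y ∈ A, l y ≤ l x}`; for `x = top`,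
`N = 0`, `g = 0`, `hull top = Q`). `hull_mem`: if `p a ∈ hull x` then `a ≤ x`: for every coatom `b ≥ x` the points of `hull x` have `⟨q, f b⟩ = 1`. `hull_le`: so `hull x ⊆ hull y` iff `x ≤ y` (`le_of_atoms`). `hull_bot`: no atom is `≤ bot`. Lemma `convexHull_...`: use `Finset.centerMass` / `mem_convexHull_iff`,
or the convex set `{q | ⟨q, f b⟩ = 1}` and `convexHull_min`; for the exposed statement it is convenient to show: if `q ∈ conv A` (`A` finite), `g ≤ N` on `A`, `g q = N` then `q ∈ conv {a ∈ A | g a = N}`. -/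

namespace H73.TO

open H63.KO KOrbit

/-- the incidence condition of a realization -/
def Inc {L : Type} [PartialOrder L] (P : PolyLat L) {d : ℕ} (p f : L → Euc d) : Prop :=
  ∀ a b, P.rk a = 1 → P.rk b = P.d → inner ℝ (p a) (f b) ≤ 1 ∧ (inner ℝ (p a) (f b) = 1 ↔ a ≤ b)

/-- the convex hull of the points below `x` -/
def hull {L : Type} [PartialOrder L] (P : PolyLat L) {d : ℕ} (p : L → Euc d) (x : L) : Set (Euc d) :=
  convexHull ℝ (p '' {a | P.rk a = 1 ∧ a ≤ x})

variable {L : Type} [PartialOrder L] {P : PolyLat L} {d : ℕ} {p f : L → Euc d}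

private theorem mem_face {E : Type*} [AddCommGroup E] [Module ℝ E] (g : E →ₗ[ℝ] ℝ) (N : ℝ) (A : Set E)
    (hA : ∀ a ∈ A, g a ≤ N) {q : E} (hq : q ∈ convexHull ℝ A) (hgq : g q = N) :
    q ∈ convexHull ℝ {a | a ∈ A ∧ g a = N} := by
  have hCN : ∀ c ∈ convexHull ℝ {a | a ∈ A ∧ g a = N}, g c = N := by
    intro c hc
    have h1 : convexHull ℝ {a | a ∈ A ∧ g a = N} ⊆ {q | g q = N} :=
      convexHull_min (fun a ha => ha.2) (convex_hyperplane g.isLinear N)
    exact h1 hc
  have hconv : Convex ℝ ({q | g q < N} ∪ convexHull ℝ {a | a ∈ A ∧ g a = N}) := by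
    intro u hu v hv s t hs ht hst
    have hle : ∀ z ∈ ({q | g q < N} ∪ convexHull ℝ {a | a ∈ A ∧ g a = N} : Set E), g z ≤ N := by
      intro z hz
      rcases hz with hz | hz
      · exact le_of_lt hz
      · exact le_of_eq (hCN z hz)
    have hgu := hle u hu
    have hgv := hle v hv
    have h3 : s * N + t * N = N := by rw [← add_mul, hst, one_mul]
    rcases hu with hu | hu
    · rcases hs.eq_or_lt with hs0 | hs0
      · have ht1 : t = 1 := by linarith
        rw [← hs0, ht1, zero_smul, zero_add, one_smul]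
        exact hv
      · left
        change g (s • u + t • v) < N
        rw [map_add, map_smul, map_smul, smul_eq_mul, smul_eq_mul]
        have h1 : s * g u < s * N := mul_lt_mul_of_pos_left hu hs0
        have h2 : t * g v ≤ t * N := mul_le_mul_of_nonneg_left hgv ht
        linarith
    · rcases hv with hv | hv
      · rcases ht.eq_or_lt with ht0 | ht0
        · have hs1 : s = 1 := by linarith
          rw [← ht0, hs1, zero_smul, add_zero, one_smul]
          exact Or.inr hu
        · left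
          change g (s • u + t • v) < N
          rw [map_add, map_smul, map_smul, smul_eq_mul, smul_eq_mul]
          have h1 : t * g v < t * N := mul_lt_mul_of_pos_left hv ht0
          have h2 : s * g u ≤ s * N := mul_le_mul_of_nonneg_left hgu hs
          linarith
      · right
        exact (convex_convexHull ℝ _) hu hv hs ht hst
  have hsub : A ⊆ {q | g q < N} ∪ convexHull ℝ {a | a ∈ A ∧ g a = N} := by
    intro a ha
    rcases (hA a ha).lt_or_eq with h1 | h1
    · exact Or.inl h1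
    · exact Or.inr (subset_convexHull ℝ _ ⟨ha, h1⟩)
  rcases convexHull_min hsub hconv hq with h1 | h1
  · exact absurd hgq (ne_of_lt h1)
  · exact h1

private theorem hull_mono {x y : L} (h : x ≤ y) : hull P p x ⊆ hull P p y := by
  refine convexHull_mono (Set.image_mono ?_)
  intro a ha
  exact ⟨ha.1, ha.2.trans h⟩

private theorem hull_inner (h : Inc P p f) {x b : L} (hb : P.rk b = P.d) (hxb : x ≤ b) {q : Euc d}
    (hq : q ∈ hull P p x) : inner ℝ q (f b) = 1 := by
  have h1 : hull P p x ⊆ {q : Euc d | (innerSL ℝ (f b) : Euc d →L[ℝ] ℝ) q = 1} := by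
    refine convexHull_min ?_ (convex_hyperplane (innerSL ℝ (f b) : Euc d →L[ℝ] ℝ).toLinearMap.isLinear 1)
    rintro _ ⟨a, ha, rfl⟩
    change inner ℝ (f b) (p a) = 1
    rw [real_inner_comm]
    exact ((h a b ha.1 hb).2).2 (ha.2.trans hxb)
  have h2 : inner ℝ (f b) q = 1 := h1 hq
  rw [real_inner_comm]
  exact h2

theorem exposed_hull [Finite L] (h : Inc P p f) (x : L) : IsExposed ℝ (hull P p P.top) (hull P p x) := by
  classical
  have : Fintype L := Fintype.ofFinite L
  intro hne
  set s : Finset L := Finset.univ.filter fun b => P.rk b = P.d ∧ x ≤ b with hs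
  have hms : ∀ b, b ∈ s ↔ P.rk b = P.d ∧ x ≤ b := fun b => by simp [hs]
  set l : StrongDual ℝ (Euc d) := ∑ b ∈ s, innerSL ℝ (f b) with hl
  have hlq : ∀ q : Euc d, l q = ∑ b ∈ s, inner ℝ q (f b) := by
    intro q
    rw [hl, _root_.sum_apply]
    refine Finset.sum_congr rfl fun b _ => ?_
    rw [innerSL_apply_apply, real_inner_comm]
  have hA : ∀ z ∈ p '' {a | P.rk a = 1 ∧ a ≤ P.top}, l z ≤ (s.card : ℝ) := by
    rintro _ ⟨a, ha, rfl⟩
    rw [hlq]
    calc ∑ b ∈ s, inner ℝ (p a) (f b) ≤ ∑ b ∈ s, (1 : ℝ) :=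
          Finset.sum_le_sum fun b hb => (h a b ha.1 ((hms b).1 hb).1).1
      _ = (s.card : ℝ) := by rw [Finset.sum_const, nsmul_eq_mul, mul_one]
  have hle : ∀ z ∈ hull P p P.top, l z ≤ (s.card : ℝ) := by
    intro z hz
    have h1 : hull P p P.top ⊆ {q : Euc d | l q ≤ (s.card : ℝ)} :=
      convexHull_min hA (convex_halfSpace_le l.toLinearMap.isLinear _)
    exact h1 hz
  have hx : ∀ z ∈ hull P p x, l z = (s.card : ℝ) := by
    intro z hz
    rw [hlq, Finset.sum_congr rfl fun b hb => hull_inner h ((hms b).1 hb).1 ((hms b).1 hb).2 hz, Finset.sum_const,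
      nsmul_eq_mul, mul_one]
  refine ⟨l, Set.Subset.antisymm ?_ ?_⟩
  · intro q hq
    exact ⟨hull_mono (P.le_top x) hq, fun y hy => (hle y hy).trans (le_of_eq (hx q hq).symm)⟩
  · rintro q ⟨hq, hmax⟩
    obtain ⟨w, hw⟩ := hne
    have h1 : (s.card : ℝ) ≤ l q := by
      rw [← hx w hw]
      exact hmax w (hull_mono (P.le_top x) hw)
    have h2 : l q = (s.card : ℝ) := le_antisymm (hle q hq) h1
    have h3 := mem_face l.toLinearMap (s.card : ℝ) _ hA hq h2
    refine convexHull_mono ?_ h3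
    rintro _ ⟨⟨a, ha, rfl⟩, h4⟩
    refine ⟨a, ⟨ha.1, ?_⟩, rfl⟩
    refine le_of_coatoms P fun b hb hxb => ?_
    have h5 : ∑ b ∈ s, inner ℝ (p a) (f b) = ∑ b ∈ s, (1 : ℝ) := by
      rw [Finset.sum_const, nsmul_eq_mul, mul_one, ← hlq]
      exact h4
    have h6 := (Finset.sum_eq_sum_iff_of_le fun b hb => (h a b ha.1 ((hms b).1 hb).1).1).1 h5 b ((hms b).2 ⟨hb, hxb⟩)
    exact ((h a b ha.1 hb).2).1 h6

theorem hull_mem (h : Inc P p f) {x a : L} (ha : P.rk a = 1) (hx : p a ∈ hull P p x) : a ≤ x :=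
  le_of_coatoms P fun b hb hxb => ((h a b ha hb).2).1 (hull_inner h hb hxb hx)

theorem hull_le (h : Inc P p f) {x y : L} : hull P p x ⊆ hull P p y ↔ x ≤ y :=
  ⟨fun hxy => le_of_atoms P fun a ha hax =>
    hull_mem h ha (hxy (subset_convexHull ℝ _ ⟨a, ⟨ha, hax⟩, rfl⟩)), fun hxy => hull_mono hxy⟩

end H73.TO
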