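import Pool.Agent.H73.TO.ConvF

/-! # TO.ConvI : the realization is full dimensional

Take a flag `φ : P.Fl` (`exists_flag`). For `i = 0, ..., d` choose an atom `a i ≤ φ.f (i + 1)`, `¬ a i ≤ φ.f i` (`le_of_atoms`, since `¬ φ.f (i+1) ≤ φ.f i`), and for `i = 1, ..., d` a coatom `b i ≥ φ.f i` with `¬ a i ≤ b i` (`le_of_coatoms`). For `j < i`: `a j ≤ φ.f (j + 1) ≤ φ.f i ≤ b i`, so `⟨p (a j), f (b i)⟩ = 1`, and
`⟨p (a i), f (b i)⟩ < 1`. Hence the `d + 1` points `p (a 0), ..., p (a d)` are affinely independent: if `∑ w i = 0`, `∑ w i p (a i) = 0` and `k` is the largest index with `w k ≠ 0`: pairing with `f (b k)`, `k ≥ 1`: `0 = ∑_{j ≤ k} w j ⟨p (a j), f (b k)⟩ = ∑_{j<k} w j + w k c = w k (c - 1)`, `c < 1`, a contradiction (`k = 0`: `w 0 = 0` from the sum).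
`d + 1` affinely independent points in the `d`-dimensional space: their affine span is everything (`AffineIndependent.affineSpan_eq_top_iff_card_eq_finrank_add_one`), and the convex hull of a set with full affine span has nonempty interior (`interior_convexHull_nonempty_iff_affineSpan_eq_top`). Monotonicity of `interior`, `convexHull`. -/

namespace H73.TO

open H63.KO KOrbit

variable {L : Type} [PartialOrder L] {P : PolyLat L} {d : ℕ} {p f : L → Euc d}

theorem isPolytope_hull [Finite L] (hd : P.d = d) (hd1 : 1 ≤ d) (h : Inc P p f) :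
    IsPolytope (hull P p P.top) := by
  classical
  have : Fintype L := Fintype.ofFinite L
  obtain ⟨φ, -⟩ := exists_flag (P := P) P.bot
  have hch : ∀ i : Fin (d + 1), ∃ a b, P.rk a = 1 ∧ P.rk b = P.d ∧ a ≤ φ.f (i + 1) ∧ φ.f i ≤ b ∧ ¬ a ≤ b := by
    intro i
    have hi : (i : ℕ) < d + 1 := i.2
    have h1 : ¬ φ.f (i + 1) ≤ φ.f i := by
      intro hle
      have h2 := PolyLat.rk_le (P := P) hle
      rw [φ.rk (by omega), φ.rk (by omega)] at h2
      omega
    have h2 : ∃ a, P.rk a = 1 ∧ a ≤ φ.f (i + 1) ∧ ¬ a ≤ φ.f i := by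
      by_contra hc
      refine h1 (le_of_atoms P fun a ha hle => ?_)
      by_contra hn
      exact hc ⟨a, ha, hle, hn⟩
    obtain ⟨a, ha, hle, hn⟩ := h2
    have h3 : ∃ b, P.rk b = P.d ∧ φ.f i ≤ b ∧ ¬ a ≤ b := by
      by_contra hc
      refine hn (le_of_coatoms P fun b hb hle' => ?_)
      by_contra hn'
      exact hc ⟨b, hb, hle', hn'⟩
    obtain ⟨b, hb, hle', hn'⟩ := h3
    exact ⟨a, b, ha, hb, hle, hle', hn'⟩
  choose a b ha hb haf hfb hab using hch
  have hlt : ∀ i j : Fin (d + 1), j < i → inner ℝ (p (a j)) (f (b i)) = 1 := by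
    intro i j hji
    have hji' : (j : ℕ) < i := hji
    refine ((h (a j) (b i) (ha j) (hb i)).2).2 ?_
    exact (haf j).trans ((φ.mono (by omega)).trans (hfb i))
  have hne : ∀ i : Fin (d + 1), inner ℝ (p (a i)) (f (b i)) - 1 ≠ 0 := by
    intro i hc
    exact hab i (((h (a i) (b i) (ha i) (hb i)).2).1 (by linarith))
  have hind : AffineIndependent ℝ fun i : Fin (d + 1) => p (a i) := by
    rw [affineIndependent_iff]
    intro s w hw hsum e he
    by_contra hwe
    have hnon : (s.filter fun i => w i ≠ 0).Nonempty := ⟨e, Finset.mem_filter.2 ⟨he, hwe⟩⟩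
    obtain ⟨k, hk, hmax⟩ := Finset.exists_max_image (s.filter fun i => w i ≠ 0) id hnon
    have hks := (Finset.mem_filter.1 hk).1
    have hwk := (Finset.mem_filter.1 hk).2
    have h1 : ∑ i ∈ s, w i * inner ℝ (p (a i)) (f (b k)) = 0 := by
      have h2 : inner ℝ (∑ i ∈ s, w i • p (a i)) (f (b k)) = 0 := by
        rw [hsum, inner_zero_left]
      rw [sum_inner] at h2
      rw [← h2]
      refine Finset.sum_congr rfl fun i _ => ?_
      rw [real_inner_smul_left]
    have h3 : ∑ i ∈ s, w i * (inner ℝ (p (a i)) (f (b k)) - 1) = 0 := by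
      have h4 : ∑ i ∈ s, w i * (inner ℝ (p (a i)) (f (b k)) - 1) =
          ∑ i ∈ s, w i * inner ℝ (p (a i)) (f (b k)) - ∑ i ∈ s, w i := by
        rw [← Finset.sum_sub_distrib]
        exact Finset.sum_congr rfl fun i _ => by ring
      rw [h4, h1, hw, sub_zero]
    rw [Finset.sum_eq_single_of_mem k hks] at h3
    · exact (mul_ne_zero hwk (hne k)) h3
    · intro i hi hik
      by_cases hwi : w i = 0
      · rw [hwi, zero_mul]
      · have h5 : i ≤ k := hmax i (Finset.mem_filter.2 ⟨hi, hwi⟩)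
        rw [hlt k i (lt_of_le_of_ne h5 hik), sub_self, mul_zero]
  have hspan : affineSpan ℝ (Set.range fun i : Fin (d + 1) => p (a i)) = ⊤ := by
    rw [hind.affineSpan_eq_top_iff_card_eq_finrank_add_one]
    simp
  refine ⟨⟨(Finset.univ.filter fun x : L => P.rk x = 1 ∧ x ≤ P.top).image p, ?_⟩, ?_⟩
  · rw [hull]
    congr 1
    ext q
    simp
  · have hsub : (Set.range fun i : Fin (d + 1) => p (a i)) ⊆ p '' {x | P.rk x = 1 ∧ x ≤ P.top} := by
      rintro _ ⟨i, rfl⟩
      exact ⟨a i, ⟨ha i, P.le_top _⟩, rfl⟩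
    have h6 := (interior_convexHull_nonempty_iff_affineSpan_eq_top (V := Euc d)).2 hspan
    exact h6.mono (interior_mono (convexHull_mono hsub))

end H73.TO
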