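import Pool.Agent.H73.TO.ConvI
import Pool.Agent.H63.KO.PolyLatFin
import Pool.Agent.H63.KO.FlagAct

/-! # TO.ConvS : the face lattice of the realization is `L`

`Q = hull P p P.top` is a polytope (`isPolytope_hull`), so `polytope_lat` (H63/KO/PolyLatFin.lean) gives `P' : PolyLat (Face Q)` with `P'.d = finrank = d`. `Φ x = ⟨hull x, exposed_hull⟩ : Face Q` is an order embedding (`hull_le`). RANKS: `P'.rk (Φ x) = P.rk x`: along a flag of `L` (`d + 2` elements) the ranks `P'.rk (Φ (φ.f i))`, `i = 0..d+1`, are strictly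
increasing in `[0, d + 1]`, so equal to `i` (`strictMono` argument); every `x` lies in a flag. So `Φ` maps flags to flags: `Φ' : P.Fl → P'.Fl`, `(Φ' φ).f i = Φ (φ.f i)`. `Φ' (rho i φ) = rho i (Φ' φ)` (`eq_rho` for `P'`: they agree outside `i` and differ at `i` for `1 ≤ i ≤ d`; outside `[1, d]` both sides are `Φ' φ`). The image of `Φ'` is closed under all `rho i`, so it is everything
(`P'.sys.conn`, `P.Fl` is nonempty). Every face `F` of `Q` lies in a flag of `P'` (`exists_flag`), which is `Φ' φ`, so `F = Φ (φ.f (P'.rk F))`: `Φ` is surjective, an order isomorphism (`OrderIso` from `StrictMono`/`hull_le`: `RelIso`, `OrderEmbedding.orderIsoOfSurjective`-type constructor `RelIso.ofSurjective`). -/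

namespace H73.TO

open H63.KO KOrbit

variable {L : Type} [PartialOrder L] {P : PolyLat L} {d : ℕ} {p f : L → Euc d}

private theorem squeeze {n : ℕ} {r : ℕ → ℕ} (h : ∀ i j, i < j → j ≤ n → r i < r j) (hn : r n ≤ n) :
    ∀ i, i ≤ n → r i = i := by
  have h1 : ∀ i, i ≤ n → i ≤ r i := by
    intro i
    induction i with
    | zero => intro _; exact Nat.zero_le _
    | succ k ih =>
      intro hk
      have h2 := ih (by omega)
      have h3 := h k (k + 1) (by omega) hk
      omega
  have h2 : ∀ k, k ≤ n → r (n - k) ≤ n - k := by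
    intro k
    induction k with
    | zero => intro _; simpa using hn
    | succ k ih =>
      intro hk
      have h3 := ih (by omega)
      have h4 := h (n - (k + 1)) (n - k) (by omega) (by omega)
      omega
  intro i hi
  have h3 := h2 (n - i) (by omega)
  have h4 : n - (n - i) = i := by omega
  rw [h4] at h3
  exact le_antisymm h3 (h1 i hi)

/-- an order embedding between two flag lattices of the same rank is onto -/
private theorem onto_of_embed {L L' : Type} [PartialOrder L] [PartialOrder L'] (P : PolyLat L)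
    (P' : PolyLat L') (hdd : P'.d = P.d) (Φ : L → L') (hΦ : ∀ x y, Φ x ≤ Φ y ↔ x ≤ y) :
    Function.Surjective Φ := by
  have hinj : Function.Injective Φ := fun x y hxy =>
    le_antisymm ((hΦ x y).1 hxy.le) ((hΦ y x).1 hxy.ge)
  have hmono : ∀ {x y}, x ≤ y → Φ x ≤ Φ y := fun {x y} hxy => (hΦ x y).2 hxy
  have hlt : ∀ {x y}, x < y → Φ x < Φ y := fun {x y} hxy =>
    lt_of_le_of_ne (hmono hxy.le) fun he => hxy.ne (hinj he)
  have hrk : ∀ φ : P.Fl, ∀ i, i ≤ P.d + 1 → P'.rk (Φ (φ.f i)) = i := by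
    intro φ
    apply squeeze
    · intro i j hij hj
      exact P'.rk_lt _ _ (hlt (φ.lt hij (by omega)))
    · have h1 := PolyLat.rk_le (P := P') (P'.le_top (Φ (φ.f (P.d + 1))))
      rw [P'.rk_top, hdd] at h1
      exact h1
  let Ψ : P.Fl → P'.Fl := fun φ =>
    { f := fun i => Φ (φ.f i)
      mono := fun i j hij => hmono (φ.mono hij)
      hrk := by
        intro i
        rw [hdd]
        rcases Nat.le_total i (P.d + 1) with hi | hi
        · rw [hrk φ i hi, Nat.min_eq_left hi]
        · rw [φ.top hi, ← φ.top le_rfl, hrk φ _ le_rfl, Nat.min_eq_right hi] }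
  have hΨf : ∀ φ i, (Ψ φ).f i = Φ (φ.f i) := fun φ i => rfl
  have hrho : ∀ i φ, Ψ (rho i φ) = rho i (Ψ φ) := by
    intro i φ
    by_cases hi : 1 ≤ i ∧ i ≤ P.d
    · apply eq_rho
      · intro j hj
        rw [hΨf, hΨf, rho_ne hj]
      · rw [hΨf, hΨf]
        exact fun he => rho_self hi.1 hi.2 φ (hinj he)
    · rw [rho_out hi, rho_out (by rw [hdd]; exact hi)]
  obtain ⟨φ0, -⟩ := exists_flag (P := P) P.bot
  have hall : ∀ ψ : P'.Fl, ∃ φ, Ψ φ = ψ := by
    intro ψ
    have hc := P'.sys.conn (Ψ φ0) ψ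
    induction hc with
    | refl => exact ⟨φ0, rfl⟩
    | tail _ hstep ih =>
      obtain ⟨i, _, _, rfl⟩ := hstep
      obtain ⟨φ, rfl⟩ := ih
      exact ⟨rho i φ, hrho i φ⟩
  intro F
  obtain ⟨ψ, hψ⟩ := exists_flag (P := P') F
  obtain ⟨φ, rfl⟩ := hall ψ
  exact ⟨φ.f (P'.rk F), hψ⟩

theorem hull_iso [Finite L] (hd : P.d = d) (hd1 : 1 ≤ d) (h : Inc P p f) :
    ∃ e : L ≃o Face (hull P p P.top), ∀ x, (e x : Set (Euc d)) = hull P p x := by
  classical
  obtain ⟨⟨T, hT⟩, hint⟩ := isPolytope_hull hd hd1 h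
  have key : ∃ P' : PolyLat (Face (hull P p P.top)), P'.d = d := by
    rw [hT] at hint ⊢
    obtain ⟨_, P', hP'⟩ := polytope_lat T hint
    exact ⟨P', by rw [hP']; simp⟩
  obtain ⟨P', hP'⟩ := key
  let Φ : L → Face (hull P p P.top) := fun x => ⟨hull P p x, exposed_hull h x⟩
  have hΦ : ∀ x y, Φ x ≤ Φ y ↔ x ≤ y := fun x y => hull_le h
  have hsurj := onto_of_embed P P' (hP'.trans hd.symm) Φ hΦ
  have hinj : Function.Injective Φ := fun x y hxy =>
    le_antisymm ((hΦ x y).1 hxy.le) ((hΦ y x).1 hxy.ge)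
  exact ⟨{ toEquiv := Equiv.ofBijective Φ ⟨hinj, hsurj⟩, map_rel_iff' := fun {x y} => hΦ x y },
    fun x => rfl⟩

end H73.TO
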