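import Pool.Agent.H63.KO.Stmt
import Pool.Agent.H63.KO.Per
import Pool.Agent.H63.KO.LatSys
import Pool.Agent.H44.Cox.Lem

/-! # TO.Defs : definitions for the row k = 3 of MP_166b83_co (complete, no sorry)

`S : FSys X` is a flag system (`H63/KO/Sys.lean`); labels `i = 1..d`, `ρ i` changes the element of rank `i`.
A type is a map `π : X → V` whose fibres are orbits of automorphisms of the flag system. -/

namespace H73.TO

open H63.KO Pool.Agent.H80.Cox Pool.Agent.H44.Cox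

/-- `θ` is an automorphism of the flag system -/
def IsAut {X : Type} (S : FSys X) (θ : Equiv.Perm X) : Prop := ∀ i x, θ (S.ρ i x) = S.ρ i (θ x)

/-- a type map of a flag system: the fibres are orbits of a group of automorphisms preserving `π` -/
structure Typ {X : Type} (S : FSys X) (V : Type) where
  π : X → V
  s : ℕ → V → V
  surj : Function.Surjective π
  hs : ∀ i x, π (S.ρ i x) = s i (π x)
  fib : ∀ x y, π x = π y → ∃ θ : Equiv.Perm X, IsAut S θ ∧ (∀ z, π (θ z) = π z) ∧ θ x = y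

/-- all automorphisms preserve the type -/
def Typ.Full {X V : Type} {S : FSys X} (T : Typ S V) : Prop := ∀ θ, IsAut S θ → ∀ z, T.π (θ z) = T.π z

/-- type I_j on three states: label `j` exchanges `0, 1`, label `j + 1` exchanges `1, 2` -/
def sI (j i : ℕ) (v : Fin 3) : Fin 3 :=
  if i = j then Equiv.swap 0 1 v else if i = j + 1 then Equiv.swap 1 2 v else v

/-- type II_j on three states: label `j` exchanges `0, 1`, labels `j - 1`, `j + 1` exchange `1, 2` -/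
def sII (j i : ℕ) (v : Fin 3) : Fin 3 :=
  if i = j then Equiv.swap 0 1 v else if i = j + 1 ∨ i + 1 = j then Equiv.swap 1 2 v else v

/-- the six states: label `j` exchanges `(0, e), (1, e)`; label `j + 1` exchanges `(1, e), (2, e)`;
label `j - 1` exchanges `(1, e), (2, !e)` -/
def sS (j i : ℕ) (v : Fin 3 × Bool) : Fin 3 × Bool :=
  if i = j then (Equiv.swap 0 1 v.1, v.2)
  else if i = j + 1 then (Equiv.swap 1 2 v.1, v.2)
  else if i + 1 = j then (Equiv.swap 1 2 v.1, if v.1 = 0 then v.2 else !v.2)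
  else v

/-- the involution of the six states -/
def flip6 (v : Fin 3 × Bool) : Fin 3 × Bool := (v.1, !v.2)

/-- reachable by labels in `[a, b]` -/
def Reach {V : Type} (s : ℕ → V → V) (a b : ℕ) : V → V → Prop :=
  Relation.ReflTransGen (fun p q => ∃ i, a ≤ i ∧ i ≤ b ∧ q = s i p)

/-- the period of the polygon at a flag of type `v` -/
noncomputable def Typ.per {X V : Type} {S : FSys X} (T : Typ S V) (i : ℕ) (v : V) : ℕ :=
  S.per i (Function.surjInv T.surj v)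

/-- the label word of state `v` and label `i`: trivial if `i` moves `v`, the generator `ω i v` if not -/
noncomputable def wrd {V B : Type} (s : ℕ → V → V) (M : CoxeterMatrix B) (ω : ℕ → V → B) (i : ℕ)
    (v : V) : M.Group := by
  classical
  exact if s i v = v then M.simple (ω i v) else 1

/-- a Coxeter labelling of the fixed (label, state) pairs, compatible with all rank 2 relations of the flag
system, for the labels in `[a, b]` -/
structure CLab {X V B : Type} {S : FSys X} (T : Typ S V) (M : CoxeterMatrix B) (ω : ℕ → V → B)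
    (a b : ℕ) : Prop where
  one_le : 1 ≤ a
  lt : a < b
  le : b ≤ S.d
  conn : ∀ u v, Reach T.s a b u v
  cov : ∀ n, ∃ i v, a ≤ i ∧ i ≤ b ∧ T.s i v = v ∧ ω i v = n
  slide : ∀ i k, a ≤ i → i ≤ b → a ≤ k → k ≤ b → (i + 2 ≤ k ∨ k + 2 ≤ i) → ∀ v, T.s i v ≠ v →
    T.s k v = v → ω k (T.s i v) = ω k v
  comm : ∀ i k, a ≤ i → i + 2 ≤ k → k ≤ b → ∀ v, T.s i v = v → T.s k v = v →
    ω i v = ω k v ∨ M (ω i v) (ω k v) = 2
  /-- orbits with one state -/
  pA : ∀ i, a ≤ i → i + 1 ≤ b → ∀ v, T.s i v = v → T.s (i + 1) v = v →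
    M (ω i v) (ω (i + 1) v) ∣ T.per i v
  /-- orbits with two states, edge with label `i` -/
  pB : ∀ i, a ≤ i → i + 1 ≤ b → ∀ v, T.s i v ≠ v → T.s (i + 1) v = v → T.s (i + 1) (T.s i v) = T.s i v →
    2 * M (ω (i + 1) v) (ω (i + 1) (T.s i v)) ∣ T.per i v
  /-- orbits with two states, edge with label `i + 1` -/
  pB' : ∀ i, a ≤ i → i + 1 ≤ b → ∀ v, T.s (i + 1) v ≠ v → T.s i v = v → T.s i (T.s (i + 1) v) = T.s (i + 1) v →
    2 * M (ω i v) (ω i (T.s (i + 1) v)) ∣ T.per i v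
  /-- orbits with three states -/
  pC : ∀ i, a ≤ i → i + 1 ≤ b → ∀ v, T.s i v ≠ v → T.s (i + 1) v = v → T.s (i + 1) (T.s i v) ≠ T.s i v →
    T.s i (T.s (i + 1) (T.s i v)) = T.s (i + 1) (T.s i v) ∧
    3 * M (ω (i + 1) v) (ω i (T.s (i + 1) (T.s i v))) ∣ T.per i v
  /-- a state moved by both labels is the middle of an orbit with three states -/
  mid : ∀ i, a ≤ i → i + 1 ≤ b → ∀ v, T.s i v ≠ v → T.s (i + 1) v ≠ v →
    T.s (i + 1) (T.s i v) = T.s i v ∧ T.s i (T.s (i + 1) v) = T.s (i + 1) v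

/-- the relations of the Coxeter matrix are seen in the flag system -/
def CRel {X V B : Type} {S : FSys X} (T : Typ S V) (M : CoxeterMatrix B) (ω : ℕ → V → B)
    (a b : ℕ) : Prop :=
  ∀ m n, m ≠ n → M m n ≠ 0 →
    (∃ i k v, a ≤ i ∧ i ≤ b ∧ a ≤ k ∧ k ≤ b ∧ (i + 2 ≤ k ∨ k + 2 ≤ i) ∧ T.s i v = v ∧ T.s k v = v ∧
      ω i v = m ∧ ω k v = n ∧ M m n = 2) ∨
    (∃ i v, a ≤ i ∧ i + 1 ≤ b ∧ T.s i v = v ∧ T.s (i + 1) v = v ∧
      ((ω i v = m ∧ ω (i + 1) v = n) ∨ (ω i v = n ∧ ω (i + 1) v = m)) ∧ T.per i v = M m n) ∨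
    (∃ i v, a ≤ i ∧ i + 1 ≤ b ∧ T.s i v ≠ v ∧ T.s (i + 1) v = v ∧ T.s (i + 1) (T.s i v) = T.s i v ∧
      ω (i + 1) v = m ∧ ω (i + 1) (T.s i v) = n ∧ T.per i v = 2 * M m n) ∨
    (∃ i v, a ≤ i ∧ i + 1 ≤ b ∧ T.s (i + 1) v ≠ v ∧ T.s i v = v ∧ T.s i (T.s (i + 1) v) = T.s (i + 1) v ∧
      ω i v = m ∧ ω i (T.s (i + 1) v) = n ∧ T.per i v = 2 * M m n)

/-- a chart: the Coxeter group acts freely on the flags of the labels in `[a, b]`; `ξ v` is the flag of
state `v` of the base chamber -/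
structure Chart {X V B : Type} (S : FSys X) (s : ℕ → V → V) (ω : ℕ → V → B) (M : CoxeterMatrix B)
    (a b : ℕ) where
  ξ : V → X
  ψ : M.Group →* Equiv.Perm X
  aut : ∀ w, IsAut S (ψ w)
  edge : ∀ i, a ≤ i → i ≤ b → ∀ v, s i v ≠ v → ξ (s i v) = S.ρ i (ξ v)
  semi : ∀ i, a ≤ i → i ≤ b → ∀ v, s i v = v → ψ (M.simple (ω i v)) (ξ v) = S.ρ i (ξ v)
  inj : ∀ w v w' v', ψ w (ξ v) = ψ w' (ξ v') → w = w' ∧ v = v'

/-- Wythoff data: `vv v` is the vector of the rank 1 element of the flag of state `v`, `ll v` the normal of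
the rank `d` element -/
structure Wyt {V B : Type} [Fintype B] [DecidableEq B] (s : ℕ → V → V) (ω : ℕ → V → B)
    (M : CoxeterMatrix B) (d : ℕ) (vv ll : V → B → ℝ) : Prop where
  vinv : ∀ i, 2 ≤ i → i ≤ d → ∀ v, vv (s i v) = vv v
  linv : ∀ i, 1 ≤ i → i + 1 ≤ d → ∀ v, ll (s i v) = ll v
  vdom : ∀ v n, 0 ≤ fB M n (vv v)
  ldom : ∀ v n, 0 ≤ fB M n (ll v)
  vwal : ∀ i, 2 ≤ i → i ≤ d → ∀ v, s i v = v → fB M (ω i v) (vv v) = 0
  lwal : ∀ i, 1 ≤ i → i + 1 ≤ d → ∀ v, s i v = v → fB M (ω i v) (ll v) = 0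
  vcov : ∀ v n, fB M n (vv v) = 0 → ∃ i v', 2 ≤ i ∧ i ≤ d ∧ s i v' = v' ∧ ω i v' = n ∧ Reach s 2 d v v'
  lcov : ∀ v n, fB M n (ll v) = 0 → ∃ i v', 1 ≤ i ∧ i + 1 ≤ d ∧ s i v' = v' ∧ ω i v' = n ∧
    Reach s 1 (d - 1) v v'
  one : ∀ u t, bil M (vv u) (ll t) = 1
  con : (∀ u t, Reach s 1 (d - 1) u t) ∨ (∀ u t, Reach s 2 d u t)

/-- a symmetry of the diagram data -/
structure DSym {V B : Type} (s : ℕ → V → V) (ω : ℕ → V → B) (M : CoxeterMatrix B) (d : ℕ)
    (vv : V → B → ℝ) (σ : V → V) (τ : Equiv.Perm B) : Prop where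
  hi : Function.Injective σ
  hs : ∀ i, 1 ≤ i → i ≤ d → ∀ v, s i (σ v) = σ (s i v)
  hω : ∀ i, 1 ≤ i → i ≤ d → ∀ v, s i v = v → ω i (σ v) = τ (ω i v)
  hM : ∀ m n, M (τ m) (τ n) = M m n
  hv : ∀ v n, vv (σ v) (τ n) = vv v n

/-- the numbers `0, 1, ..., d - 1` as elements of `Fin d` -/
def idx {d : ℕ} (hd : 4 ≤ d) (k : ℕ) : Fin d := ⟨min k (d - 1), by omega⟩

/-- the generators of type I_1: `Z = 0`, `Q = 1`, `R = 2`, `W_i = i - 1` (`i ≥ 4`) -/
def om1 {d : ℕ} (hd : 4 ≤ d) (i : ℕ) (v : Fin 3) : Fin d :=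
  if i ≤ 2 then idx hd 0 else if i = 3 then (if v = 2 then idx hd 2 else idx hd 1) else idx hd (i - 1)

/-- the generators of type II_2: `U e = 0, 1`, `P e = 2, 3` (`e = true, false`), `W_i = i - 1` (`i ≥ 5`) -/
def gU {d : ℕ} (hd : 4 ≤ d) (e : Bool) : Fin d := idx hd (if e then 0 else 1)
def gP {d : ℕ} (hd : 4 ≤ d) (e : Bool) : Fin d := idx hd (if e then 2 else 3)

def om2 {d : ℕ} (hd : 4 ≤ d) (i : ℕ) (v : Fin 3 × Bool) : Fin d :=
  if i = 1 then gU hd (!v.2) else if i = 2 ∨ i = 3 then gU hd v.2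
  else if i = 4 then gP hd (if v.1 = 2 then !v.2 else v.2) else idx hd (i - 1)

/-- the symmetry of the diagram in type II_2 -/
def tau2 {d : ℕ} (hd : 4 ≤ d) : Equiv.Perm (Fin d) :=
  Equiv.swap (gU hd true) (gU hd false) * Equiv.swap (gP hd true) (gP hd false)

/-- the generators of the interior type II_j: `U e = (0, e)`, `P e = (1, e)`, `R e = (2, e)` -/
def om3 (j i : ℕ) (v : Fin 3 × Bool) : Fin 3 × Bool :=
  if i + 1 = j then (0, !v.2) else if i = j ∨ i = j + 1 then (0, v.2)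
  else if i = j + 2 then (1, if v.1 = 2 then !v.2 else v.2) else (2, v.2)

/-- connected in the Coxeter diagram -/
def DLink {B : Type} (M : CoxeterMatrix B) : B → B → Prop :=
  Relation.ReflTransGen (fun p q => p ≠ q ∧ M p q ≠ 2)

/-- the configuration of the interior type II_j: `A w`, `E w`, `T w` are the elements of rank `j`, `j - 1`, `j + 1`
of the flag `ψ w (ξ (0, true))`, `x`, `y` its elements of rank `j - 3`, `j + 3` -/
structure Wit {L : Type} [PartialOrder L] (P : PolyLat L) (M : CoxeterMatrix (Fin 3 × Bool)) (x y : L)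
    (A E T : M.Group → L) : Prop where
  lt : x < y
  rk : P.rk y = P.rk x + 6
  xE : ∀ w, x < E w
  EA : ∀ w, E w < A w
  AT : ∀ w, A w < T w
  Ty : ∀ w, T w < y
  rkE : ∀ w, P.rk (E w) = P.rk x + 2
  rkA : ∀ w, P.rk (A w) = P.rk x + 3
  rkT : ∀ w, P.rk (T w) = P.rk x + 4
  A_eq : ∀ w w', A w = A w' → w⁻¹ * w' ∈ WP M.toCoxeterSystem {(2, true), (0, false), (0, true), (1, true)}
  AE_eq : ∀ w w', A w = A w' → E w = E w' →
    w⁻¹ * w' ∈ WP M.toCoxeterSystem {(2, true), (0, true), (1, true)}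
  AT_eq : ∀ w w', A w = A w' → T w = T w' →
    w⁻¹ * w' ∈ WP M.toCoxeterSystem {(2, true), (0, false), (1, true)}
  A_fix : ∀ w, ∀ u ∈ WP M.toCoxeterSystem {(2, true), (0, false), (0, true), (1, true)}, A (w * u) = A w
  E_fix : ∀ w, E (w * M.simple (1, false)) = E w
  T_fix : ∀ w, T (w * M.simple (2, false)) = T w
  E_ex : ∀ w E', x < E' → E' < A w → P.rk E' = P.rk x + 2 →
    ∃ u ∈ WP M.toCoxeterSystem {(2, true), (0, false)}, E (w * u) = E'
  T_ex : ∀ w T', A w < T' → T' < y → P.rk T' = P.rk x + 4 →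
    ∃ u ∈ WP M.toCoxeterSystem {(0, true), (1, true)}, T (w * u) = T'

open Classical in
/-- vanishing of the second cohomology mod 2 of the intervals of rank at least five -/
def H2 {L : Type} [PartialOrder L] [Fintype L] (P : PolyLat L) : Prop :=
  ∀ x y : L, x < y → P.rk x + 5 ≤ P.rk y → ∀ c : L → ZMod 2,
    (∀ T, x < T → T ≤ y → P.rk T = P.rk x + 4 →
      ∑ S with (x < S ∧ S < T ∧ P.rk S = P.rk x + 3), c S = 0) →
    ∃ b : L → ZMod 2, ∀ S, x < S → S ≤ y → P.rk S = P.rk x + 3 →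
      c S = ∑ E with (x < E ∧ E < S ∧ P.rk E = P.rk x + 2), b E

end H73.TO
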