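import Pool.Agent.H73.TO.ExI2

/-! # TO.ExI1 : type I_j is impossible for `2 ≤ j`, `j + 2 ≤ d`

`per j = 3` by `per_typeI`. Coxeter labelling with `B = Fin 5`, labels `[j - 1, j + 2]`: `ω (j-1) 0 = 0`, `ω (j-1) v = 1` for `v = 1, 2` (states), `ω j _ = ω (j+1) _ = 2`, `ω (j+2) v = 3` for `v = 0, 1`, `ω (j+2) 2 = 4`.
`M 0 1 = per (j-1) 0 / 2`, `M 1 2 = per (j-1) 2`, `M 0 2 = 2`, `M 2 3 = per (j+1) 0`, `M 2 4 = 2`, `M 3 4 = per (j+1) 1 / 2`, `M 0 3 = M 1 3 = M 1 4 = 2`, `M 0 4 = 0`. `no_inf` for `0, 4`.
Check of `CLab` (states `0 -j- 1 -(j+1)- 2`): slide: label `j+1` moves 1, 2: `ω (j-1) 1 = ω (j-1) 2`; label `j` moves 0, 1: `ω (j+2) 0 = ω (j+2) 1`. comm: `(j-1, j+1)` at 0: `M 0 2 = 2`; `(j-1, j+2)` at 0, 1, 2: `M 0 3, M 1 3, M 1 4`; `(j, j+2)` at 2: `M 2 4`.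
pA: label `j-1` at 2: `M 1 2`; label `j+1` at 0: `M 2 3`. pB': `i = j-1`, label `j` moves 0, 1: `2 * M 0 1 = per (j-1) 0`; pB: `i = j+1`, label `j+1` moves 1, 2: `2 * M 3 4 = per (j+1) 1`. pC: `i = j` at 0: `3 * M 2 2 = 3 = per j`.
(`two_dvd_per`, `two_dvd_per'` for the even periods; checked by a program.) -/

namespace H73.TO

open H63.KO

variable {X : Type} {S : FSys X}

/-- the Coxeter matrix -/
private def MI1 (p q r t : ℕ) (hp : p ≠ 1) (hq : q ≠ 1) (hr : r ≠ 1) (ht : t ≠ 1) :
    CoxeterMatrix (Fin 5) where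
  M := !![1, p, 2, 2, 0; p, 1, q, 2, 2; 2, q, 1, r, 2; 2, 2, r, 1, t; 0, 2, 2, t, 1]
  isSymm := by
    ext a b
    fin_cases a <;> fin_cases b <;> rfl
  diagonal := by
    intro a
    fin_cases a <;> rfl
  off_diagonal := by
    intro a b hab
    fin_cases a <;> fin_cases b <;> first | exact absurd rfl hab | (norm_num; done) | assumption

private def om (m i : ℕ) (v : Fin 3) : Fin 5 :=
  if i = m then (if v = 0 then 0 else 1) else if i = m + 3 then (if v = 2 then 4 else 3) else 2

theorem no_typeI [Finite X] (T : Typ S (Fin 3)) {j : ℕ} (h1 : 2 ≤ j) (h2 : j + 2 ≤ S.d)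
    (hs : ∀ i v, T.s i v = sI j i v) : False := by
  obtain ⟨m, rfl⟩ : ∃ m, j = m + 1 := ⟨j - 1, by omega⟩
  have hm : 1 ≤ m := by omega
  -- the involutions
  have s0 : ∀ v, T.s m v = v := by
    intro v
    rw [hs, sI, if_neg (by omega), if_neg (by omega)]
  have s3 : ∀ v, T.s (m + 3) v = v := by
    intro v
    rw [hs, sI, if_neg (by omega), if_neg (by omega)]
  have s1 : ∀ v, T.s (m + 1) v = Equiv.swap 0 1 v := by
    intro v
    rw [hs, sI, if_pos rfl]
  have s2 : ∀ v, T.s (m + 2) v = Equiv.swap 1 2 v := by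
    intro v
    rw [hs, sI, if_neg (by omega), if_pos rfl]
  have s10 : T.s (m + 1) 0 = 1 := by rw [s1]; rfl
  have s11 : T.s (m + 1) 1 = 0 := by rw [s1]; rfl
  have s12 : T.s (m + 1) 2 = 2 := by rw [s1]; rfl
  have s20 : T.s (m + 2) 0 = 0 := by rw [s2]; rfl
  have s21 : T.s (m + 2) 1 = 2 := by rw [s2]; rfl
  have s22 : T.s (m + 2) 2 = 1 := by rw [s2]; rfl
  -- the labels
  have w00 : om m m 0 = 0 := by simp [om]
  have w01 : om m m 1 = 1 := by simp [om]
  have w02 : om m m 2 = 1 := by simp [om]
  have w1 : ∀ v, om m (m + 1) v = 2 := by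
    intro v
    simp [om]
  have w2 : ∀ v, om m (m + 2) v = 2 := by
    intro v
    simp [om]
  have w30 : om m (m + 3) 0 = 3 := by simp [om]
  have w31 : om m (m + 3) 1 = 3 := by simp [om]
  have w32 : om m (m + 3) 2 = 4 := by simp [om]
  -- the periods
  have e1 : T.per m 1 = T.per m 0 := by
    rw [← s10]
    exact T.per_succ m 0
  have e2 : T.per (m + 2) 2 = T.per (m + 2) 1 := by
    rw [← s21]
    exact T.per_self (m + 2) 1
  have d1 : 2 ∣ T.per m 0 := by
    refine T.two_dvd_per' m 0 ?_ (s0 0) ?_
    · rw [s10]; decide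
    · rw [s10, s0]
  have d2 : 2 ∣ T.per (m + 2) 1 := by
    refine T.two_dvd_per (m + 2) 1 ?_ (s3 1) ?_
    · rw [s21]; decide
    · rw [s21]
      exact s3 2
  have t1 := T.three_le_per (i := m) hm (by omega) 0
  have t2 := T.three_le_per (i := m) hm (by omega) 2
  have t3 := T.three_le_per (i := m + 2) (by omega) (by omega) 0
  have t4 := T.three_le_per (i := m + 2) (by omega) (by omega) 1
  have k3 : T.per (m + 1) 0 = 3 := per_typeI T (by omega) (by omega) hs 0
  have g1 : 2 * (T.per m 0 / 2) = T.per m 0 := Nat.mul_div_cancel' d1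
  have g2 : 2 * (T.per (m + 2) 1 / 2) = T.per (m + 2) 1 := Nat.mul_div_cancel' d2
  let M : CoxeterMatrix (Fin 5) := MI1 (T.per m 0 / 2) (T.per m 2) (T.per (m + 2) 0)
    (T.per (m + 2) 1 / 2) (by omega) (by omega) (by omega) (by omega)
  have m01 : M 0 1 = T.per m 0 / 2 := rfl
  have m10 : M 1 0 = T.per m 0 / 2 := rfl
  have m12 : M 1 2 = T.per m 2 := rfl
  have m02 : M 0 2 = 2 := rfl
  have m23 : M 2 3 = T.per (m + 2) 0 := rfl
  have m24 : M 2 4 = 2 := rfl
  have m34 : M 3 4 = T.per (m + 2) 1 / 2 := rfl
  have m43 : M 4 3 = T.per (m + 2) 1 / 2 := rfl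
  have m03 : M 0 3 = 2 := rfl
  have m13 : M 1 3 = 2 := rfl
  have m14 : M 1 4 = 2 := rfl
  have m22 : M 2 2 = 1 := rfl
  have m04 : M 0 4 = 0 := rfl
  have r01 : Reach T.s m (m + 3) 0 1 :=
    Relation.ReflTransGen.single ⟨m + 1, by omega, by omega, s10.symm⟩
  have r10 : Reach T.s m (m + 3) 1 0 :=
    Relation.ReflTransGen.single ⟨m + 1, by omega, by omega, s11.symm⟩
  have r12 : Reach T.s m (m + 3) 1 2 :=
    Relation.ReflTransGen.single ⟨m + 2, by omega, by omega, s21.symm⟩
  have r21 : Reach T.s m (m + 3) 2 1 :=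
    Relation.ReflTransGen.single ⟨m + 2, by omega, by omega, s22.symm⟩
  have key : CLab T M (om m) m (m + 3) := by
    refine ⟨hm, by omega, by omega, ?_, ?_, ?_, ?_, ?_, ?_, ?_, ?_, ?_⟩
    · -- conn
      intro u v
      fin_cases u <;> fin_cases v
      · exact Relation.ReflTransGen.refl
      · exact r01
      · exact Relation.ReflTransGen.trans r01 r12
      · exact r10
      · exact Relation.ReflTransGen.refl
      · exact r12
      · exact Relation.ReflTransGen.trans r21 r10
      · exact r21
      · exact Relation.ReflTransGen.refl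
    · -- cov
      intro n
      fin_cases n
      · exact ⟨m, 0, le_rfl, by omega, s0 0, w00⟩
      · exact ⟨m, 1, le_rfl, by omega, s0 1, w01⟩
      · exact ⟨m + 1, 2, by omega, by omega, s12, w1 2⟩
      · exact ⟨m + 3, 0, by omega, by omega, s3 0, w30⟩
      · exact ⟨m + 3, 2, by omega, by omega, s3 2, w32⟩
    · -- slide
      intro i k hi1 hi2 hk1 hk2 hik v hv hv'
      obtain rfl | rfl | rfl | rfl : i = m ∨ i = m + 1 ∨ i = m + 2 ∨ i = m + 3 := by omega
      · exact absurd (s0 v) hv
      · obtain rfl : k = m + 3 := by omega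
        fin_cases v
        · change om m (m + 3) (T.s (m + 1) 0) = om m (m + 3) 0
          rw [s10, w31, w30]
        · change om m (m + 3) (T.s (m + 1) 1) = om m (m + 3) 1
          rw [s11, w31, w30]
        · exact absurd s12 hv
      · obtain rfl : k = m := by omega
        fin_cases v
        · exact absurd s20 hv
        · change om k k (T.s (k + 2) 1) = om k k 1
          rw [s21, w01, w02]
        · change om k k (T.s (k + 2) 2) = om k k 2
          rw [s22, w01, w02]
      · exact absurd (s3 v) hv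
    · -- comm
      intro i k hi1 hik hk2 v hv hv'
      right
      obtain rfl | rfl | rfl : i = m ∨ i = m + 1 ∨ i = m + 2 := by omega
      · obtain rfl | rfl : k = i + 2 ∨ k = i + 3 := by omega
        · fin_cases v
          · change M (om i i 0) (om i (i + 2) 0) = 2
            rw [w00, w2]
            exact m02
          · exact absurd (s21.symm.trans hv') (by decide)
          · exact absurd (s22.symm.trans hv') (by decide)
        · fin_cases v
          · change M (om i i 0) (om i (i + 3) 0) = 2
            rw [w00, w30]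
            exact m03
          · change M (om i i 1) (om i (i + 3) 1) = 2
            rw [w01, w31]
            exact m13
          · change M (om i i 2) (om i (i + 3) 2) = 2
            rw [w02, w32]
            exact m14
      · obtain rfl : k = m + 3 := by omega
        fin_cases v
        · exact absurd (s10.symm.trans hv) (by decide)
        · exact absurd (s11.symm.trans hv) (by decide)
        · change M (om m (m + 1) 2) (om m (m + 3) 2) = 2
          rw [w1, w32]
          exact m24
      · omega
    · -- pA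
      intro i hi1 hi2 v hv hv'
      obtain rfl | rfl | rfl : i = m ∨ i = m + 1 ∨ i = m + 2 := by omega
      · fin_cases v
        · exact absurd (s10.symm.trans hv') (by decide)
        · exact absurd (s11.symm.trans hv') (by decide)
        · change M (om i i 2) (om i (i + 1) 2) ∣ T.per i 2
          rw [w02, w1, m12]
      · fin_cases v
        · exact absurd (s10.symm.trans hv) (by decide)
        · exact absurd (s11.symm.trans hv) (by decide)
        · exact absurd (s22.symm.trans hv') (by decide)
      · fin_cases v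
        · change M (om m (m + 2) 0) (om m (m + 3) 0) ∣ T.per (m + 2) 0
          rw [w2, w30, m23]
        · exact absurd (s21.symm.trans hv) (by decide)
        · exact absurd (s22.symm.trans hv) (by decide)
    · -- pB
      intro i hi1 hi2 v hv hv' hv2
      obtain rfl | rfl | rfl : i = m ∨ i = m + 1 ∨ i = m + 2 := by omega
      · exact absurd (s0 v) hv
      · fin_cases v
        · change T.s (m + 2) (T.s (m + 1) 0) = T.s (m + 1) 0 at hv2
          rw [s10, s21] at hv2
          exact absurd hv2 (by decide)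
        · exact absurd (s21.symm.trans hv') (by decide)
        · exact absurd s12 hv
      · fin_cases v
        · exact absurd s20 hv
        · change 2 * M (om m (m + 3) 1) (om m (m + 3) (T.s (m + 2) 1)) ∣ T.per (m + 2) 1
          rw [s21, w31, w32, m34, g2]
        · change 2 * M (om m (m + 3) 2) (om m (m + 3) (T.s (m + 2) 2)) ∣ T.per (m + 2) 2
          rw [s22, w31, w32, m43, g2, e2]
    · -- pB'
      intro i hi1 hi2 v hv hv' hv2
      obtain rfl | rfl | rfl : i = m ∨ i = m + 1 ∨ i = m + 2 := by omega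
      · fin_cases v
        · change 2 * M (om i i 0) (om i i (T.s (i + 1) 0)) ∣ T.per i 0
          rw [s10, w00, w01, m01, g1]
        · change 2 * M (om i i 1) (om i i (T.s (i + 1) 1)) ∣ T.per i 1
          rw [s11, w00, w01, m10, g1, e1]
        · exact absurd s12 hv
      · fin_cases v
        · exact absurd s20 hv
        · exact absurd (s11.symm.trans hv') (by decide)
        · change T.s (m + 1) (T.s (m + 2) 2) = T.s (m + 2) 2 at hv2
          rw [s22, s11] at hv2
          exact absurd hv2 (by decide)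
      · exact absurd (s3 v) hv
    · -- pC
      intro i hi1 hi2 v hv hv' hv2
      obtain rfl | rfl | rfl : i = m ∨ i = m + 1 ∨ i = m + 2 := by omega
      · exact absurd (s0 v) hv
      · fin_cases v
        · change T.s (m + 1) (T.s (m + 2) (T.s (m + 1) 0)) = T.s (m + 2) (T.s (m + 1) 0) ∧
            3 * M (om m (m + 2) 0) (om m (m + 1) (T.s (m + 2) (T.s (m + 1) 0))) ∣ T.per (m + 1) 0
          rw [s10, s21, s12, w2, w1, m22, k3]
          exact ⟨rfl, dvd_rfl⟩
        · exact absurd (s21.symm.trans hv') (by decide)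
        · exact absurd s12 hv
      · exact absurd (s3 _) hv2
    · -- mid
      intro i hi1 hi2 v hv hv'
      obtain rfl | rfl | rfl : i = m ∨ i = m + 1 ∨ i = m + 2 := by omega
      · exact absurd (s0 v) hv
      · fin_cases v
        · exact absurd s20 hv'
        · change T.s (m + 2) (T.s (m + 1) 1) = T.s (m + 1) 1 ∧
            T.s (m + 1) (T.s (m + 2) 1) = T.s (m + 2) 1
          rw [s11, s20, s21, s12]
          exact ⟨rfl, rfl⟩
        · exact absurd s12 hv
      · exact absurd (s3 v) hv'
  exact no_inf key (m := 0) (n := 4) (by decide) m04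

end H73.TO
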