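import Pool.Agent.H73.TO.NoInf

/-! # TO.ExI2 : type I_j with `j + 2 ≤ d` has period 3 at `j`

Suppose not: `per j = 3 m` (constant on the three states: `per_self`, `per_succ`; `three_dvd_per` at the state 0), `m ≥ 2`. Coxeter labelling with `B = Fin 4`, labels `[j, j + 2]`:
`ω (j+1) _ = 0`, `ω j _ = 1`, `ω (j+2) v = 2` for `v ≠ 2`, `ω (j+2) 2 = 3` (states on the right), `M 0 1 = m`, `M 0 2 = per (j+1) 0`, `M 2 3 = per (j+1) 1 / 2` (even: `two_dvd_per`), `M 1 3 = 2`, `M 1 2 = 2`, `M 0 3 = 0`. `no_inf` for the pair `0, 3`.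
Check of `CLab` (states `0 -j- 1 -(j+1)- 2`; fixed pairs: `(j, 2)`, `(j+1, 0)`, `(j+2, all)`): slide: label `j` moves 0, 1 and `ω (j+2) 0 = ω (j+2) 1`. comm: labels `j, j+2` at the state 2: `M 1 3 = 2`. pA: label `j+1` at the state 0: `M 0 2`.
pB: label `j+1` moves 1, 2, `2 * M 2 3 = per (j+1) 1 = per (j+1) 2`. pC: label `j` at the state 0: `3 * M 0 1 = per j`. mid: label `j` at the state 1. `M` is a `CoxeterMatrix`: off-diagonal entries are not 1. (All this was checked by a program for all `j, d ≤ 9`.)
`conn`: the labels `j, j + 1` connect the three states. -/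

namespace H73.TO

open H63.KO

variable {X : Type} {S : FSys X}

private def mat4 (m p r : ℕ) : Matrix (Fin 4) (Fin 4) ℕ :=
  !![1, m, p, 0; m, 1, 2, 2; p, 2, 1, r; 0, 2, r, 1]

private def cox4 (m p r : ℕ) (hm : m ≠ 1) (hp : p ≠ 1) (hr : r ≠ 1) : CoxeterMatrix (Fin 4) where
  M := mat4 m p r
  isSymm := by
    ext i k
    fin_cases i <;> fin_cases k <;> rfl
  diagonal := by
    intro i
    fin_cases i <;> rfl
  off_diagonal := by
    intro i k hik
    fin_cases i <;> fin_cases k <;> first
      | exact absurd rfl hik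
      | exact hm
      | exact hp
      | exact hr
      | (intro h; exact absurd (show (0 : ℕ) = 1 from h) (by decide))
      | (intro h; exact absurd (show (2 : ℕ) = 1 from h) (by decide))

private def om4 (j i : ℕ) (v : Fin 3) : Fin 4 :=
  if i = j + 1 then 0 else if i = j then 1 else if v = 2 then 3 else 2

private theorem om4_1 (j : ℕ) (v : Fin 3) : om4 j (j + 1) v = 0 := by
  simp [om4]

private theorem om4_0 (j : ℕ) (v : Fin 3) : om4 j j v = 1 := by
  simp [om4]

private theorem om4_20 (j : ℕ) : om4 j (j + 2) 0 = 2 := by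
  unfold om4
  rw [if_neg (by omega), if_neg (by omega), if_neg (by decide)]

private theorem om4_21 (j : ℕ) : om4 j (j + 2) 1 = 2 := by
  unfold om4
  rw [if_neg (by omega), if_neg (by omega), if_neg (by decide)]

private theorem om4_22 (j : ℕ) : om4 j (j + 2) 2 = 3 := by
  unfold om4
  rw [if_neg (by omega), if_neg (by omega), if_pos rfl]

theorem per_typeI [Finite X] (T : Typ S (Fin 3)) {j : ℕ} (h1 : 1 ≤ j) (h2 : j + 2 ≤ S.d)
    (hs : ∀ i v, T.s i v = sI j i v) (v : Fin 3) : T.per j v = 3 := by
  have s0 : ∀ u, T.s j u = Equiv.swap 0 1 u := by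
    intro u
    rw [hs]
    unfold sI
    rw [if_pos rfl]
  have s1 : ∀ u, T.s (j + 1) u = Equiv.swap 1 2 u := by
    intro u
    rw [hs]
    unfold sI
    rw [if_neg (by omega), if_pos rfl]
  have s2 : ∀ u, T.s (j + 2) u = u := by
    intro u
    rw [hs]
    unfold sI
    rw [if_neg (by omega), if_neg (by omega)]
  have s2' : ∀ u, T.s (j + 1 + 1) u = u := s2
  have a00 : T.s j 0 = 1 := by rw [s0]; decide
  have a01 : T.s j 1 = 0 := by rw [s0]; decide
  have a02 : T.s j 2 = 2 := by rw [s0]; decide
  have a10 : T.s (j + 1) 0 = 0 := by rw [s1]; decide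
  have a11 : T.s (j + 1) 1 = 2 := by rw [s1]; decide
  have a12 : T.s (j + 1) 2 = 1 := by rw [s1]; decide
  have p01 : T.per j 1 = T.per j 0 := by
    have := T.per_self j 0
    rwa [a00] at this
  have p02 : T.per j 2 = T.per j 0 := by
    have := T.per_succ j 1
    rwa [a11, p01] at this
  have q12 : T.per (j + 1) 2 = T.per (j + 1) 1 := by
    have := T.per_self (j + 1) 1
    rwa [a11] at this
  have hv : T.per j v = T.per j 0 := by
    fin_cases v
    · rfl
    · exact p01
    · exact p02
  rw [hv]
  have hd3 : 3 ∣ T.per j 0 := by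
    apply T.three_dvd_per j 0
    · rw [a00]; decide
    · exact a10
    · rw [a00, a11]; decide
    · rw [a00, a11, a02]
  have hd2 : 2 ∣ T.per (j + 1) 1 := by
    apply T.two_dvd_per (j + 1) 1
    · rw [a11]; decide
    · exact s2' 1
    · exact s2' _
  have g0 : 3 ≤ T.per j 0 := T.three_le_per h1 (by omega) 0
  have g1 : 3 ≤ T.per (j + 1) 0 := T.three_le_per (by omega) (by omega) 0
  have g2 : 3 ≤ T.per (j + 1) 1 := T.three_le_per (by omega) (by omega) 1
  obtain ⟨m, hm⟩ := hd3
  obtain ⟨r, hr⟩ := hd2
  by_contra hcon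
  have hm1 : m ≠ 1 := by omega
  have hr1 : r ≠ 1 := by omega
  have hp1 : T.per (j + 1) 0 ≠ 1 := by omega
  have hlab : CLab T (cox4 m (T.per (j + 1) 0) r hm1 hp1 hr1) (om4 j) j (j + 2) := by
    have M01 : (cox4 m (T.per (j + 1) 0) r hm1 hp1 hr1) 0 1 = m := rfl
    have M02 : (cox4 m (T.per (j + 1) 0) r hm1 hp1 hr1) 0 2 = T.per (j + 1) 0 := rfl
    have M13 : (cox4 m (T.per (j + 1) 0) r hm1 hp1 hr1) 1 3 = 2 := rfl
    have M23 : (cox4 m (T.per (j + 1) 0) r hm1 hp1 hr1) 2 3 = r := rfl
    have M32 : (cox4 m (T.per (j + 1) 0) r hm1 hp1 hr1) 3 2 = r := rfl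
    refine ⟨h1, by omega, h2, ?_, ?_, ?_, ?_, ?_, ?_, ?_, ?_, ?_⟩
    · -- conn
      have e01 : Reach T.s j (j + 2) 0 1 := Relation.ReflTransGen.single ⟨j, le_refl _, by omega, a00.symm⟩
      have e10 : Reach T.s j (j + 2) 1 0 := Relation.ReflTransGen.single ⟨j, le_refl _, by omega, a01.symm⟩
      have e12 : Reach T.s j (j + 2) 1 2 :=
        Relation.ReflTransGen.single ⟨j + 1, by omega, by omega, a11.symm⟩
      have e21 : Reach T.s j (j + 2) 2 1 :=
        Relation.ReflTransGen.single ⟨j + 1, by omega, by omega, a12.symm⟩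
      have to1 : ∀ u, Reach T.s j (j + 2) u 1 := by
        intro u
        fin_cases u
        · exact e01
        · exact Relation.ReflTransGen.refl
        · exact e21
      have from1 : ∀ u, Reach T.s j (j + 2) 1 u := by
        intro u
        fin_cases u
        · exact e10
        · exact Relation.ReflTransGen.refl
        · exact e12
      intro u t
      exact (to1 u).trans (from1 t)
    · -- cov
      intro n
      fin_cases n
      · exact ⟨j + 1, 0, by omega, by omega, a10, om4_1 j 0⟩
      · exact ⟨j, 2, by omega, by omega, a02, om4_0 j 2⟩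
      · exact ⟨j + 2, 0, by omega, by omega, s2 0, om4_20 j⟩
      · exact ⟨j + 2, 2, by omega, by omega, s2 2, om4_22 j⟩
    · -- slide
      intro i k hi1 hi2 hk1 hk2 hik u hu1 hu2
      rcases hik with hik | hik
      · have ei : i = j := by omega
        have ek : k = j + 2 := by omega
        subst ei ek
        fin_cases u
        · show om4 i (i + 2) (T.s i 0) = om4 i (i + 2) 0
          rw [a00, om4_20, om4_21]
        · show om4 i (i + 2) (T.s i 1) = om4 i (i + 2) 1
          rw [a01, om4_20, om4_21]
        · exact absurd a02 hu1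
      · have ei : i = j + 2 := by omega
        subst ei
        exact absurd (s2 u) hu1
    · -- comm
      intro i k hi1 hik hk u hu1 hu2
      have ei : i = j := by omega
      have ek : k = j + 2 := by omega
      subst ei ek
      right
      rw [om4_0]
      fin_cases u
      · exact absurd (hu1.symm.trans a00) (by decide)
      · exact absurd (hu1.symm.trans a01) (by decide)
      · show (cox4 m (T.per (i + 1) 0) r hm1 hp1 hr1) 1 (om4 i (i + 2) 2) = 2
        rw [om4_22]
        exact M13
    · -- pA
      intro i hi1 hi2 u hu1 hu2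
      have hi : i = j ∨ i = j + 1 := by omega
      rcases hi with rfl | rfl
      · fin_cases u
        · exact absurd (hu1.symm.trans a00) (by decide)
        · exact absurd (hu1.symm.trans a01) (by decide)
        · exact absurd (hu2.symm.trans a12) (by decide)
      · rw [om4_1]
        fin_cases u
        · show (cox4 m (T.per (j + 1) 0) r hm1 hp1 hr1) 0 (om4 j (j + 2) 0) ∣ T.per (j + 1) 0
          rw [om4_20]
          exact dvd_of_eq M02
        · exact absurd (hu1.symm.trans a11) (by decide)
        · exact absurd (hu1.symm.trans a12) (by decide)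
    · -- pB
      intro i hi1 hi2 u hu1 hu2 hu3
      have hi : i = j ∨ i = j + 1 := by omega
      rcases hi with rfl | rfl
      · fin_cases u
        · simp only [Fin.zero_eta] at hu3
          rw [a00, a11] at hu3
          exact absurd hu3 (by decide)
        · exact absurd (hu2.symm.trans a11) (by decide)
        · exact absurd a02 hu1
      · fin_cases u
        · exact absurd a10 hu1
        · show 2 * (cox4 m (T.per (j + 1) 0) r hm1 hp1 hr1) (om4 j (j + 2) 1)
            (om4 j (j + 2) (T.s (j + 1) 1)) ∣ T.per (j + 1) 1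
          rw [a11, om4_21, om4_22, M23, hr]
        · show 2 * (cox4 m (T.per (j + 1) 0) r hm1 hp1 hr1) (om4 j (j + 2) 2)
            (om4 j (j + 2) (T.s (j + 1) 2)) ∣ T.per (j + 1) 2
          rw [a12, om4_21, om4_22, M32, q12, hr]
    · -- pB'
      intro i hi1 hi2 u hu1 hu2 hu3
      have hi : i = j ∨ i = j + 1 := by omega
      rcases hi with rfl | rfl
      · fin_cases u
        · exact absurd a10 hu1
        · exact absurd (hu2.symm.trans a01) (by decide)
        · simp only [Fin.reduceFinMk] at hu3
          rw [a12, a01] at hu3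
          exact absurd hu3 (by decide)
      · exact absurd (s2' u) hu1
    · -- pC
      intro i hi1 hi2 u hu1 hu2 hu3
      have hi : i = j ∨ i = j + 1 := by omega
      rcases hi with rfl | rfl
      · fin_cases u
        · simp only [Fin.zero_eta]
          rw [a00, a11, a02, om4_1, om4_0, M01, hm]
          exact ⟨rfl, dvd_refl _⟩
        · exact absurd (hu2.symm.trans a11) (by decide)
        · exact absurd a02 hu1
      · exact absurd (s2' _) hu3
    · -- mid
      intro i hi1 hi2 u hu1 hu2
      have hi : i = j ∨ i = j + 1 := by omega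
      rcases hi with rfl | rfl
      · fin_cases u
        · exact absurd a10 hu2
        · simp only [Fin.mk_one]
          rw [a01, a11, a10, a02]
          exact ⟨rfl, rfl⟩
        · exact absurd a02 hu1
      · exact absurd (s2' _) hu2
  exact no_inf hlab (m := 0) (n := 3) (by decide) rfl

end H73.TO
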