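import Pool.Agent.H73.TO.NoInf

/-! # TO.ExIIa : six states, period 3 at `j`

States `(v, e)`; label `j` exchanges `(0, e), (1, e)`, label `j + 1` exchanges `(1, e), (2, e)`, label `j - 1` exchanges `(1, e), (2, !e)`. Fixed pairs for the labels `[j-1, j+1]`: `(j+1, (0, e))`, `(j-1, (0, e))`, `(j, (2, e))`.
`per j = 3 m`, `per (j-1) = 3 m'`, constant on all states (`per_self`, `per_succ`, `hfl`; `three_dvd_per` at `(0, e)` for `i = j` and at `(2, e)` for `i = j - 1`). Suppose `m ≥ 2`.
CASE `m' ≥ 2`. `B = Fin 3 × Bool`, `ω (j+1) (v, e) = (0, e)`, `ω (j-1) (v, e) = (1, e)`, `ω j (v, e) = (2, e)`; `M (0, e) (1, e) = 2`, `M (0, e) (2, e) = m`, `M (1, e) (2, !e) = m'`, diagonal 1, all other entries 0. `no_inf` for `(0, true), (0, false)`.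
CASE `m' = 1`. `B = Fin 2 × Bool`, `ω (j+1) (v, e) = (0, e)`, `ω (j-1) (v, e) = (1, !e)`, `ω j (v, e) = (1, e)`; `M (0, e) (1, e) = m`, `M (0, e) (1, !e) = 2`, diagonal 1, other entries 0. `no_inf` for `(0, true), (0, false)`.
Check of `CLab`: no slides (labels `j-1`, `j+1` both move `(1, e), (2, e)` and both fix `(0, e)`). comm: `(j-1, j+1)` at `(0, e)`. pC: `i = j` at `(0, e)`: `3 * M (ω (j+1) (0, e)) (ω j (2, e)) = 3 m`; `i = j - 1` at `(2, e)` (path `(2, e) -(j-1)- (1, !e) -j- (0, !e)`):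
`3 * M (ω j (2, e)) (ω (j-1) (0, !e)) = 3 m'`. mid at `(1, e)`. `conn`: the labels connect all six states. The functions are on a finite set of states and only three labels occur, so `fin_cases` / `decide` after substituting `i = j - 1, j, j + 1` is fine. Checked by a program. -/

namespace H73.TO

open H63.KO

variable {X : Type} {S : FSys X}

/-- a labelling which depends on the sign only -/
private def oa {B : Type} (o0 o1 o2 : Bool → B) (m i : ℕ) (v : Fin 3 × Bool) : B :=
  if i = m then o0 v.2 else if i = m + 1 then o1 v.2 else o2 v.2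

private theorem oa0 {B : Type} (o0 o1 o2 : Bool → B) (m : ℕ) (v : Fin 3) (e : Bool) :
    oa o0 o1 o2 m m (v, e) = o0 e := by simp [oa]

private theorem oa1 {B : Type} (o0 o1 o2 : Bool → B) (m : ℕ) (v : Fin 3) (e : Bool) :
    oa o0 o1 o2 m (m + 1) (v, e) = o1 e := by simp [oa]

private theorem oa2 {B : Type} (o0 o1 o2 : Bool → B) (m : ℕ) (v : Fin 3) (e : Bool) :
    oa o0 o1 o2 m (m + 2) (v, e) = o2 e := by simp [oa]

private theorem lab_aux {B : Type} (T : Typ S (Fin 3 × Bool)) {m : ℕ} (hm : 1 ≤ m) (h2 : m + 2 ≤ S.d)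
    (s00 : ∀ e, T.s m (0, e) = (0, e)) (s01 : ∀ e, T.s m (1, e) = (2, !e)) (s02 : ∀ e, T.s m (2, e) = (1, !e))
    (s10 : ∀ e, T.s (m + 1) (0, e) = (1, e)) (s11 : ∀ e, T.s (m + 1) (1, e) = (0, e))
    (s12 : ∀ e, T.s (m + 1) (2, e) = (2, e)) (s20 : ∀ e, T.s (m + 2) (0, e) = (0, e))
    (s21 : ∀ e, T.s (m + 2) (1, e) = (2, e)) (s22 : ∀ e, T.s (m + 2) (2, e) = (1, e))
    (M : CoxeterMatrix B) (o0 o1 o2 : Bool → B)
    (hcov : ∀ n, ∃ e, o0 e = n ∨ o1 e = n ∨ o2 e = n) (hcomm : ∀ e, M (o0 e) (o2 e) = 2)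
    (hC1 : ∀ e, 3 * M (o2 e) (o1 e) ∣ T.per (m + 1) (0, e))
    (hC0 : ∀ e, 3 * M (o1 e) (o0 (!e)) ∣ T.per m (2, e)) :
    CLab T M (oa o0 o1 o2 m) m (m + 2) := by
  have n01 : ∀ e f : Bool, ((0 : Fin 3), e) ≠ (1, f) := by decide
  have n10 : ∀ e f : Bool, ((1 : Fin 3), e) ≠ (0, f) := by decide
  have n12 : ∀ e f : Bool, ((1 : Fin 3), e) ≠ (2, f) := by decide
  have n21 : ∀ e f : Bool, ((2 : Fin 3), e) ≠ (1, f) := by decide
  have m3 : ∀ e, Reach T.s m (m + 2) (0, e) (1, e) := fun e =>
    Relation.ReflTransGen.single ⟨m + 1, by omega, by omega, (s10 e).symm⟩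
  have m4 : ∀ e, Reach T.s m (m + 2) (1, e) (0, e) := fun e =>
    Relation.ReflTransGen.single ⟨m + 1, by omega, by omega, (s11 e).symm⟩
  have m5 : ∀ e, Reach T.s m (m + 2) (1, e) (2, e) := fun e =>
    Relation.ReflTransGen.single ⟨m + 2, by omega, by omega, (s21 e).symm⟩
  have m6 : ∀ e, Reach T.s m (m + 2) (2, e) (1, e) := fun e =>
    Relation.ReflTransGen.single ⟨m + 2, by omega, by omega, (s22 e).symm⟩
  have m7 : ∀ e, Reach T.s m (m + 2) (2, e) (1, !e) := fun e =>
    Relation.ReflTransGen.single ⟨m, by omega, by omega, (s02 e).symm⟩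
  have m8 : ∀ e, Reach T.s m (m + 2) (1, e) (1, !e) := fun e =>
    Relation.ReflTransGen.trans (m5 e) (m7 e)
  have m9 : ∀ e f, Reach T.s m (m + 2) (1, e) (1, f) := by
    intro e f
    cases e <;> cases f
    · exact Relation.ReflTransGen.refl
    · exact m8 false
    · exact m8 true
    · exact Relation.ReflTransGen.refl
  refine ⟨hm, by omega, by omega, ?_, ?_, ?_, ?_, ?_, ?_, ?_, ?_, ?_⟩
  · -- conn
    have to1 : ∀ u : Fin 3 × Bool, Reach T.s m (m + 2) u (1, u.2) := by
      rintro ⟨u, e⟩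
      fin_cases u
      · exact m3 e
      · exact Relation.ReflTransGen.refl
      · exact m6 e
    have from1 : ∀ u : Fin 3 × Bool, Reach T.s m (m + 2) (1, u.2) u := by
      rintro ⟨u, e⟩
      fin_cases u
      · exact m4 e
      · exact Relation.ReflTransGen.refl
      · exact m5 e
    intro u t
    exact Relation.ReflTransGen.trans (to1 u) (Relation.ReflTransGen.trans (m9 _ _) (from1 t))
  · -- cov
    intro n
    obtain ⟨e, he | he | he⟩ := hcov n
    · exact ⟨m, (0, e), le_rfl, by omega, s00 e, (oa0 o0 o1 o2 m 0 e).trans he⟩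
    · exact ⟨m + 1, (2, e), by omega, by omega, s12 e, (oa1 o0 o1 o2 m 2 e).trans he⟩
    · exact ⟨m + 2, (0, e), by omega, le_rfl, s20 e, (oa2 o0 o1 o2 m 0 e).trans he⟩
  · -- slide
    intro i k hi1 hi2 hk1 hk2 hik v hv hv'
    exfalso
    obtain ⟨v, e⟩ := v
    rcases hik with hik | hik
    · obtain rfl : i = m := by omega
      obtain rfl : k = i + 2 := by omega
      fin_cases v
      · exact hv (s00 e)
      · exact n21 _ _ ((s21 e).symm.trans hv')
      · exact n12 _ _ ((s22 e).symm.trans hv')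
    · obtain rfl : k = m := by omega
      obtain rfl : i = k + 2 := by omega
      fin_cases v
      · exact hv (s20 e)
      · exact n21 _ _ ((s01 e).symm.trans hv')
      · exact n12 _ _ ((s02 e).symm.trans hv')
  · -- comm
    intro i k hi1 hik hk v hv hv'
    obtain ⟨v, e⟩ := v
    obtain rfl : i = m := by omega
    obtain rfl : k = i + 2 := by omega
    right
    rw [oa0, oa2]
    exact hcomm e
  · -- pA
    intro i hi1 hi2 v hv hv'
    exfalso
    obtain ⟨v, e⟩ := v
    obtain rfl | rfl : i = m ∨ i = m + 1 := by omega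
    · fin_cases v
      · exact n10 _ _ ((s10 e).symm.trans hv')
      · exact n01 _ _ ((s11 e).symm.trans hv')
      · exact n12 _ _ ((s02 e).symm.trans hv)
    · fin_cases v
      · exact n10 _ _ ((s10 e).symm.trans hv)
      · exact n01 _ _ ((s11 e).symm.trans hv)
      · exact n12 _ _ ((s22 e).symm.trans hv')
  · -- pB
    intro i hi1 hi2 v hv hv' hv2
    exfalso
    obtain ⟨v, e⟩ := v
    obtain rfl | rfl : i = m ∨ i = m + 1 := by omega
    · fin_cases v
      · exact hv (s00 e)
      · exact n01 _ _ ((s11 e).symm.trans hv')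
      · change T.s (i + 1) (T.s i (2, e)) = T.s i (2, e) at hv2
        rw [s02, s11] at hv2
        exact n01 _ _ hv2
    · fin_cases v
      · change T.s (m + 2) (T.s (m + 1) (0, e)) = T.s (m + 1) (0, e) at hv2
        rw [s10, s21] at hv2
        exact n21 _ _ hv2
      · exact n21 _ _ ((s21 e).symm.trans hv')
      · exact hv (s12 e)
  · -- pB'
    intro i hi1 hi2 v hv hv' hv2
    exfalso
    obtain ⟨v, e⟩ := v
    obtain rfl | rfl : i = m ∨ i = m + 1 := by omega
    · fin_cases v
      · change T.s i (T.s (i + 1) (0, e)) = T.s (i + 1) (0, e) at hv2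
        rw [s10, s01] at hv2
        exact n21 _ _ hv2
      · exact n21 _ _ ((s01 e).symm.trans hv')
      · exact hv (s12 e)
    · fin_cases v
      · exact hv (s20 e)
      · exact n01 _ _ ((s11 e).symm.trans hv')
      · change T.s (m + 1) (T.s (m + 2) (2, e)) = T.s (m + 2) (2, e) at hv2
        rw [s22, s11] at hv2
        exact n01 _ _ hv2
  · -- pC
    intro i hi1 hi2 v hv hv' hv2
    obtain ⟨v, e⟩ := v
    obtain rfl | rfl : i = m ∨ i = m + 1 := by omega
    · fin_cases v
      · exact absurd (s00 e) hv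
      · exact absurd ((s11 e).symm.trans hv') (n01 _ _)
      · change T.s i (T.s (i + 1) (T.s i (2, e))) = T.s (i + 1) (T.s i (2, e)) ∧
          3 * M (oa o0 o1 o2 i (i + 1) (2, e)) (oa o0 o1 o2 i i (T.s (i + 1) (T.s i (2, e)))) ∣
            T.per i (2, e)
        rw [s02, s11, s00, oa1, oa0]
        exact ⟨rfl, hC0 e⟩
    · fin_cases v
      · change T.s (m + 1) (T.s (m + 2) (T.s (m + 1) (0, e))) = T.s (m + 2) (T.s (m + 1) (0, e)) ∧
          3 * M (oa o0 o1 o2 m (m + 2) (0, e))
            (oa o0 o1 o2 m (m + 1) (T.s (m + 2) (T.s (m + 1) (0, e)))) ∣ T.per (m + 1) (0, e)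
        rw [s10, s21, s12, oa1, oa2]
        exact ⟨rfl, hC1 e⟩
      · exact absurd ((s21 e).symm.trans hv') (n21 _ _)
      · exact absurd (s12 e) hv
  · -- mid
    intro i hi1 hi2 v hv hv'
    obtain ⟨v, e⟩ := v
    obtain rfl | rfl : i = m ∨ i = m + 1 := by omega
    · fin_cases v
      · exact absurd (s00 e) hv
      · change T.s (i + 1) (T.s i (1, e)) = T.s i (1, e) ∧ T.s i (T.s (i + 1) (1, e)) = T.s (i + 1) (1, e)
        rw [s01, s12, s11, s00]
        exact ⟨rfl, rfl⟩
      · exact absurd (s12 e) hv'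
    · fin_cases v
      · exact absurd (s20 e) hv'
      · change T.s (m + 2) (T.s (m + 1) (1, e)) = T.s (m + 1) (1, e) ∧
          T.s (m + 1) (T.s (m + 2) (1, e)) = T.s (m + 2) (1, e)
        rw [s11, s20, s21, s12]
        exact ⟨rfl, rfl⟩
      · exact absurd (s12 e) hv

/-- the entries of the Coxeter matrix, two pairs of labels -/
private def fb (p : ℕ) (x y : Fin 2 × Bool) : ℕ :=
  if x = y then 1 else if x.1 = y.1 then 0 else if x.2 = y.2 then p else 2

/-- the Coxeter matrix, two pairs of labels -/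
private def MB (p : ℕ) (hp : p ≠ 1) : CoxeterMatrix (Fin 2 × Bool) where
  M := Matrix.of (fb p)
  isSymm := by
    ext x y
    obtain ⟨a, e⟩ := x
    obtain ⟨b, f⟩ := y
    fin_cases a <;> fin_cases b <;> cases e <;> cases f <;> rfl
  diagonal := by
    intro x
    exact if_pos rfl
  off_diagonal := by
    intro x y hxy
    change fb p x y ≠ 1
    unfold fb
    rw [if_neg hxy]
    split_ifs
    · decide
    · exact hp
    · decide

private theorem MB_same (p : ℕ) (hp : p ≠ 1) (x : Fin 2 × Bool) : (MB p hp) x x = 1 := if_pos rfl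

private theorem MB_two (p : ℕ) (hp : p ≠ 1) (e : Bool) : (MB p hp) (1, !e) (0, e) = 2 := by
  cases e <;> rfl

private theorem MB_p (p : ℕ) (hp : p ≠ 1) (e : Bool) : (MB p hp) (0, e) (1, e) = p := by
  cases e <;> rfl

private theorem MB_inf (p : ℕ) (hp : p ≠ 1) : (MB p hp) (0, true) (0, false) = 0 := rfl

/-- the entries of the Coxeter matrix, three pairs of labels -/
private def fc (p q : ℕ) : Fin 3 × Bool → Fin 3 × Bool → ℕ
  | (0, e), (0, f) => if e = f then 1 else 0
  | (1, e), (1, f) => if e = f then 1 else 0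
  | (2, e), (2, f) => if e = f then 1 else 0
  | (0, e), (1, f) => if e = f then 2 else 0
  | (1, e), (0, f) => if e = f then 2 else 0
  | (0, e), (2, f) => if e = f then p else 0
  | (2, e), (0, f) => if e = f then p else 0
  | (1, e), (2, f) => if e = f then 0 else q
  | (2, e), (1, f) => if e = f then 0 else q

/-- the Coxeter matrix, three pairs of labels -/
private def MC (p q : ℕ) (hp : p ≠ 1) (hq : q ≠ 1) : CoxeterMatrix (Fin 3 × Bool) where
  M := Matrix.of (fc p q)
  isSymm := by
    ext x y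
    obtain ⟨a, e⟩ := x
    obtain ⟨b, f⟩ := y
    fin_cases a <;> fin_cases b <;> cases e <;> cases f <;> rfl
  diagonal := by
    intro x
    obtain ⟨a, e⟩ := x
    fin_cases a <;> cases e <;> rfl
  off_diagonal := by
    intro x y hxy
    change fc p q x y ≠ 1
    obtain ⟨a, e⟩ := x
    obtain ⟨b, f⟩ := y
    fin_cases a <;> fin_cases b <;> cases e <;> cases f <;>
      first
        | exact absurd rfl hxy
        | exact (by decide : (0 : ℕ) ≠ 1)
        | exact (by decide : (2 : ℕ) ≠ 1)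
        | exact hp
        | exact hq

private theorem MC_two (p q : ℕ) (hp : p ≠ 1) (hq : q ≠ 1) (e : Bool) :
    (MC p q hp hq) (1, e) (0, e) = 2 := by
  cases e <;> rfl

private theorem MC_p (p q : ℕ) (hp : p ≠ 1) (hq : q ≠ 1) (e : Bool) :
    (MC p q hp hq) (0, e) (2, e) = p := by
  cases e <;> rfl

private theorem MC_q (p q : ℕ) (hp : p ≠ 1) (hq : q ≠ 1) (e : Bool) :
    (MC p q hp hq) (2, e) (1, !e) = q := by
  cases e <;> rfl

private theorem MC_inf (p q : ℕ) (hp : p ≠ 1) (hq : q ≠ 1) :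
    (MC p q hp hq) (0, true) (0, false) = 0 := rfl

theorem per_typeII_a [Finite X] (T : Typ S (Fin 3 × Bool)) {j : ℕ} (h1 : 2 ≤ j) (h2 : j + 1 ≤ S.d)
    (hs : ∀ i v, T.s i v = sS j i v) (hfl : ∀ i v, T.per i (flip6 v) = T.per i v)
    (v : Fin 3 × Bool) : T.per j v = 3 := by
  obtain ⟨m, rfl⟩ : ∃ m, j = m + 1 := ⟨j - 1, by omega⟩
  have hm : 1 ≤ m := by omega
  -- the involutions
  have s00 : ∀ e, T.s m (0, e) = (0, e) := by
    intro e
    rw [hs, sS, if_neg (by omega), if_neg (by omega), if_pos rfl]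
    cases e <;> rfl
  have s01 : ∀ e, T.s m (1, e) = (2, !e) := by
    intro e
    rw [hs, sS, if_neg (by omega), if_neg (by omega), if_pos rfl]
    cases e <;> rfl
  have s02 : ∀ e, T.s m (2, e) = (1, !e) := by
    intro e
    rw [hs, sS, if_neg (by omega), if_neg (by omega), if_pos rfl]
    cases e <;> rfl
  have s10 : ∀ e, T.s (m + 1) (0, e) = (1, e) := by
    intro e
    rw [hs, sS, if_pos rfl]
    cases e <;> rfl
  have s11 : ∀ e, T.s (m + 1) (1, e) = (0, e) := by
    intro e
    rw [hs, sS, if_pos rfl]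
    cases e <;> rfl
  have s12 : ∀ e, T.s (m + 1) (2, e) = (2, e) := by
    intro e
    rw [hs, sS, if_pos rfl]
    cases e <;> rfl
  have s20 : ∀ e, T.s (m + 2) (0, e) = (0, e) := by
    intro e
    rw [hs, sS, if_neg (by omega), if_pos rfl]
    cases e <;> rfl
  have s21 : ∀ e, T.s (m + 2) (1, e) = (2, e) := by
    intro e
    rw [hs, sS, if_neg (by omega), if_pos rfl]
    cases e <;> rfl
  have s22 : ∀ e, T.s (m + 2) (2, e) = (1, e) := by
    intro e
    rw [hs, sS, if_neg (by omega), if_pos rfl]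
    cases e <;> rfl
  have n01 : ∀ e f : Bool, ((0 : Fin 3), e) ≠ (1, f) := by decide
  have n10 : ∀ e f : Bool, ((1 : Fin 3), e) ≠ (0, f) := by decide
  have n12 : ∀ e f : Bool, ((1 : Fin 3), e) ≠ (2, f) := by decide
  have n21 : ∀ e f : Bool, ((2 : Fin 3), e) ≠ (1, f) := by decide
  -- the periods at `m`
  have p1 : ∀ e, T.per m (1, e) = T.per m (0, e) := by
    intro e
    have := T.per_succ m (0, e)
    rwa [s10] at this
  have p2 : ∀ e, T.per m (2, !e) = T.per m (0, e) := by
    intro e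
    have := T.per_self m (1, e)
    rwa [s01, p1] at this
  have pf : ∀ e, T.per m (0, e) = T.per m (0, true) := by
    intro e
    cases e
    · exact hfl m (0, true)
    · rfl
  have pv : ∀ v, T.per m v = T.per m (0, true) := by
    intro v
    obtain ⟨v, e⟩ := v
    fin_cases v
    · exact pf e
    · exact (p1 e).trans (pf e)
    · have := (p2 (!e)).trans (pf (!e))
      rwa [Bool.not_not] at this
  -- the periods at `m + 1`
  have r1 : ∀ e, T.per (m + 1) (1, e) = T.per (m + 1) (0, e) := by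
    intro e
    have := T.per_self (m + 1) (0, e)
    rwa [s10] at this
  have r2 : ∀ e, T.per (m + 1) (2, e) = T.per (m + 1) (0, e) := by
    intro e
    have := T.per_succ (m + 1) (1, e)
    change T.per (m + 1) (T.s (m + 2) (1, e)) = _ at this
    rwa [s21, r1] at this
  have rf : ∀ e, T.per (m + 1) (0, e) = T.per (m + 1) (0, true) := by
    intro e
    cases e
    · exact hfl (m + 1) (0, true)
    · rfl
  have rv : ∀ v, T.per (m + 1) v = T.per (m + 1) (0, true) := by
    intro v
    obtain ⟨v, e⟩ := v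
    fin_cases v
    · exact rf e
    · exact (r1 e).trans (rf e)
    · exact (r2 e).trans (rf e)
  have hd3 : 3 ∣ T.per m (2, true) := by
    apply T.three_dvd_per m (2, true)
    · rw [s02]; exact n12 _ _
    · exact s12 _
    · rw [s02, s11]; exact n01 _ _
    · rw [s02, s11, s00]
  have hd4 : 3 ∣ T.per (m + 1) (0, true) := by
    apply T.three_dvd_per (m + 1) (0, true)
    · rw [s10]; exact n10 _ _
    · exact s20 _
    · change T.s (m + 2) (T.s (m + 1) (0, true)) ≠ _
      rw [s10, s21]; exact n21 _ _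
    · change T.s (m + 1) (T.s (m + 2) (T.s (m + 1) (0, true))) = T.s (m + 2) (T.s (m + 1) (0, true))
      rw [s10, s21, s12]
  have g0 : 3 ≤ T.per m (0, true) := T.three_le_per hm (by omega) _
  have g1 : 3 ≤ T.per (m + 1) (0, true) := T.three_le_per (by omega) (by omega) _
  rw [pv] at hd3
  obtain ⟨q, hq⟩ := hd3
  obtain ⟨p, hp⟩ := hd4
  rw [rv]
  by_contra hcon
  have hp1 : p ≠ 1 := by omega
  by_cases hq1 : q = 1
  · have key := lab_aux T hm (by omega) s00 s01 s02 s10 s11 s12 s20 s21 s22 (MB p hp1)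
      (fun e => ((1 : Fin 2), !e)) (fun e => ((1 : Fin 2), e)) (fun e => ((0 : Fin 2), e))
      (by
        rintro ⟨n, e⟩
        refine ⟨e, ?_⟩
        fin_cases n
        · exact Or.inr (Or.inr rfl)
        · exact Or.inr (Or.inl rfl))
      (fun e => MB_two p hp1 e)
      (fun e => by
        rw [MB_p, rv, hp])
      (fun e => by
        rw [Bool.not_not, MB_same, pv, hq, hq1])
    exact no_inf key (m := (0, true)) (n := (0, false)) (by decide) (MB_inf p hp1)
  · have key := lab_aux T hm (by omega) s00 s01 s02 s10 s11 s12 s20 s21 s22 (MC p q hp1 hq1)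
      (fun e => ((1 : Fin 3), e)) (fun e => ((2 : Fin 3), e)) (fun e => ((0 : Fin 3), e))
      (by
        rintro ⟨n, e⟩
        refine ⟨e, ?_⟩
        fin_cases n
        · exact Or.inr (Or.inr rfl)
        · exact Or.inl rfl
        · exact Or.inr (Or.inl rfl))
      (fun e => MC_two p q hp1 hq1 e)
      (fun e => by
        rw [MC_p, rv, hp])
      (fun e => by
        rw [MC_q, pv, hq])
    exact no_inf key (m := (0, true)) (n := (0, false)) (by decide) (MC_inf p q hp1 hq1)

end H73.TO
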