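import Pool.Agent.H73.TO.ExIIa

/-! # TO.ExIIb : six states, period 3 at `j - 1`

`per j = 3` by `per_typeII_a`. `per (j-1) = 3 m'` constant (see ExIIa); suppose `m' ≥ 2`. `B = Fin 2 × Bool`, labels `[j-1, j+1]`, `ω (j+1) (v, e) = (0, e)`, `ω (j-1) (v, e) = (1, e)`, `ω j (v, e) = (0, e)`;
`M (0, e) (1, e) = 2`, `M (0, e) (1, !e) = m'`, diagonal 1, other entries 0. `no_inf` for `(0, true), (0, false)`. Check of `CLab`: comm `(j-1, j+1)` at `(0, e)`: `M (1, e) (0, e) = 2`; pC `i = j` at `(0, e)`: `3 * M (0, e) (0, e) = 3 = per j`;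
`i = j - 1` at `(2, e)`: `3 * M (ω j (2, e)) (ω (j-1) (0, !e)) = 3 * M (0, e) (1, !e) = 3 m'`. The rest as in ExIIa. -/

namespace H73.TO

open H63.KO

variable {X : Type} {S : FSys X}

/-- the entries of the Coxeter matrix -/
private def fb (p : ℕ) (x y : Fin 2 × Bool) : ℕ :=
  if x = y then 1 else if x.1 = y.1 then 0 else if x.2 = y.2 then 2 else p

/-- the Coxeter matrix -/
private def MB (p : ℕ) (hp : p ≠ 1) : CoxeterMatrix (Fin 2 × Bool) where
  M := Matrix.of (fb p)
  isSymm := by
    ext x y
    obtain ⟨a, e⟩ := x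
    obtain ⟨b, f⟩ := y
    fin_cases a <;> fin_cases b <;> cases e <;> cases f <;> rfl
  diagonal := by
    intro x
    exact if_pos rfl
  off_diagonal := by
    intro x y hxy
    change fb p x y ≠ 1
    unfold fb
    rw [if_neg hxy]
    split_ifs
    · decide
    · decide
    · exact hp

private theorem MB_same (p : ℕ) (hp : p ≠ 1) (x : Fin 2 × Bool) : (MB p hp) x x = 1 := if_pos rfl

private theorem MB_two (p : ℕ) (hp : p ≠ 1) (e : Bool) : (MB p hp) (1, e) (0, e) = 2 := by
  cases e <;> rfl

private theorem MB_p (p : ℕ) (hp : p ≠ 1) (e : Bool) : (MB p hp) (0, e) (1, !e) = p := by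
  cases e <;> rfl

private theorem MB_inf (p : ℕ) (hp : p ≠ 1) : (MB p hp) (0, true) (0, false) = 0 := rfl

private def ob (m i : ℕ) (v : Fin 3 × Bool) : Fin 2 × Bool := if i = m then (1, v.2) else (0, v.2)

private theorem ob0 (m : ℕ) (v : Fin 3) (e : Bool) : ob m m (v, e) = (1, e) := by simp [ob]

private theorem ob1 (m : ℕ) (v : Fin 3) (e : Bool) : ob m (m + 1) (v, e) = (0, e) := by simp [ob]

private theorem ob2 (m : ℕ) (v : Fin 3) (e : Bool) : ob m (m + 2) (v, e) = (0, e) := by simp [ob]

theorem per_typeII_b [Finite X] (T : Typ S (Fin 3 × Bool)) {j : ℕ} (h1 : 2 ≤ j) (h2 : j + 1 ≤ S.d)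
    (hs : ∀ i v, T.s i v = sS j i v) (hfl : ∀ i v, T.per i (flip6 v) = T.per i v)
    (v : Fin 3 × Bool) : T.per (j - 1) v = 3 := by
  have hj := per_typeII_a T h1 h2 hs hfl
  obtain ⟨m, rfl⟩ : ∃ m, j = m + 1 := ⟨j - 1, by omega⟩
  have hm : 1 ≤ m := by omega
  rw [Nat.add_sub_cancel]
  -- the involutions
  have s00 : ∀ e, T.s m (0, e) = (0, e) := by
    intro e
    rw [hs, sS, if_neg (by omega), if_neg (by omega), if_pos rfl]
    cases e <;> rfl
  have s01 : ∀ e, T.s m (1, e) = (2, !e) := by
    intro e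
    rw [hs, sS, if_neg (by omega), if_neg (by omega), if_pos rfl]
    cases e <;> rfl
  have s02 : ∀ e, T.s m (2, e) = (1, !e) := by
    intro e
    rw [hs, sS, if_neg (by omega), if_neg (by omega), if_pos rfl]
    cases e <;> rfl
  have s10 : ∀ e, T.s (m + 1) (0, e) = (1, e) := by
    intro e
    rw [hs, sS, if_pos rfl]
    cases e <;> rfl
  have s11 : ∀ e, T.s (m + 1) (1, e) = (0, e) := by
    intro e
    rw [hs, sS, if_pos rfl]
    cases e <;> rfl
  have s12 : ∀ e, T.s (m + 1) (2, e) = (2, e) := by
    intro e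
    rw [hs, sS, if_pos rfl]
    cases e <;> rfl
  have s20 : ∀ e, T.s (m + 2) (0, e) = (0, e) := by
    intro e
    rw [hs, sS, if_neg (by omega), if_pos rfl]
    cases e <;> rfl
  have s21 : ∀ e, T.s (m + 2) (1, e) = (2, e) := by
    intro e
    rw [hs, sS, if_neg (by omega), if_pos rfl]
    cases e <;> rfl
  have s22 : ∀ e, T.s (m + 2) (2, e) = (1, e) := by
    intro e
    rw [hs, sS, if_neg (by omega), if_pos rfl]
    cases e <;> rfl
  have n01 : ∀ e f : Bool, ((0 : Fin 3), e) ≠ (1, f) := by decide
  have n10 : ∀ e f : Bool, ((1 : Fin 3), e) ≠ (0, f) := by decide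
  have n12 : ∀ e f : Bool, ((1 : Fin 3), e) ≠ (2, f) := by decide
  have n21 : ∀ e f : Bool, ((2 : Fin 3), e) ≠ (1, f) := by decide
  -- the periods
  have p1 : ∀ e, T.per m (1, e) = T.per m (0, e) := by
    intro e
    have := T.per_succ m (0, e)
    rwa [s10] at this
  have p2 : ∀ e, T.per m (2, !e) = T.per m (0, e) := by
    intro e
    have := T.per_self m (1, e)
    rwa [s01, p1] at this
  have pf : ∀ e, T.per m (0, e) = T.per m (0, true) := by
    intro e
    cases e
    · have := hfl m (0, true)
      exact this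
    · rfl
  have pv : ∀ v, T.per m v = T.per m (0, true) := by
    intro v
    obtain ⟨v, e⟩ := v
    fin_cases v
    · exact pf e
    · exact (p1 e).trans (pf e)
    · have := (p2 (!e)).trans (pf (!e))
      rwa [Bool.not_not] at this
  have hd3 : 3 ∣ T.per m (2, true) := by
    apply T.three_dvd_per m (2, true)
    · rw [s02]; exact n12 _ _
    · exact s12 _
    · rw [s02, s11]; exact n01 _ _
    · rw [s02, s11, s00]
  have g0 : 3 ≤ T.per m (0, true) := T.three_le_per hm (by omega) _
  rw [pv] at hd3
  obtain ⟨p, hp⟩ := hd3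
  rw [pv]
  by_contra hcon
  have hp1 : p ≠ 1 := by omega
  have m3 : ∀ e, Reach T.s m (m + 2) (0, e) (1, e) := fun e =>
    Relation.ReflTransGen.single ⟨m + 1, by omega, by omega, (s10 e).symm⟩
  have m4 : ∀ e, Reach T.s m (m + 2) (1, e) (0, e) := fun e =>
    Relation.ReflTransGen.single ⟨m + 1, by omega, by omega, (s11 e).symm⟩
  have m5 : ∀ e, Reach T.s m (m + 2) (1, e) (2, e) := fun e =>
    Relation.ReflTransGen.single ⟨m + 2, by omega, by omega, (s21 e).symm⟩
  have m6 : ∀ e, Reach T.s m (m + 2) (2, e) (1, e) := fun e =>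
    Relation.ReflTransGen.single ⟨m + 2, by omega, by omega, (s22 e).symm⟩
  have m7 : ∀ e, Reach T.s m (m + 2) (2, e) (1, !e) := fun e =>
    Relation.ReflTransGen.single ⟨m, by omega, by omega, (s02 e).symm⟩
  have m8 : ∀ e, Reach T.s m (m + 2) (1, e) (1, !e) := fun e =>
    Relation.ReflTransGen.trans (m5 e) (m7 e)
  have m9 : ∀ e f, Reach T.s m (m + 2) (1, e) (1, f) := by
    intro e f
    cases e <;> cases f
    · exact Relation.ReflTransGen.refl
    · exact m8 false
    · exact m8 true
    · exact Relation.ReflTransGen.refl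
  have key : CLab T (MB p hp1) (ob m) m (m + 2) := by
    refine ⟨hm, by omega, by omega, ?_, ?_, ?_, ?_, ?_, ?_, ?_, ?_, ?_⟩
    · -- conn
      have to1 : ∀ u : Fin 3 × Bool, Reach T.s m (m + 2) u (1, u.2) := by
        rintro ⟨u, e⟩
        fin_cases u
        · exact m3 e
        · exact Relation.ReflTransGen.refl
        · exact m6 e
      have from1 : ∀ u : Fin 3 × Bool, Reach T.s m (m + 2) (1, u.2) u := by
        rintro ⟨u, e⟩
        fin_cases u
        · exact m4 e
        · exact Relation.ReflTransGen.refl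
        · exact m5 e
      intro u t
      exact Relation.ReflTransGen.trans (to1 u) (Relation.ReflTransGen.trans (m9 _ _) (from1 t))
    · -- cov
      rintro ⟨n, e⟩
      fin_cases n
      · exact ⟨m + 2, (0, e), by omega, le_rfl, s20 e, ob2 m 0 e⟩
      · exact ⟨m, (0, e), le_rfl, by omega, s00 e, ob0 m 0 e⟩
    · -- slide
      intro i k hi1 hi2 hk1 hk2 hik v hv hv'
      exfalso
      obtain ⟨v, e⟩ := v
      rcases hik with hik | hik
      · obtain rfl : i = m := by omega
        obtain rfl : k = i + 2 := by omega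
        fin_cases v
        · exact hv (s00 e)
        · exact n21 _ _ ((s21 e).symm.trans hv')
        · exact n12 _ _ ((s22 e).symm.trans hv')
      · obtain rfl : k = m := by omega
        obtain rfl : i = k + 2 := by omega
        fin_cases v
        · exact hv (s20 e)
        · exact n21 _ _ ((s01 e).symm.trans hv')
        · exact n12 _ _ ((s02 e).symm.trans hv')
    · -- comm
      intro i k hi1 hik hk v hv hv'
      obtain ⟨v, e⟩ := v
      obtain rfl : i = m := by omega
      obtain rfl : k = i + 2 := by omega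
      right
      rw [ob0, ob2]
      exact MB_two p hp1 e
    · -- pA
      intro i hi1 hi2 v hv hv'
      exfalso
      obtain ⟨v, e⟩ := v
      obtain rfl | rfl : i = m ∨ i = m + 1 := by omega
      · fin_cases v
        · exact n10 _ _ ((s10 e).symm.trans hv')
        · exact n01 _ _ ((s11 e).symm.trans hv')
        · exact n12 _ _ ((s02 e).symm.trans hv)
      · fin_cases v
        · exact n10 _ _ ((s10 e).symm.trans hv)
        · exact n01 _ _ ((s11 e).symm.trans hv)
        · exact n12 _ _ ((s22 e).symm.trans hv')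
    · -- pB
      intro i hi1 hi2 v hv hv' hv2
      exfalso
      obtain ⟨v, e⟩ := v
      obtain rfl | rfl : i = m ∨ i = m + 1 := by omega
      · fin_cases v
        · exact hv (s00 e)
        · exact n01 _ _ ((s11 e).symm.trans hv')
        · change T.s (i + 1) (T.s i (2, e)) = T.s i (2, e) at hv2
          rw [s02, s11] at hv2
          exact n01 _ _ hv2
      · fin_cases v
        · change T.s (m + 2) (T.s (m + 1) (0, e)) = T.s (m + 1) (0, e) at hv2
          rw [s10, s21] at hv2
          exact n21 _ _ hv2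
        · exact n21 _ _ ((s21 e).symm.trans hv')
        · exact hv (s12 e)
    · -- pB'
      intro i hi1 hi2 v hv hv' hv2
      exfalso
      obtain ⟨v, e⟩ := v
      obtain rfl | rfl : i = m ∨ i = m + 1 := by omega
      · fin_cases v
        · change T.s i (T.s (i + 1) (0, e)) = T.s (i + 1) (0, e) at hv2
          rw [s10, s01] at hv2
          exact n21 _ _ hv2
        · exact n21 _ _ ((s01 e).symm.trans hv')
        · exact hv (s12 e)
      · fin_cases v
        · exact hv (s20 e)
        · exact n01 _ _ ((s11 e).symm.trans hv')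
        · change T.s (m + 1) (T.s (m + 2) (2, e)) = T.s (m + 2) (2, e) at hv2
          rw [s22, s11] at hv2
          exact n01 _ _ hv2
    · -- pC
      intro i hi1 hi2 v hv hv' hv2
      obtain ⟨v, e⟩ := v
      obtain rfl | rfl : i = m ∨ i = m + 1 := by omega
      · fin_cases v
        · exact absurd (s00 e) hv
        · exact absurd ((s11 e).symm.trans hv') (n01 _ _)
        · change T.s i (T.s (i + 1) (T.s i (2, e))) = T.s (i + 1) (T.s i (2, e)) ∧
            3 * (MB p hp1) (ob i (i + 1) (2, e)) (ob i i (T.s (i + 1) (T.s i (2, e)))) ∣ T.per i (2, e)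
          rw [s02, s11, s00, ob1, ob0, MB_p, pv, hp]
          exact ⟨rfl, dvd_rfl⟩
      · fin_cases v
        · change T.s (m + 1) (T.s (m + 2) (T.s (m + 1) (0, e))) = T.s (m + 2) (T.s (m + 1) (0, e)) ∧
            3 * (MB p hp1) (ob m (m + 2) (0, e)) (ob m (m + 1) (T.s (m + 2) (T.s (m + 1) (0, e)))) ∣
              T.per (m + 1) (0, e)
          rw [s10, s21, s12, ob1, ob2, MB_same, hj]
          exact ⟨rfl, dvd_rfl⟩
        · exact absurd ((s21 e).symm.trans hv') (n21 _ _)
        · exact absurd (s12 e) hv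
    · -- mid
      intro i hi1 hi2 v hv hv'
      obtain ⟨v, e⟩ := v
      obtain rfl | rfl : i = m ∨ i = m + 1 := by omega
      · fin_cases v
        · exact absurd (s00 e) hv
        · change T.s (i + 1) (T.s i (1, e)) = T.s i (1, e) ∧ T.s i (T.s (i + 1) (1, e)) = T.s (i + 1) (1, e)
          rw [s01, s12, s11, s00]
          exact ⟨rfl, rfl⟩
        · exact absurd (s12 e) hv'
      · fin_cases v
        · exact absurd (s20 e) hv'
        · change T.s (m + 2) (T.s (m + 1) (1, e)) = T.s (m + 1) (1, e) ∧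
            T.s (m + 1) (T.s (m + 2) (1, e)) = T.s (m + 2) (1, e)
          rw [s11, s20, s21, s12]
          exact ⟨rfl, rfl⟩
        · exact absurd (s12 e) hv
  exact no_inf key (m := (0, true)) (n := (0, false)) (by decide) (MB_inf p hp1)

end H73.TO
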