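import Pool.Agent.H73.TO.Defs

/-! # TO.FD : the fundamental domain inequality

`cs` any Coxeter system with positive definite form, `x`, `y` dominant (`0 ≤ fB M t x`, `0 ≤ fB M t y`). `dom_le` (H44/Cox/Lem.lean, `K = univ`) : `rho cs w y ≤ y` for all `w`, with equality only if `w` is in the parabolic subgroup of the `t` with `fB M t y = 0` (read its exact statement). So `δ = y - rho cs w y ≥ 0` and
`bil x y - bil x (rho w y) = ∑ t, δ t * fB M t x ≥ 0` (`bil_symm`, definition of `bil`). EQUALITY: then `δ t = 0` unless `fB M t x = 0`. First let `w` satisfy `0 ≤ rho w⁻¹ (al t)` for all `t ∈ I x`. Then `bil (rho w y) (al t) = bil y (rho w⁻¹ (al t)) ≥ 0` (`rho w⁻¹ (al t)` is a nonnegative combination, `y` dominant),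
so `bil (rho w y) δ ≥ 0`. From `bil (y - δ) (y - δ) = bil y y` (`bil_rho`): `bil δ δ = 2 bil y δ`, so `bil (rho w y) δ = bil y δ - bil δ δ = - bil y δ ≤ 0` (as `bil y δ = ∑ δ t fB t y ≥ 0`). Hence `bil y δ = 0`, `bil δ δ = 0`, `δ = 0`, `rho w y = y`, so `w ∈ WP (I y)`.
General `w`: `exists_dec` for `w⁻¹` and `K = I x`: `w⁻¹ = v * u`, `u ∈ WP (I x)`, `0 ≤ rho v (al r)` for `r ∈ I x`; `w = u⁻¹ * v⁻¹`; `rho u x = x` (elements of `WP (I x)` fix `x`: `sig t x = x` if `fB M t x = 0`), so `bil x (rho w y) = bil (rho u x) (rho v⁻¹ y) = bil x (rho v⁻¹ y)`; the special case applies to `v⁻¹`. -/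

namespace H73.TO

open Pool.Agent.H80.Cox Pool.Agent.H44.Cox

variable {B : Type} [Fintype B] [DecidableEq B] {W : Type} [Group W] {M : CoxeterMatrix B}
variable (cs : CoxeterSystem M W)

private lemma mem_univ' (w : W) : w ∈ WP cs (Finset.univ : Finset B) := by
  unfold WP
  rw [Finset.coe_univ, Set.image_univ, cs.subgroup_closure_range_simple]
  exact Subgroup.mem_top w

omit [DecidableEq B] in
private lemma bil_nonneg' {x z : B → ℝ} (hx : ∀ t, 0 ≤ fB M t x) (hz : 0 ≤ z) : 0 ≤ bil M x z := by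
  unfold bil
  exact Finset.sum_nonneg fun s _ => mul_nonneg (hz s) (hx s)

theorem rho_fix_dom {x : B → ℝ} {u : W} (hu : u ∈ WP cs (Finset.univ.filter fun t => fB M t x = 0)) :
    rho cs u x = x := by
  revert u
  apply WP_induction
  · rw [rho_one]
  · intro w _ s hs _ ih
    rw [Finset.mem_filter] at hs
    rw [rho_mul, rho_simple, sig_apply, hs.2, mul_zero, zero_smul, sub_zero, ih]

theorem fund_le {x y : B → ℝ} (hx : ∀ t, 0 ≤ fB M t x) (hy : ∀ t, 0 ≤ fB M t y) (w : W) :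
    bil M x (rho cs w y) ≤ bil M x y := by
  have h1 := (dom_le (cs := cs) (K := Finset.univ) (fun t _ => hy t) w (mem_univ' cs w)).1
  have h2 := bil_nonneg' (M := M) hx (sub_nonneg.2 h1)
  rw [bil_sub_right] at h2
  linarith

private lemma fund_eq_aux (hpd : ∀ z : B → ℝ, z ≠ 0 → 0 < bil M z z) {x y : B → ℝ}
    (hx : ∀ t, 0 ≤ fB M t x) (hy : ∀ t, 0 ≤ fB M t y) {w : W}
    (h : bil M x (rho cs w y) = bil M x y)
    (hw : ∀ r ∈ (Finset.univ.filter fun t => fB M t x = 0), 0 ≤ rho cs w⁻¹ (al r)) :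
    w ∈ WP cs (Finset.univ.filter fun t => fB M t y = 0) := by
  have h0 := dom_le (cs := cs) (K := Finset.univ) (fun t _ => hy t) w (mem_univ' cs w)
  obtain ⟨δ, hδ⟩ : ∃ δ : B → ℝ, δ = y - rho cs w y := ⟨_, rfl⟩
  have hδ0 : 0 ≤ δ := by rw [hδ]; exact sub_nonneg.2 h0.1
  have hxδ : bil M x δ = 0 := by rw [hδ, bil_sub_right, h, sub_self]
  have hsupp : ∀ t, δ t * fB M t x = 0 := by
    intro t
    unfold bil at hxδ
    rw [Finset.sum_eq_zero_iff_of_nonneg (fun s _ => mul_nonneg (hδ0 s) (hx s))] at hxδ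
    exact hxδ t (Finset.mem_univ t)
  have h1 : 0 ≤ bil M (rho cs w y) δ := by
    unfold bil
    apply Finset.sum_nonneg
    intro t _
    rcases mul_eq_zero.1 (hsupp t) with h2 | h2
    · rw [h2, zero_mul]
    · apply mul_nonneg (hδ0 t)
      rw [← bil_al_right, bil_rho_left]
      exact bil_nonneg' hy (hw t (by rw [Finset.mem_filter]; exact ⟨Finset.mem_univ t, h2⟩))
  have h3 : 0 ≤ bil M y δ := bil_nonneg' hy hδ0
  have h4 : rho cs w y = y - δ := by rw [hδ, sub_sub_cancel]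
  have h5 : bil M (y - δ) (y - δ) = bil M y y := by rw [← h4, bil_rho]
  rw [bil_sub_left, bil_sub_right, bil_sub_right, bil_symm M δ y] at h5
  rw [h4, bil_sub_left] at h1
  have h6 : δ = 0 := by
    by_contra hne
    have := hpd δ hne
    linarith
  apply (h0.2 ?_)
  rw [h4, h6, sub_zero]

theorem fund_eq (hpd : ∀ z : B → ℝ, z ≠ 0 → 0 < bil M z z) {x y : B → ℝ} (hx : ∀ t, 0 ≤ fB M t x)
    (hy : ∀ t, 0 ≤ fB M t y) {w : W} (h : bil M x (rho cs w y) = bil M x y) :
    ∃ g ∈ WP cs (Finset.univ.filter fun t => fB M t x = 0),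
      ∃ k ∈ WP cs (Finset.univ.filter fun t => fB M t y = 0), w = g * k := by
  obtain ⟨v, u, hvu, hu, hv⟩ := exists_dec cs (Finset.univ.filter fun t => fB M t x = 0) w⁻¹
  refine ⟨u⁻¹, inv_mem hu, v⁻¹, ?_, ?_⟩
  · apply fund_eq_aux cs hpd hx hy (w := v⁻¹)
    · have h1 : rho cs w y = rho cs u⁻¹ (rho cs v⁻¹ y) := by
        rw [← rho_mul, ← mul_inv_rev, ← hvu, inv_inv]
      rw [h1, bil_symm, bil_rho_left, inv_inv, rho_fix_dom cs hu, bil_symm] at h
      exact h
    · rw [inv_inv]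
      exact hv
  · rw [← mul_inv_rev, ← hvu, inv_inv]

end H73.TO
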