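import Pool.Agent.H63.KO.Gen
import Pool.Agent.H63.KO.Up

/-! # TO.Gen2 : a functional which is generic at `x` and at all atoms over `x`

The same proof as `generic` (H63/KO/Gen.lean, copy it), with more linear forms on the space `D` of functionals vanishing on `x`. The new ones: for atoms `v` over `x` and `E ≠ E'` over `v` choose `k ∈ v \ x`, `i ∈ E \ v`, `j ∈ E' \ v`. With `m = l - rat v * lx`, `rat v = l (s k) / lx (s k)`, the ratios are
`m (s i) / lv (s i)` and `m (s j) / lv (s j)` (`rat_eq` / `rat_spec`). They are equal iff the linear form `l ↦ (l (s i) - l (s k) * lx (s i) / lx (s k)) * lv (s j) - (l (s j) - l (s k) * lx (s j) / lx (s k)) * lv (s i)` vanishes at `l`. This form is not zero on `D`: at the functional `lE` defining `E`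
(`lE` vanishes on `E ⊇ v ⊇ x`) its value is `- lE (s j) * lv (s i)`, `lE (s j) ≠ 0` because `E ∩ E' = v` (`AtomOver.inter`), `lv (s i) > 0`. Finitely many nonzero linear forms have a common nonzero (`Module.Dual.exists_forall_mem_ne_zero_of_forall_exists`, index type a sum or a subtype). -/

namespace H73.TO

open Set H63.KO

variable {V : Type} [AddCommGroup V] [Module ℝ V] {ι : Type}

theorem generic2 [FiniteDimensional ℝ V] [Finite ι] {s : ι → V} {x : Set ι} {lx : Module.Dual ℝ V}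
    (hx : Defn s x lx) (lv : Set ι → Module.Dual ℝ V) (hlv : ∀ v, AtomOver s x v → Defn s v (lv v)) :
    ∃ l : Module.Dual ℝ V, (∀ i ∈ x, l (s i) = 0) ∧
      (∀ v w, AtomOver s x v → AtomOver s x w → v ≠ w → rat s lx l x v ≠ rat s lx l x w) ∧
      ∀ v, AtomOver s x v → ∀ E E', AtomOver s v E → AtomOver s v E' → E ≠ E' →
        rat s (lv v) (l - rat s lx l x v • lx) v E ≠ rat s (lv v) (l - rat s lx l x v • lx) v E' := by
  classical
  have hpos : ∀ i, i ∉ x → 0 < lx (s i) := fun i hi =>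
    lt_of_le_of_ne (hx.1 i) (fun h => hi ((hx.2 i).2 h.symm))
  have hposv : ∀ v, AtomOver s x v → ∀ i, i ∉ v → 0 < lv v (s i) := fun v hv i hi =>
    lt_of_le_of_ne ((hlv v hv).1 i) (fun h => hi (((hlv v hv).2 i).2 h.symm))
  -- the submodule of the functionals vanishing on `x`
  let D : Submodule ℝ (Module.Dual ℝ V) :=
    { carrier := {l | ∀ i ∈ x, l (s i) = 0}
      add_mem' := by
        intro a b ha hb i hi
        rw [LinearMap.add_apply, ha i hi, hb i hi, add_zero]
      zero_mem' := by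
        intro i _
        rfl
      smul_mem' := by
        intro c a ha i hi
        rw [LinearMap.smul_apply, ha i hi, smul_zero] }
  let I : Type := {p : Set ι × Set ι // AtomOver s x p.1 ∧ AtomOver s x p.2 ∧ p.1 ≠ p.2}
  let I2 : Type := {p : Set ι × Set ι × Set ι // AtomOver s x p.1 ∧ AtomOver s p.1 p.2.1 ∧ AtomOver s p.1 p.2.2 ∧ p.2.1 ≠ p.2.2}
  have hex : ∀ y v, AtomOver s y v → ∃ i, i ∈ v ∧ i ∉ y := by
    intro y v hv
    obtain ⟨i, hi, hi'⟩ := (Set.ssubset_iff_of_subset hv.2.1.1).1 hv.2.1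
    exact ⟨i, hi, hi'⟩
  choose a ha using hex
  let om : I → V := fun p => lx (s (a x p.1.2 p.2.2.1)) • s (a x p.1.1 p.2.1) -
    lx (s (a x p.1.1 p.2.1)) • s (a x p.1.2 p.2.2.1)
  let om2 : I2 → V := fun p =>
    lx (s (a x p.1.1 p.2.1)) • (lv p.1.1 (s (a p.1.1 p.1.2.2 p.2.2.2.1)) • s (a p.1.1 p.1.2.1 p.2.2.1) -
      lv p.1.1 (s (a p.1.1 p.1.2.1 p.2.2.1)) • s (a p.1.1 p.1.2.2 p.2.2.2.1)) -
    (lx (s (a p.1.1 p.1.2.1 p.2.2.1)) * lv p.1.1 (s (a p.1.1 p.1.2.2 p.2.2.2.1)) -
      lx (s (a p.1.1 p.1.2.2 p.2.2.2.1)) * lv p.1.1 (s (a p.1.1 p.1.2.1 p.2.2.1))) • s (a x p.1.1 p.2.1)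
  obtain ⟨l, hl, hl'⟩ := Module.Dual.exists_forall_mem_ne_zero_of_forall_exists D
    (fun p : I ⊕ I2 => Module.Dual.eval ℝ V (Sum.elim om om2 p)) (by
      rintro (⟨⟨v, w⟩, hv, hw, hvw⟩ | ⟨⟨v, E, E'⟩, hv, hE, hE', hne⟩)
      · simp only at hv hw hvw
        obtain ⟨lv', hlv1, hlv2⟩ := hv.1
        refine ⟨lv', fun i hi => (hlv2 i).1 (hv.2.1.1 hi), ?_⟩
        have h1 : lv' (s (a x v hv)) = 0 := (hlv2 _).1 (ha x v hv).1
        have h2 : lv' (s (a x w hw)) ≠ 0 := by
          intro h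
          have h3 : a x w hw ∈ v ∩ w := ⟨(hlv2 _).2 h, (ha x w hw).1⟩
          rw [AtomOver.inter ⟨lx, hx⟩ hv hw hvw] at h3
          exact (ha x w hw).2 h3
        have h4 := hpos _ (ha x v hv).2
        change lv' (lx (s (a x w hw)) • s (a x v hv) - lx (s (a x v hv)) • s (a x w hw)) ≠ 0
        rw [map_sub, map_smul, map_smul, h1, smul_zero, zero_sub, smul_eq_mul]
        exact neg_ne_zero.2 (mul_ne_zero h4.ne' h2)
      · simp only at hv hE hE' hne
        obtain ⟨lE, hlE1, hlE2⟩ := hE.1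
        refine ⟨lE, fun i hi => (hlE2 i).1 (hE.2.1.1 (hv.2.1.1 hi)), ?_⟩
        have h0 : lE (s (a x v hv)) = 0 := (hlE2 _).1 (hE.2.1.1 (ha x v hv).1)
        have h1 : lE (s (a v E hE)) = 0 := (hlE2 _).1 (ha v E hE).1
        have h2 : lE (s (a v E' hE')) ≠ 0 := by
          intro h
          have h3 : a v E' hE' ∈ E ∩ E' := ⟨(hlE2 _).2 h, (ha v E' hE').1⟩
          rw [AtomOver.inter hv.1 hE hE' hne] at h3
          exact (ha v E' hE').2 h3
        have h4 := hpos _ (ha x v hv).2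
        have h5 := hposv v hv _ (ha v E hE).2
        change lE (lx (s (a x v hv)) • (lv v (s (a v E' hE')) • s (a v E hE) - lv v (s (a v E hE)) • s (a v E' hE')) -
          (lx (s (a v E hE)) * lv v (s (a v E' hE')) - lx (s (a v E' hE')) * lv v (s (a v E hE))) • s (a x v hv)) ≠ 0
        rw [map_sub, map_smul, map_sub, map_smul, map_smul, map_smul, h0, h1, smul_zero, smul_zero, zero_sub, sub_zero,
          smul_eq_mul, smul_eq_mul]
        exact mul_ne_zero h4.ne' (neg_ne_zero.2 (mul_ne_zero h5.ne' h2)))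
  refine ⟨l, hl, fun v w hv hw hvw heq => ?_, fun v hv E E' hE hE' hne heq => ?_⟩
  · have h5 := hl' (Sum.inl ⟨(v, w), hv, hw, hvw⟩)
    change l (lx (s (a x w hw)) • s (a x v hv) - lx (s (a x v hv)) • s (a x w hw)) ≠ 0 at h5
    apply h5
    rw [map_sub, map_smul, map_smul, rat_spec hx hv l hl _ (ha x v hv).1,
      rat_spec hx hw l hl _ (ha x w hw).1, heq, smul_eq_mul, smul_eq_mul]
    ring
  · have h5 := hl' (Sum.inr ⟨(v, E, E'), hv, hE, hE', hne⟩)
    change l (lx (s (a x v hv)) • (lv v (s (a v E' hE')) • s (a v E hE) - lv v (s (a v E hE)) • s (a v E' hE')) -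
      (lx (s (a v E hE)) * lv v (s (a v E' hE')) - lx (s (a v E' hE')) * lv v (s (a v E hE))) • s (a x v hv)) ≠ 0 at h5
    apply h5
    have hr := rat_spec hx hv l hl
    have hm : ∀ i ∈ v, (l - rat s lx l x v • lx) (s i) = 0 := by
      intro i hi
      rw [LinearMap.sub_apply, LinearMap.smul_apply, hr i hi, smul_eq_mul, sub_self]
    have h6 := rat_spec (hlv v hv) hE _ hm _ (ha v E hE).1
    have h7 := rat_spec (hlv v hv) hE' _ hm _ (ha v E' hE').1
    rw [← heq] at h7
    rw [LinearMap.sub_apply, LinearMap.smul_apply, smul_eq_mul, sub_eq_iff_eq_add] at h6 h7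
    rw [map_sub, map_smul, map_sub, map_smul, map_smul, map_smul, h6, h7, hr _ (ha x v hv).1]
    simp only [smul_eq_mul]
    ring

end H73.TO
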