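import Pool.Agent.H73.TO.ConvS

/-! # TO.Geo : if all automorphisms are realized by isometries the two orbit numbers agree

`Q = hull P p P.top`. `combOrbits Q = Nat.card (orbitRel.Quotient (Face Q ≃o Face Q) (Flag (Face Q)))`, `geomOrbits Q = Nat.card (Quot (GeomEquiv Q))`. `GeomEquiv Q Φ Ψ` implies that `Φ, Ψ` are in one orbit (`φ • Φ = Ψ`). Conversely for `φ : Face Q ≃o Face Q` let `g = e⁻¹ φ e : L ≃o L`
(`(e.trans φ).trans e.symm`) and `T` its isometry: `T '' hull x = hull (g x)` (image of a convex hull under a linear map: `LinearMap.image_convexHull`; atoms `≤ x` go to atoms `≤ g x`, `rk_auto`), so `T '' Q = Q` and `(φ (e x) : Set) = hull (g x) = T '' (e x)`; `T.toIsometryEquiv`. So `GeomEquiv Q Φ (φ • Φ)` for all `φ`. The two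
quotients are quotients by the same relation: `Nat.card_congr` with `Quot.congr` / `Quotient` equivalences (`orbitRel` is defined by `a ∈ orbit b`; mind the direction, the relation `GeomEquiv` is then symmetric). -/

namespace H73.TO

open H63.KO KOrbit

variable {L : Type} [PartialOrder L] {P : PolyLat L} {d : ℕ} {p : L → Euc d}

private theorem image_hull (g : L ≃o L) (T : Euc d ≃ₗᵢ[ℝ] Euc d)
    (hT : ∀ a, P.rk a = 1 → T (p a) = p (g a)) (x : L) :
    T '' hull P p x = hull P p (g x) := by
  unfold hull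
  have h1 : (T : Euc d → Euc d) '' convexHull ℝ (p '' {a | P.rk a = 1 ∧ a ≤ x}) =
      convexHull ℝ ((T : Euc d → Euc d) '' (p '' {a | P.rk a = 1 ∧ a ≤ x})) :=
    LinearMap.image_convexHull T.toLinearEquiv.toLinearMap _
  rw [h1]
  congr 1
  ext q
  constructor
  · rintro ⟨_, ⟨a, ⟨ha, hax⟩, rfl⟩, rfl⟩
    exact ⟨g a, ⟨by rw [rk_auto]; exact ha, g.monotone hax⟩, (hT a ha).symm⟩
  · rintro ⟨b, ⟨hb, hbx⟩, rfl⟩
    have h2 : P.rk (g.symm b) = 1 := by rw [rk_auto]; exact hb
    refine ⟨p (g.symm b), ⟨g.symm b, ⟨h2, ?_⟩, rfl⟩, ?_⟩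
    · rw [← g.symm_apply_apply x]
      exact g.symm.monotone hbx
    · rw [hT _ h2, g.apply_symm_apply]

theorem geom_eq_comb (e : L ≃o Face (hull P p P.top)) (he : ∀ x, (e x : Set (Euc d)) = hull P p x)
    (hT : ∀ g : L ≃o L, ∃ T : Euc d ≃ₗᵢ[ℝ] Euc d, ∀ a, P.rk a = 1 → T (p a) = p (g a)) :
    geomOrbits (hull P p P.top) = combOrbits (hull P p P.top) := by
  have key : ∀ (φ : Face (hull P p P.top) ≃o Face (hull P p P.top))
      (Φ : Flag (Face (hull P p P.top))), GeomEquiv (hull P p P.top) Φ (φ • Φ) := by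
    intro φ Φ
    obtain ⟨T, hTT⟩ := hT ((e.trans φ).trans e.symm)
    have him := image_hull ((e.trans φ).trans e.symm) T hTT
    have htop : ((e.trans φ).trans e.symm) P.top = P.top :=
      le_antisymm (P.le_top _) (by
        have h := ((e.trans φ).trans e.symm).monotone
          (P.le_top (((e.trans φ).trans e.symm).symm P.top))
        rwa [OrderIso.apply_symm_apply] at h)
    refine ⟨T.toIsometryEquiv, ?_, φ, ?_, rfl⟩
    · have h := him P.top
      rw [htop] at h
      exact h
    · intro F
      obtain ⟨x, rfl⟩ := e.surjective F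
      have h1 : φ (e x) = e (((e.trans φ).trans e.symm) x) := by
        simp
      rw [h1, he, he]
      exact (him x).symm
  have hrel : GeomEquiv (hull P p P.top) =
      (MulAction.orbitRel (Face (hull P p P.top) ≃o Face (hull P p P.top))
        (Flag (Face (hull P p P.top)))).r := by
    funext Φ Ψ
    apply propext
    constructor
    · rintro ⟨_, _, φ, _, h⟩
      refine (MulAction.orbitRel (Face (hull P p P.top) ≃o Face (hull P p P.top))
        (Flag (Face (hull P p P.top)))).symm ?_
      exact ⟨φ, h⟩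
    · intro h
      obtain ⟨φ, hφ⟩ := (MulAction.orbitRel (Face (hull P p P.top) ≃o Face (hull P p P.top))
        (Flag (Face (hull P p P.top)))).symm h
      rw [← show φ • Φ = Ψ from hφ]
      exact key φ Φ
  unfold geomOrbits combOrbits
  rw [hrel]
  rfl

end H73.TO
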