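import Pool.Agent.H63.KO.Pot

/-! # TO.Hloc : the local condition in the sweep for the second cohomology

All faces `S` below have `x ⊂ S`. `F2 T` = faces `S` with `x ⊂ S ⊂ T`, `rk S = rk x + 3`; `F1 S` = faces `E` with `x ⊂ E ⊂ S`, `rk E = rk x + 2`. In `ZMod 2`:
`∑_{S ∈ F2 T, v ⊆ S} c S = ∑_{S ∈ F2 T, ¬ v ⊆ S} c S` by `hc`, and `= ∑_{S ∈ F2 T, ¬ v ⊆ S} ∑_{E ∈ F1 S} b E` by `hb` (all atoms below such an `S` are different from `v`, so have larger ratio by `hmin`); here `¬ v ⊆ E` automatically. So the sum in the claim is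
`∑_{S ∈ F2 T} ∑_{E ∈ F1 S, ¬ v ⊆ E} b E = ∑_{E, rk x + 2, E ⊂ T, ¬ v ⊆ E} b E * #{S ∈ F2 T | E ⊂ S} = 0`, because `#{S | E ⊂ S ⊂ T} = 2` (`rk T = rk E + 2`; `step` for `E ⊂ T` and `diamF`; both elements are strictly between, so have rank `rk x + 3`). (`v ⊂ S` iff `v ⊆ S` by rank.)
`Finset.sum_comm'` for the exchange of the sums; `S` in the sum of the claim runs over `v ⊂ S ⊂ T` (`x ⊂ v`). -/

namespace H73.TO

open Set H63.KO

variable {V : Type} [AddCommGroup V] [Module ℝ V] {ι : Type}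

open Classical in
theorem local_sum [FiniteDimensional ℝ V] [Fintype ι] {s : ι → V} {x y v T : Set ι}
    {lx l : Module.Dual ℝ V} (hx : Defn s x lx) (hv : AtomOver s x v) (hT : IsFace s T) (hvT : v ⊂ T)
    (hTy : T ⊆ y) (hrk : rkF s T = rkF s x + 4) (c b : Set ι → ZMod 2)
    (hc : ∑ S with (IsFace s S ∧ x ⊂ S ∧ S ⊂ T ∧ rkF s S = rkF s x + 3), c S = 0)
    (hb : ∀ S, IsFace s S → x ⊂ S → S ⊆ y → rkF s S = rkF s x + 3 →
      (∀ w, AtomOver s x w → w ⊆ S → rat s lx l x v < rat s lx l x w) →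
      c S = ∑ E with (IsFace s E ∧ x ⊂ E ∧ E ⊂ S ∧ rkF s E = rkF s x + 2), b E)
    (hmin : ∀ w, AtomOver s x w → w ⊆ T → w ≠ v → rat s lx l x v < rat s lx l x w) :
    ∑ S with (IsFace s S ∧ v ⊂ S ∧ S ⊂ T ∧ rkF s S = rkF s v + 2), (c S +
      ∑ E with (IsFace s E ∧ x ⊂ E ∧ E ⊂ S ∧ rkF s E = rkF s x + 2 ∧ ¬ v ⊆ E), b E) = 0 := by
  have hxF : IsFace s x := ⟨lx, hx⟩
  have hvr := hv.2.2
  set F2 : Finset (Set ι) := Finset.univ.filter
    (fun S => IsFace s S ∧ x ⊂ S ∧ S ⊂ T ∧ rkF s S = rkF s x + 3) with hF2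
  set A : Set ι → ZMod 2 := fun S =>
    ∑ E with (IsFace s E ∧ x ⊂ E ∧ E ⊂ S ∧ rkF s E = rkF s x + 2 ∧ ¬ v ⊆ E), b E with hA
  have e1 : Finset.univ.filter
      (fun S => IsFace s S ∧ v ⊂ S ∧ S ⊂ T ∧ rkF s S = rkF s v + 2) =
      F2.filter (fun S => v ⊂ S) := by
    ext S
    simp only [hF2, Finset.mem_filter, Finset.mem_univ, true_and]
    constructor
    · rintro ⟨h1, h2, h3, h4⟩
      exact ⟨⟨h1, hv.2.1.trans h2, h3, by omega⟩, h2⟩
    · rintro ⟨⟨h1, h2, h3, h4⟩, h5⟩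
      exact ⟨h1, h5, h3, by omega⟩
  have e3 : ∑ S ∈ F2.filter (fun S => v ⊂ S), c S +
      ∑ S ∈ F2.filter (fun S => ¬ v ⊂ S), c S = 0 := by
    rw [Finset.sum_filter_add_sum_filter_not]
    exact hc
  have e4 : ∑ S ∈ F2.filter (fun S => ¬ v ⊂ S), c S =
      ∑ S ∈ F2.filter (fun S => ¬ v ⊂ S), A S := by
    refine Finset.sum_congr rfl fun S hS => ?_
    simp only [hF2, Finset.mem_filter, Finset.mem_univ, true_and] at hS
    obtain ⟨⟨h1, h2, h3, h4⟩, h5⟩ := hS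
    have h6 : ¬ v ⊆ S := fun h => h5 (lt_of_le_of_ne h fun he => by
      rw [he] at hvr; omega)
    rw [hb S h1 h2 (h3.1.trans hTy) h4 fun w hw hwS =>
      hmin w hw (hwS.trans h3.1) fun he => h6 (he ▸ hwS)]
    refine Finset.sum_congr ?_ fun _ _ => rfl
    ext E
    simp only [Finset.mem_filter, Finset.mem_univ, true_and]
    constructor
    · rintro ⟨g1, g2, g3, g4⟩
      exact ⟨g1, g2, g3, g4, fun h => h6 (h.trans g3.1)⟩
    · rintro ⟨g1, g2, g3, g4, _⟩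
      exact ⟨g1, g2, g3, g4⟩
  have e5 : ∑ S ∈ F2, A S = 0 := by
    rw [hA]
    rw [Finset.sum_comm' (t' := Finset.univ.filter
        (fun E => IsFace s E ∧ x ⊂ E ∧ E ⊂ T ∧ rkF s E = rkF s x + 2 ∧ ¬ v ⊆ E))
      (s' := fun E => Finset.univ.filter (fun S => IsFace s S ∧ E ⊂ S ∧ S ⊂ T))]
    · refine Finset.sum_eq_zero fun E hE => ?_
      simp only [Finset.mem_filter, Finset.mem_univ, true_and] at hE
      obtain ⟨g1, g2, g3, g4, g5⟩ := hE
      obtain ⟨z, hz, hzT⟩ := step g1 hT g3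
      have hzr := hz.2.2
      have hzT' : z ⊂ T := lt_of_le_of_ne hzT fun he => by
        rw [he] at hzr; omega
      obtain ⟨z', k1, k2, k3, k4, k5⟩ := diamF g1 hT hz.1 hz.2.1 hzT' (by omega)
      have e6 : Finset.univ.filter (fun S => IsFace s S ∧ E ⊂ S ∧ S ⊂ T) = {z, z'} := by
        ext S
        simp only [Finset.mem_filter, Finset.mem_univ, true_and, Finset.mem_insert,
          Finset.mem_singleton]
        constructor
        · rintro ⟨m1, m2, m3⟩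
          exact k5 S m1 m2 m3
        · rintro (rfl | rfl)
          · exact ⟨hz.1, hz.2.1, hzT'⟩
          · exact ⟨k1, k2, k3⟩
      rw [e6, Finset.sum_pair (Ne.symm k4)]
      exact CharTwo.add_self_eq_zero _
    · intro S E
      simp only [hF2, Finset.mem_filter, Finset.mem_univ, true_and]
      constructor
      · rintro ⟨⟨h1, h2, h3, h4⟩, g1, g2, g3, g4, g5⟩
        exact ⟨⟨h1, g3, h3⟩, g1, g2, g3.trans h3, g4, g5⟩
      · rintro ⟨⟨h1, h2, h3⟩, g1, g2, g3, g4, g5⟩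
        have r1 := rkF_lt g1 h2
        have r2 := rkF_lt h1 h3
        exact ⟨⟨h1, g2.trans h2, h3, by omega⟩, g1, g2, h2, g4, g5⟩
  have e7 := Finset.sum_filter_add_sum_filter_not F2 (fun S => v ⊂ S) A
  rw [e5] at e7
  have e8 : Finset.univ.filter
      (fun S => IsFace s S ∧ v ⊂ S ∧ S ⊂ T ∧ rkF s S = rkF s v + 2) =
      F2.filter (fun S => v ⊂ S) := e1
  rw [e8, Finset.sum_add_distrib]
  rw [e4] at e3
  have e9 : ∑ S ∈ F2.filter (fun S => v ⊂ S), c S =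
      ∑ S ∈ F2.filter (fun S => v ⊂ S), A S := by
    have := e3.trans e7.symm
    exact add_right_cancel this
  rw [e9]
  exact CharTwo.add_self_eq_zero _

end H73.TO
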