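import Pool.Agent.H73.TO.Hpg
import Pool.Agent.H63.KO.Pot

/-! # TO.Hpg2 : potentials mod 2 on the polygon `[v, T]`, `rk T = rk v + 3`

`cycle_pot` for `E` = the atoms over `v` contained in `T`, `S` = the faces `S` with `v ⊂ S ⊂ T`, `rkF s S = rkF s v + 2`; `a S`, `b S` = the two atoms over `v` below `S` (`step` for `v ⊂ S` gives one, `diamF` for `v ⊂ e ⊂ S` the other and says there are no more). `hdeg`: for an atom `e` (`e ⊂ T`, by rank) `step` for `e ⊂ T` and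
`diamF` for `e ⊂ S ⊂ T` give exactly two `S` (their rank is `rkF s v + 2`, strictly between). `hconn`: `connF` for `v ⊂ T` (`P` extended to all sets by `fun A => ∃ hA, P ⟨A, hA⟩`; its edges `E ⊆ T` of rank `rkF s v + 2` are the `S`; the two atoms below `S` are `a S`, `b S`).
The sum over the subtype equals the filtered sum (`Finset.sum_subtype` or `Finset.sum_coe_sort`). `diamF`, `step`, `connF` are in H63/KO (`Diam`, `Step`, `Conn`). -/

namespace H73.TO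

open Set H63.KO

variable {V : Type} [AddCommGroup V] [Module ℝ V] {ι : Type}

private theorem hpg2_atom [FiniteDimensional ℝ V] {s : ι → V} {v S z : Set ι} (hv : IsFace s v)
    (hrk : rkF s S = rkF s v + 2) (hz : IsFace s z) (hvz : v ⊂ z) (hzS : z ⊂ S) :
    AtomOver s v z := by
  refine ⟨hz, hvz, ?_⟩
  have h1 := rkF_lt hv hvz
  have h2 := rkF_lt hz hzS
  omega

private theorem hpg2_two [FiniteDimensional ℝ V] [Finite ι] {s : ι → V} {v S : Set ι}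
    (hv : IsFace s v) (hS : IsFace s S) (hvS : v ⊂ S) (hrk : rkF s S = rkF s v + 2) :
    ∃ a b : Set ι, AtomOver s v a ∧ a ⊂ S ∧ AtomOver s v b ∧ b ⊂ S ∧ a ≠ b ∧
      ∀ w, IsFace s w → v ⊂ w → w ⊂ S → w = a ∨ w = b := by
  obtain ⟨z, hz, hzS⟩ := step hv hS hvS
  have hzS' : z ⊂ S := by
    refine lt_of_le_of_ne hzS ?_
    rintro rfl
    have := hz.2.2
    omega
  obtain ⟨z', hz', hvz', hz'S, hne, hall⟩ := diamF hv hS hz.1 hz.2.1 hzS' hrk
  exact ⟨z, z', hz, hzS', hpg2_atom hv hrk hz' hvz' hz'S, hz'S, fun h => hne h.symm, hall⟩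

private theorem hpg2_up [FiniteDimensional ℝ V] [Finite ι] {s : ι → V} {v T e : Set ι}
    (hT : IsFace s T) (hrk : rkF s T = rkF s v + 3) (he : AtomOver s v e) (heT : e ⊆ T) :
    ∃ a b : Set ι, (IsFace s a ∧ e ⊂ a ∧ a ⊂ T ∧ rkF s a = rkF s v + 2) ∧
      (IsFace s b ∧ e ⊂ b ∧ b ⊂ T ∧ rkF s b = rkF s v + 2) ∧ a ≠ b ∧
      ∀ w, IsFace s w → e ⊂ w → w ⊂ T → w = a ∨ w = b := by
  have hr := he.2.2
  have heT' : e ⊂ T := by
    refine lt_of_le_of_ne heT ?_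
    rintro rfl
    omega
  have hrk' : rkF s T = rkF s e + 2 := by omega
  obtain ⟨a, b, ha, haT, hb, hbT, hne, hall⟩ := hpg2_two he.1 hT heT' hrk'
  exact ⟨a, b, ⟨ha.1, ha.2.1, haT, by rw [ha.2.2]; omega⟩, ⟨hb.1, hb.2.1, hbT, by rw [hb.2.2]; omega⟩,
    hne, hall⟩

open Classical in
theorem polygon_pot [FiniteDimensional ℝ V] [Fintype ι] {s : ι → V} {v T : Set ι} (hv : IsFace s v)
    (hT : IsFace s T) (hvT : v ⊂ T) (hrk : rkF s T = rkF s v + 3) (k : Set ι → ZMod 2)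
    (hk : ∑ S with (IsFace s S ∧ v ⊂ S ∧ S ⊂ T ∧ rkF s S = rkF s v + 2), k S = 0) :
    ∃ t : Set ι → ZMod 2, ∀ S E E', IsFace s S → S ⊂ T → rkF s S = rkF s v + 2 → AtomOver s v E →
      E ⊂ S → AtomOver s v E' → E' ⊂ S → E ≠ E' → t E + t E' = k S := by
  let At := {e : Set ι // AtomOver s v e ∧ e ⊆ T}
  let Fc := {S : Set ι // IsFace s S ∧ v ⊂ S ∧ S ⊂ T ∧ rkF s S = rkF s v + 2}
  have hex : ∀ S : Fc, ∃ ab : At × At, (ab.1.1 ⊂ S.1 ∧ ab.2.1 ⊂ S.1 ∧ ab.1 ≠ ab.2) ∧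
      ∀ w, IsFace s w → v ⊂ w → w ⊂ S.1 → w = ab.1.1 ∨ w = ab.2.1 := by
    rintro ⟨S, hS, hvS, hST, hrS⟩
    obtain ⟨a, b, ha, haS, hb, hbS, hne, hall⟩ := hpg2_two hv hS hvS hrS
    refine ⟨(⟨a, ha, (haS.trans hST).1⟩, ⟨b, hb, (hbS.trans hST).1⟩), ⟨haS, hbS, ?_⟩, hall⟩
    intro h
    exact hne (congrArg Subtype.val h)
  choose ab hab hall using hex
  have hmem : ∀ (S : Fc) (e : At), ((ab S).1 = e ∨ (ab S).2 = e) ↔ e.1 ⊂ S.1 := by
    intro S e
    constructor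
    · rintro (h | h)
      · rw [← h]; exact (hab S).1
      · rw [← h]; exact (hab S).2.1
    · intro h
      rcases hall S e.1 e.2.1.1 e.2.1.2.1 h with h' | h'
      · exact Or.inl (Subtype.ext h'.symm)
      · exact Or.inr (Subtype.ext h'.symm)
  have hdeg : ∀ e : At,
      (Finset.univ.filter (fun S : Fc => (ab S).1 = e ∨ (ab S).2 = e)).card = 2 := by
    intro e
    obtain ⟨a, b, ha, hb, hne, hall'⟩ := hpg2_up hT hrk e.2.1 e.2.2
    have hve : v ⊂ e.1 := e.2.1.2.1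
    let a' : Fc := ⟨a, ha.1, hve.trans ha.2.1, ha.2.2.1, ha.2.2.2⟩
    let b' : Fc := ⟨b, hb.1, hve.trans hb.2.1, hb.2.2.1, hb.2.2.2⟩
    have hab' : a' ≠ b' := fun h => hne (congrArg Subtype.val h)
    have : Finset.univ.filter (fun S : Fc => (ab S).1 = e ∨ (ab S).2 = e) = {a', b'} := by
      ext S
      rw [Finset.mem_filter, Finset.mem_insert, Finset.mem_singleton, hmem]
      constructor
      · rintro ⟨-, h⟩
        rcases hall' S.1 S.2.1 h S.2.2.2.1 with h' | h'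
        · exact Or.inl (Subtype.ext h')
        · exact Or.inr (Subtype.ext h')
      · rintro (h | h)
        · rw [h]; exact ⟨Finset.mem_univ _, ha.2.1⟩
        · rw [h]; exact ⟨Finset.mem_univ _, hb.2.1⟩
    rw [this, Finset.card_pair hab']
  have hconn : ∀ P : At → Prop, (∀ S : Fc, P (ab S).1 ↔ P (ab S).2) → ∀ e e', P e → P e' := by
    intro P hP e e' he
    have h := connF hv hT hvT (by omega) (fun A => ∃ hA : AtomOver s v A ∧ A ⊆ T, P ⟨A, hA⟩) (by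
      intro E u w hE hET hrE hu huE hw hwE hPu
      obtain ⟨hA, hPA⟩ := hPu
      have hET' : E ⊂ T := by
        refine lt_of_le_of_ne hET ?_
        rintro rfl
        omega
      have hvE : v ⊂ E := hu.2.1.trans huE
      let S : Fc := ⟨E, hE, hvE, hET', hrE⟩
      have hwA : AtomOver s v w ∧ w ⊆ T := ⟨hw, hwE.1.trans hET⟩
      refine ⟨hwA, ?_⟩
      have hu' : (ab S).1 = ⟨u, hA⟩ ∨ (ab S).2 = ⟨u, hA⟩ := (hmem S ⟨u, hA⟩).2 huE
      have hw' : (ab S).1 = ⟨w, hwA⟩ ∨ (ab S).2 = ⟨w, hwA⟩ := (hmem S ⟨w, hwA⟩).2 hwE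
      have hPS := hP S
      rcases hu' with h1 | h1
      · rcases hw' with h2 | h2
        · rw [← h2, h1]; exact hPA
        · rw [← h2]; rw [← h1] at hPA; exact hPS.1 hPA
      · rcases hw' with h2 | h2
        · rw [← h2]; rw [← h1] at hPA; exact hPS.2 hPA
        · rw [← h2, h1]; exact hPA) e.2.1 e.2.2 e'.2.1 e'.2.2 ⟨e.2, he⟩
    obtain ⟨hA, h⟩ := h
    exact h
  have hsum : ∑ S : Fc, k S.1 = 0 := by
    rw [← hk]
    symm
    exact Finset.sum_subtype _ (fun S => by simp [Finset.mem_filter]) k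
  obtain ⟨t, ht⟩ := cycle_pot (fun S : Fc => (ab S).1) (fun S => (ab S).2) (fun S => (hab S).2.2)
    hdeg hconn (fun S => k S.1) hsum
  refine ⟨fun A => if hA : AtomOver s v A ∧ A ⊆ T then t ⟨A, hA⟩ else 0, ?_⟩
  intro S E E' hS hST hrS hE hES hE' hE'S hne
  have hEA : AtomOver s v E ∧ E ⊆ T := ⟨hE, (hES.trans hST).1⟩
  have hEA' : AtomOver s v E' ∧ E' ⊆ T := ⟨hE', (hE'S.trans hST).1⟩
  change (if hA : AtomOver s v E ∧ E ⊆ T then t ⟨E, hA⟩ else 0) +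
    (if hA : AtomOver s v E' ∧ E' ⊆ T then t ⟨E', hA⟩ else 0) = k S
  rw [dif_pos hEA, dif_pos hEA']
  let S' : Fc := ⟨S, hS, hE.2.1.trans hES, hST, hrS⟩
  have h1 : (ab S').1 = ⟨E, hEA⟩ ∨ (ab S').2 = ⟨E, hEA⟩ := (hmem S' ⟨E, hEA⟩).2 hES
  have h2 : (ab S').1 = ⟨E', hEA'⟩ ∨ (ab S').2 = ⟨E', hEA'⟩ := (hmem S' ⟨E', hEA'⟩).2 hE'S
  have h3 := ht S'
  have hne' : (⟨E, hEA⟩ : At) ≠ ⟨E', hEA'⟩ := fun h => hne (congrArg Subtype.val h)
  rcases h1 with h1 | h1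
  · rcases h2 with h2 | h2
    · exact absurd (h1.symm.trans h2) hne'
    · rw [← h1, ← h2]; exact h3
  · rcases h2 with h2 | h2
    · rw [← h1, ← h2, add_comm]; exact h3
    · exact absurd (h1.symm.trans h2) hne'

end H73.TO
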