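import Pool.Agent.H73.TO.HscA
import Pool.Agent.H63.KO.ScF

/-! # TO.HscB : the potential above a threshold, with local hypothesis above the threshold only

Copy the proof of the private theorem `potUp_exists` of `H63/KO/ScF.lean` (induction on the number of atoms with ratio `> c`), for all `c ≥ c₀`, with `inc_conn2` (the atom `v0` has ratio `> c ≥ c₀`) in place of `inc_conn` and `hinv` in place of `edge_inv`. -/

namespace H73.TO

open Set H63.KO

variable {V : Type} [AddCommGroup V] [Module ℝ V] {ι : Type} {G : Type} [Group G]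
variable {s : ι → V} {x y : Set ι}

private theorem EdgeIn.swp {E v w : Set ι} (h : EdgeIn s x y E v w) : EdgeIn s x y E w v :=
  ⟨h.1, h.2.1, h.2.2.1, h.2.2.2.2.2.1, h.2.2.2.2.2.2.1, h.2.2.2.1, h.2.2.2.2.1,
    h.2.2.2.2.2.2.2.symm⟩

private theorem potUp_aux [FiniteDimensional ℝ V] [Finite ι] {lx : Module.Dual ℝ V}
    (hx : Defn s x lx) (hy : IsFace s y) (l : Module.Dual ℝ V) (hl : ∀ i ∈ x, l (s i) = 0)
    (hinj : ∀ v w, AtomOver s x v → AtomOver s x w → v ≠ w → rat s lx l x v ≠ rat s lx l x w)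
    (h : Set ι → Set ι → Set ι → G) (hinv : ∀ E v w, EdgeIn s x y E v w → h E w v * h E v w = 1)
    (c₀ : ℝ)
    (hloc : ∀ S, IsFace s S → x ⊂ S → S ⊆ y → rkF s S = rkF s x + 3 →
      (∀ w, AtomOver s x w → w ⊆ S → c₀ < rat s lx l x w) → ∃ tS, Pot s x S h tS) :
    ∀ (n : ℕ) (c : ℝ), c₀ ≤ c →
      Set.ncard {v | AtomOver s x v ∧ v ⊆ y ∧ c < rat s lx l x v} ≤ n →
      ∃ t : Set ι → G, PotUp s lx l x y h t c := by
  classical
  intro n
  induction n with
  | zero =>
    intro c _ hc
    refine ⟨fun _ => 1, ?_⟩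
    intro E v w hE hcv hcw
    exfalso
    have h1 : {v | AtomOver s x v ∧ v ⊆ y ∧ c < rat s lx l x v} = ∅ :=
      (Set.ncard_eq_zero (Set.toFinite _)).mp (Nat.le_zero.mp hc)
    have h2 : v ∈ {v | AtomOver s x v ∧ v ⊆ y ∧ c < rat s lx l x v} :=
      ⟨hE.2.2.2.1, hE.2.2.2.2.1.1.trans hE.2.1, hcv⟩
    rw [h1] at h2
    exact h2
  | succ n ih =>
    intro c hcc hc
    set A := {v | AtomOver s x v ∧ v ⊆ y ∧ c < rat s lx l x v} with hA
    have hmem : ∀ {E v w}, EdgeIn s x y E v w → c < rat s lx l x v → v ∈ A := by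
      intro E v w hE hcv
      exact ⟨hE.2.2.2.1, hE.2.2.2.2.1.1.trans hE.2.1, hcv⟩
    rcases Set.eq_empty_or_nonempty A with hAe | hAne
    · refine ⟨fun _ => 1, ?_⟩
      intro E v w hE hcv hcw
      have := hmem hE hcv
      rw [hAe] at this
      exact this.elim
    · obtain ⟨v0, hv0, hmin⟩ := (Set.toFinite A).exists_minimalFor (rat s lx l x) A hAne
      have hmin' : ∀ v ∈ A, v ≠ v0 → rat s lx l x v0 < rat s lx l x v := by
        intro v hv hne
        have h1 := hinj v v0 hv.1 hv0.1 hne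
        by_contra hcon
        push Not at hcon
        have h2 := hmin hv hcon
        exact h1 (le_antisymm hcon h2)
      have hsub : {v | AtomOver s x v ∧ v ⊆ y ∧ rat s lx l x v0 < rat s lx l x v} ⊂ A := by
        rw [Set.ssubset_iff_of_subset]
        · exact ⟨v0, hv0, fun h => lt_irrefl _ h.2.2⟩
        · intro v hv
          exact ⟨hv.1, hv.2.1, hv0.2.2.trans hv.2.2⟩
      have hlt := Set.ncard_lt_ncard hsub (Set.toFinite _)
      obtain ⟨t', ht'⟩ := ih (rat s lx l x v0) (hcc.trans hv0.2.2.le) (by omega)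
      by_cases hex : ∃ E0 w0, EdgeIn s x y E0 v0 w0 ∧ rat s lx l x v0 < rat s lx l x w0
      · obtain ⟨E0, w0, hE0, hw0⟩ := hex
        refine ⟨Function.update t' v0 (t' w0 * h E0 w0 v0), ?_⟩
        have key : ∀ {E w}, EdgeIn s x y E v0 w → rat s lx l x v0 < rat s lx l x w →
            t' w0 * h E0 w0 v0 = t' w * h E w v0 := by
          intro E w hE hw
          exact inc_conn2 hx hy l hl hinj (lt_of_le_of_lt hcc hv0.2.2) hloc ht' hE0 hE hw0 hw
        intro E v w hE hcv hcw
        have hvA := hmem hE hcv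
        have hwA := hmem (EdgeIn.swp hE) hcw
        have hvw : v ≠ w := hE.2.2.2.2.2.2.2
        by_cases hv : v = v0
        · subst hv
          have h1 := hmin' w hwA hvw.symm
          rw [Function.update_self, Function.update_of_ne hvw.symm, key hE h1, mul_assoc,
            hinv E v w hE, mul_one]
        · by_cases hw : w = v0
          · subst hw
            have h1 := hmin' v hvA hv
            rw [Function.update_self, Function.update_of_ne hv, key (EdgeIn.swp hE) h1]
          · rw [Function.update_of_ne hv, Function.update_of_ne hw]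
            exact ht' E v w hE (hmin' v hvA hv) (hmin' w hwA hw)
      · push Not at hex
        refine ⟨t', ?_⟩
        intro E v w hE hcv hcw
        have hvA := hmem hE hcv
        have hwA := hmem (EdgeIn.swp hE) hcw
        have hvw : v ≠ w := hE.2.2.2.2.2.2.2
        by_cases hv : v = v0
        · subst hv
          exact absurd (hmin' w hwA hvw.symm) (not_lt.mpr (hex E w hE))
        · by_cases hw : w = v0
          · subst hw
            exact absurd (hmin' v hvA hv) (not_lt.mpr (hex E v (EdgeIn.swp hE)))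
          · exact ht' E v w hE (hmin' v hvA hv) (hmin' w hwA hw)

theorem potUp_ge [FiniteDimensional ℝ V] [Finite ι] {lx : Module.Dual ℝ V} (hx : Defn s x lx)
    (hy : IsFace s y) (l : Module.Dual ℝ V) (hl : ∀ i ∈ x, l (s i) = 0)
    (hinj : ∀ v w, AtomOver s x v → AtomOver s x w → v ≠ w → rat s lx l x v ≠ rat s lx l x w)
    (h : Set ι → Set ι → Set ι → G) (hinv : ∀ E v w, EdgeIn s x y E v w → h E w v * h E v w = 1)
    (c₀ : ℝ)
    (hloc : ∀ S, IsFace s S → x ⊂ S → S ⊆ y → rkF s S = rkF s x + 3 →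
      (∀ w, AtomOver s x w → w ⊆ S → c₀ < rat s lx l x w) → ∃ tS, Pot s x S h tS) :
    ∃ t : Set ι → G, PotUp s lx l x y h t c₀ :=
  potUp_aux hx hy l hl hinj h hinv c₀ hloc _ c₀ le_rfl le_rfl

end H73.TO
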