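import Pool.Agent.H73.TO.Gen2
import Pool.Agent.H73.TO.HscB
import Pool.Agent.H73.TO.Hpg2
import Pool.Agent.H73.TO.Hloc

/-! # TO.H2F : the second cohomology mod 2 of the interval `[x, y]`, `rk y ≥ rk x + 5`, vanishes

Choose `lx` (`Defn s x lx`), `lv v` with `Defn s v (lv v)` for every atom `v` over `x`, and `l` from `generic2`. CLAIM: for every `c₀ : ℝ` there is `b` with `c S = ∑ E, b E` for all faces `S`, `x ⊂ S ⊆ y`, `rk S = rk x + 3`, all of whose atoms over `x` have ratio `> c₀`. Induction on the number of atoms `v ⊆ y` with ratio `> c₀`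
(as in `potUp_exists` of H63/KO/ScF.lean). If there is none: no such `S` exists (`step` gives an atom below `S`). Let `v0` be the one of smallest ratio, `b'` from the induction hypothesis for the threshold `rat v0`. Let `m = l - rat v0 • lx`, `k S = c S + ∑ E with (.. ∧ ¬ v0 ⊆ E), b' E`.
`potUp_ge` for the interval `[v0, y]`, `lx := lv v0`, `l := m` (vanishes on `v0`: `rat_spec`), threshold `0`, `G = Multiplicative (ZMod 2)`, `h S _ _ = ofAdd (k S)`; `hinj` from `generic2`; `hinv` because `k + k = 0`; `hloc`: for `T`, `rk T = rk v0 + 3 = rk x + 4`, all atoms over `v0` below `T` of positive ratio: `min_of_pos` (H63/KO/IncIff.lean)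
gives the hypothesis `hmin` of `local_sum`, then `polygon_pot` gives the potential (in `[v0, T]` an edge `S ⊆ T` is `⊂ T` by rank; in `ZMod 2`, `t E' = t E + k`). So there is `t` with `t E' = t E + k S` for all `S ⊆ y` of rank `rk v0 + 2` with two atoms `E, E'` over `v0` of positive ratio. Put `b E = t E` if `v0 ⊆ E`, `b E = b' E` if not.
Let `S` have all atoms of ratio `> c₀`. If `¬ v0 ⊆ S` all its atoms have ratio `> rat v0` (minimality, genericity) and no `E ⊂ S` contains `v0`: induction hypothesis. If `v0 ⊆ S`: the faces `E ⊂ S` of rank `rk x + 2` containing `v0` are exactly two, `E ≠ E'` (`step`, `diamF` in `[v0, S]`), each has a second atom `w` over `x` (`diamF`), `w ≠ v0`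
is below `S`, so `rat w > rat v0` and `E, E'` have positive ratio over `v0` (`inc_iff`). So `∑ E, b E = t E + t E' + ∑ E with ¬ v0 ⊆ E, b' E = k S + ∑ .. = c S`. Finally take `c₀` below all ratios (as in `scF`). (`v0 ⊂ T ⊆ y` has `rk T = rk x + 4`, so `hc` applies to it.) If some instance of `Fintype`/`Finite` is missing use `Finite.of_fintype`. -/

namespace H73.TO

open Set H63.KO

variable {V : Type} [AddCommGroup V] [Module ℝ V] {ι : Type}

private theorem zmod2_aux (a b k : ZMod 2) (h : a + b = k) : b = a + k := by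
  rw [← h, ← add_assoc, CharTwo.add_self_eq_zero, zero_add]

open Classical in
private theorem h2F_aux [FiniteDimensional ℝ V] [Fintype ι] {s : ι → V} {x y : Set ι}
    {lx : Module.Dual ℝ V} (hx : Defn s x lx) (hy : IsFace s y)
    (lv : Set ι → Module.Dual ℝ V) (hlv : ∀ v, AtomOver s x v → Defn s v (lv v))
    (l : Module.Dual ℝ V) (hl : ∀ i ∈ x, l (s i) = 0)
    (hinj : ∀ v w, AtomOver s x v → AtomOver s x w → v ≠ w → rat s lx l x v ≠ rat s lx l x w)
    (hinj2 : ∀ v, AtomOver s x v → ∀ E E', AtomOver s v E → AtomOver s v E' → E ≠ E' →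
      rat s (lv v) (l - rat s lx l x v • lx) v E ≠ rat s (lv v) (l - rat s lx l x v • lx) v E')
    (c : Set ι → ZMod 2)
    (hc : ∀ T, IsFace s T → x ⊂ T → T ⊆ y → rkF s T = rkF s x + 4 →
      ∑ S with (IsFace s S ∧ x ⊂ S ∧ S ⊂ T ∧ rkF s S = rkF s x + 3), c S = 0) :
    ∀ (n : ℕ) (c₀ : ℝ), Set.ncard {v | AtomOver s x v ∧ v ⊆ y ∧ c₀ < rat s lx l x v} ≤ n →
      ∃ b : Set ι → ZMod 2, ∀ S, IsFace s S → x ⊂ S → S ⊆ y → rkF s S = rkF s x + 3 →
        (∀ w, AtomOver s x w → w ⊆ S → c₀ < rat s lx l x w) →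
        c S = ∑ E with (IsFace s E ∧ x ⊂ E ∧ E ⊂ S ∧ rkF s E = rkF s x + 2), b E := by
  have hxF : IsFace s x := ⟨lx, hx⟩
  intro n
  induction n with
  | zero =>
    intro c₀ hcard
    refine ⟨fun _ => 0, ?_⟩
    intro S hS hxS hSy _ hat
    exfalso
    obtain ⟨z, hz, hzS⟩ := step hxF hS hxS
    have h1 : {v | AtomOver s x v ∧ v ⊆ y ∧ c₀ < rat s lx l x v} = ∅ :=
      (Set.ncard_eq_zero (Set.toFinite _)).mp (Nat.le_zero.mp hcard)
    have h2 : z ∈ {v | AtomOver s x v ∧ v ⊆ y ∧ c₀ < rat s lx l x v} :=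
      ⟨hz, hzS.trans hSy, hat z hz hzS⟩
    rw [h1] at h2
    exact h2
  | succ n ih =>
    intro c₀ hcard
    set A := {v | AtomOver s x v ∧ v ⊆ y ∧ c₀ < rat s lx l x v} with hA
    rcases Set.eq_empty_or_nonempty A with hAe | hAne
    · refine ⟨fun _ => 0, ?_⟩
      intro S hS hxS hSy _ hat
      exfalso
      obtain ⟨z, hz, hzS⟩ := step hxF hS hxS
      have h2 : z ∈ A := ⟨hz, hzS.trans hSy, hat z hz hzS⟩
      rw [hAe] at h2
      exact h2
    · obtain ⟨v0, hv0, hmin⟩ := (Set.toFinite A).exists_minimalFor (rat s lx l x) A hAne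
      have hmin' : ∀ v ∈ A, v ≠ v0 → rat s lx l x v0 < rat s lx l x v := by
        intro v hv hne
        have h1 := hinj v v0 hv.1 hv0.1 hne
        by_contra hcon
        push Not at hcon
        have h2 := hmin hv hcon
        exact h1 (le_antisymm hcon h2)
      have hsub : {v | AtomOver s x v ∧ v ⊆ y ∧ rat s lx l x v0 < rat s lx l x v} ⊂ A := by
        rw [Set.ssubset_iff_of_subset]
        · exact ⟨v0, hv0, fun h => lt_irrefl _ h.2.2⟩
        · intro v hv
          exact ⟨hv.1, hv.2.1, hv0.2.2.trans hv.2.2⟩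
      have hlt := Set.ncard_lt_ncard hsub (Set.toFinite _)
      obtain ⟨b', hb'⟩ := ih (rat s lx l x v0) (by omega)
      have hv : AtomOver s x v0 := hv0.1
      have hvr := hv.2.2
      have hlv0 := hlv v0 hv
      obtain ⟨m, hm⟩ : ∃ m : Module.Dual ℝ V, m = l - rat s lx l x v0 • lx := ⟨_, rfl⟩
      have hmv : ∀ i ∈ v0, m (s i) = 0 := by
        intro i hi
        rw [hm, LinearMap.sub_apply, LinearMap.smul_apply, smul_eq_mul,
          rat_spec hx hv l hl i hi, sub_self]
      obtain ⟨k, hk⟩ : ∃ k : Set ι → ZMod 2, k = fun S => c S +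
        ∑ E with (IsFace s E ∧ x ⊂ E ∧ E ⊂ S ∧ rkF s E = rkF s x + 2 ∧ ¬ v0 ⊆ E), b' E :=
        ⟨_, rfl⟩
      obtain ⟨t, ht⟩ := potUp_ge (G := Multiplicative (ZMod 2)) hlv0 hy m hmv
        (by
          intro E E' hE hE' hne
          rw [hm]
          exact hinj2 v0 hv E E' hE hE' hne)
        (fun S _ _ => Multiplicative.ofAdd (k S))
        (by
          intro S E E' _
          rw [← ofAdd_add, CharTwo.add_self_eq_zero, ofAdd_zero])
        0
        (by
          intro T hT hvT hTy hrT hpos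
          have hmn := min_of_pos hx hlv0 l hl hv hT hvT (by
            intro E hE hET
            rw [← hm]
            exact hpos E hE hET)
          have hsum := local_sum hx hv hT hvT hTy (by omega) c b'
            (hc T hT (hv.2.1.trans hvT) hTy (by omega)) hb' hmn
          obtain ⟨tS, htS⟩ := polygon_pot hv.1 hT hvT hrT k (by
            rw [hk]
            exact hsum)
          refine ⟨fun B => Multiplicative.ofAdd (tS B), ?_⟩
          intro S E E' hE
          obtain ⟨g1, g2, g3, g4, g5, g6, g7, g8⟩ := hE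
          have hST : S ⊂ T := lt_of_le_of_ne g2 fun he => by
            rw [he] at g3; omega
          have h1 := htS S E E' g1 hST g3 g4 g5 g6 g7 g8
          change Multiplicative.ofAdd (tS E') = Multiplicative.ofAdd (tS E) *
            Multiplicative.ofAdd (k S)
          rw [← ofAdd_add, zmod2_aux _ _ _ h1])
      refine ⟨fun E => if v0 ⊆ E then Multiplicative.toAdd (t E) else b' E, ?_⟩
      intro S hS hxS hSy hrS hat
      by_cases hvS : v0 ⊆ S
      · have hvS' : v0 ⊂ S := lt_of_le_of_ne hvS fun he => by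
          rw [he] at hvr; omega
        -- the two faces above `v0`
        obtain ⟨E1, hE1, hE1S⟩ := step hv.1 hS hvS'
        have hE1r := hE1.2.2
        have hE1S' : E1 ⊂ S := lt_of_le_of_ne hE1S fun he => by
          rw [he] at hE1r; omega
        obtain ⟨E2, a1, a2, a3, a4, a5⟩ := diamF hv.1 hS hE1.1 hE1.2.1 hE1S' (by omega)
        have hE2 : AtomOver s v0 E2 := by
          refine ⟨a1, a2, ?_⟩
          have r1 := rkF_lt hv.1 a2
          have r2 := rkF_lt a1 a3
          omega
        have hpos : ∀ E, AtomOver s v0 E → E ⊂ S → 0 < rat s (lv v0) m v0 E := by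
          intro E hE hES
          have hEr := hE.2.2
          obtain ⟨w, w1, w2, w3, w4, _⟩ := diamF hxF hE.1 hv.1 hv.2.1 hE.2.1 (by omega)
          have r1 := rkF_lt hxF w2
          have r2 := rkF_lt w1 w3
          have hw : AtomOver s x w := ⟨w1, w2, by omega⟩
          have hwA : w ∈ A := ⟨hw, (w3.1.trans hES.1).trans hSy, hat w hw (w3.1.trans hES.1)⟩
          have hed : EdgeIn s x y E v0 w :=
            ⟨hE.1, hES.1.trans hSy, by omega, hv, hE.2.1, hw, w3, fun h => w4 h.symm⟩
          rw [hm]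
          exact (inc_iff hx hlv0 l hl hed).1 (hmin' w hwA w4)
        have hed : EdgeIn s v0 y S E1 E2 :=
          ⟨hS, hSy, by omega, hE1, hE1S', hE2, a3, fun h => a4 h.symm⟩
        have h1 := ht S E1 E2 hed (hpos E1 hE1 hE1S') (hpos E2 hE2 a3)
        have h2 : Multiplicative.toAdd (t E1) + Multiplicative.toAdd (t E2) = k S := by
          rw [h1, toAdd_mul, toAdd_ofAdd, ← add_assoc, CharTwo.add_self_eq_zero, zero_add]
        rw [← Finset.sum_filter_add_sum_filter_not _ (fun E => v0 ⊆ E), Finset.filter_filter,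
          Finset.filter_filter]
        have e1 : Finset.univ.filter (fun E => (IsFace s E ∧ x ⊂ E ∧ E ⊂ S ∧
            rkF s E = rkF s x + 2) ∧ v0 ⊆ E) = {E1, E2} := by
          ext E
          simp only [Finset.mem_filter, Finset.mem_univ, true_and, Finset.mem_insert,
            Finset.mem_singleton]
          constructor
          · rintro ⟨⟨g1, g2, g3, g4⟩, g5⟩
            refine a5 E g1 (lt_of_le_of_ne g5 fun he => ?_) g3
            rw [he] at hvr; omega
          · rintro (rfl | rfl)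
            · exact ⟨⟨hE1.1, hv.2.1.trans hE1.2.1, hE1S', by omega⟩, hE1.2.1.1⟩
            · have := hE2.2.2
              exact ⟨⟨a1, hv.2.1.trans a2, a3, by omega⟩, a2.1⟩
        rw [e1, Finset.sum_pair (Ne.symm a4), if_pos hE1.2.1.1, if_pos a2.1, h2]
        have e2 : ∑ E with ((IsFace s E ∧ x ⊂ E ∧ E ⊂ S ∧ rkF s E = rkF s x + 2) ∧ ¬ v0 ⊆ E),
            (if v0 ⊆ E then Multiplicative.toAdd (t E) else b' E) =
            ∑ E with (IsFace s E ∧ x ⊂ E ∧ E ⊂ S ∧ rkF s E = rkF s x + 2 ∧ ¬ v0 ⊆ E), b' E := by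
          refine Finset.sum_congr ?_ ?_
          · ext E
            simp only [Finset.mem_filter, Finset.mem_univ, true_and]
            constructor
            · rintro ⟨⟨g1, g2, g3, g4⟩, g5⟩
              exact ⟨g1, g2, g3, g4, g5⟩
            · rintro ⟨g1, g2, g3, g4, g5⟩
              exact ⟨⟨g1, g2, g3, g4⟩, g5⟩
          · intro E hE
            simp only [Finset.mem_filter, Finset.mem_univ, true_and] at hE
            rw [if_neg hE.2.2.2.2]
        rw [e2, hk, add_assoc, CharTwo.add_self_eq_zero, add_zero]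
      · rw [hb' S hS hxS hSy hrS (fun w hw hwS =>
          hmin' w ⟨hw, hwS.trans hSy, hat w hw hwS⟩ fun he => hvS (he ▸ hwS))]
        refine Finset.sum_congr rfl ?_
        intro E hE
        simp only [Finset.mem_filter, Finset.mem_univ, true_and] at hE
        have hne : ¬ v0 ⊆ E := fun h => hvS (h.trans hE.2.2.1.1)
        change b' E = if v0 ⊆ E then Multiplicative.toAdd (t E) else b' E
        rw [if_neg hne]

open Classical in
theorem h2F [FiniteDimensional ℝ V] [Fintype ι] {s : ι → V} {x y : Set ι} (hx : IsFace s x)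
    (hy : IsFace s y) (hxy : x ⊂ y) (hrk : rkF s x + 5 ≤ rkF s y) (c : Set ι → ZMod 2)
    (hc : ∀ T, IsFace s T → x ⊂ T → T ⊆ y → rkF s T = rkF s x + 4 →
      ∑ S with (IsFace s S ∧ x ⊂ S ∧ S ⊂ T ∧ rkF s S = rkF s x + 3), c S = 0) :
    ∃ b : Set ι → ZMod 2, ∀ S, IsFace s S → x ⊂ S → S ⊆ y → rkF s S = rkF s x + 3 →
      c S = ∑ E with (IsFace s E ∧ x ⊂ E ∧ E ⊂ S ∧ rkF s E = rkF s x + 2), b E := by
  obtain ⟨lx, hlx⟩ := id hx
  have hex : ∀ v, ∃ m : Module.Dual ℝ V, AtomOver s x v → Defn s v m := by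
    intro v
    by_cases hv : AtomOver s x v
    · obtain ⟨m, hm⟩ := hv.1
      exact ⟨m, fun _ => hm⟩
    · exact ⟨0, fun h => absurd h hv⟩
  choose lv hlv using hex
  obtain ⟨l, hl, hinj, hinj2⟩ := generic2 hlx lv hlv
  have hb : BddBelow (rat s lx l x '' {v | AtomOver s x v ∧ v ⊆ y}) :=
    ((Set.toFinite {v | AtomOver s x v ∧ v ⊆ y}).image (rat s lx l x)).bddBelow
  obtain ⟨c0, hc0⟩ := hb
  obtain ⟨b, hb⟩ := h2F_aux hlx hy lv hlv l hl hinj hinj2 c hc _ (c0 - 1) le_rfl
  refine ⟨b, ?_⟩
  intro S hS hxS hSy hrS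
  refine hb S hS hxS hSy hrS ?_
  intro w hw hwS
  have := hc0 ⟨w, ⟨hw, hwS.trans hSy⟩, rfl⟩
  linarith

end H73.TO
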