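import Pool.Agent.H73.TO.H2F
import Pool.Agent.H73.TO.Defs
import Pool.Agent.H63.KO.PolyLatFin

/-! # TO.H2L : the face lattice of a polytope satisfies `H2`

`faceIso T` (H63/KO/FaceIso.lean) is an order isomorphism `e` of the exposed faces with `{A : Set T // IsFace (polyFam T) A}` (check its direction). RANKS: `P.rk F = rkF (polyFam T) (e F).1` for every `PolyLat` `P` on the faces: put `r F = rkF _ (e F).1`; `r` is strictly monotone (`rkF_lt`), `r bot = 0`
(`e` maps the least element to `∅`: `isFace_empty` with `polyFam_pos`; `rkF _ ∅ = 0`), and for `F < G` there is `H`, `F < H ≤ G`, `r H = r F + 1` (`step` of H63/KO/Step.lean). Induction on `P.rk F`: for `F ≠ bot` take a chain: strong form: if `P.rk F = r F` and `F < H` with `P.rk H = P.rk F + 1` then `r H = r F + 1`: the `r`-step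
`H'` with `F < H' ≤ H` satisfies `P.rk F < P.rk H' ≤ P.rk H`, so `H' = H`. Every `F` is reached from `bot` by such steps (`P.step`, induction on `P.rk G - P.rk F`). Then translate `h2F` (`x ↦ (e x).1`; a function `c` on faces becomes `fun A => if hA : IsFace _ A then c (e.symm ⟨A, hA⟩) else 0`; the filtered sums are in bijection,
`Finset.sum_bij'` or `Finset.sum_nbij'`; compare `famLat` in H63/KO/FamLat.lean). -/

namespace H73.TO

open Set H63.KO

/-- a second rank function with the step property is the rank function -/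
private theorem rk_unique {L : Type} [PartialOrder L] [Fintype L] (P : PolyLat L) (r : L → ℕ)
    (h0 : r P.bot = 0) (hst : ∀ x y : L, x < y → ∃ z, x < z ∧ z ≤ y ∧ r z = r x + 1) :
    ∀ (n : ℕ) (F : L), P.rk F = n → r F = n := by
  classical
  intro n
  induction n with
  | zero =>
    intro F hF
    rcases (P.bot_le F).eq_or_lt with h | h
    · rw [← h]; exact h0
    · have := P.rk_lt _ _ h
      omega
  | succ n ih =>
    intro F hF
    have hbF : P.bot < F := by
      rcases (P.bot_le F).eq_or_lt with h | h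
      · rw [← h, P.rk_bot] at hF
        omega
      · exact h
    obtain ⟨G, hG, hmax⟩ := Finset.exists_max_image (Finset.univ.filter fun G : L => G < F) P.rk
      ⟨P.bot, by simpa using hbF⟩
    simp only [Finset.mem_filter, Finset.mem_univ, true_and] at hG hmax
    have h1 := P.rk_lt _ _ hG
    have h2 : P.rk G = n := by
      by_contra hne
      obtain ⟨G', h3, h4, h5⟩ := P.step _ _ hG
      have h6 : G' ≠ F := by
        rintro rfl
        omega
      have h7 := hmax G' (lt_of_le_of_ne h4 h6)
      omega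
    obtain ⟨H, h3, h4, h5⟩ := hst _ _ hG
    have h6 : H = F := by
      by_contra hne
      have h7 := P.rk_lt _ _ h3
      have h8 := P.rk_lt _ _ (lt_of_le_of_ne h4 hne)
      omega
    rw [← h6, h5, ih G h2]

theorem polytope_H2 {E : Type} [NormedAddCommGroup E] [InnerProductSpace ℝ E]
    [FiniteDimensional ℝ E] (T : Finset E)
    [Fintype {F : Set E // IsExposed ℝ (convexHull ℝ (T : Set E)) F}]
    (P : PolyLat {F : Set E // IsExposed ℝ (convexHull ℝ (T : Set E)) F}) : H2 P := by
  classical
  obtain ⟨e⟩ := faceIso T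
  have hbot : (e P.bot).1 = ∅ := by
    have h1 := P.bot_le (e.symm ⟨∅, isFace_empty (polyFam_pos T)⟩)
    have h2 : e P.bot ≤ ⟨∅, isFace_empty (polyFam_pos T)⟩ := (e.le_symm_apply).1 h1
    exact Set.subset_empty_iff.1 h2
  have hrk : ∀ F, rkF (polyFam T) (e F).1 = P.rk F := by
    intro F
    refine rk_unique P (fun F => rkF (polyFam T) (e F).1) ?_ ?_ (P.rk F) F rfl
    · rw [hbot]
      simp [rkF]
    · intro x y hxy
      obtain ⟨z, hz, hzy⟩ := H63.KO.step (e x).2 (e y).2 (show (e x).1 ⊂ (e y).1 from e.lt_iff_lt.2 hxy)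
      refine ⟨e.symm ⟨z, hz.1⟩, (e.lt_symm_apply).2 hz.2.1, (e.symm_apply_le).2 hzy, ?_⟩
      rw [e.apply_symm_apply]
      exact hz.2.2
  have hsum : ∀ (x z : {F : Set E // IsExposed ℝ (convexHull ℝ (T : Set E)) F}) (n : ℕ)
      (f : Set T → ZMod 2) (g : {F : Set E // IsExposed ℝ (convexHull ℝ (T : Set E)) F} → ZMod 2),
      (∀ S, f (e S).1 = g S) →
      ∑ S : Set T with (IsFace (polyFam T) S ∧ (e x).1 ⊂ S ∧ S ⊂ (e z).1 ∧ rkF (polyFam T) S = n), f S =
        ∑ S with (x < S ∧ S < z ∧ P.rk S = n), g S := by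
    intro x z n f g hfg
    symm
    refine Finset.sum_bij (fun S _ => (e S).1) ?_ ?_ ?_ ?_
    · intro S hS
      simp only [Finset.mem_filter, Finset.mem_univ, true_and] at hS ⊢
      exact ⟨(e S).2, e.lt_iff_lt.2 hS.1, e.lt_iff_lt.2 hS.2.1, (hrk S).trans hS.2.2⟩
    · intro S _ S' _ h
      exact e.injective (Subtype.ext h)
    · intro S hS
      simp only [Finset.mem_filter, Finset.mem_univ, true_and] at hS
      refine ⟨e.symm ⟨S, hS.1⟩, ?_, by rw [e.apply_symm_apply]⟩
      simp only [Finset.mem_filter, Finset.mem_univ, true_and]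
      refine ⟨(e.lt_symm_apply).2 hS.2.1, (e.symm_apply_lt).2 hS.2.2.1, ?_⟩
      rw [← hrk, e.apply_symm_apply]
      exact hS.2.2.2
    · intro S _
      exact (hfg S).symm
  intro x y hxy hr c hc
  obtain ⟨b, hb⟩ := h2F (s := polyFam T) (x := (e x).1) (y := (e y).1) (e x).2 (e y).2
    (e.lt_iff_lt.2 hxy) (by rw [hrk, hrk]; exact hr)
    (fun A => if hA : IsFace (polyFam T) A then c (e.symm ⟨A, hA⟩) else 0) (by
      intro S hS hxS hSy hrS
      have h1 := hsum x (e.symm ⟨S, hS⟩) (P.rk x + 3)
        (fun A => if hA : IsFace (polyFam T) A then c (e.symm ⟨A, hA⟩) else 0) c (by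
          intro S
          rw [dif_pos (e S).2]
          simp)
      have h2 := hc (e.symm ⟨S, hS⟩) ((e.lt_symm_apply).2 hxS) ((e.symm_apply_le).2 hSy) (by
        rw [← hrk, e.apply_symm_apply, ← hrk x]
        exact hrS)
      rw [e.apply_symm_apply] at h1
      rw [hrk x]
      refine Eq.trans ?_ (h1.trans (Eq.trans ?_ h2))
      · exact Finset.sum_congr (by ext; simp) fun _ _ => rfl
      · exact Finset.sum_congr (by ext; simp) fun _ _ => rfl)
  refine ⟨fun S => b (e S).1, fun S hxS hSy hrS => ?_⟩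
  have h1 := hb (e S).1 (e S).2 (e.lt_iff_lt.2 hxS) (e.le_iff_le.2 hSy) (by
    rw [hrk, hrk]; exact hrS)
  rw [dif_pos (e S).2] at h1
  have h2 : e.symm ⟨(e S).1, (e S).2⟩ = S := by simp
  rw [h2] at h1
  refine h1.trans ?_
  have h3 := hsum x S (P.rk x + 2) b (fun S => b (e S).1) (fun _ => rfl)
  rw [hrk x]
  refine Eq.trans ?_ (h3.trans ?_)
  · exact Finset.sum_congr (by ext; simp) fun _ _ => rfl
  · exact Finset.sum_congr (by ext; simp) fun _ _ => rfl

end H73.TO
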