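import Pool.Agent.H73.TO.Defs

/-! # TO.HD : standard parabolic subgroups (any Coxeter system)

`simple_notMem`: `rho_coord` (H80/Cox/Parabolic.lean) at the coordinate `n` and the vector `al n`: `rho (simple n) (al n) = - al n`. `mem_single`: `mem_WP_singleton` of H80/Cox/Max.lean (reprove it in two lines if the import is heavy). `comm_single`: `simple_comm`.
`coset_disj`: write `w₁ = v * x`, `x ∈ WP K`, `0 ≤ rho v (al r)` for `r ∈ K` (`exists_dec`), so `length (v * x) = length v + length x` (`length_mul_of_pos`) and `suffix_mem` (`K := S₁`) gives `x ∈ WP S₁`, so `v ∈ WP S₁`. Also `w₂ = w₁ * (w₁⁻¹ * w₂) = v * (x * (w₁⁻¹ * w₂))`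
with the second factor in `WP K`: the same argument gives `v ∈ WP S₂`. So `v ∈ WP (S₁ ∩ S₂) = WP ∅` (`inter_mem`), `v = 1`, `w₁ = x ∈ WP K`. -/

namespace H73.TO

open Pool.Agent.H80.Cox

variable {B : Type} [Fintype B] [DecidableEq B] {W : Type} [Group W] {M : CoxeterMatrix B}
variable (cs : CoxeterSystem M W)

theorem simple_notMem {K : Finset B} {n : B} (hn : n ∉ K) : cs.simple n ∉ WP cs K := by
  intro hw
  apply hn
  apply desc_mem cs hw
  rw [rho_simple, sig_al_self]
  exact neg_nonpos.2 (al_nonneg n)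

theorem comm_single {m n : B} (h : M m n = 2) {u : W} (hu : u ∈ WP cs {m}) :
    u * cs.simple n = cs.simple n * u := by
  apply mul_simple_comm cs _ hu
  intro a ha
  rw [Finset.mem_singleton] at ha
  rw [ha]
  exact h

private lemma prefix_mem {S K : Finset B} {v x : W} (hv : ∀ r ∈ K, 0 ≤ rho cs v (al r))
    (hx : x ∈ WP cs K) (h : v * x ∈ WP cs S) : v ∈ WP cs S := by
  have h1 := suffix_mem cs h (length_mul_of_pos cs hv hx)
  have h2 := mul_mem h (inv_mem h1)
  rwa [mul_inv_cancel_right] at h2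

private lemma mem_WP_empty {w : W} (hw : w ∈ WP cs (∅ : Finset B)) : w = 1 := by
  revert w
  apply WP_induction
  · rfl
  · intro w _ s hs
    exact absurd hs (Finset.notMem_empty s)

theorem coset_disj {S₁ S₂ K : Finset B} (h : Disjoint S₁ S₂) {w₁ w₂ : W} (h1 : w₁ ∈ WP cs S₁)
    (h2 : w₂ ∈ WP cs S₂) (h3 : w₁⁻¹ * w₂ ∈ WP cs K) : w₁ ∈ WP cs K := by
  obtain ⟨v, x, hvx, hx, hv⟩ := exists_dec cs K w₁
  have hv1 : v ∈ WP cs S₁ := prefix_mem cs hv hx (by rw [← hvx]; exact h1)
  have e2 : w₂ = v * (x * (w₁⁻¹ * w₂)) := by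
    rw [← mul_assoc, ← hvx, mul_inv_cancel_left]
  have hv2 : v ∈ WP cs S₂ := prefix_mem cs hv (mul_mem hx h3) (by rw [← e2]; exact h2)
  have hv3 := inter_mem cs hv1 hv2
  rw [Finset.disjoint_iff_inter_eq_empty.1 h] at hv3
  have hv4 := mem_WP_empty cs hv3
  rw [hvx, hv4, one_mul]
  exact hx

end H73.TO
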