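import Pool.Agent.H73.TO.HWa

/-! # TO.HW : the configuration of the interior type II_j in the lattice

`ξ₀ = C.ξ (0, true)`, `A w = (C.ψ w ξ₀).f j`, `E w = (C.ψ w ξ₀).f (j - 1)`, `T w = (C.ψ w ξ₀).f (j + 1)`, `x = ξ₀.f (j - 3)`, `y = ξ₀.f (j + 3)` (`chart_out`: all `C.ψ w ξ₀` have these elements of rank `j ± 3`). `lt`, `rk`, `xE`, `EA`, `AT`, `Ty`, `rkE`, `rkA`, `rkT`: `Fl.lt`, `Fl.rk`. The generators `om3 j i (0, true)` for `i = j-2, j-1, j+1, j+2` are
`(2, true), (0, false), (0, true), (1, true)`. `A_fix`: `chart_fix` with `I = {j-2, j-1, j+1, j+2}`, `k = j`. `A_eq`: if `A w = A w'` the flags `φ = C.ψ w ξ₀`, `φ' = C.ψ w' ξ₀` agree outside `[j-2, j+2]` (`chart_out`) and at `j`; let `χ` be the flag equal to `φ` at ranks `≤ j` and to `φ'` at ranks `≥ j`; `conn_res` for `[j+1, j+2]` links `φ` to `χ`, for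
`[j-2, j-1]` `χ` to `φ'`; `chart_link` twice: `φ' = C.ψ (w * u) ξ₀`, `u` a product of two elements, and `w' = w * u` by `C.inj`. (`WP_mono` to put both factors into one parabolic subgroup; the images of `Finset.Icc` are computed by `ext`/`omega`/`decide`-style case checks.) `AE_eq`: also equal at `j - 1`: `[j-2, j-2]` instead of `[j-2, j-1]`. `AT_eq`: equal at `j + 1`:
`[j+2, j+2]` and `[j-2, j-1]`. `E_ex`: `x < E' < A w`, `rk E' = j - 1`. `P.step x E'` gives `z`, `x < z < E'` of rank `j - 2`; `exists_through` (H63/KO/FlagConn.lean) for `C.ψ w ξ₀`, `[j-2, j-1]`, `z`, and once more for `[j-1, j-1]`, `E'`: a flag with `E'` at rank `j - 1` agreeing with `C.ψ w ξ₀` outside `[j-2, j-1]`; `conn_res`, `chart_link`.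
`T_ex`: `exists_through` for `[j+1, j+2]`, `T'`. `E_fix`: `C.ξ (1, true) = rho j ξ₀`, `C.ξ (2, true) = rho (j+1) (C.ξ (1, true))` (`C.edge`), `C.ψ (simple (1, false)) (C.ξ (2, true)) = rho (j+2) (C.ξ (2, true))` (`C.semi`, `om3 j (j+2) (2, true) = (1, false)`). Labels `j, j+1, j+2` do not change rank `j - 1`:
`E (w * simple) = (C.ψ (w * simple) (C.ξ (2, true))).f (j-1) = (rho (j+2) (C.ψ w (C.ξ (2, true)))).f (j-1) = E w`. `T_fix`: `C.ξ (2, false) = rho (j-1) (C.ξ (1, true))`, `om3 j (j-2) (2, false) = (2, false)`; labels `j, j-1, j-2` do not change rank `j + 1`. -/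

namespace H73.TO

open H63.KO Pool.Agent.H80.Cox

private theorem hw_om2 {j : ℕ} (h1 : 3 ≤ j) : om3 j (j - 2) (0, true) = (2, true) := by
  unfold om3
  rw [if_neg (by omega), if_neg (by omega), if_neg (by omega)]

private theorem hw_om1 {j : ℕ} (h1 : 3 ≤ j) : om3 j (j - 1) (0, true) = (0, false) := by
  unfold om3
  rw [if_pos (by omega)]
  rfl

private theorem hw_op1 {j : ℕ} : om3 j (j + 1) (0, true) = (0, true) := by
  unfold om3
  rw [if_neg (by omega), if_pos (Or.inr rfl)]

private theorem hw_op2 {j : ℕ} : om3 j (j + 2) (0, true) = (1, true) := by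
  unfold om3
  rw [if_neg (by omega), if_neg (by omega), if_pos rfl]
  rfl

private theorem hw_low {j : ℕ} (h1 : 3 ≤ j) :
    (Finset.Icc (j - 2) (j - 1)).image (fun i => om3 j i (0, true)) ⊆
      ({(2, true), (0, false)} : Finset (Fin 3 × Bool)) := by
  intro g hg
  rw [Finset.mem_image] at hg
  obtain ⟨i, hi, rfl⟩ := hg
  rw [Finset.mem_Icc] at hi
  rcases (show i = j - 2 ∨ i = j - 1 by omega) with h | h
  · rw [h, hw_om2 h1]; decide
  · rw [h, hw_om1 h1]; decide

private theorem hw_low' {j : ℕ} (h1 : 3 ≤ j) :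
    (Finset.Icc (j - 2) (j - 2)).image (fun i => om3 j i (0, true)) ⊆
      ({(2, true)} : Finset (Fin 3 × Bool)) := by
  intro g hg
  rw [Finset.mem_image] at hg
  obtain ⟨i, hi, rfl⟩ := hg
  rw [Finset.mem_Icc] at hi
  have h : i = j - 2 := by omega
  rw [h, hw_om2 h1]; decide

private theorem hw_up {j : ℕ} :
    (Finset.Icc (j + 1) (j + 2)).image (fun i => om3 j i (0, true)) ⊆
      ({(0, true), (1, true)} : Finset (Fin 3 × Bool)) := by
  intro g hg
  rw [Finset.mem_image] at hg
  obtain ⟨i, hi, rfl⟩ := hg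
  rw [Finset.mem_Icc] at hi
  rcases (show i = j + 1 ∨ i = j + 2 by omega) with h | h
  · rw [h, hw_op1]; decide
  · rw [h, hw_op2]; decide

private theorem hw_up' {j : ℕ} :
    (Finset.Icc (j + 2) (j + 2)).image (fun i => om3 j i (0, true)) ⊆
      ({(1, true)} : Finset (Fin 3 × Bool)) := by
  intro g hg
  rw [Finset.mem_image] at hg
  obtain ⟨i, hi, rfl⟩ := hg
  rw [Finset.mem_Icc] at hi
  have h : i = j + 2 := by omega
  rw [h, hw_op2]; decide

/-- the flag which is `φ` up to rank `j` and `φ'` from rank `j` on -/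
private theorem hw_glue {L : Type} [PartialOrder L] {P : PolyLat L} (φ φ' : P.Fl) {j : ℕ}
    (h : φ.f j = φ'.f j) :
    ∃ χ : P.Fl, (∀ k, k ≤ j → χ.f k = φ.f k) ∧ (∀ k, j ≤ k → χ.f k = φ'.f k) := by
  refine ⟨⟨fun k => if k ≤ j then φ.f k else φ'.f k, ?_, ?_⟩, ?_, ?_⟩
  · intro a b hab
    show (if a ≤ j then φ.f a else φ'.f a) ≤ (if b ≤ j then φ.f b else φ'.f b)
    by_cases ha : a ≤ j
    · by_cases hb : b ≤ j
      · rw [if_pos ha, if_pos hb]
        exact φ.mono hab
      · rw [if_pos ha, if_neg hb]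
        calc φ.f a ≤ φ.f j := φ.mono ha
          _ = φ'.f j := h
          _ ≤ φ'.f b := φ'.mono (by omega)
    · rw [if_neg ha, if_neg (by omega)]
      exact φ'.mono hab
  · intro k
    show P.rk (if k ≤ j then φ.f k else φ'.f k) = _
    split_ifs
    · exact φ.hrk k
    · exact φ'.hrk k
  · intro k hk
    show (if k ≤ j then φ.f k else φ'.f k) = _
    rw [if_pos hk]
  · intro k hk
    show (if k ≤ j then φ.f k else φ'.f k) = _
    by_cases hk' : k ≤ j
    · have : k = j := by omega
      rw [if_pos hk', this, h]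
    · rw [if_neg hk']

private theorem hw_link2 {L : Type} [PartialOrder L] {P : PolyLat L} {j : ℕ} (h1 : 3 ≤ j)
    (h2 : j + 2 ≤ P.d) {M : CoxeterMatrix (Fin 3 × Bool)}
    (C : Chart P.sys (sS j) (om3 j) M (j - 2) (j + 2)) (w w' : M.Group) {c1 e1 c2 e2 : ℕ}
    (hc1 : j - 2 ≤ c1) (he1 : e1 < j) (hc2 : j < c2) (he2 : e2 ≤ j + 2)
    (hA : ∀ k, (k < c1 ∨ (e1 < k ∧ k < c2) ∨ e2 < k) →
      (C.ψ w (C.ξ (0, true))).f k = (C.ψ w' (C.ξ (0, true))).f k)
    {K1 K2 K : Finset (Fin 3 × Bool)}
    (hK1 : (Finset.Icc c1 e1).image (fun i => om3 j i (0, true)) ⊆ K1)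
    (hK2 : (Finset.Icc c2 e2).image (fun i => om3 j i (0, true)) ⊆ K2)
    (hK : K1 ∪ K2 ⊆ K) :
    w⁻¹ * w' ∈ WP M.toCoxeterSystem K := by
  obtain ⟨χ, hχ1, hχ2⟩ := hw_glue (C.ψ w (C.ξ (0, true))) (C.ψ w' (C.ξ (0, true)))
    (hA j (Or.inr (Or.inl ⟨he1, hc2⟩)))
  have l1 : Linked c2 e2 (C.ψ w (C.ξ (0, true))) χ := by
    apply conn_res (by omega) (by omega)
    intro k hk
    by_cases hkj : k ≤ j
    · exact (hχ1 k hkj).symm
    · rw [hχ2 k (by omega)]
      exact hA k (by omega)
  obtain ⟨u, hu, hχu⟩ := chart_link h1 h2 C w (by omega) he2 (Or.inr hc2) l1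
  have l2 : Linked c1 e1 (C.ψ (w * u) (C.ξ (0, true))) (C.ψ w' (C.ξ (0, true))) := by
    rw [← hχu]
    apply conn_res (by omega) (by omega)
    intro k hk
    by_cases hkj : k ≤ j
    · rw [hχ1 k hkj]
      exact hA k (by omega)
    · exact hχ2 k (by omega)
  obtain ⟨u', hu', hw'⟩ := chart_link h1 h2 C (w * u) hc1 (by omega) (Or.inl he1) l2
  have hww := (C.inj _ _ _ _ hw').1
  have : w⁻¹ * w' = u * u' := by rw [hww]; group
  rw [this]
  apply mul_mem
  · exact WP_mono M.toCoxeterSystem ((hK2.trans Finset.subset_union_right).trans hK) hu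
  · exact WP_mono M.toCoxeterSystem ((hK1.trans Finset.subset_union_left).trans hK) hu'

theorem exists_wit {L : Type} [PartialOrder L] (P : PolyLat L) {j : ℕ} (h1 : 3 ≤ j)
    (h2 : j + 2 ≤ P.d) {M : CoxeterMatrix (Fin 3 × Bool)}
    (C : Chart P.sys (sS j) (om3 j) M (j - 2) (j + 2)) :
    ∃ x y A E T, Wit P M x y A E T := by
  classical
  have hx : ∀ w, (C.ψ w (C.ξ (0, true))).f (j - 3) = (C.ξ (0, true)).f (j - 3) := fun w =>
    chart_out h1 h2 C w (0, true) (Or.inl (by omega))
  have hy : ∀ w, (C.ψ w (C.ξ (0, true))).f (j + 3) = (C.ξ (0, true)).f (j + 3) := fun w =>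
    chart_out h1 h2 C w (0, true) (Or.inr (by omega))
  have rkx : P.rk ((C.ξ (0, true)).f (j - 3)) = j - 3 := PolyLat.Fl.rk _ (by omega)
  have hout : ∀ w w' k, (k < j - 2 ∨ j + 2 < k) →
      (C.ψ w (C.ξ (0, true))).f k = (C.ψ w' (C.ξ (0, true))).f k := by
    intro w w' k hk
    rw [chart_out h1 h2 C w (0, true) hk, chart_out h1 h2 C w' (0, true) hk]
  have hom : ((({j - 2, j - 1, j + 1, j + 2} : Finset ℕ)).image fun i => om3 j i (0, true)) =
      ({(2, true), (0, false), (0, true), (1, true)} : Finset (Fin 3 × Bool)) := by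
    rw [Finset.image_insert, Finset.image_insert, Finset.image_insert, Finset.image_singleton,
      hw_om2 h1, hw_om1 h1, hw_op1, hw_op2]
  -- the edges
  have e1 : C.ξ (1, true) = rho j (C.ξ (0, true)) := by
    have hs : sS j j (0, true) = (1, true) := by
      unfold sS
      rw [if_pos rfl]
      rfl
    have := C.edge j (by omega) (by omega) (0, true) (by rw [hs]; decide)
    rw [hs] at this
    exact this
  have e2 : C.ξ (2, true) = rho (j + 1) (C.ξ (1, true)) := by
    have hs : sS j (j + 1) (1, true) = (2, true) := by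
      unfold sS
      rw [if_neg (by omega), if_pos rfl]
      rfl
    have := C.edge (j + 1) (by omega) (by omega) (1, true) (by rw [hs]; decide)
    rw [hs] at this
    exact this
  have e3 : C.ξ (2, false) = rho (j - 1) (C.ξ (1, true)) := by
    have hs : sS j (j - 1) (1, true) = (2, false) := by
      unfold sS
      rw [if_neg (by omega), if_neg (by omega), if_pos (by omega)]
      rfl
    have := C.edge (j - 1) (by omega) (by omega) (1, true) (by rw [hs]; decide)
    rw [hs] at this
    exact this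
  have s2 : C.ψ (M.simple (1, false)) (C.ξ (2, true)) = rho (j + 2) (C.ξ (2, true)) := by
    have hs : sS j (j + 2) (2, true) = (2, true) := by
      unfold sS
      rw [if_neg (by omega), if_neg (by omega), if_neg (by omega)]
    have ho : om3 j (j + 2) (2, true) = (1, false) := by
      unfold om3
      rw [if_neg (by omega), if_neg (by omega), if_pos rfl]
      rfl
    have := C.semi (j + 2) (by omega) (by omega) (2, true) hs
    rw [ho] at this
    exact this
  have s3 : C.ψ (M.simple (2, false)) (C.ξ (2, false)) = rho (j - 2) (C.ξ (2, false)) := by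
    have hs : sS j (j - 2) (2, false) = (2, false) := by
      unfold sS
      rw [if_neg (by omega), if_neg (by omega), if_neg (by omega)]
    have ho : om3 j (j - 2) (2, false) = (2, false) := by
      unfold om3
      rw [if_neg (by omega), if_neg (by omega), if_neg (by omega)]
    have := C.semi (j - 2) (by omega) (by omega) (2, false) hs
    rw [ho] at this
    exact this
  have haut : ∀ w i (z : P.Fl), C.ψ w (rho i z) = rho i (C.ψ w z) := fun w i z => C.aut w i z
  have t2 : ∀ w, C.ψ w (C.ξ (2, true)) = rho (j + 1) (rho j (C.ψ w (C.ξ (0, true)))) := by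
    intro w
    rw [e2, e1, haut, haut]
  have t3 : ∀ w, C.ψ w (C.ξ (2, false)) = rho (j - 1) (rho j (C.ψ w (C.ξ (0, true)))) := by
    intro w
    rw [e3, e1, haut, haut]
  refine ⟨(C.ξ (0, true)).f (j - 3), (C.ξ (0, true)).f (j + 3),
    fun w => (C.ψ w (C.ξ (0, true))).f j, fun w => (C.ψ w (C.ξ (0, true))).f (j - 1),
    fun w => (C.ψ w (C.ξ (0, true))).f (j + 1), ?_⟩
  constructor
  · exact PolyLat.Fl.lt _ (by omega) (by omega)
  · rw [rkx, PolyLat.Fl.rk _ (by omega)]; omega
  · intro w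
    show (C.ξ (0, true)).f (j - 3) < (C.ψ w (C.ξ (0, true))).f (j - 1)
    rw [← hx w]
    exact PolyLat.Fl.lt _ (by omega) (by omega)
  · intro w
    exact PolyLat.Fl.lt _ (by omega) (by omega)
  · intro w
    exact PolyLat.Fl.lt _ (by omega) (by omega)
  · intro w
    show (C.ψ w (C.ξ (0, true))).f (j + 1) < (C.ξ (0, true)).f (j + 3)
    rw [← hy w]
    exact PolyLat.Fl.lt _ (by omega) (by omega)
  · intro w
    show P.rk ((C.ψ w (C.ξ (0, true))).f (j - 1)) = _
    rw [rkx, PolyLat.Fl.rk _ (by omega)]; omega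
  · intro w
    show P.rk ((C.ψ w (C.ξ (0, true))).f j) = _
    rw [rkx, PolyLat.Fl.rk _ (by omega)]; omega
  · intro w
    show P.rk ((C.ψ w (C.ξ (0, true))).f (j + 1)) = _
    rw [rkx, PolyLat.Fl.rk _ (by omega)]; omega
  · -- A_eq
    intro w w' h
    refine hw_link2 h1 h2 C w w' (c1 := j - 2) (e1 := j - 1) (c2 := j + 1) (e2 := j + 2)
      (by omega) (by omega) (by omega) (by omega) ?_ (hw_low h1) hw_up (by decide)
    intro k hk
    by_cases hkj : k = j
    · rw [hkj]; exact h
    · exact hout w w' k (by omega)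
  · -- AE_eq
    intro w w' h h'
    refine hw_link2 h1 h2 C w w' (c1 := j - 2) (e1 := j - 2) (c2 := j + 1) (e2 := j + 2)
      (by omega) (by omega) (by omega) (by omega) ?_ (hw_low' h1) hw_up (by decide)
    intro k hk
    by_cases hkj : k = j
    · rw [hkj]; exact h
    · by_cases hkj' : k = j - 1
      · rw [hkj']; exact h'
      · exact hout w w' k (by omega)
  · -- AT_eq
    intro w w' h h'
    refine hw_link2 h1 h2 C w w' (c1 := j - 2) (e1 := j - 1) (c2 := j + 2) (e2 := j + 2)
      (by omega) (by omega) (by omega) (by omega) ?_ (hw_low h1) hw_up' (by decide)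
    intro k hk
    by_cases hkj : k = j
    · rw [hkj]; exact h
    · by_cases hkj' : k = j + 1
      · rw [hkj']; exact h'
      · exact hout w w' k (by omega)
  · -- A_fix
    intro w u hu
    rw [← hom] at hu
    refine chart_fix h1 h2 C w ?_ hu ?_
    · intro i hi
      simp only [Finset.mem_insert, Finset.mem_singleton] at hi
      omega
    · simp only [Finset.mem_insert, Finset.mem_singleton]
      omega
  · -- E_fix
    intro w
    show (C.ψ (w * M.simple (1, false)) (C.ξ (0, true))).f (j - 1) =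
      (C.ψ w (C.ξ (0, true))).f (j - 1)
    have k1 : ∀ w, (C.ψ w (C.ξ (2, true))).f (j - 1) = (C.ψ w (C.ξ (0, true))).f (j - 1) := by
      intro w
      rw [t2, rho_ne (by omega), rho_ne (by omega)]
    rw [← k1, ← k1, map_mul, Equiv.Perm.mul_apply, s2, haut, rho_ne (by omega)]
  · -- T_fix
    intro w
    show (C.ψ (w * M.simple (2, false)) (C.ξ (0, true))).f (j + 1) =
      (C.ψ w (C.ξ (0, true))).f (j + 1)
    have k1 : ∀ w, (C.ψ w (C.ξ (2, false))).f (j + 1) = (C.ψ w (C.ξ (0, true))).f (j + 1) := by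
      intro w
      rw [t3, rho_ne (by omega), rho_ne (by omega)]
    rw [← k1, ← k1, map_mul, Equiv.Perm.mul_apply, s3, haut, rho_ne (by omega)]
  · -- E_ex
    intro w E' hE1 hE2 hE3
    rw [rkx] at hE3
    obtain ⟨z, hz1, hz2, hz3⟩ := P.step _ _ hE1
    rw [rkx] at hz3
    have hzE : z < E' := lt_of_le_of_ne hz2 (by
      intro h
      rw [h, hE3] at hz3
      omega)
    obtain ⟨χ1, g1, g2⟩ := exists_through (C.ψ w (C.ξ (0, true))) (a := j - 2) (b := j - 1)
      (v := z) (by omega) (by omega) (by omega)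
      (by
        have : j - 2 - 1 = j - 3 := by omega
        rw [this, hx w]; exact hz1)
      (by
        have : j - 1 + 1 = j := by omega
        rw [this]; exact lt_of_le_of_lt hz2 hE2)
      (by omega)
    obtain ⟨χ2, g3, g4⟩ := exists_through χ1 (a := j - 1) (b := j - 1)
      (v := E') (by omega) (by omega) (by omega)
      (by
        have : j - 1 - 1 = j - 2 := by omega
        rw [this, g2]; exact hzE)
      (by
        have : j - 1 + 1 = j := by omega
        rw [this, ← g1 j (Or.inr (by omega))]; exact hE2)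
      (by omega)
    have hl : Linked (j - 2) (j - 1) (C.ψ w (C.ξ (0, true))) χ2 := by
      apply conn_res (by omega) (by omega)
      intro k hk
      rw [g1 k hk]
      exact g3 k (by omega)
    obtain ⟨u, hu, hχ⟩ := chart_link h1 h2 C w (by omega) (by omega) (Or.inl (by omega)) hl
    refine ⟨u, WP_mono M.toCoxeterSystem (hw_low h1) hu, ?_⟩
    show (C.ψ (w * u) (C.ξ (0, true))).f (j - 1) = E'
    rw [← hχ, g4]
  · -- T_ex
    intro w T' hT1 hT2 hT3
    rw [rkx] at hT3
    obtain ⟨χ, g1, g2⟩ := exists_through (C.ψ w (C.ξ (0, true))) (a := j + 1) (b := j + 2)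
      (v := T') (by omega) (by omega) (by omega)
      (by
        have : j + 1 - 1 = j := by omega
        rw [this]; exact hT1)
      (by
        have : j + 2 + 1 = j + 3 := by omega
        rw [this, hy w]; exact hT2)
      (by omega)
    have hl : Linked (j + 1) (j + 2) (C.ψ w (C.ξ (0, true))) χ := conn_res (by omega) (by omega) g1
    obtain ⟨u, hu, hχ⟩ := chart_link h1 h2 C w (by omega) (by omega) (Or.inr (by omega)) hl
    refine ⟨u, WP_mono M.toCoxeterSystem hw_up hu, ?_⟩
    show (C.ψ (w * u) (C.ξ (0, true))).f (j + 1) = T'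
    rw [← hχ, g2]

end H73.TO
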