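import Pool.Agent.H73.TO.Defs
import Pool.Agent.H63.KO.FlagConn

/-! # TO.HWa : flags of the chart of the interior type II_j

`ξ₀ = C.ξ (0, true)`. `chart_out`: for every `w` and `v`, `C.ψ w (C.ξ v)` agrees with `ξ₀` at all ranks outside `[j - 2, j + 2]`. First `w = 1`: `C.ξ v` is reached from `ξ₀` along edges (labels `j-1, j, j+1`: `(0,t) -j- (1,t) -(j+1)- (2,t) -(j-1)- (1,f) -j- (0,f)`, `(1,f) -(j+1)- (2,f)`; `C.edge`), and `rho i` changes only rank `i` (`rho_ne`). Induction on `w` from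
the right (`CoxeterSystem.simple_induction_right`) for all `v` at once: for `w * simple n` take `(i, v')` with `om3 j i v' = n`, `sS j i v' = v'` (`(j+1, (0, e))`, `(j+2, (0, e))`, `(j-2, (0, e))`): `C.ψ (w * simple n) (C.ξ v') = C.ψ w (rho i (C.ξ v')) = rho i (C.ψ w (C.ξ v'))` (`C.semi`, `C.aut`); from `v'` to any `v` along edges.
`chart_step`: the labels `i ∈ {j-2, j-1, j+1, j+2}` fix the state `(0, true)` (`sS`), with generator `om3 j i (0, true)`. `chart_link`: induction on the link (`Relation.ReflTransGen`): every flag linked to `C.ψ w ξ₀` by labels in `[c, e]` (all of them among the four) is `C.ψ (w * u) ξ₀` with `u` in the parabolic subgroup of the generators of these labels.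
`chart_fix`: for `u ∈ WP K`, `K` a set of generators `om3 j i (0, true)` with `i` in a set `I` of the four labels, the flags `C.ψ (w * u) ξ₀` and `C.ψ w ξ₀` agree at every rank not in `I` (`WP_induction`, `chart_step`, `rho_ne`). -/

namespace H73.TO

open H63.KO Pool.Agent.H80.Cox

variable {L : Type} [PartialOrder L] {P : PolyLat L} {j : ℕ} {M : CoxeterMatrix (Fin 3 × Bool)}

private theorem hwa_aut (C : Chart P.sys (sS j) (om3 j) M (j - 2) (j + 2)) (w : M.Group) (i : ℕ)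
    (z : P.Fl) : C.ψ w (rho i z) = rho i (C.ψ w z) := C.aut w i z

private theorem hwa_edge0 (h1 : 3 ≤ j) (C : Chart P.sys (sS j) (om3 j) M (j - 2) (j + 2))
    (t : Bool) : C.ξ (1, t) = rho j (C.ξ (0, t)) := by
  have hs : sS j j (0, t) = (1, t) := by
    unfold sS
    rw [if_pos rfl]
    rfl
  have := C.edge j (by omega) (by omega) (0, t) (by rw [hs]; simp)
  rw [hs] at this
  exact this

private theorem hwa_edge1 (h1 : 3 ≤ j) (C : Chart P.sys (sS j) (om3 j) M (j - 2) (j + 2))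
    (t : Bool) : C.ξ (2, t) = rho (j + 1) (C.ξ (1, t)) := by
  have hs : sS j (j + 1) (1, t) = (2, t) := by
    unfold sS
    rw [if_neg (by omega), if_pos rfl]
    rfl
  have := C.edge (j + 1) (by omega) (by omega) (1, t) (by rw [hs]; simp)
  rw [hs] at this
  exact this

private theorem hwa_edge2 (h1 : 3 ≤ j) (C : Chart P.sys (sS j) (om3 j) M (j - 2) (j + 2)) :
    C.ξ (2, false) = rho (j - 1) (C.ξ (1, true)) := by
  have hs : sS j (j - 1) (1, true) = (2, false) := by
    unfold sS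
    rw [if_neg (by omega), if_neg (by omega), if_pos (by omega)]
    rfl
  have := C.edge (j - 1) (by omega) (by omega) (1, true) (by rw [hs]; decide)
  rw [hs] at this
  exact this

private theorem hwa_const (h1 : 3 ≤ j) (C : Chart P.sys (sS j) (om3 j) M (j - 2) (j + 2))
    (w : M.Group) {k : ℕ} (hk : k < j - 2 ∨ j + 2 < k) (v : Fin 3 × Bool) :
    (C.ψ w (C.ξ v)).f k = (C.ψ w (C.ξ (0, true))).f k := by
  have a0 : ∀ t, (C.ψ w (C.ξ (1, t))).f k = (C.ψ w (C.ξ (0, t))).f k := by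
    intro t
    rw [hwa_edge0 h1, hwa_aut, rho_ne (by omega)]
  have a1 : ∀ t, (C.ψ w (C.ξ (2, t))).f k = (C.ψ w (C.ξ (1, t))).f k := by
    intro t
    rw [hwa_edge1 h1, hwa_aut, rho_ne (by omega)]
  have a2 : (C.ψ w (C.ξ (2, false))).f k = (C.ψ w (C.ξ (1, true))).f k := by
    rw [hwa_edge2 h1, hwa_aut, rho_ne (by omega)]
  have a3 : (C.ψ w (C.ξ (0, false))).f k = (C.ψ w (C.ξ (0, true))).f k := by
    rw [← a0 false, ← a1 false, a2, a0 true]
  obtain ⟨n, t⟩ := v
  have a4 : (C.ψ w (C.ξ (0, t))).f k = (C.ψ w (C.ξ (0, true))).f k := by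
    cases t
    · exact a3
    · rfl
  fin_cases n
  · exact a4
  · exact (a0 t).trans a4
  · exact (a1 t).trans ((a0 t).trans a4)

private theorem hwa_gen (h1 : 3 ≤ j) (n : Fin 3 × Bool) :
    ∃ i v, j - 2 ≤ i ∧ i ≤ j + 2 ∧ sS j i v = v ∧ om3 j i v = n := by
  obtain ⟨m, t⟩ := n
  fin_cases m
  · refine ⟨j + 1, (0, t), by omega, by omega, ?_, ?_⟩
    · unfold sS
      rw [if_neg (by omega), if_pos rfl]
      rfl
    · unfold om3
      rw [if_neg (by omega), if_pos (Or.inr rfl)]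
      rfl
  · refine ⟨j + 2, (0, t), by omega, by omega, ?_, ?_⟩
    · unfold sS
      rw [if_neg (by omega), if_neg (by omega), if_neg (by omega)]
    · unfold om3
      rw [if_neg (by omega), if_neg (by omega), if_pos rfl]
      rfl
  · refine ⟨j - 2, (0, t), by omega, by omega, ?_, ?_⟩
    · unfold sS
      rw [if_neg (by omega), if_neg (by omega), if_neg (by omega)]
    · unfold om3
      rw [if_neg (by omega), if_neg (by omega), if_neg (by omega)]
      rfl

theorem chart_out (h1 : 3 ≤ j) (h2 : j + 2 ≤ P.d) (C : Chart P.sys (sS j) (om3 j) M (j - 2) (j + 2))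
    (w : M.Group) (v : Fin 3 × Bool) {k : ℕ} (hk : k < j - 2 ∨ j + 2 < k) :
    (C.ψ w (C.ξ v)).f k = (C.ξ (0, true)).f k := by
  rw [hwa_const h1 C w hk v]
  refine M.toCoxeterSystem.simple_induction_right
    (p := fun w => (C.ψ w (C.ξ (0, true))).f k = (C.ξ (0, true)).f k) w ?_ ?_
  · show (C.ψ 1 (C.ξ (0, true))).f k = (C.ξ (0, true)).f k
    rw [map_one]
    rfl
  · intro w n ih
    show (C.ψ (w * M.simple n) (C.ξ (0, true))).f k = (C.ξ (0, true)).f k
    obtain ⟨i, v', hi, hi', hs, ho⟩ := hwa_gen h1 n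
    have h3 := C.semi i hi hi' v' hs
    rw [ho] at h3
    have h4 : C.ψ (M.simple n) (C.ξ v') = rho i (C.ξ v') := h3
    rw [← hwa_const h1 C _ hk v', map_mul, Equiv.Perm.mul_apply, h4, hwa_aut, rho_ne (by omega),
      hwa_const h1 C w hk v']
    exact ih

theorem chart_step (h1 : 3 ≤ j) (h2 : j + 2 ≤ P.d) (C : Chart P.sys (sS j) (om3 j) M (j - 2) (j + 2))
    (w : M.Group) {i : ℕ} (hi : j - 2 ≤ i) (hi' : i ≤ j + 2) (hij : i ≠ j) :
    rho i (C.ψ w (C.ξ (0, true))) = C.ψ (w * M.simple (om3 j i (0, true))) (C.ξ (0, true)) := by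
  have hs : sS j i (0, true) = (0, true) := by
    unfold sS
    rw [if_neg hij]
    by_cases h5 : i = j + 1
    · rw [if_pos h5]
      rfl
    · rw [if_neg h5]
      by_cases h6 : i + 1 = j
      · rw [if_pos h6]
        rfl
      · rw [if_neg h6]
  have h3 : C.ψ (M.simple (om3 j i (0, true))) (C.ξ (0, true)) = rho i (C.ξ (0, true)) :=
    C.semi i hi hi' (0, true) hs
  rw [map_mul, Equiv.Perm.mul_apply, h3, hwa_aut]

theorem chart_link (h1 : 3 ≤ j) (h2 : j + 2 ≤ P.d) (C : Chart P.sys (sS j) (om3 j) M (j - 2) (j + 2))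
    (w : M.Group) {c e : ℕ} (hc : j - 2 ≤ c) (he : e ≤ j + 2) (hj : e < j ∨ j < c) {φ : P.Fl}
    (hφ : H63.KO.Linked c e (C.ψ w (C.ξ (0, true))) φ) :
    ∃ u ∈ WP M.toCoxeterSystem ((Finset.Icc c e).image fun i => om3 j i (0, true)),
      φ = C.ψ (w * u) (C.ξ (0, true)) := by
  induction hφ with
  | refl => exact ⟨1, one_mem _, by rw [mul_one]⟩
  | tail _ hstep ih =>
    obtain ⟨u, hu, rfl⟩ := ih
    obtain ⟨i, hi, hi', rfl⟩ := hstep
    refine ⟨u * M.simple (om3 j i (0, true)), mul_mem hu ?_, ?_⟩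
    · exact simple_mem M.toCoxeterSystem
        (Finset.mem_image.2 ⟨i, Finset.mem_Icc.2 ⟨hi, hi'⟩, rfl⟩)
    · rw [← mul_assoc]
      exact chart_step h1 h2 C (w * u) (by omega) (by omega) (by omega)

theorem chart_fix (h1 : 3 ≤ j) (h2 : j + 2 ≤ P.d) (C : Chart P.sys (sS j) (om3 j) M (j - 2) (j + 2))
    (w : M.Group) {I : Finset ℕ} (hI : ∀ i ∈ I, j - 2 ≤ i ∧ i ≤ j + 2 ∧ i ≠ j) {u : M.Group}
    (hu : u ∈ WP M.toCoxeterSystem (I.image fun i => om3 j i (0, true))) {k : ℕ} (hk : k ∉ I) :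
    (C.ψ (w * u) (C.ξ (0, true))).f k = (C.ψ w (C.ξ (0, true))).f k := by
  refine WP_induction M.toCoxeterSystem
    (P := fun u => (C.ψ (w * u) (C.ξ (0, true))).f k = (C.ψ w (C.ξ (0, true))).f k) ?_ ?_ u hu
  · show (C.ψ (w * 1) (C.ξ (0, true))).f k = _
    rw [mul_one]
  · intro u _ n hn _ ih
    obtain ⟨i, hiI, rfl⟩ := Finset.mem_image.1 hn
    obtain ⟨g1, g2, g3⟩ := hI i hiI
    show (C.ψ (w * (u * M.simple (om3 j i (0, true)))) (C.ξ (0, true))).f k = _
    have hki : k ≠ i := by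
      rintro rfl
      exact hk hiI
    rw [← mul_assoc, ← chart_step h1 h2 C (w * u) g1 g2 g3, rho_ne hki]
    exact ih

end H73.TO
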