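import Pool.Agent.H73.TO.HD

/-! # TO.HZ2 : every element of rank `rk x + 4` is above an even number of elements of `Z₂`

`R = (2, true)`, `R' = (2, false)`, `U' = (0, false)`, `U = (0, true)`, `Q = (1, true)`; `K = {R, U', U, Q}`, `S₂ = {U, Q, R'}`, `M R' Q = 2`. `Z₂ = {A w | w ∈ WP S₂}`. Let `T' < y`, `rk T' = rk x + 4`. Every `A' ∈ Z₂` with `A' < T'` is `A w` with `w ∈ WP S₂` and `T w = T'`: `A' = A w₁`, `T_ex` gives `u ∈ WP {U, Q}` with `T (w₁ * u) = T'`, `w = w₁ * u ∈ WP S₂`
(`WP_mono`), `A (w₁ * u) = A w₁` (`A_fix`). Put `ι A' = A (w * simple R')` (for the chosen `w`). If `w, w' ∈ WP S₂`, `A w = A w'`, `T w = T w' = T'` then `w⁻¹ * w' ∈ WP {R, U', Q} ∩ WP S₂ ⊆ WP {Q}` (`AT_eq`, `inter_mem`, `decide` for the intersection), which commutes with `simple R'` (`comm_single`), so `A (w' * simple R') = A (w * simple R')` (`A_fix`).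
`T (w * simple R') = T w = T'` (`T_fix`), so `ι A' < T'` (`AT`), `ι A' ∈ Z₂`, and `w * simple R'` is a possible choice for `ι A'`, so `ι (ι A') = A'`. `ι A' ≠ A'` because otherwise `simple R' ∈ WP K` (`A_eq`), but `R' ∉ K` (`simple_notMem`). `Finset.sum_involution` in `ZMod 2`. (The same proof as HZ1.) -/

namespace H73.TO

open H63.KO Pool.Agent.H80.Cox

variable {L : Type} [PartialOrder L] [Fintype L] {P : PolyLat L} {M : CoxeterMatrix (Fin 3 × Bool)}
variable {x y : L} {A E T : M.Group → L}

open Classical in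
theorem even_below (h : Wit P M x y A E T) (hM : M (2, false) (1, true) = 2) {T' : L} (hT : T' < y)
    (hr : P.rk T' = P.rk x + 4) :
    ∑ A' with ((∃ w ∈ WP M.toCoxeterSystem {(0, true), (1, true), (2, false)}, A w = A') ∧ A' < T'),
      (1 : ZMod 2) = 0 := by
  have hM' : M (1, true) (2, false) = 2 := by rw [M.symmetric]; exact hM
  have hR : M.toCoxeterSystem.simple (2, false) ∈
      WP M.toCoxeterSystem {(0, true), (1, true), (2, false)} :=
    simple_mem M.toCoxeterSystem (by decide)
  -- every element of the index set has a good representative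
  have key : ∀ A', (∃ w ∈ WP M.toCoxeterSystem {(0, true), (1, true), (2, false)}, A w = A') →
      A' < T' → ∃ w ∈ WP M.toCoxeterSystem {(0, true), (1, true), (2, false)}, A w = A' ∧ T w = T' := by
    rintro A' ⟨w₁, hw₁, rfl⟩ hlt
    obtain ⟨u, hu, hu2⟩ := h.T_ex w₁ T' hlt hT hr
    refine ⟨w₁ * u, mul_mem hw₁ (WP_mono M.toCoxeterSystem (by decide) hu), ?_, hu2⟩
    exact h.A_fix w₁ u (WP_mono M.toCoxeterSystem (by decide) hu)
  -- the new element does not depend on the representative
  have wd : ∀ w ∈ WP M.toCoxeterSystem {(0, true), (1, true), (2, false)},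
      ∀ w' ∈ WP M.toCoxeterSystem {(0, true), (1, true), (2, false)}, A w = A w' → T w = T w' →
      A (w' * M.simple (2, false)) = A (w * M.simple (2, false)) := by
    intro w hw w' hw' hA hTT
    have h1 := h.AT_eq w w' hA hTT
    have h2 : w⁻¹ * w' ∈ WP M.toCoxeterSystem {(0, true), (1, true), (2, false)} :=
      mul_mem (inv_mem hw) hw'
    have h3 : w⁻¹ * w' ∈ WP M.toCoxeterSystem {((1, true) : Fin 3 × Bool)} := by
      have := inter_mem M.toCoxeterSystem h1 h2
      exact WP_mono M.toCoxeterSystem (by decide) this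
    have h4 := comm_single M.toCoxeterSystem hM' h3
    have h5 : w' * M.simple (2, false) = (w * M.simple (2, false)) * (w⁻¹ * w') := by
      have h6 : w' = w * (w⁻¹ * w') := by group
      have h7 : w⁻¹ * w' * M.simple (2, false) = M.simple (2, false) * (w⁻¹ * w') := h4
      calc w' * M.simple (2, false) = w * (w⁻¹ * w' * M.simple (2, false)) := by group
        _ = w * (M.simple (2, false) * (w⁻¹ * w')) := by rw [h7]
        _ = (w * M.simple (2, false)) * (w⁻¹ * w') := by group
    rw [h5]
    exact h.A_fix _ _ (WP_mono M.toCoxeterSystem (by decide) h3)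
  have hsq : ∀ w : M.Group, w * M.simple (2, false) * M.simple (2, false) = w := by
    intro w
    exact M.toCoxeterSystem.simple_mul_simple_cancel_right (2, false)
  -- the choice
  let f : L → M.Group := fun A' =>
    if hh : ∃ w ∈ WP M.toCoxeterSystem {(0, true), (1, true), (2, false)}, A w = A' ∧ T w = T' then
      hh.choose else 1
  have hf : ∀ A', (∃ w ∈ WP M.toCoxeterSystem {(0, true), (1, true), (2, false)}, A w = A') →
      A' < T' → f A' ∈ WP M.toCoxeterSystem {(0, true), (1, true), (2, false)} ∧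
        A (f A') = A' ∧ T (f A') = T' := by
    intro A' h1 h2
    have h3 := key A' h1 h2
    have h4 : f A' = h3.choose := dif_pos h3
    rw [h4]
    exact h3.choose_spec
  have hmem : ∀ A', (∃ w ∈ WP M.toCoxeterSystem {(0, true), (1, true), (2, false)}, A w = A') →
      A' < T' → f A' * M.simple (2, false) ∈
        WP M.toCoxeterSystem {(0, true), (1, true), (2, false)} ∧
        A (f A' * M.simple (2, false)) < T' ∧ T (f A' * M.simple (2, false)) = T' := by
    intro A' h1 h2
    obtain ⟨h3, h4, h5⟩ := hf A' h1 h2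
    have h6 : T (f A' * M.simple (2, false)) = T' := by rw [h.T_fix, h5]
    refine ⟨mul_mem h3 hR, ?_, h6⟩
    have h7 := h.AT (f A' * M.simple (2, false))
    rwa [h6] at h7
  refine Finset.sum_involution (fun A' _ => A (f A' * M.simple (2, false))) ?_ ?_ ?_ ?_
  · intro A' _
    decide
  · intro A' hA' _ heq
    obtain ⟨h1, h2⟩ := (Finset.mem_filter.1 hA').2
    obtain ⟨h3, h4, h5⟩ := hf A' h1 h2
    have h6 : A (f A') = A (f A' * M.simple (2, false)) := by rw [h4]; exact heq.symm
    have h7 := h.A_eq _ _ h6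
    rw [inv_mul_cancel_left] at h7
    exact simple_notMem M.toCoxeterSystem (n := (2, false)) (by decide) h7
  · intro A' hA'
    obtain ⟨h1, h2⟩ := (Finset.mem_filter.1 hA').2
    obtain ⟨h3, h4, h5⟩ := hmem A' h1 h2
    exact Finset.mem_filter.2 ⟨Finset.mem_univ _, ⟨_, h3, rfl⟩, h4⟩
  · intro A' hA'
    obtain ⟨h1, h2⟩ := (Finset.mem_filter.1 hA').2
    obtain ⟨h3, h4, h5⟩ := hf A' h1 h2
    obtain ⟨h6, h7, h8⟩ := hmem A' h1 h2
    obtain ⟨h9, h10, h11⟩ := hf (A (f A' * M.simple (2, false))) ⟨_, h6, rfl⟩ h7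
    have h12 := wd _ h6 _ h9 h10.symm (h8.trans h11.symm)
    show A (f (A (f A' * M.simple (2, false))) * M.simple (2, false)) = A'
    rw [h12, hsq, h4]

end H73.TO
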