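import Pool.Agent.H73.TO.HZ1
import Pool.Agent.H73.TO.HZ2

/-! # TO.HX : the interior type II_j contradicts `H2`

`R = (2, true)`, `R' = (2, false)`, `U = (0, true)`, `U' = (0, false)`, `Q = (1, true)`, `Q' = (1, false)`; `K = {R, U', U, Q}`, `S₁ = {R, U', Q'}`, `S₂ = {U, Q, R'}`. `Z₁ = {A w | w ∈ WP S₁}`, `Z₂ = {A w | w ∈ WP S₂}`. `Z₁ ∩ Z₂ = {A 1}`: if `A w₁ = A w₂` then `w₁⁻¹ * w₂ ∈ WP K` (`A_eq`), so `w₁ ∈ WP K` (`coset_disj`; `S₁`, `S₂` are disjoint), `A w₁ = A (1 * w₁) = A 1` (`A_fix`).
`H2 P` for `x < y` and `c S = 1` if `S ∈ Z₂`, `0` if not: for `T'` with `x < T' ≤ y`, `rk T' = rk x + 4` (so `T' < y`) the sum of `c` over `x < S < T'`, `rk S = rk x + 3` is the sum in `even_below` (elements of `Z₂` are `> x` and of rank `rk x + 3`: `xE`, `EA`, `rkA`), so 0. So there is `b` with `c S = ∑ E', b E'` for all `S` with `x < S ≤ y`, `rk S = rk x + 3`.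
Sum over `S ∈ Z₁`: the left side is `1` (only `S = A 1` contributes); the right side is `∑ E', b E' * #{S ∈ Z₁ | E' < S} = 0` by `even_above` (`Finset.sum_comm'`, `Finset.mul_sum`). Contradiction in `ZMod 2`. -/

namespace H73.TO

open H63.KO Pool.Agent.H80.Cox

theorem wit_false {L : Type} [PartialOrder L] [Fintype L] (P : PolyLat L) (hH : H2 P)
    {M : CoxeterMatrix (Fin 3 × Bool)} (hM : M (2, true) (1, false) = 2)
    (hM' : M (2, false) (1, true) = 2) {x y : L} {A E T : M.Group → L} (h : Wit P M x y A E T) :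
    False := by
  classical
  have key : ∀ w₁ ∈ WP M.toCoxeterSystem {(2, true), (0, false), (1, false)},
      ∀ w₂ ∈ WP M.toCoxeterSystem {(0, true), (1, true), (2, false)}, A w₁ = A w₂ →
      A w₁ = A 1 := by
    intro w₁ h1 w₂ h2 he
    have h3 := h.A_eq _ _ he
    have h4 : w₁ ∈ WP M.toCoxeterSystem {(2, true), (0, false), (0, true), (1, true)} :=
      coset_disj M.toCoxeterSystem (by decide) h1 h2 h3
    have h5 := h.A_fix 1 w₁ h4
    rwa [one_mul] at h5
  obtain ⟨b, hb⟩ := hH x y h.lt (by rw [h.rk]; omega)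
    (fun S => if (∃ w ∈ WP M.toCoxeterSystem {(0, true), (1, true), (2, false)}, A w = S) then 1 else 0)
    (by
      intro T' hxT hTy hr
      have hlt : T' < y := by
        rcases hTy.lt_or_eq with h' | h'
        · exact h'
        · exfalso
          have := h.rk
          rw [← h'] at this
          omega
      have hev := even_below h hM' hlt hr
      rw [← Finset.sum_filter, Finset.filter_filter]
      rw [← hev]
      apply Finset.sum_congr _ (fun _ _ => rfl)
      ext S
      simp only [Finset.mem_filter, Finset.mem_univ, true_and]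
      constructor
      · rintro ⟨⟨_, h2, _⟩, h4⟩
        exact ⟨h4, h2⟩
      · rintro ⟨⟨w, hw, rfl⟩, h2⟩
        exact ⟨⟨(h.xE w).trans (h.EA w), h2, h.rkA w⟩, w, hw, rfl⟩)
  have h1 : ∑ S with (∃ w ∈ WP M.toCoxeterSystem {(2, true), (0, false), (1, false)}, A w = S),
      (if (∃ w ∈ WP M.toCoxeterSystem {(0, true), (1, true), (2, false)}, A w = S) then (1 : ZMod 2)
        else 0) = 1 := by
    rw [Finset.sum_eq_single (A 1)]
    · rw [if_pos ⟨1, one_mem _, rfl⟩]
    · intro S hS hne
      rw [Finset.mem_filter] at hS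
      obtain ⟨_, w₁, hw₁, rfl⟩ := hS
      rw [if_neg]
      rintro ⟨w₂, hw₂, he⟩
      exact hne (key w₁ hw₁ w₂ hw₂ he.symm)
    · intro hn
      exact absurd (Finset.mem_filter.mpr ⟨Finset.mem_univ _, 1, one_mem _, rfl⟩) hn
  have h2 : ∑ S with (∃ w ∈ WP M.toCoxeterSystem {(2, true), (0, false), (1, false)}, A w = S),
      (if (∃ w ∈ WP M.toCoxeterSystem {(0, true), (1, true), (2, false)}, A w = S) then (1 : ZMod 2)
        else 0) = 0 := by
    have e1 : ∀ S ∈ Finset.univ.filter (fun S =>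
        ∃ w ∈ WP M.toCoxeterSystem {(2, true), (0, false), (1, false)}, A w = S),
        (if (∃ w ∈ WP M.toCoxeterSystem {(0, true), (1, true), (2, false)}, A w = S)
          then (1 : ZMod 2) else 0) =
        ∑ E' with (x < E' ∧ E' < S ∧ P.rk E' = P.rk x + 2), b E' := by
      intro S hS
      rw [Finset.mem_filter] at hS
      obtain ⟨_, w, hw, rfl⟩ := hS
      have := hb (A w) ((h.xE w).trans (h.EA w)) ((h.AT w).trans (h.Ty w)).le (h.rkA w)
      convert this using 1
    rw [Finset.sum_congr rfl e1]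
    have e2 : ∑ S with (∃ w ∈ WP M.toCoxeterSystem {(2, true), (0, false), (1, false)}, A w = S),
        ∑ E' with (x < E' ∧ E' < S ∧ P.rk E' = P.rk x + 2), b E' =
        ∑ E' with (x < E' ∧ P.rk E' = P.rk x + 2),
        ∑ S with ((∃ w ∈ WP M.toCoxeterSystem {(2, true), (0, false), (1, false)}, A w = S) ∧ E' < S),
          b E' := by
      apply Finset.sum_comm'
      intro S E'
      simp only [Finset.mem_filter, Finset.mem_univ, true_and]
      tauto
    rw [e2]
    apply Finset.sum_eq_zero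
    intro E' hE'
    rw [Finset.mem_filter] at hE'
    have hev := even_above h hM hE'.2.1 hE'.2.2
    have e3 : ∑ S with ((∃ w ∈ WP M.toCoxeterSystem {(2, true), (0, false), (1, false)}, A w = S) ∧
        E' < S), b E' = b E' * ∑ S with ((∃ w ∈ WP M.toCoxeterSystem
        {(2, true), (0, false), (1, false)}, A w = S) ∧ E' < S), (1 : ZMod 2) := by
      rw [Finset.mul_sum]
      apply Finset.sum_congr rfl
      intro _ _
      rw [mul_one]
    rw [e3]
    have e4 : ∑ S with ((∃ w ∈ WP M.toCoxeterSystem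
        {(2, true), (0, false), (1, false)}, A w = S) ∧ E' < S), (1 : ZMod 2) = 0 := by
      rw [← hev]
    rw [e4, mul_zero]
  rw [h1] at h2
  exact one_ne_zero h2

end H73.TO
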