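import Pool.Agent.H73.TO.HD

/-! # TO.HZ1 : every element of rank `rk x + 2` is below an even number of elements of `Z₁`

`R = (2, true)`, `U' = (0, false)`, `U = (0, true)`, `Q = (1, true)`, `Q' = (1, false)`; `K = {R, U', U, Q}`, `S₁ = {R, U', Q'}`, `M R Q' = 2`. `Z₁ = {A w | w ∈ WP S₁}`. Let `x < E'`, `rk E' = rk x + 2`. Every `A' ∈ Z₁` with `E' < A'` is `A w` with `w ∈ WP S₁` and `E w = E'`: `A' = A w₁`, `E_ex` gives `u ∈ WP {R, U'}` with `E (w₁ * u) = E'`, `w = w₁ * u ∈ WP S₁`
(`WP_mono`), `A (w₁ * u) = A w₁` (`A_fix`). Put `ι A' = A (w * simple Q')` (for the chosen `w`). If `w, w' ∈ WP S₁`, `A w = A w'`, `E w = E w' = E'` then `w⁻¹ * w' ∈ WP {R, U, Q} ∩ WP S₁ ⊆ WP {R}` (`AE_eq`, `inter_mem`, `decide` for the intersection), which commutes with `simple Q'` (`comm_single`), so `A (w' * simple Q') = A (w * simple Q')` (`A_fix`).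
`E (w * simple Q') = E w = E'` (`E_fix`), so `E' < ι A'` (`EA`), `ι A' ∈ Z₁`, and `w * simple Q'` is a possible choice for `ι A'`, so `ι (ι A') = A (w * simple Q' * simple Q') = A'`. `ι A' ≠ A'` because otherwise `simple Q' ∈ WP K` (`A_eq`), but `Q' ∉ K` (`simple_notMem`). `Finset.sum_involution` in `ZMod 2` (`1 + 1 = 0`). -/

namespace H73.TO

open H63.KO Pool.Agent.H80.Cox

variable {L : Type} [PartialOrder L] [Fintype L] {P : PolyLat L} {M : CoxeterMatrix (Fin 3 × Bool)}
variable {x y : L} {A E T : M.Group → L}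

private theorem hz1_mono {B W : Type} [Fintype B] [DecidableEq B] [Group W] {M : CoxeterMatrix B}
    (cs : CoxeterSystem M W) {K K' : Finset B} (h : K ⊆ K') {w : W} (hw : w ∈ WP cs K) :
    w ∈ WP cs K' :=
  Subgroup.closure_mono (Set.image_mono (by exact_mod_cast h)) hw

private theorem hz1_welldef (h : Wit P M x y A E T) (hM : M (2, true) (1, false) = 2)
    {w w' : M.Group}
    (hw : w ∈ WP M.toCoxeterSystem {(2, true), (0, false), (1, false)})
    (hw' : w' ∈ WP M.toCoxeterSystem {(2, true), (0, false), (1, false)})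
    (hA : A w = A w') (hE : E w = E w') :
    A (w' * M.simple (1, false)) = A (w * M.simple (1, false)) := by
  have h1 := h.AE_eq w w' hA hE
  have h2 : w⁻¹ * w' ∈ WP M.toCoxeterSystem {(2, true), (0, false), (1, false)} :=
    mul_mem (inv_mem hw) hw'
  have h3 := inter_mem _ h1 h2
  have h4 : w⁻¹ * w' ∈ WP M.toCoxeterSystem {(2, true)} := by
    refine hz1_mono _ ?_ h3
    decide
  have h5 := comm_single M.toCoxeterSystem hM h4
  have h6 : w' * M.simple (1, false) = w * M.simple (1, false) * (w⁻¹ * w') := by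
    have h7 : M.toCoxeterSystem.simple (1, false) = M.simple (1, false) := rfl
    rw [h7] at h5
    rw [mul_assoc w, ← h5]
    group
  rw [h6]
  refine h.A_fix _ _ (hz1_mono _ ?_ h4)
  decide

open Classical in
theorem even_above (h : Wit P M x y A E T) (hM : M (2, true) (1, false) = 2) {E' : L} (hE : x < E')
    (hr : P.rk E' = P.rk x + 2) :
    ∑ A' with ((∃ w ∈ WP M.toCoxeterSystem {(2, true), (0, false), (1, false)}, A w = A') ∧ E' < A'),
      (1 : ZMod 2) = 0 := by
  have key : ∀ A' : L, ((∃ w ∈ WP M.toCoxeterSystem {(2, true), (0, false), (1, false)}, A w = A') ∧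
      E' < A') → ∃ w ∈ WP M.toCoxeterSystem {(2, true), (0, false), (1, false)},
        A w = A' ∧ E w = E' := by
    rintro A' ⟨⟨w₁, hw₁, rfl⟩, hlt⟩
    obtain ⟨u, hu, hu'⟩ := h.E_ex w₁ E' hE hlt hr
    refine ⟨w₁ * u, mul_mem hw₁ (hz1_mono _ ?_ hu), h.A_fix _ _ (hz1_mono _ ?_ hu), hu'⟩
    · decide
    · decide
  have key' : ∀ A' ∈ Finset.univ.filter (fun A' : L =>
      ((∃ w ∈ WP M.toCoxeterSystem {(2, true), (0, false), (1, false)}, A w = A') ∧ E' < A')),
      ∃ w ∈ WP M.toCoxeterSystem {(2, true), (0, false), (1, false)}, A w = A' ∧ E w = E' :=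
    fun A' hA' => key A' (Finset.mem_filter.1 hA').2
  choose c hc1 hc2 hc3 using key'
  have hsm : M.simple (1, false) ∈
      WP M.toCoxeterSystem {(2, true), (0, false), (1, false)} :=
    simple_mem M.toCoxeterSystem (by decide)
  have hmem : ∀ A' hA', A (c A' hA' * M.simple (1, false)) ∈ Finset.univ.filter (fun A' : L =>
      ((∃ w ∈ WP M.toCoxeterSystem {(2, true), (0, false), (1, false)}, A w = A') ∧ E' < A')) := by
    intro A' hA'
    refine Finset.mem_filter.2 ⟨Finset.mem_univ _, ⟨_, mul_mem (hc1 A' hA') hsm, rfl⟩, ?_⟩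
    have h1 := h.EA (c A' hA' * M.simple (1, false))
    rwa [h.E_fix, hc3 A' hA'] at h1
  refine Finset.sum_involution (fun A' hA' => A (c A' hA' * M.simple (1, false))) ?_ ?_ hmem ?_
  · intro A' hA'
    decide
  · intro A' hA' _ heq
    have h1 : A (c A' hA') = A (c A' hA' * M.simple (1, false)) := by
      rw [heq, hc2 A' hA']
    have h2 := h.A_eq _ _ h1
    rw [inv_mul_cancel_left] at h2
    exact simple_notMem M.toCoxeterSystem (by decide) h2
  · intro A' hA'
    have h1 := hz1_welldef h hM (w := c A' hA' * M.simple (1, false))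
      (w' := c _ (hmem A' hA')) (mul_mem (hc1 A' hA') hsm) (hc1 _ _)
      (by rw [hc2 _ (hmem A' hA')]) (by rw [h.E_fix, hc3, hc3])
    have h2 : A (c _ (hmem A' hA') * M.simple (1, false)) = A' := by
      rw [h1, mul_assoc]
      have h3 : M.simple (1, false) * M.simple (1, false) = 1 :=
        M.toCoxeterSystem.simple_mul_simple_self (1, false)
      rw [h3, mul_one, hc2]
    exact h2

end H73.TO
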