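import Mathlib

/-! # TO.Hpg : potentials mod 2 on a connected graph with all degrees 2

`δ : (E → ZMod 2) →ₗ (S → ZMod 2)`, `δ t s = t (a s) + t (b s)`. Its kernel consists of constant functions (`hconn` for `P e := t e = t e₀`), so it has dimension at most 1 (if `E` is empty then `S` is empty, `a : S → E`, and everything is trivial; if `S` is empty trivial as well).
`card E = card S`: `∑ e, #{s | a s = e ∨ b s = e} = 2 * card S` (each `s` has the two different ends `a s`, `b s`). So the range of `δ` has dimension `≥ card S - 1`. The range is contained in the kernel of the sum functional `k ↦ ∑ s, k s` (each `t e` is counted twice), which has dimension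
`card S - 1` (the functional is onto for `S` nonempty). Equality by dimension (`Submodule.eq_of_le_of_finrank_le`), so `k` with sum zero is in the range. -/

namespace H73.TO

private theorem hpg_card {E S : Type} [Fintype E] [Fintype S] [DecidableEq E] (a b : S → E)
    (hab : ∀ s, a s ≠ b s)
    (hdeg : ∀ e, (Finset.univ.filter (fun s => a s = e ∨ b s = e)).card = 2) :
    Fintype.card E = Fintype.card S := by
  have h := Finset.sum_card_bipartiteAbove_eq_sum_card_bipartiteBelow
    (s := (Finset.univ : Finset E)) (t := (Finset.univ : Finset S))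
    (r := fun e s => a s = e ∨ b s = e)
  have h1 : ∀ e ∈ (Finset.univ : Finset E),
      (Finset.bipartiteAbove (fun e s => a s = e ∨ b s = e) (Finset.univ : Finset S) e).card = 2 := by
    intro e _
    exact hdeg e
  have h2 : ∀ s ∈ (Finset.univ : Finset S),
      (Finset.bipartiteBelow (fun e s => a s = e ∨ b s = e) (Finset.univ : Finset E) s).card = 2 := by
    intro s _
    have : Finset.bipartiteBelow (fun e s => a s = e ∨ b s = e) (Finset.univ : Finset E) s
        = {a s, b s} := by
      ext e
      simp only [Finset.mem_bipartiteBelow, Finset.mem_univ, true_and, Finset.mem_insert,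
        Finset.mem_singleton]
      constructor
      · rintro (h | h)
        · exact Or.inl h.symm
        · exact Or.inr h.symm
      · rintro (h | h)
        · exact Or.inl h.symm
        · exact Or.inr h.symm
    rw [this, Finset.card_pair (hab s)]
  rw [Finset.sum_congr rfl h1, Finset.sum_congr rfl h2, Finset.sum_const, Finset.sum_const,
    Finset.card_univ, Finset.card_univ, smul_eq_mul, smul_eq_mul] at h
  omega

private def hpg_delta {E S : Type} (a b : S → E) :
    (E → ZMod 2) →ₗ[ZMod 2] (S → ZMod 2) where
  toFun t := fun s => t (a s) + t (b s)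
  map_add' t u := by
    funext s
    simp only [Pi.add_apply]
    ring
  map_smul' c t := by
    funext s
    simp only [Pi.smul_apply, smul_eq_mul, RingHom.id_apply]
    ring

private def hpg_sum (S : Type) [Fintype S] : (S → ZMod 2) →ₗ[ZMod 2] ZMod 2 where
  toFun k := ∑ s, k s
  map_add' t u := by
    simp only [Pi.add_apply, Finset.sum_add_distrib]
  map_smul' c t := by
    simp only [Pi.smul_apply, smul_eq_mul, RingHom.id_apply, Finset.mul_sum]

private theorem hpg_ker {E S : Type} [Fintype E] [Fintype S] (a b : S → E)
    (hconn : ∀ P : E → Prop, (∀ s, P (a s) ↔ P (b s)) → ∀ e e', P e → P e') :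
    Module.finrank (ZMod 2) (LinearMap.ker (hpg_delta a b)) ≤ 1 := by
  have hle : LinearMap.ker (hpg_delta a b) ≤ Submodule.span (ZMod 2) {(fun _ => 1 : E → ZMod 2)} := by
    intro t ht
    rw [LinearMap.mem_ker] at ht
    rw [Submodule.mem_span_singleton]
    by_cases hE : Nonempty E
    · obtain ⟨e0⟩ := hE
      refine ⟨t e0, ?_⟩
      funext e
      have hc := hconn (fun e => t e = t e0) (by
        intro s
        have h := congrFun ht s
        have h' : t (a s) + t (b s) = 0 := h
        have h2 : t (a s) = t (b s) := by
          have := CharTwo.add_eq_zero.mp h'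
          exact this
        simp only [h2]) e0 e rfl
      simp only [Pi.smul_apply, smul_eq_mul, mul_one]
      exact hc.symm
    · refine ⟨0, ?_⟩
      funext e
      exact absurd ⟨e⟩ hE
  calc Module.finrank (ZMod 2) (LinearMap.ker (hpg_delta a b))
      ≤ Module.finrank (ZMod 2) (Submodule.span (ZMod 2) {(fun _ => 1 : E → ZMod 2)}) :=
        Submodule.finrank_mono hle
    _ ≤ 1 := by
        have := finrank_span_le_card (R := ZMod 2) ({(fun _ => 1 : E → ZMod 2)} : Set (E → ZMod 2))
        simpa using this

private theorem hpg_range {E S : Type} [Fintype E] [Fintype S] [DecidableEq E] (a b : S → E)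
    (hdeg : ∀ e, (Finset.univ.filter (fun s => a s = e ∨ b s = e)).card = 2)
    (hab : ∀ s, a s ≠ b s) :
    LinearMap.range (hpg_delta a b) ≤ LinearMap.ker (hpg_sum S) := by
  rintro _ ⟨t, rfl⟩
  rw [LinearMap.mem_ker]
  change ∑ s, (t (a s) + t (b s)) = 0
  have h1 : ∀ s : S, t (a s) + t (b s) = ∑ e, if (a s = e ∨ b s = e) then t e else 0 := by
    intro s
    rw [← Finset.sum_filter]
    have : Finset.univ.filter (fun e => a s = e ∨ b s = e) = {a s, b s} := by
      ext e
      simp only [Finset.mem_filter, Finset.mem_univ, true_and, Finset.mem_insert,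
        Finset.mem_singleton]
      constructor
      · rintro (h | h)
        · exact Or.inl h.symm
        · exact Or.inr h.symm
      · rintro (h | h)
        · exact Or.inl h.symm
        · exact Or.inr h.symm
    rw [this, Finset.sum_pair (hab s)]
  rw [Finset.sum_congr rfl (fun s _ => h1 s), Finset.sum_comm]
  apply Finset.sum_eq_zero
  intro e _
  rw [← Finset.sum_filter, Finset.sum_const, hdeg e]
  rw [two_nsmul]
  exact CharTwo.add_self_eq_zero _

theorem cycle_pot {E S : Type} [Fintype E] [Fintype S] [DecidableEq E] (a b : S → E)
    (hab : ∀ s, a s ≠ b s) (hdeg : ∀ e, (Finset.univ.filter (fun s => a s = e ∨ b s = e)).card = 2)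
    (hconn : ∀ P : E → Prop, (∀ s, P (a s) ↔ P (b s)) → ∀ e e', P e → P e') (k : S → ZMod 2)
    (hk : ∑ s, k s = 0) : ∃ t : E → ZMod 2, ∀ s, t (a s) + t (b s) = k s := by
  classical
  have hcard := hpg_card a b hab hdeg
  have hker := hpg_ker a b hconn
  have hran := hpg_range a b hdeg hab
  have hrn := LinearMap.finrank_range_add_finrank_ker (hpg_delta a b)
  rw [Module.finrank_fintype_fun_eq_card] at hrn
  have hmem : k ∈ LinearMap.ker (hpg_sum S) := by
    rw [LinearMap.mem_ker]
    exact hk
  have heq : LinearMap.range (hpg_delta a b) = LinearMap.ker (hpg_sum S) := by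
    apply Submodule.eq_of_le_of_finrank_le hran
    by_cases hS : Nonempty S
    · obtain ⟨s0⟩ := hS
      have hrn2 := LinearMap.finrank_range_add_finrank_ker (hpg_sum S)
      rw [Module.finrank_fintype_fun_eq_card] at hrn2
      have hsurj : LinearMap.range (hpg_sum S) = ⊤ := by
        rw [LinearMap.range_eq_top]
        intro c
        refine ⟨Pi.single s0 c, ?_⟩
        change ∑ s, (Pi.single s0 c : S → ZMod 2) s = c
        rw [Finset.sum_pi_single']
        simp
      rw [hsurj, finrank_top, Module.finrank_self] at hrn2
      omega
    · have : IsEmpty S := not_nonempty_iff.mp hS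
      have h0 : Module.finrank (ZMod 2) (LinearMap.ker (hpg_sum S)) = 0 := by
        have h1 : Module.finrank (ZMod 2) (LinearMap.ker (hpg_sum S))
            ≤ Module.finrank (ZMod 2) (S → ZMod 2) := Submodule.finrank_le _
        rw [Module.finrank_fintype_fun_eq_card, Fintype.card_eq_zero] at h1
        omega
      omega
  rw [← heq] at hmem
  obtain ⟨t, ht⟩ := hmem
  exact ⟨t, fun s => congrFun ht s⟩

end H73.TO
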