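import Pool.Agent.H63.KO.IncConn

/-! # TO.HscA : `inc_conn` with a weaker local hypothesis

The file `H63/KO/IncConn.lean` (copy it, about 190 lines, make the lemmas private again) proves `inc_conn` with local potentials for all `S`. Here the local potential is only given for those `S` all of whose atoms over `x` have ratio `> c₀`, and `c₀ < rat v`. In the private lemma `key` of that file the local
hypothesis is used once, for an `S` for which `hmin` says that all atoms `w ≠ v` below `S` have `rat v < rat w`; so all atoms of `S` have ratio `≥ rat v > c₀` and the weaker hypothesis applies (move the line `obtain ⟨tS, htS⟩ := hloc ..` after `hmin`). Nothing else changes. -/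

namespace H73.TO

open Set H63.KO

variable {V : Type} [AddCommGroup V] [Module ℝ V] {ι : Type} {G : Type} [Group G]
variable {s : ι → V} {x y v w : Set ι}

private theorem edge_atom [FiniteDimensional ℝ V] {E : Set ι} (hE : EdgeIn s x y E v w) :
    AtomOver s v E := by
  obtain ⟨h1, _, h3, h4, h5, _, _, _⟩ := hE
  exact ⟨h1, h5, by rw [h3, h4.2.2]⟩

/-- the second atom of an edge -/
private theorem other [FiniteDimensional ℝ V] [Finite ι] (hx : IsFace s x) {E : Set ι}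
    (hv : AtomOver s x v) (hE : AtomOver s v E) (hEy : E ⊆ y) : ∃ w, EdgeIn s x y E v w := by
  have hr : rkF s E = rkF s x + 2 := by rw [hE.2.2, hv.2.2]
  obtain ⟨w, hw1, hw2, hw3, hw4, _⟩ := diamF hx hE.1 hv.1 hv.2.1 hE.2.1 hr
  have hr1 := rkF_lt hx hw2
  have hr2 := rkF_lt hw1 hw3
  exact ⟨w, hE.1, hEy, hr, hv, hE.2.1, ⟨hw1, hw2, by omega⟩, hw3, fun h => hw4 h.symm⟩

private theorem other_unique [FiniteDimensional ℝ V] [Finite ι] (hx : IsFace s x) {E w' : Set ι}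
    (h : EdgeIn s x y E v w) (h' : EdgeIn s x y E v w') : w = w' := by
  obtain ⟨h1, _, h3, h4, h5, h6, h7, h8⟩ := h
  obtain ⟨_, _, _, _, _, h6', h7', h8'⟩ := h'
  obtain ⟨z, _, _, _, _, hz⟩ := diamF hx h1 h4.1 h4.2.1 h5 h3
  rcases hz w h6.1 h6.2.1 h7 with h | h
  · exact absurd h.symm h8
  · rcases hz w' h6'.1 h6'.2.1 h7' with h' | h'
    · exact absurd h'.symm h8'
    · rw [h, h']

private theorem key [FiniteDimensional ℝ V] [Finite ι] {lx lv : Module.Dual ℝ V} (hx : Defn s x lx)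
    (hlv : Defn s v lv) (l : Module.Dual ℝ V) (hl : ∀ i ∈ x, l (s i) = 0)
    (hinj : ∀ v w, AtomOver s x v → AtomOver s x w → v ≠ w → rat s lx l x v ≠ rat s lx l x w)
    {h : Set ι → Set ι → Set ι → G} {c₀ : ℝ} (hc : c₀ < rat s lx l x v)
    (hloc : ∀ S, IsFace s S → x ⊂ S → S ⊆ y → rkF s S = rkF s x + 3 →
      (∀ w, AtomOver s x w → w ⊆ S → c₀ < rat s lx l x w) → ∃ tS, Pot s x S h tS)
    {t : Set ι → G} (ht : PotUp s lx l x y h t (rat s lx l x v)) (hv : AtomOver s x v)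
    {S E1 E2 w1 : Set ι} (hS : IsFace s S) (hSy : S ⊆ y) (hrS : rkF s S = rkF s v + 2)
    (hE1 : AtomOver s v E1) (hE1S : E1 ⊂ S) (hE2 : AtomOver s v E2) (hE2S : E2 ⊂ S)
    (hr1 : 0 < rat s lv (l - rat s lx l x v • lx) v E1)
    (hr2 : 0 < rat s lv (l - rat s lx l x v • lx) v E2)
    (hw1 : EdgeIn s x y E1 v w1) (hc1 : rat s lx l x v < rat s lx l x w1) :
    ∃ w2, EdgeIn s x y E2 v w2 ∧ rat s lx l x v < rat s lx l x w2 ∧
      t w2 * h E2 w2 v = t w1 * h E1 w1 v := by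
  by_cases h12 : E1 = E2
  · subst h12
    exact ⟨w1, hw1, hc1, rfl⟩
  have hvS : v ⊂ S := hE1.2.1.trans hE1S
  obtain ⟨z, _, _, _, _, hz⟩ := diamF hv.1 hS hE1.1 hE1.2.1 hE1S hrS
  have hz2 : z = E2 := by
    rcases hz E2 hE2.1 hE2.2.1 hE2S with h | h
    · exact absurd h.symm h12
    · exact h.symm
  have hpos : ∀ E, AtomOver s v E → E ⊆ S → 0 < rat s lv (l - rat s lx l x v • lx) v E := by
    intro E hE hES
    have hES' : E ⊂ S := by
      refine lt_of_le_of_ne hES (fun h => ?_)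
      have := hE.2.2
      rw [h, hrS] at this
      omega
    rcases hz E hE.1 hE.2.1 hES' with h | h
    · rw [h]; exact hr1
    · rw [h, hz2]; exact hr2
  have hmin := min_of_pos hx hlv l hl hv hS hvS hpos
  have hxS : x ⊂ S := hv.2.1.trans hvS
  obtain ⟨tS, htS⟩ := hloc S hS hxS hSy (by rw [hrS, hv.2.2]) (fun w0 hw0 hw0S => by
    by_cases h0 : w0 = v
    · rw [h0]; exact hc
    · exact hc.trans (hmin w0 hw0 hw0S h0))
  obtain ⟨w2, hw2⟩ := other (y := y) ⟨lx, hx⟩ hv hE2 (hE2S.1.trans hSy)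
  have e1 : EdgeIn s x S E1 v w1 :=
    ⟨hw1.1, hE1S.1, hw1.2.2.1, hw1.2.2.2.1, hw1.2.2.2.2.1, hw1.2.2.2.2.2.1, hw1.2.2.2.2.2.2.1,
      hw1.2.2.2.2.2.2.2⟩
  have e2 : EdgeIn s x S E2 v w2 :=
    ⟨hw2.1, hE2S.1, hw2.2.2.1, hw2.2.2.2.1, hw2.2.2.2.2.1, hw2.2.2.2.2.2.1, hw2.2.2.2.2.2.2.1,
      hw2.2.2.2.2.2.2.2⟩
  refine ⟨w2, hw2, ?_, ?_⟩
  · exact hmin w2 e2.2.2.2.2.2.1 (e2.2.2.2.2.2.2.1.1.trans hE2S.1) (fun h => e2.2.2.2.2.2.2.2 h.symm)
  · exact two_face hx l hl hinj hS hSy hmin ht htS e2 e1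

theorem inc_conn2 [FiniteDimensional ℝ V] [Finite ι] {lx : Module.Dual ℝ V} (hx : Defn s x lx)
    (hy : IsFace s y) (l : Module.Dual ℝ V) (hl : ∀ i ∈ x, l (s i) = 0)
    (hinj : ∀ v w, AtomOver s x v → AtomOver s x w → v ≠ w → rat s lx l x v ≠ rat s lx l x w)
    {h : Set ι → Set ι → Set ι → G} {c₀ : ℝ} (hc : c₀ < rat s lx l x v)
    (hloc : ∀ S, IsFace s S → x ⊂ S → S ⊆ y → rkF s S = rkF s x + 3 →
      (∀ w, AtomOver s x w → w ⊆ S → c₀ < rat s lx l x w) → ∃ tS, Pot s x S h tS)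
    {t : Set ι → G} (ht : PotUp s lx l x y h t (rat s lx l x v))
    {E w E' w' : Set ι} (hE : EdgeIn s x y E v w) (hE' : EdgeIn s x y E' v w')
    (hw : rat s lx l x v < rat s lx l x w) (hw' : rat s lx l x v < rat s lx l x w') :
    t w * h E w v = t w' * h E' w' v := by
  have hv : AtomOver s x v := hE.2.2.2.1
  have hxf : IsFace s x := ⟨lx, hx⟩
  obtain ⟨lv, hlv⟩ := hv.1
  obtain ⟨m, hm⟩ : ∃ m : Module.Dual ℝ V, m = l - rat s lx l x v • lx := ⟨_, rfl⟩
  have hmv : ∀ i ∈ v, m (s i) = 0 := by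
    intro i hi
    rw [hm, LinearMap.sub_apply, LinearMap.smul_apply, smul_eq_mul,
      rat_spec hx hv l hl i hi, sub_self]
  have lvpos : ∀ i, i ∉ v → 0 < lv (s i) := fun i hi =>
    lt_of_le_of_ne (hlv.1 i) (fun h => hi ((hlv.2 i).2 h.symm))
  -- climbing from an increasing edge
  have hclimb : ∀ E w, EdgeIn s x y E v w → rat s lx l x v < rat s lx l x w →
      ∃ E1 w1, AtomOver s v E1 ∧ E1 ⊆ y ∧ EdgeIn s x y E1 v w1 ∧
        rat s lx l x v < rat s lx l x w1 ∧ t w1 * h E1 w1 v = t w * h E w v ∧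
        0 < rat s lv m v E1 ∧ ∀ i ∈ y, m (s i) ≤ rat s lv m v E1 * lv (s i) := by
    intro E w hE hw
    have hr : 0 < rat s lv m v E := by rw [hm]; exact (inc_iff hx hlv l hl hE).1 hw
    obtain ⟨E1, a1, a2, ⟨w1, a3, a4, a5⟩, a6, a7⟩ := climb hlv hy m hmv
      (fun E1 => ∃ w1, EdgeIn s x y E1 v w1 ∧ rat s lx l x v < rat s lx l x w1 ∧
        t w1 * h E1 w1 v = t w * h E w v)
      (by
        rintro S E1 E2 hS hSy hrS hE1 hE1S hE2 hE2S hlt ⟨w1, b1, b2, b3⟩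
        have hr1 : 0 < rat s lv m v E1 := by rw [hm]; exact (inc_iff hx hlv l hl b1).1 b2
        have hr2 : 0 < rat s lv m v E2 := hr1.trans hlt
        rw [hm] at hr1 hr2
        obtain ⟨w2, c1, c2, c3⟩ := key hx hlv l hl hinj hc hloc ht hv hS hSy hrS hE1 hE1S hE2 hE2S
          hr1 hr2 b1 b2
        exact ⟨w2, c1, c2, c3.trans b3⟩)
      (edge_atom hE) hE.2.1 ⟨w, hE, hw, rfl⟩
    exact ⟨E1, w1, a1, a2, a3, a4, a5, lt_of_lt_of_le hr a6, a7⟩
  obtain ⟨E1, w1, a1, a2, a3, a4, a5, a6, a7⟩ := hclimb E w hE hw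
  obtain ⟨E2, w2, b1, b2, b3, b4, b5, b6, b7⟩ := hclimb E' w' hE' hw'
  obtain ⟨T, hT⟩ : ∃ T, T = rat s lv m v E1 := ⟨_, rfl⟩
  rw [← hT] at a6 a7
  have hspec1 : ∀ i ∈ E1, m (s i) = T * lv (s i) := by
    rw [hT]; exact rat_spec hlv a1 m hmv
  have hspec2 := rat_spec hlv b1 m hmv
  have hTT : rat s lv m v E2 = T := by
    obtain ⟨i, hi, hi'⟩ := (Set.ssubset_iff_of_subset a1.2.1.1).1 a1.2.1
    obtain ⟨j, hj, hj'⟩ := (Set.ssubset_iff_of_subset b1.2.1.1).1 b1.2.1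
    have e1 := b7 i (a2 hi)
    rw [hspec1 i hi] at e1
    have e2 := a7 j (b2 hj)
    rw [hspec2 j hj] at e2
    have f1 := le_of_mul_le_mul_right e1 (lvpos i hi')
    have f2 := le_of_mul_le_mul_right e2 (lvpos j hj')
    exact le_antisymm f2 f1
  rw [hTT] at hspec2
  -- the face of maximal ratio
  obtain ⟨z, hz⟩ : ∃ z : Set ι, z = {i | i ∈ y ∧ m (s i) = T * lv (s i)} := ⟨_, rfl⟩
  have hzf : IsFace s z := by
    have := hy.sub (T • lv - m) (fun i hi => by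
      rw [LinearMap.sub_apply, LinearMap.smul_apply, smul_eq_mul]; linarith [a7 i hi])
    rw [hz]
    convert this using 3
    rw [LinearMap.sub_apply, LinearMap.smul_apply, smul_eq_mul]
    constructor
    · rintro ⟨h1, h2⟩; exact ⟨h1, by linarith⟩
    · rintro ⟨h1, h2⟩; exact ⟨h1, by linarith⟩
  have hzy : z ⊆ y := by rw [hz]; exact fun i hi => hi.1
  have hE1z : E1 ⊆ z := by rw [hz]; exact fun i hi => ⟨a2 hi, hspec1 i hi⟩
  have hE2z : E2 ⊆ z := by rw [hz]; exact fun i hi => ⟨b2 hi, hspec2 i hi⟩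
  have hvz : v ⊂ z := lt_of_lt_of_le a1.2.1 hE1z
  have hrat : ∀ E0, AtomOver s v E0 → E0 ⊆ z → rat s lv m v E0 = T := by
    intro E0 h0 h0z
    obtain ⟨i, hi, hi'⟩ := (Set.ssubset_iff_of_subset h0.2.1.1).1 h0.2.1
    have hiz := h0z hi
    rw [hz] at hiz
    exact rat_eq hlv h0 m hmv hi hi' hiz.2
  -- the value at `E1` is found again at `E2`
  have hfin : ∃ w3, EdgeIn s x y E2 v w3 ∧ rat s lx l x v < rat s lx l x w3 ∧
      t w3 * h E2 w3 v = t w * h E w v := by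
    by_cases hrz : rkF s z = rkF s v + 1
    · have hz1 : E1 = z := by
        by_contra hne
        have := rkF_lt a1.1 (lt_of_le_of_ne hE1z hne)
        rw [a1.2.2, hrz] at this
        omega
      have hz2 : E2 = z := by
        by_contra hne
        have := rkF_lt b1.1 (lt_of_le_of_ne hE2z hne)
        rw [b1.2.2, hrz] at this
        omega
      rw [hz2, ← hz1]
      exact ⟨w1, a3, a4, a5⟩
    · have hrz' := rkF_lt hv.1 hvz
      exact connF hv.1 hzf hvz (by omega)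
        (fun E0 => ∃ w3, EdgeIn s x y E0 v w3 ∧ rat s lx l x v < rat s lx l x w3 ∧
          t w3 * h E0 w3 v = t w * h E w v)
        (by
          rintro S F1 F2 hS hSz hrS hF1 hF1S hF2 hF2S ⟨u1, c1, c2, c3⟩
          have r1 : 0 < rat s lv m v F1 := by rw [hrat F1 hF1 (hF1S.1.trans hSz)]; exact a6
          have r2 : 0 < rat s lv m v F2 := by rw [hrat F2 hF2 (hF2S.1.trans hSz)]; exact a6
          rw [hm] at r1 r2
          obtain ⟨u2, d1, d2, d3⟩ := key hx hlv l hl hinj hc hloc ht hv hS (hSz.trans hzy) hrS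
            hF1 hF1S hF2 hF2S r1 r2 c1 c2
          exact ⟨u2, d1, d2, d3.trans c3⟩)
        a1 hE1z b1 hE2z ⟨w1, a3, a4, a5⟩
  obtain ⟨w3, f1, _, f3⟩ := hfin
  have : w3 = w2 := other_unique hxf f1 b3
  rw [← f3, ← b5, this]

end H73.TO
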