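import Pool.Agent.H73.TO.Psi
import Pool.Agent.H73.TO.FD
import Pool.Agent.H63.KO.FlagConn

/-! # TO.IncA : the points and normals of Wythoff data are well defined

`cs = M.toCoxeterSystem`, `x(w, v) = C.ψ w (C.ξ v)`; every flag is `x(w, v)` for exactly one pair (`Chart.surj`, `C.inj`). Steps (`1 ≤ i ≤ d`; `C.aut`, `C.edge`, `C.semi`): `rho i x(w, v) = x(w, s i v)` if `s i v ≠ v`, `= x(w * simple (ω i v), v)` if `s i v = v`. For `i` outside `[1, d]` `rho i` is the identity (`rho_out`).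
`exists_p`: `g x(w, v) = rho cs w (vv v)` does not change under `rho i`, `i ≥ 2` (`vinv`; `vwal`: `rho (w * simple n) z = rho w (sig M n z) = rho w z` if `fB M n z = 0`). Flags with the same element of rank 1 are linked by labels `j ≠ 1` (`conn_through`, H63/KO/FlagConn.lean; `j = 0` is trivial), so `p a := g x` for a chosen flag `x` with `x.f 1 = a`
is well defined (for elements `a` which are not of this form put `p a = 0`). `exists_f`: the same for `ll`, labels `≤ d - 1`, rank `d`. `reach_one`: if `Reach s 2 d u v` then `x(w, u).f 1 = x(w, v).f 1` (a step `q = s i p` with `q ≠ p` is `rho i`, `i ≥ 2`). `move_one`: induction on `g ∈ WP (I (vv u))` (`WP_induction`): for `n` with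
`fB M n (vv u) = 0`, `vcov` gives `i ≥ 2`, `v'`, `s i v' = v'`, `ω i v' = n`, `Reach s 2 d u v'`; `x(w n, u)`, `x(w n, v') = rho i x(w, v')`, `x(w, v')`, `x(w, u)` have the same element of rank 1. The same for rank `d` (`lcov`, labels `≤ d - 1`). -/

namespace H73.TO

open H63.KO Pool.Agent.H80.Cox Pool.Agent.H44.Cox

variable {L : Type} [PartialOrder L] {P : PolyLat L} {V B : Type} [Fintype B] [DecidableEq B]
variable {s : ℕ → V → V} {ω : ℕ → V → B} {M : CoxeterMatrix B} {vv ll : V → B → ℝ}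

set_option linter.unusedSectionVars false

private theorem inca_edge {a b : ℕ} (C : Chart P.sys s ω M a b) {i : ℕ} (h1 : a ≤ i) (h2 : i ≤ b)
    {v : V} (hv : s i v ≠ v) (w : M.Group) :
    H63.KO.rho i (C.ψ w (C.ξ v)) = C.ψ w (C.ξ (s i v)) := by
  rw [C.edge i h1 h2 v hv]
  exact (C.aut w i (C.ξ v)).symm

private theorem inca_semi {a b : ℕ} (C : Chart P.sys s ω M a b) {i : ℕ} (h1 : a ≤ i) (h2 : i ≤ b)
    {v : V} (hv : s i v = v) (w : M.Group) :
    H63.KO.rho i (C.ψ w (C.ξ v)) = C.ψ (w * M.simple (ω i v)) (C.ξ v) := by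
  rw [map_mul, Equiv.Perm.mul_apply, C.semi i h1 h2 v hv]
  exact (C.aut w i (C.ξ v)).symm

private theorem inca_step (C : Chart P.sys s ω M 1 P.d) {k : ℕ} {g : V → B → ℝ}
    (hinv : ∀ i, 1 ≤ i → i ≤ P.d → i ≠ k → ∀ v, g (s i v) = g v)
    (hwal : ∀ i, 1 ≤ i → i ≤ P.d → i ≠ k → ∀ v, s i v = v → fB M (ω i v) (g v) = 0)
    {i : ℕ} (hik : i ≠ k) (w : M.Group) (v : V) :
    ∃ w' v', H63.KO.rho i (C.ψ w (C.ξ v)) = C.ψ w' (C.ξ v') ∧
      Pool.Agent.H80.Cox.rho M.toCoxeterSystem w' (g v') =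
        Pool.Agent.H80.Cox.rho M.toCoxeterSystem w (g v) := by
  by_cases hi : 1 ≤ i ∧ i ≤ P.d
  · by_cases hv : s i v = v
    · refine ⟨_, _, inca_semi C hi.1 hi.2 hv w, ?_⟩
      rw [rho_mul, ← M.toCoxeterSystem_simple, rho_simple, sig_apply, hwal i hi.1 hi.2 hik v hv]
      simp
    · refine ⟨_, _, inca_edge C hi.1 hi.2 hv w, ?_⟩
      rw [hinv i hi.1 hi.2 hik v]
  · exact ⟨w, v, rho_out hi _, rfl⟩

private theorem inca_exists [Nonempty V] (C : Chart P.sys s ω M 1 P.d) {k : ℕ} (hk : k ≤ P.d + 1)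
    {g : V → B → ℝ} (hinv : ∀ i, 1 ≤ i → i ≤ P.d → i ≠ k → ∀ v, g (s i v) = g v)
    (hwal : ∀ i, 1 ≤ i → i ≤ P.d → i ≠ k → ∀ v, s i v = v → fB M (ω i v) (g v) = 0) :
    ∃ p : L → B → ℝ, ∀ w v, p ((C.ψ w (C.ξ v)).f k) =
      Pool.Agent.H80.Cox.rho M.toCoxeterSystem w (g v) := by
  classical
  have hsurj : ∀ x : P.Fl, ∃ w v, x = C.ψ w (C.ξ v) := fun x => Chart.surj C x
  choose W' V' hWV using hsurj
  obtain ⟨G, hG⟩ : ∃ G : P.Fl → B → ℝ, ∀ w v, G (C.ψ w (C.ξ v)) =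
      Pool.Agent.H80.Cox.rho M.toCoxeterSystem w (g v) := by
    refine ⟨fun x => Pool.Agent.H80.Cox.rho M.toCoxeterSystem (W' x) (g (V' x)), fun w v => ?_⟩
    obtain ⟨h1, h2⟩ := C.inj _ _ _ _ (hWV (C.ψ w (C.ξ v)))
    show Pool.Agent.H80.Cox.rho M.toCoxeterSystem (W' (C.ψ w (C.ξ v)))
      (g (V' (C.ψ w (C.ξ v)))) = _
    rw [← h1, ← h2]
  have hGr : ∀ i, i ≠ k → ∀ x, G (H63.KO.rho i x) = G x := by
    intro i hi x
    obtain ⟨w, v, rfl⟩ : ∃ w v, x = C.ψ w (C.ξ v) := ⟨_, _, hWV x⟩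
    obtain ⟨w', v', h1, h2⟩ := inca_step C hinv hwal hi w v
    rw [h1, hG, hG, h2]
  have hGk : ∀ x y : P.Fl, x.f k = y.f k → G x = G y := by
    intro x y hxy
    have h := conn_through hk hxy
    induction h with
    | refl => rfl
    | tail hab hbc ih =>
      rename_i b c
      obtain ⟨j, hj, rfl⟩ := hbc
      rw [hGr j hj]
      apply ih
      rw [hxy, rho_ne (Ne.symm hj)]
  refine ⟨fun a => if h : ∃ x : P.Fl, x.f k = a then G h.choose else 0, fun w v => ?_⟩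
  have hex : ∃ x : P.Fl, x.f k = (C.ψ w (C.ξ v)).f k := ⟨_, rfl⟩
  show (if h : ∃ x : P.Fl, x.f k = (C.ψ w (C.ξ v)).f k then G h.choose else 0) = _
  rw [dif_pos hex, ← hG w v]
  exact hGk _ _ hex.choose_spec

private theorem inca_reach (C : Chart P.sys s ω M 1 P.d) {k a b : ℕ} (ha : 1 ≤ a) (hb : b ≤ P.d)
    (hk : k < a ∨ b < k) {u v : V} (h : Reach s a b u v) (w : M.Group) :
    (C.ψ w (C.ξ u)).f k = (C.ψ w (C.ξ v)).f k := by
  unfold Reach at h
  induction h with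
  | refl => rfl
  | @tail p q hab hbc ih =>
    obtain ⟨i, hi1, hi2, rfl⟩ := hbc
    rw [ih]
    by_cases hv : s i p = p
    · rw [hv]
    · rw [← inca_edge C (by omega : 1 ≤ i) (by omega : i ≤ P.d) hv w, rho_ne (by omega)]

private theorem inca_move (C : Chart P.sys s ω M 1 P.d) {k a b : ℕ} (ha : 1 ≤ a) (hb : b ≤ P.d)
    (hk : k < a ∨ b < k) {g : V → B → ℝ} (u : V)
    (hcov : ∀ n, fB M n (g u) = 0 → ∃ i v', a ≤ i ∧ i ≤ b ∧ s i v' = v' ∧ ω i v' = n ∧
      Reach s a b u v') {x : M.Group}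
    (hx : x ∈ WP M.toCoxeterSystem (Finset.univ.filter fun t => fB M t (g u) = 0)) (w : M.Group) :
    (C.ψ (w * x) (C.ξ u)).f k = (C.ψ w (C.ξ u)).f k := by
  revert x
  apply WP_induction
  · rw [mul_one]
  · intro x hx n hn hl ih
    rw [Finset.mem_filter] at hn
    obtain ⟨i, v', hi1, hi2, hv', hω, hr⟩ := hcov n hn.2
    rw [← ih, ← mul_assoc, inca_reach C ha hb hk hr, inca_reach C ha hb hk hr (w * x),
      ← hω, M.toCoxeterSystem_simple, ← inca_semi C (by omega : 1 ≤ i) (by omega : i ≤ P.d) hv',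
      rho_ne (by omega)]

theorem exists_p [Nonempty V] (C : Chart P.sys s ω M 1 P.d) (h : Wyt s ω M P.d vv ll) :
    ∃ p : L → B → ℝ, ∀ w v, p ((C.ψ w (C.ξ v)).f 1) = rho M.toCoxeterSystem w (vv v) := by
  exact inca_exists C (by omega) (fun i h1 h2 h3 v => h.vinv i (by omega) h2 v)
    (fun i h1 h2 h3 v hv => h.vwal i (by omega) h2 v hv)

theorem exists_f [Nonempty V] (C : Chart P.sys s ω M 1 P.d) (h : Wyt s ω M P.d vv ll) :
    ∃ f : L → B → ℝ, ∀ w v, f ((C.ψ w (C.ξ v)).f P.d) = rho M.toCoxeterSystem w (ll v) := by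
  exact inca_exists C (by omega) (fun i h1 h2 h3 v => h.linv i h1 (by omega) v)
    (fun i h1 h2 h3 v hv => h.lwal i h1 (by omega) v hv)

theorem reach_one (C : Chart P.sys s ω M 1 P.d) {u v : V} (h : Reach s 2 P.d u v) (w : M.Group) :
    (C.ψ w (C.ξ u)).f 1 = (C.ψ w (C.ξ v)).f 1 := by
  exact inca_reach C (by omega) le_rfl (by omega) h w

theorem reach_top (C : Chart P.sys s ω M 1 P.d) {u v : V} (h : Reach s 1 (P.d - 1) u v)
    (w : M.Group) : (C.ψ w (C.ξ u)).f P.d = (C.ψ w (C.ξ v)).f P.d := by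
  by_cases hd : P.d = 0
  · unfold Reach at h
    induction h with
    | refl => rfl
    | tail hab hbc ih =>
      obtain ⟨i, hi1, hi2, rfl⟩ := hbc
      omega
  · exact inca_reach C le_rfl (by omega) (by omega) h w

theorem move_one (C : Chart P.sys s ω M 1 P.d) (h : Wyt s ω M P.d vv ll) (u : V) {g : M.Group}
    (hg : g ∈ WP M.toCoxeterSystem (Finset.univ.filter fun t => fB M t (vv u) = 0)) (w : M.Group) :
    (C.ψ (w * g) (C.ξ u)).f 1 = (C.ψ w (C.ξ u)).f 1 := by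
  exact inca_move C (by omega) le_rfl (by omega) u (fun n hn => h.vcov u n hn) hg w

theorem move_top (C : Chart P.sys s ω M 1 P.d) (h : Wyt s ω M P.d vv ll) (u : V) {g : M.Group}
    (hg : g ∈ WP M.toCoxeterSystem (Finset.univ.filter fun t => fB M t (ll u) = 0)) (w : M.Group) :
    (C.ψ (w * g) (C.ξ u)).f P.d = (C.ψ w (C.ξ u)).f P.d := by
  by_cases hd : P.d = 0
  · have h0 : ∀ φ : P.Fl, φ.f P.d = P.bot := by
      intro φ
      rw [← φ.zero]
      exact congrArg φ.f hd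
    rw [h0, h0]
  · refine inca_move (a := 1) (b := P.d - 1) C le_rfl (by omega) (by omega) u ?_ hg w
    intro n hn
    obtain ⟨i, v', h1, h2, h3, h4, h5⟩ := h.lcov u n hn
    exact ⟨i, v', h1, by omega, h3, h4, h5⟩

end H73.TO
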