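import Pool.Agent.H73.TO.IncA

/-! # TO.IncC : the incidence theorem for Wythoff data

`p`, `f` from `exists_p`, `exists_f`. Let `rk a = 1`, `rk b = d`: `a = x(w, u).f 1`, `b = x(w', t).f d` (`exists_flag`, `Chart.surj`; `x(w, v) = C.ψ w (C.ξ v)`). `bil (p a) (f b) = bil (rho w (vv u)) (rho w' (ll t)) = bil (vv u) (rho (w⁻¹ * w') (ll t)) ≤ bil (vv u) (ll t) = 1` (`bil_rho_left` of H44/Cox/Roots.lean, `fund_le`, `vdom`, `ldom`, `one`).
If equality holds `fund_eq` gives `w⁻¹ * w' = g * k`, `g ∈ WP (I (vv u))`, `k ∈ WP (I (ll t))`. Put `z = w * g = w' * k⁻¹`: `a = x(z, u).f 1` (`move_one`), `b = x(z, t).f d` (`move_top` for `k⁻¹`). By `con` either `x(z, u).f d = x(z, t).f d = b` (`reach_top`) or `x(z, u).f 1 = x(z, t).f 1`, i.e. `x(z, t).f 1 = a` (`reach_one`, from `u` to `t`);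
in both cases one flag contains `a` and `b`, so `a ≤ b` (`mono`). Conversely let `a ≤ b`; `2 ≤ d`, so `a < b`. Take a flag `φ` with `φ.f d = b` (`exists_flag`) and `exists_through φ` for the ranks `[1, d - 1]` and `a` (`φ.f 0 = bot < a < b = φ.f d`): a flag `χ` with `χ.f 1 = a`, `χ.f d = b`; `χ = x(w, v)` (`Chart.surj`), so
`bil (p a) (f b) = bil (rho w (vv v)) (rho w (ll v)) = bil (vv v) (ll v) = 1` (`bil_rho`). -/

namespace H73.TO

open H63.KO Pool.Agent.H80.Cox Pool.Agent.H44.Cox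

theorem exists_inc {L : Type} [PartialOrder L] (P : PolyLat L) {V B : Type} [Nonempty V] [Fintype B]
    [DecidableEq B] {s : ℕ → V → V} {ω : ℕ → V → B} {M : CoxeterMatrix B} (hd : 2 ≤ P.d)
    (C : Chart P.sys s ω M 1 P.d) (hpd : ∀ z : B → ℝ, z ≠ 0 → 0 < bil M z z) {vv ll : V → B → ℝ}
    (h : Wyt s ω M P.d vv ll) :
    ∃ p f : L → B → ℝ,
      (∀ w v, p ((C.ψ w (C.ξ v)).f 1) = rho M.toCoxeterSystem w (vv v)) ∧
      (∀ w v, f ((C.ψ w (C.ξ v)).f P.d) = rho M.toCoxeterSystem w (ll v)) ∧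
      ∀ a b, P.rk a = 1 → P.rk b = P.d →
        bil M (p a) (f b) ≤ 1 ∧ (bil M (p a) (f b) = 1 ↔ a ≤ b) := by
  classical
  obtain ⟨p, hp⟩ := exists_p C h
  obtain ⟨f, hf⟩ := exists_f C h
  refine ⟨p, f, hp, hf, ?_⟩
  intro a b ha hb
  obtain ⟨φ, hφ⟩ := exists_flag (P := P) a
  obtain ⟨w, u, hwu⟩ : ∃ w v, φ = C.ψ w (C.ξ v) := Chart.surj C φ
  obtain ⟨φ', hφ'⟩ := exists_flag (P := P) b
  obtain ⟨w', t, hwt⟩ : ∃ w v, φ' = C.ψ w (C.ξ v) := Chart.surj C φ'
  rw [ha, hwu] at hφ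
  rw [hb] at hφ'
  have hφb : (C.ψ w' (C.ξ t)).f P.d = b := by rw [← hwt]; exact hφ'
  have hpa : p a = Pool.Agent.H80.Cox.rho M.toCoxeterSystem w (vv u) := by rw [← hφ]; exact hp w u
  have hfb : f b = Pool.Agent.H80.Cox.rho M.toCoxeterSystem w' (ll t) := by
    rw [← hφb]; exact hf w' t
  have hbil : bil M (p a) (f b) =
      bil M (vv u) (Pool.Agent.H80.Cox.rho M.toCoxeterSystem (w⁻¹ * w') (ll t)) := by
    rw [hpa, hfb, bil_rho_left, ← rho_mul]
  refine ⟨?_, ?_, ?_⟩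
  · rw [hbil]
    calc bil M (vv u) (Pool.Agent.H80.Cox.rho M.toCoxeterSystem (w⁻¹ * w') (ll t))
        ≤ bil M (vv u) (ll t) := fund_le M.toCoxeterSystem (h.vdom u) (h.ldom t) (w⁻¹ * w')
      _ = 1 := h.one u t
  · intro heq
    have heq' : bil M (vv u) (Pool.Agent.H80.Cox.rho M.toCoxeterSystem (w⁻¹ * w') (ll t)) =
        bil M (vv u) (ll t) := by rw [← hbil, heq, h.one u t]
    obtain ⟨g, hg, k, hk, hgk⟩ := fund_eq M.toCoxeterSystem hpd (h.vdom u) (h.ldom t) heq'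
    have hw' : w' = w * g * k := by rw [mul_assoc, ← hgk, mul_inv_cancel_left]
    have h1 : (C.ψ (w * g) (C.ξ u)).f 1 = a := by rw [move_one C h u hg w]; exact hφ
    have h2 : (C.ψ (w * g) (C.ξ t)).f P.d = b := by
      rw [← move_top C h t hk (w * g), ← hw']; exact hφb
    rcases h.con with hc | hc
    · rw [← h1, ← h2, ← reach_top C (hc u t) (w * g)]
      exact (C.ψ (w * g) (C.ξ u)).mono (by omega)
    · rw [← h1, ← h2, reach_one C (hc u t) (w * g)]
      exact (C.ψ (w * g) (C.ξ t)).mono (by omega)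
  · intro hab
    have hlt : a < b := by
      refine lt_of_le_of_ne hab (fun he => ?_)
      rw [he, hb] at ha
      omega
    have hbot : P.bot < a := by
      refine lt_of_le_of_ne (P.bot_le a) (fun he => ?_)
      rw [← he, P.rk_bot] at ha
      omega
    have e0 : φ'.f (1 - 1) < a := by
      have : φ'.f 0 = P.bot := φ'.zero
      rw [Nat.sub_self, this]
      exact hbot
    have e1 : a < φ'.f (P.d - 1 + 1) := by
      have : P.d - 1 + 1 = P.d := by omega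
      rw [this, hφ']
      exact hlt
    obtain ⟨χ, hχ1, hχ2⟩ := exists_through φ' (a := 1) (b := P.d - 1) le_rfl (by omega) (by omega)
      e0 e1 ha
    have hχ3 : χ.f P.d = b := by rw [← hχ1 P.d (Or.inr (by omega))]; exact hφ'
    obtain ⟨z, v, hzv⟩ : ∃ w v, χ = C.ψ w (C.ξ v) := Chart.surj C χ
    rw [hzv] at hχ2 hχ3
    rw [← hχ2, ← hχ3, hp z v, hf z v, bil_rho]
    exact h.one v v

end H73.TO
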