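import Pool.Agent.H73.TO.Defs

/-! # TO.PDef : the form of a finite Coxeter group is positive definite

Compare `H63/KO/PosDef.lean`. `W = M.Group` finite, `rho = rho M.toCoxeterSystem`. `ip u v = ∑ g : W, ∑ i, rho g u i * rho g v i` is symmetric, bilinear, `ip (rho h u) (rho h v) = ip u v` (reindex), `ip v v > 0` for `v ≠ 0` (the term `g = 1`). `e n = al n`, `sig n (al n) = - al n`, `sig n v = v` if `fB M n v = 0`.
So such a `v` has `ip v (al n) = 0`; applied to `v - fB M n v • al n`: `ip v (al n) = fB M n v * q n` with `q n = ip (al n) (al n) > 0`. For `v = al m`: `ip (al m) (al n) = fB M n (al m) * q n = fB M m (al n) * q m`, and `fB M n (al m) = fB M m (al n)` (`cc_symm`), so `q m = q n` if `fB M n (al m) ≠ 0`.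
For `x ≠ 0` put `y n = x n / √(q n)`. `ip y y = ∑ m n, y m y n ip (al m) (al n) = ∑ m n, y m y n fB M n (al m) q n = ∑ m n, y m √(q m) y n √(q n) fB M n (al m) = ∑ m n, x m x n fB M n (al m) = bil M x x` (where the term is nonzero, `√(q m) √(q n) = q n`). `y ≠ 0`, so `bil M x x > 0`. -/

namespace H73.TO

open Pool.Agent.H80.Cox Pool.Agent.H44.Cox

variable {B : Type} [Fintype B] [DecidableEq B]

private noncomputable def pip (M : CoxeterMatrix B) [Fintype M.Group] (u : B → ℝ) :
    (B → ℝ) →ₗ[ℝ] ℝ where
  toFun v := ∑ g : M.Group, ∑ i, rho M.toCoxeterSystem g u i * rho M.toCoxeterSystem g v i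
  map_add' v w := by
    rw [← Finset.sum_add_distrib]
    refine Finset.sum_congr rfl fun g _ => ?_
    rw [← Finset.sum_add_distrib]
    refine Finset.sum_congr rfl fun i _ => ?_
    rw [map_add, Pi.add_apply, mul_add]
  map_smul' c v := by
    rw [RingHom.id_apply, smul_eq_mul, Finset.mul_sum]
    refine Finset.sum_congr rfl fun g _ => ?_
    rw [Finset.mul_sum]
    refine Finset.sum_congr rfl fun i _ => ?_
    rw [map_smul, Pi.smul_apply, smul_eq_mul]
    ring

private theorem pip_apply (M : CoxeterMatrix B) [Fintype M.Group] (u v : B → ℝ) :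
    pip M u v = ∑ g : M.Group, ∑ i, rho M.toCoxeterSystem g u i * rho M.toCoxeterSystem g v i := rfl

private theorem pip_comm (M : CoxeterMatrix B) [Fintype M.Group] (u v : B → ℝ) :
    pip M u v = pip M v u := by
  rw [pip_apply, pip_apply]
  exact Finset.sum_congr rfl fun g _ => Finset.sum_congr rfl fun i _ => mul_comm _ _

theorem bil_pos (M : CoxeterMatrix B) [Finite M.Group] {x : B → ℝ} (hx : x ≠ 0) : 0 < bil M x x := by
  classical
  have hft : Fintype M.Group := Fintype.ofFinite _
  have hinv : ∀ (h : M.Group) (u w : B → ℝ), pip M (rho M.toCoxeterSystem h u)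
      (rho M.toCoxeterSystem h w) = pip M u w := by
    intro h u w
    rw [pip_apply, pip_apply]
    refine Fintype.sum_equiv (Equiv.mulRight h) _ _ (fun g => ?_)
    rw [Equiv.coe_mulRight]
    refine Finset.sum_congr rfl fun i _ => ?_
    rw [rho_mul, rho_mul]
  have hpos : ∀ u : B → ℝ, u ≠ 0 → 0 < pip M u u := by
    intro u hu
    rw [pip_apply]
    have h1 : ∀ g ∈ (Finset.univ : Finset M.Group), 0 ≤ ∑ i, rho M.toCoxeterSystem g u i *
        rho M.toCoxeterSystem g u i := fun g _ => Finset.sum_nonneg fun i _ => mul_self_nonneg _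
    refine Finset.sum_pos' h1 ⟨1, Finset.mem_univ _, ?_⟩
    obtain ⟨i, hi⟩ := Function.ne_iff.1 hu
    refine Finset.sum_pos' (fun i _ => mul_self_nonneg _) ⟨i, Finset.mem_univ i, ?_⟩
    rw [rho_one]
    exact mul_self_pos.2 hi
  have h1 : ∀ n (u : B → ℝ), pip M (al n) u = fB M n u * pip M (al n) (al n) := by
    intro n u
    have h2 := hinv (M.toCoxeterSystem.simple n) (al n) u
    rw [rho_simple, sig_al_self, sig_apply] at h2
    have h3 : pip M (-al n) = - pip M (al n) := by
      ext w
      simp [pip_apply]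
    rw [h3, LinearMap.neg_apply, map_sub, map_smul, smul_eq_mul] at h2
    linarith
  set q : B → ℝ := fun n => pip M (al n) (al n) with hq
  have hal : ∀ n : B, (al n : B → ℝ) ≠ 0 := by
    intro n h
    have := congrFun h n
    rw [al_self] at this
    simp at this
  have hqpos : ∀ n, 0 < q n := fun n => hpos _ (hal n)
  have hqq : ∀ m n, cc M m n ≠ 0 → q m = q n := by
    intro m n hmn
    have h2 := h1 n (al m)
    have h3 := h1 m (al n)
    rw [fB_al] at h2 h3
    rw [pip_comm, h3, cc_symm M n m] at h2
    have h4 : cc M m n * q m = cc M m n * q n := by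
      have : -cc M m n * pip M (al m) (al m) = -cc M m n * pip M (al n) (al n) := h2
      show cc M m n * pip M (al m) (al m) = cc M m n * pip M (al n) (al n)
      linarith
    exact mul_left_cancel₀ hmn h4
  set r : B → ℝ := fun n => Real.sqrt (q n) with hr
  have hrpos : ∀ n, 0 < r n := fun n => Real.sqrt_pos.2 (hqpos n)
  have hrr : ∀ n, r n * r n = q n := fun n => Real.mul_self_sqrt (hqpos n).le
  set y : B → ℝ := fun n => x n / r n with hy
  have hyr : ∀ n, y n * r n = x n := fun n => div_mul_cancel₀ _ (hrpos n).ne'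
  have hy0 : y ≠ 0 := by
    intro h
    apply hx
    ext n
    rw [← hyr n, h]
    simp
  have hlin : ∀ u : B → ℝ, pip M u y = ∑ m, y m * pip M u (al m) := by
    intro u
    conv_lhs => rw [eq_sum_al y]
    rw [map_sum]
    refine Finset.sum_congr rfl fun m _ => ?_
    rw [map_smul, smul_eq_mul]
  have hyy : pip M y y = bil M x x := by
    rw [hlin]
    unfold bil
    refine Finset.sum_congr rfl fun m _ => ?_
    rw [pip_comm, h1, fB_apply, fB_apply, Finset.sum_mul, Finset.mul_sum, Finset.mul_sum]
    refine Finset.sum_congr rfl fun i _ => ?_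
    by_cases hc : cc M i m = 0
    · rw [hc]; ring
    · have h5 : q i = q m := hqq i m hc
      have h6 : r i = r m := by rw [hr]; show Real.sqrt (q i) = Real.sqrt (q m); rw [h5]
      have h7 : pip M (al m) (al m) = r m * r i := by rw [h6, hrr]
      rw [h7, ← hyr m, ← hyr i]
      ring
  rw [← hyy]
  exact hpos y hy0

end H73.TO
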