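import Pool.Agent.H73.TO.TypB

/-! # TO.Rev : reversal of the labels

`revS S` has `ρ' i = ρ (d + 1 - i)`; `Typ.rev`, `Chart.rev`, `Wyt.rev` are the corresponding objects. The definitions are complete; the theorems are
easy. `isAut_rev`: the label `i ≤ d + 1` of `S` is the label `d + 1 - i` of `revS S`, other labels act trivially (`S.out`). `sI_rev`, `sII_rev`: `omega` cases on the labels, `decide` on the states. -/

namespace H73.TO

open H63.KO Pool.Agent.H80.Cox Pool.Agent.H44.Cox

section
variable {X : Type}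

/-- the reversed flag system -/
def revS (S : FSys X) : FSys X where
  d := S.d
  ρ := fun i x => S.ρ (S.d + 1 - i) x
  inv := fun i x => S.inv _ x
  out := fun i h x => S.out _ (by omega) x
  fpf := fun i h1 h2 x => S.fpf _ (by omega) (by omega) x
  comm := by
    intro i j hij x
    by_cases hj : j ≤ S.d + 1
    · exact (S.comm (S.d + 1 - j) (S.d + 1 - i) (by omega) x).symm
    · have h0 : S.d + 1 - j = 0 := by omega
      show S.ρ (S.d + 1 - i) (S.ρ (S.d + 1 - j) x) = S.ρ (S.d + 1 - j) (S.ρ (S.d + 1 - i) x)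
      rw [h0, S.out 0 (by omega), S.out 0 (by omega)]
  p3 := by
    intro i h1 h2 x h
    have e1 : S.d + 1 - i = (S.d - i) + 1 := by omega
    have e2 : S.d + 1 - (i + 1) = S.d - i := by omega
    change S.ρ (S.d + 1 - i) (S.ρ (S.d + 1 - (i + 1)) (S.ρ (S.d + 1 - i)
      (S.ρ (S.d + 1 - (i + 1)) x))) = x at h
    rw [e1, e2] at h
    apply S.p3 (S.d - i) (by omega) (by omega) x
    conv_lhs => rw [← h]
    rw [S.inv, S.inv, S.inv, S.inv]
  conn := by
    intro x y
    have key : ∀ p q : X, (∃ i, 1 ≤ i ∧ i ≤ S.d ∧ q = S.ρ i p) →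
        (∃ i, 1 ≤ i ∧ i ≤ S.d ∧ q = S.ρ (S.d + 1 - i) p) := by
      rintro p q ⟨i, h1, h2, h3⟩
      refine ⟨S.d + 1 - i, by omega, by omega, ?_⟩
      have : S.d + 1 - (S.d + 1 - i) = i := by omega
      rw [this]; exact h3
    have h := S.conn x y
    induction h with
    | refl => exact Relation.ReflTransGen.refl
    | tail _ h2 ih => exact ih.tail (key _ _ h2)
  univ := by
    intro G _ a b R g ha hab hb hR hcomm hloc
    have back : ∀ i, i ≤ S.d + 1 → S.d + 1 - (S.d + 1 - i) = i := fun i hi => by omega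
    obtain ⟨F, hF⟩ := S.univ G (S.d + 1 - b) (S.d + 1 - a) R (fun i x => g (S.d + 1 - i) x)
      (by omega) (by omega) (by omega)
      (by
        intro i h1 h2 x hx
        have := hR (S.d + 1 - i) (by omega) (by omega) x hx
        rwa [back i (by omega)] at this)
      (by
        intro i j h1 h2 h3 x hx
        have := hcomm (S.d + 1 - j) (S.d + 1 - i) (by omega) (by omega) (by omega) x hx
        rw [back i (by omega), back j (by omega)] at this
        exact this.symm)
      (by
        intro i h1 h2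
        obtain ⟨u, hu⟩ := hloc (S.d - i) (by omega) (by omega)
        refine ⟨u, fun x hx => ?_⟩
        obtain ⟨h3, h4⟩ := hu x hx
        have e1 : S.d + 1 - (S.d - i) = i + 1 := by omega
        have e2 : S.d + 1 - (S.d - i + 1) = i := by omega
        have e3 : S.d + 1 - (i + 1) = S.d - i := by omega
        have e4 : S.d + 1 - i = S.d - i + 1 := by omega
        rw [e1] at h3
        rw [e2] at h4
        refine ⟨?_, ?_⟩
        · show u (S.ρ i x) = u x * g (S.d + 1 - i) x
          rw [e4]; exact h4
        · show u (S.ρ (i + 1) x) = u x * g (S.d + 1 - (i + 1)) x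
          rw [e3]; exact h3)
    refine ⟨F, fun i h1 h2 x hx => ?_⟩
    have := hF (S.d + 1 - i) (by omega) (by omega) x hx
    rw [back i (by omega)] at this
    exact this

end

variable {X V B : Type} {S : FSys X}

theorem isAut_rev {θ : Equiv.Perm X} : IsAut (revS S) θ ↔ IsAut S θ := by
  constructor
  · intro h i x
    by_cases hi : i ≤ S.d + 1
    · have h1 : θ (S.ρ (S.d + 1 - (S.d + 1 - i)) x) = S.ρ (S.d + 1 - (S.d + 1 - i)) (θ x) :=
        h (S.d + 1 - i) x
      have e : S.d + 1 - (S.d + 1 - i) = i := by omega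
      rw [e] at h1
      exact h1
    · rw [S.out i (by omega), S.out i (by omega)]
  · intro h i x
    exact h (S.d + 1 - i) x

/-- the reversed type map -/
def Typ.rev (T : Typ S V) : Typ (revS S) V where
  π := T.π
  s := fun i v => T.s (S.d + 1 - i) v
  surj := T.surj
  hs := fun i x => T.hs _ x
  fib := by
    intro x y h
    obtain ⟨θ, h1, h2, h3⟩ := T.fib x y h
    exact ⟨θ, isAut_rev.2 h1, h2, h3⟩

theorem Typ.rev_full {T : Typ S V} (h : T.Full) : T.rev.Full := by
  intro θ hθ z
  exact h θ (isAut_rev.1 hθ) z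

/-- a chart of the reversed system is a chart -/
def Chart.rev {s : ℕ → V → V} {ω : ℕ → V → B} {M : CoxeterMatrix B} (C : Chart (revS S) s ω M 1 S.d) :
    Chart S (fun i => s (S.d + 1 - i)) (fun i => ω (S.d + 1 - i)) M 1 S.d where
  ξ := C.ξ
  ψ := C.ψ
  aut := fun w => isAut_rev.1 (C.aut w)
  edge := by
    intro i h1 h2 v hv
    have h := C.edge (S.d + 1 - i) (by omega) (by omega) v hv
    have e : S.d + 1 - (S.d + 1 - i) = i := by omega
    change C.ξ (s (S.d + 1 - i) v) = S.ρ (S.d + 1 - (S.d + 1 - i)) (C.ξ v) at h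
    rw [e] at h
    exact h
  semi := by
    intro i h1 h2 v hv
    have h := C.semi (S.d + 1 - i) (by omega) (by omega) v hv
    have e : S.d + 1 - (S.d + 1 - i) = i := by omega
    change C.ψ (M.simple (ω (S.d + 1 - i) v)) (C.ξ v) = S.ρ (S.d + 1 - (S.d + 1 - i)) (C.ξ v) at h
    rw [e] at h
    exact h
  inj := C.inj

private theorem reach_rev {s : ℕ → V → V} {d a b a' b' : ℕ} (ha : a' + b = d + 1)
    (hb : b' + a = d + 1) {u v : V} (h : Reach s a b u v) :
    Reach (fun i => s (d + 1 - i)) a' b' u v := by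
  induction h with
  | refl => exact Relation.ReflTransGen.refl
  | tail _ hbc ih =>
    obtain ⟨i, hi1, hi2, rfl⟩ := hbc
    refine Relation.ReflTransGen.tail ih ⟨d + 1 - i, by omega, by omega, ?_⟩
    have e : d + 1 - (d + 1 - i) = i := by omega
    show _ = s (d + 1 - (d + 1 - i)) _
    rw [e]

theorem Wyt.rev [Fintype B] [DecidableEq B] {s : ℕ → V → V} {ω : ℕ → V → B} {M : CoxeterMatrix B}
    {d : ℕ} {vv ll : V → B → ℝ} (h : Wyt s ω M d vv ll) :
    Wyt (fun i => s (d + 1 - i)) (fun i => ω (d + 1 - i)) M d ll vv where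
  vinv := fun i h1 h2 v => h.linv (d + 1 - i) (by omega) (by omega) v
  linv := fun i h1 h2 v => h.vinv (d + 1 - i) (by omega) (by omega) v
  vdom := h.ldom
  ldom := h.vdom
  vwal := fun i h1 h2 v hv => h.lwal (d + 1 - i) (by omega) (by omega) v hv
  lwal := fun i h1 h2 v hv => h.vwal (d + 1 - i) (by omega) (by omega) v hv
  vcov := by
    intro v n hn
    obtain ⟨i, v', h1, h2, h3, h4, h5⟩ := h.lcov v n hn
    have e : d + 1 - (d + 1 - i) = i := by omega
    refine ⟨d + 1 - i, v', by omega, by omega, ?_, ?_, reach_rev (by omega) (by omega) h5⟩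
    · show s (d + 1 - (d + 1 - i)) v' = v'
      rw [e]; exact h3
    · show ω (d + 1 - (d + 1 - i)) v' = n
      rw [e]; exact h4
  lcov := by
    intro v n hn
    obtain ⟨i, v', h1, h2, h3, h4, h5⟩ := h.vcov v n hn
    have e : d + 1 - (d + 1 - i) = i := by omega
    refine ⟨d + 1 - i, v', by omega, by omega, ?_, ?_, reach_rev (by omega) (by omega) h5⟩
    · show s (d + 1 - (d + 1 - i)) v' = v'
      rw [e]; exact h3
    · show ω (d + 1 - (d + 1 - i)) v' = n
      rw [e]; exact h4
  one := fun u t => by rw [bil_symm]; exact h.one t u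
  con := by
    rcases h.con with hc | hc
    · right
      intro u t
      by_cases hd : 1 ≤ d
      · exact reach_rev (by omega) (by omega) (hc u t)
      · have h0 := hc u t
        have hd0 : d = 0 := by omega
        subst hd0
        induction h0 with
        | refl => exact Relation.ReflTransGen.refl
        | tail _ hbc ih =>
          obtain ⟨i, hi1, hi2, _⟩ := hbc
          omega
    · left
      intro u t
      by_cases hd : 1 ≤ d
      · exact reach_rev (by omega) (by omega) (hc u t)
      · have h0 := hc u t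
        have hd0 : d = 0 := by omega
        subst hd0
        induction h0 with
        | refl => exact Relation.ReflTransGen.refl
        | tail _ hbc ih =>
          obtain ⟨i, hi1, hi2, _⟩ := hbc
          omega

/-- the type I_j becomes the type I_(d-j) after exchange of the states 0 and 2 -/
theorem sI_rev {d j i : ℕ} (hj : 1 ≤ j) (hj' : j + 1 ≤ d) (hi : i ≤ d + 1) (v : Fin 3) :
    sI j (d + 1 - i) v = Equiv.swap 0 2 (sI (d - j) i (Equiv.swap 0 2 v)) := by
  by_cases h1 : i = d - j
  · have e1 : ¬ (d + 1 - i = j) := by omega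
    have e2 : d + 1 - i = j + 1 := by omega
    unfold sI
    rw [if_neg e1, if_pos e2, if_pos h1]
    revert v
    decide
  · by_cases h2 : i = d - j + 1
    · have e1 : d + 1 - i = j := by omega
      unfold sI
      rw [if_pos e1, if_neg h1, if_pos h2]
      revert v
      decide
    · have e1 : ¬ (d + 1 - i = j) := by omega
      have e2 : ¬ (d + 1 - i = j + 1) := by omega
      unfold sI
      rw [if_neg e1, if_neg e2, if_neg h1, if_neg h2]
      revert v
      decide

theorem sII_rev {d j i : ℕ} (hj : 2 ≤ j) (hj' : j + 1 ≤ d) (hi : i ≤ d + 1) (v : Fin 3) :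
    sII j (d + 1 - i) v = sII (d + 1 - j) i v := by
  unfold sII
  by_cases h1 : i = d + 1 - j
  · rw [if_pos (show d + 1 - i = j by omega), if_pos h1]
  · rw [if_neg (show ¬ (d + 1 - i = j) by omega), if_neg h1]
    by_cases h2 : i = d + 1 - j + 1 ∨ i + 1 = d + 1 - j
    · rw [if_pos (show d + 1 - i = j + 1 ∨ d + 1 - i + 1 = j by omega), if_pos h2]
    · rw [if_neg (show ¬ (d + 1 - i = j + 1 ∨ d + 1 - i + 1 = j) by omega), if_neg h2]

/-- renaming of the states -/
def Typ.ren {V' : Type} (T : Typ S V) (e : V ≃ V') : Typ S V' where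
  π := fun x => e (T.π x)
  s := fun i v => e (T.s i (e.symm v))
  surj := e.surjective.comp T.surj
  hs := fun i x => by rw [T.hs, e.symm_apply_apply]
  fib := by
    intro x y h
    obtain ⟨θ, h1, h2, h3⟩ := T.fib x y (e.injective h)
    exact ⟨θ, h1, fun z => by rw [h2], h3⟩

theorem Typ.ren_full {V' : Type} {T : Typ S V} (e : V ≃ V') (h : T.Full) : (T.ren e).Full := by
  intro θ hθ z
  exact congrArg e (h θ hθ z)

end H73.TO
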