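import Pool.Agent.H73.TO.Pot

/-! # TO.Six : the six states of type II

`T` with three states and `T.s i v = sII j i v`. `pot` for `T`, `G = Multiplicative (ZMod 2)` (or any group of order 2, `t` the nontrivial element), labels `[1, d]`, `w i v = t` if `i + 1 = j` and `v ≠ 0`, `w i v = 1` otherwise.
`hinv`: `s (j-1)` exchanges 1, 2 and fixes 0, `t * t = 1`. `hcomm` for `i, k` far apart: only `i = j - 1` or `k = j - 1` matters; the other label then is `j + 1` (exchanges 1, 2, `w` is the same at both: `t = t`) or fixes all states. `hrel`: for `i, i + 1` both different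
from `j - 1` trivial; `i = j - 1`: states `0 -j- 1 -(j-1)- 2`: the step `u ↦ s i (s (i+1) u)` goes `0 ↦ 1 ↦ ...`; in one round (3 steps) the edge `1 - 2` is used twice, at every start; the period is a multiple of 3 (`three_dvd_per` at the state 2: label `j - 1` moves it, label `j` fixes it);
`i + 1 = j - 1` (`i = j - 2`): the states 1, 2 are exchanged by label `i + 1`, `i` fixes; two steps use the edge twice, the period is even (`two_dvd_per'`); at the state 0 no `t`. `T0.π x = (T.π x, F x = 1)` up to the choice of a bijection `G ≃ Bool`.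
`T0.s = sS j`: check the three labels. `surj`: from a flag `x` of state 1: `ρ (j-1)` then `ρ (j+1)` leads to the state 1 with the other value; and the labels `j, j+1` keep the value and connect 0, 1, 2. `fib`: `T.fib` gives `θ` with `T.π ∘ θ = T.π`, `θ x = y`; `F ∘ θ` satisfies the same recursion as `F`, so
`F (θ z) = g * F z` for a fixed `g` (`S.conn`), and `g = 1` because `F x = F y`. `T0.per i v`: both are the period of a flag with that state (`per_pi`). (`d ≥ 3` because `2 ≤ j`, `j + 1 ≤ d`, so `pot` applies.) -/

namespace H73.TO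

open H63.KO

variable {X : Type} {S : FSys X}

/-- the label of the six states -/
private def wS (j i : ℕ) (v : Fin 3) : ℤˣ := if i + 1 = j ∧ v ≠ 0 then -1 else 1

private theorem wS_eq {j i : ℕ} (h : i + 1 = j) (v : Fin 3) : wS j i v = if v ≠ 0 then -1 else 1 := by
  unfold wS
  simp [h]

private theorem wS_one {j i : ℕ} (h : i + 1 ≠ j) (v : Fin 3) : wS j i v = 1 := by
  unfold wS
  simp [h]

private theorem sII_j (j : ℕ) (v : Fin 3) : sII j j v = Equiv.swap 0 1 v := by
  unfold sII
  simp

private theorem sII_succ (j : ℕ) (v : Fin 3) : sII j (j + 1) v = Equiv.swap 1 2 v := by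
  unfold sII
  simp

private theorem sII_pred {j i : ℕ} (h : i + 1 = j) (v : Fin 3) : sII j i v = Equiv.swap 1 2 v := by
  unfold sII
  rw [if_neg (by omega), if_pos (Or.inr h)]

private theorem sII_far {j i : ℕ} (h1 : i ≠ j) (h2 : i ≠ j + 1) (h3 : i + 1 ≠ j) (v : Fin 3) :
    sII j i v = v := by
  unfold sII
  rw [if_neg h1, if_neg (by omega)]

private theorem wS_swap {j i : ℕ} (v : Fin 3) : wS j i (Equiv.swap 1 2 v) = wS j i v := by
  by_cases h : i + 1 = j
  · rw [wS_eq h, wS_eq h]
    revert v
    decide
  · rw [wS_one h, wS_one h]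

private theorem sq_one (u : ℤˣ) : u * u = 1 := by
  rcases Int.units_eq_one_or u with h | h <;> rw [h] <;> decide

private theorem iter_fix {α : Type} (f : α → α) (x : α) (k n : ℕ) (h : f^[k] x = x) (hk : k ∣ n) :
    f^[n] x = x := by
  obtain ⟨m, rfl⟩ := hk
  rw [Function.iterate_mul]
  exact Function.iterate_fixed h m

private theorem dec_eq {a b : ℤˣ} (h : decide (a = 1) = decide (b = 1)) : a = b := by
  rcases Int.units_eq_one_or a with h1 | h1 <;> rcases Int.units_eq_one_or b with h2 | h2 <;>
    subst h1 <;> subst h2 <;> revert h <;> decide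

private theorem dec_mul (a : ℤˣ) (v : Fin 3) : decide (a * (if v ≠ 0 then -1 else 1) = 1) =
    if v = 0 then decide (a = 1) else !decide (a = 1) := by
  rcases Int.units_eq_one_or a with h1 | h1 <;> subst h1 <;> revert v <;> decide

private theorem pot_six [Finite X] (T : Typ S (Fin 3)) {j : ℕ} (h1 : 2 ≤ j) (h2 : j + 1 ≤ S.d)
    (hs : ∀ i v, T.s i v = sII j i v) :
    ∃ F : X → ℤˣ, ∀ i, 1 ≤ i → i ≤ S.d → ∀ x, F (S.ρ i x) = F x * wS j i (T.π x) := by
  apply pot T (wS j) le_rfl (by omega) le_rfl
  · intro i _ _ v
    by_cases hi : i + 1 = j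
    · rw [hs, sII_pred hi, wS_swap, sq_one]
    · rw [wS_one hi, wS_one hi, mul_one]
  · intro i k _ hik _ v
    by_cases hi : i + 1 = j
    · rw [wS_one (i := k) (by omega), wS_one (i := k) (by omega), mul_one, one_mul, hs]
      by_cases hk : k = j + 1
      · rw [hk, sII_succ, wS_swap]
      · rw [sII_far (by omega) hk (by omega)]
    · rw [wS_one hi, wS_one hi, mul_one, one_mul, hs]
      by_cases hk : k + 1 = j
      · rw [sII_far (by omega) (by omega) (by omega)]
      · rw [wS_one hk, wS_one hk]
  · intro i _ hi2 v
    by_cases hi : i + 1 = j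
    · subst hi
      have hp : ∀ v : Fin 3, T.s i v = Equiv.swap 1 2 v := fun v => by rw [hs, sII_pred rfl]
      have hq : ∀ v : Fin 3, T.s (i + 1) v = Equiv.swap 0 1 v := fun v => by rw [hs, sII_j]
      have h3 : 3 ∣ T.per i 2 := by
        apply T.three_dvd_per
        · rw [hp]; decide
        · rw [hq]; decide
        · rw [hp, hq]; decide
        · rw [hp, hq, hp]; decide
      have h4 : T.per i 1 = T.per i 2 := by
        have := T.per_self i 2
        rw [hp] at this
        exact this
      have h5 : T.per i 0 = T.per i 1 := by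
        have := T.per_succ i 1
        rw [hq] at this
        exact this
      have h6 : 3 ∣ T.per i v := by
        have h7 : v = 0 ∨ v = 1 ∨ v = 2 := by
          revert v
          decide
        rcases h7 with h7 | h7 | h7 <;> subst h7
        · rw [h5, h4]; exact h3
        · rw [h4]; exact h3
        · exact h3
      have hstep : ∀ v : Fin 3, (fun p : Fin 3 × ℤˣ => (T.s i (T.s (i + 1) p.1),
          p.2 * wS (i + 1) (i + 1) p.1 * wS (i + 1) i (T.s (i + 1) p.1)))^[3] (v, 1) = (v, 1) := by
        intro v
        simp only [Function.iterate_succ, Function.iterate_zero, Function.comp, id, hp, hq,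
          wS_eq (j := i + 1) (i := i) rfl, wS_one (j := i + 1) (i := i + 1) (by omega), mul_one,
          one_mul]
        clear h6
        revert v
        decide
      rw [iter_fix _ _ 3 _ (hstep v) h6]
    · by_cases hj : i + 1 + 1 = j
      · have hp : ∀ v : Fin 3, T.s i v = v := fun v => by
          rw [hs, sII_far (by omega) (by omega) hi]
        have hq : ∀ v : Fin 3, T.s (i + 1) v = Equiv.swap 1 2 v := fun v => by rw [hs, sII_pred hj]
        have hstep : ∀ v : Fin 3, (fun p : Fin 3 × ℤˣ => (T.s i (T.s (i + 1) p.1),
            p.2 * wS j (i + 1) p.1 * wS j i (T.s (i + 1) p.1)))^[2] (v, 1) = (v, 1) := by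
          intro v
          simp only [Function.iterate_succ, Function.iterate_zero, Function.comp, id, hp, hq,
            wS_eq hj, wS_one hi, mul_one, one_mul]
          revert v
          decide
        by_cases hv : v = 0
        · subst hv
          have h0 : (fun p : Fin 3 × ℤˣ => (T.s i (T.s (i + 1) p.1),
              p.2 * wS j (i + 1) p.1 * wS j i (T.s (i + 1) p.1)))^[1] ((0 : Fin 3), (1 : ℤˣ)) =
              (0, 1) := by
            simp only [Function.iterate_succ, Function.iterate_zero, Function.comp, id, hp, hq,
              wS_eq hj, wS_one hi, mul_one, one_mul]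
            decide
          rw [iter_fix _ _ 1 _ h0 (one_dvd _)]
        · have h6 : 2 ∣ T.per i v := by
            apply T.two_dvd_per'
            · rw [hq]
              revert v
              decide
            · rw [hp]
            · rw [hq, hp]
          rw [iter_fix _ _ 2 _ (hstep v) h6]
      · have hall : ∀ n (p : Fin 3 × ℤˣ), ((fun p : Fin 3 × ℤˣ => (T.s i (T.s (i + 1) p.1),
            p.2 * wS j (i + 1) p.1 * wS j i (T.s (i + 1) p.1)))^[n] p).2 = p.2 := by
          intro n
          induction n with
          | zero => intro p; rfl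
          | succ n ih =>
            intro p
            rw [Function.iterate_succ_apply, ih]
            simp only [wS_one hi, wS_one hj, mul_one]
        exact hall _ _

theorem exists_six [Finite X] (T : Typ S (Fin 3)) {j : ℕ} (h1 : 2 ≤ j) (h2 : j + 1 ≤ S.d)
    (hs : ∀ i v, T.s i v = sII j i v) :
    ∃ T0 : Typ S (Fin 3 × Bool), (∀ i v, T0.s i v = sS j i v) ∧ (∀ x, (T0.π x).1 = T.π x) ∧
      (∀ i v, T0.per i v = T.per i v.1) := by
  obtain ⟨F, hF⟩ := pot_six T h1 h2 hs
  have hπ : ∀ i x, (T.π (S.ρ i x), decide (F (S.ρ i x) = 1)) = sS j i (T.π x, decide (F x = 1)) := by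
    intro i x
    by_cases hi : 1 ≤ i ∧ i ≤ S.d
    · rw [T.hs, hs, hF i hi.1 hi.2]
      by_cases h3 : i = j
      · subst h3
        rw [sII_j, wS_one (by omega), mul_one]
        simp [sS]
      · by_cases h4 : i = j + 1
        · subst h4
          rw [sII_succ, wS_one (by omega), mul_one]
          simp [sS]
        · by_cases h5 : i + 1 = j
          · rw [sII_pred h5, wS_eq h5, dec_mul]
            simp [sS, h3, h4, h5]
          · rw [sII_far h3 h4 h5, wS_one h5, mul_one]
            simp [sS, h3, h4, h5]
    · rw [S.out i hi]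
      have h3 : i ≠ j := by omega
      have h4 : i ≠ j + 1 := by omega
      have h5 : i + 1 ≠ j := by omega
      simp [sS, h3, h4, h5]
  let T0 : Typ S (Fin 3 × Bool) :=
    { π := fun x => (T.π x, decide (F x = 1))
      s := sS j
      surj := by
        have hone : ∀ b : Bool, ∃ y, (T.π y, decide (F y = 1)) = ((1 : Fin 3), b) := by
          intro b
          obtain ⟨y, hy⟩ := T.surj 1
          by_cases hb : decide (F y = 1) = b
          · exact ⟨y, by rw [hy, hb]⟩
          · refine ⟨S.ρ (j + 1) (S.ρ (j - 1) y), ?_⟩
            have e1 : j - 1 ≠ j := by omega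
            have e2 : j - 1 ≠ j + 1 := by omega
            have e3 : j - 1 + 1 = j := by omega
            rw [hπ, hπ, hy]
            simp only [sS, e1, e2, e3, if_true, if_false]
            have e4 : (!decide (F y = 1)) = b := by
              revert hb
              generalize decide (F y = 1) = c
              revert b c
              decide
            rw [← e4]
            simp
        rintro ⟨v, b⟩
        obtain ⟨y, hy⟩ := hone b
        have h7 : v = 0 ∨ v = 1 ∨ v = 2 := by
          revert v
          decide
        rcases h7 with h7 | h7 | h7 <;> subst h7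
        · refine ⟨S.ρ j y, ?_⟩
          change (T.π (S.ρ j y), decide (F (S.ρ j y) = 1)) = _
          rw [hπ, hy]
          simp [sS]
        · exact ⟨y, hy⟩
        · refine ⟨S.ρ (j + 1) y, ?_⟩
          change (T.π (S.ρ (j + 1) y), decide (F (S.ρ (j + 1) y) = 1)) = _
          rw [hπ, hy]
          simp [sS]
      hs := hπ
      fib := by
        intro x y hxy
        have e1 : T.π x = T.π y := congrArg Prod.fst hxy
        have e2 : F x = F y := dec_eq (congrArg Prod.snd hxy)
        obtain ⟨θ, ht1, ht2, ht3⟩ := T.fib x y e1
        have key : ∀ z, F (θ z) = F z := by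
          intro z
          have hc := S.conn x z
          induction hc with
          | refl => rw [ht3, e2]
          | tail _ hbc ih =>
            obtain ⟨i, hi1, hi2, rfl⟩ := hbc
            rw [ht1, hF i hi1 hi2, hF i hi1 hi2, ht2, ih]
        refine ⟨θ, ht1, ?_, ht3⟩
        intro z
        change (T.π (θ z), decide (F (θ z) = 1)) = (T.π z, decide (F z = 1))
        rw [ht2, key] }
  refine ⟨T0, fun _ _ => rfl, fun _ => rfl, ?_⟩
  intro i v
  obtain ⟨x, rfl⟩ := T0.surj v
  rw [T0.per_pi]
  exact (T.per_pi i x).symm

end H73.TO
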