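import Pool.Agent.H73.TO.Wts

/-! # TO.Wy2 : Wythoff data for the type II_2, with the symmetry

`ϖ` from `exists_weights`. `ll _ = λ` with `λ = ϖ (idx (d - 1))` if `d ≥ 5`, `λ = ϖ (gP true) + ϖ (gP false)` if `d = 4`. `vv (v, e) = α e • ϖ (gU (!e))`, `α e = 1 / bil (ϖ (gU (!e))) λ` (positive: `DLink`, for `d = 4` the pair `gU (!e), gP (!e)` and the other term is `≥ 0`). `s = sS 2`: label 2 exchanges `(0,e),(1,e)`, label 3 exchanges `(1,e),(2,e)`, label 1 exchanges `(1,e),(2,!e)`.
SYMMETRY `τ = tau2 hd` (exchanges `gU true, gU false` and `gP true, gP false`, fixes the other indices): `ϖ (τ k) (τ n) = ϖ k n` (both sides as functions of `n` have the same `fB M _`: `fB M (τ m) (z ∘ τ.symm) = fB M m z` by `hτ`; last clause of `exists_weights`). So `bil (ϖ (gU e)) λ` does not depend on `e` (`λ ∘ τ = λ`), `α` is constant,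
`vv (flip6 v) (τ n) = vv v n`, `ll (flip6 v) (τ n) = ll v n`. `hs`, `hω`: `sS 2 i (flip6 v) = flip6 (sS 2 i v)`, `om2 hd i (flip6 v) = tau2 hd (om2 hd i v)` (`om2` at labels 1, 2, 3 is a `gU`, at 4 a `gP`, otherwise `idx (i-1)` with `i - 1 ≥ 4` for `5 ≤ i ≤ d`; label `0` and `i > d` do not matter).
WYT. `vinv`: labels 2, 3 keep `e`. `vwal` at `(v, e)`: `i = 2`, `v = 2`: `gU e`; `i = 3`, `v = 0`: `gU e`; `i = 4`: `gP _`; `i ≥ 5`: `idx (i-1)`: all different from `gU (!e)`. `vcov`: `n ≠ gU (!e)`: `gU e`: `(3, (0, e))`; `gP e`: `(4, (0, e))`; `gP (!e)`: `(4, (2, e))`; `idx (i - 1)`, `i ≥ 5`: `(i, (v, e))`; the labels 2, 3 join `(0,e),(1,e),(2,e)`.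
`lwal`, `i ≤ d - 1`: `d ≥ 5`: `ω i v ≠ idx (d-1)` (for `i ≤ 4` the index is `≤ 3 ≤ d - 2`); `d = 4`: `i ≤ 3`, `ω i v = gU _`. `lcov`: `d ≥ 5`, `n ≠ idx (d-1)`: `gU e`: `(3, (0, e))`, `gP e`: `(4, (0, e))`, `idx (i-1)`, `5 ≤ i ≤ d-1`; `d = 4`: `n` is a `gU`. The labels 1, 2, 3 join all six states. `con`: left alternative. -/

namespace H73.TO

open Pool.Agent.H80.Cox Pool.Agent.H44.Cox

private theorem idx_inj {d : ℕ} (hd : 4 ≤ d) {k k' : ℕ} (hk : k < d) (hk' : k' < d) :
    idx hd k = idx hd k' ↔ k = k' := by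
  unfold idx
  rw [Fin.mk.injEq]
  omega

private theorem idx_val {d : ℕ} (hd : 4 ≤ d) (n : Fin d) : idx hd n.val = n := by
  apply Fin.ext
  show min n.val (d - 1) = n.val
  have := n.isLt
  omega

/-- the number of `gU e` -/
private def nU (e : Bool) : ℕ := if e then 0 else 1

private def nP (e : Bool) : ℕ := if e then 2 else 3

private theorem nU_lt (e : Bool) : nU e < 2 := by cases e <;> simp [nU]

private theorem nP_lt (e : Bool) : 2 ≤ nP e ∧ nP e < 4 := by cases e <;> simp [nP]

private theorem gU_ne {d : ℕ} (hd : 4 ≤ d) (e : Bool) : gU hd e ≠ gU hd (!e) := by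
  unfold gU
  rw [Ne, idx_inj hd (by split_ifs <;> omega) (by split_ifs <;> omega)]
  cases e <;> simp

private theorem gP_ne {d : ℕ} (hd : 4 ≤ d) (e : Bool) : gP hd e ≠ gP hd (!e) := by
  unfold gP
  rw [Ne, idx_inj hd (by split_ifs <;> omega) (by split_ifs <;> omega)]
  cases e <;> simp

private theorem gU_ne_gP {d : ℕ} (hd : 4 ≤ d) (e e' : Bool) : gU hd e ≠ gP hd e' := by
  unfold gU gP
  rw [Ne, idx_inj hd (by split_ifs <;> omega) (by split_ifs <;> omega)]
  cases e <;> cases e' <;> simp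

private theorem idx_ne_gU {d : ℕ} (hd : 4 ≤ d) {k : ℕ} (hk : 4 ≤ k) (hkd : k < d) (e : Bool) :
    idx hd k ≠ gU hd e := by
  unfold gU
  rw [Ne, idx_inj hd hkd (by split_ifs <;> omega)]
  cases e <;> simp <;> omega

private theorem idx_ne_gP {d : ℕ} (hd : 4 ≤ d) {k : ℕ} (hk : 4 ≤ k) (hkd : k < d) (e : Bool) :
    idx hd k ≠ gP hd e := by
  unfold gP
  rw [Ne, idx_inj hd hkd (by split_ifs <;> omega)]
  cases e <;> simp <;> omega

private theorem cases_n {d : ℕ} (hd : 4 ≤ d) (n : Fin d) :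
    (∃ e, n = gU hd e) ∨ (∃ e, n = gP hd e) ∨ ∃ k, 4 ≤ k ∧ k < d ∧ n = idx hd k := by
  have h := idx_val hd n
  have hlt := n.isLt
  by_cases h0 : n.val = 0
  · exact Or.inl ⟨true, by rw [← h, h0]; rfl⟩
  by_cases h1 : n.val = 1
  · exact Or.inl ⟨false, by rw [← h, h1]; rfl⟩
  by_cases h2 : n.val = 2
  · exact Or.inr (Or.inl ⟨true, by rw [← h, h2]; rfl⟩)
  by_cases h3 : n.val = 3
  · exact Or.inr (Or.inl ⟨false, by rw [← h, h3]; rfl⟩)
  · exact Or.inr (Or.inr ⟨n.val, by omega, hlt, h.symm⟩)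

private theorem tau_gU {d : ℕ} (hd : 4 ≤ d) (e : Bool) : tau2 hd (gU hd e) = gU hd (!e) := by
  unfold tau2
  rw [Equiv.Perm.mul_apply, Equiv.swap_apply_of_ne_of_ne (gU_ne_gP hd _ _) (gU_ne_gP hd _ _)]
  cases e
  · rw [Equiv.swap_apply_right]; rfl
  · rw [Equiv.swap_apply_left]; rfl

private theorem tau_gP {d : ℕ} (hd : 4 ≤ d) (e : Bool) : tau2 hd (gP hd e) = gP hd (!e) := by
  unfold tau2
  rw [Equiv.Perm.mul_apply]
  have h : ∀ e', Equiv.swap (gU hd true) (gU hd false) (gP hd e') = gP hd e' := fun e' =>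
    Equiv.swap_apply_of_ne_of_ne (gU_ne_gP hd _ _).symm (gU_ne_gP hd _ _).symm
  cases e
  · rw [Equiv.swap_apply_right, h]; rfl
  · rw [Equiv.swap_apply_left, h]; rfl

private theorem tau_idx {d : ℕ} (hd : 4 ≤ d) {k : ℕ} (hk : 4 ≤ k) (hkd : k < d) :
    tau2 hd (idx hd k) = idx hd k := by
  unfold tau2
  rw [Equiv.Perm.mul_apply, Equiv.swap_apply_of_ne_of_ne (idx_ne_gP hd hk hkd _) (idx_ne_gP hd hk hkd _),
    Equiv.swap_apply_of_ne_of_ne (idx_ne_gU hd hk hkd _) (idx_ne_gU hd hk hkd _)]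

private theorem om2_one {d : ℕ} (hd : 4 ≤ d) (v : Fin 3 × Bool) : om2 hd 1 v = gU hd (!v.2) := by
  simp [om2]

private theorem om2_two {d : ℕ} (hd : 4 ≤ d) (v : Fin 3 × Bool) : om2 hd 2 v = gU hd v.2 := by
  simp [om2]

private theorem om2_three {d : ℕ} (hd : 4 ≤ d) (v : Fin 3 × Bool) : om2 hd 3 v = gU hd v.2 := by
  simp [om2]

private theorem om2_four {d : ℕ} (hd : 4 ≤ d) (v : Fin 3 × Bool) :
    om2 hd 4 v = gP hd (if v.1 = 2 then !v.2 else v.2) := by
  simp [om2]

private theorem om2_ge {d : ℕ} (hd : 4 ≤ d) {i : ℕ} (hi : 5 ≤ i) (v : Fin 3 × Bool) :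
    om2 hd i v = idx hd (i - 1) := by
  unfold om2
  rw [if_neg (by omega), if_neg (by omega), if_neg (by omega)]

private theorem sS_one (v : Fin 3 × Bool) :
    sS 2 1 v = (Equiv.swap 1 2 v.1, if v.1 = 0 then v.2 else !v.2) := by
  simp [sS]

private theorem sS_two (v : Fin 3 × Bool) : sS 2 2 v = (Equiv.swap 0 1 v.1, v.2) := by
  simp [sS]

private theorem sS_three (v : Fin 3 × Bool) : sS 2 3 v = (Equiv.swap 1 2 v.1, v.2) := by
  simp [sS]

private theorem sS_ge {i : ℕ} (hi : 4 ≤ i) (v : Fin 3 × Bool) : sS 2 i v = v := by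
  unfold sS
  rw [if_neg (by omega), if_neg (by omega), if_neg (by omega)]

private theorem bool_ne : ∀ a b : Bool, ¬ a = b → a = !b := by decide

/-- labels 1..: case distinction -/
private theorem cases_i {i : ℕ} (h : 1 ≤ i) : i = 1 ∨ i = 2 ∨ i = 3 ∨ i = 4 ∨ 5 ≤ i := by omega

private theorem step {V : Type} {s : ℕ → V → V} {a b : ℕ} {u v : V} (i : ℕ) (h1 : a ≤ i) (h2 : i ≤ b)
    (h : v = s i u) : Reach s a b u v :=
  Relation.ReflTransGen.single ⟨i, h1, h2, h⟩

private theorem reach_e {a b : ℕ} (ha : a ≤ 2) (hb : 3 ≤ b) (p q : Fin 3) (e : Bool) :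
    Reach (sS 2) a b (p, e) (q, e) := by
  have h01 : Reach (sS 2) a b (0, e) (1, e) := step 2 ha (by omega) (by rw [sS_two]; rfl)
  have h10 : Reach (sS 2) a b (1, e) (0, e) := step 2 ha (by omega) (by rw [sS_two]; rfl)
  have h12 : Reach (sS 2) a b (1, e) (2, e) := step 3 (by omega) hb (by rw [sS_three]; rfl)
  have h21 : Reach (sS 2) a b (2, e) (1, e) := step 3 (by omega) hb (by rw [sS_three]; rfl)
  have h02 := h01.trans h12
  have h20 := h21.trans h10
  fin_cases p <;> fin_cases q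
  · exact Relation.ReflTransGen.refl
  · exact h01
  · exact h02
  · exact h10
  · exact Relation.ReflTransGen.refl
  · exact h12
  · exact h20
  · exact h21
  · exact Relation.ReflTransGen.refl

private theorem reach_all {b : ℕ} (hb : 3 ≤ b) (u v : Fin 3 × Bool) : Reach (sS 2) 1 b u v := by
  have hx : ∀ e, Reach (sS 2) 1 b (1, e) (2, !e) := fun e =>
    step 1 le_rfl (by omega) (by rw [sS_one]; simp)
  obtain ⟨p, e⟩ := u
  obtain ⟨q, e'⟩ := v
  by_cases h : e = e'
  · subst h
    exact reach_e (by omega) hb p q e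
  · have h' : e' = !e := bool_ne e' e (fun h'' => h h''.symm)
    subst h'
    exact ((reach_e (by omega) hb p 1 e).trans (hx e)).trans (reach_e (by omega) hb 2 q (!e))

private theorem fB_tau {d : ℕ} (M : CoxeterMatrix (Fin d)) (τ : Equiv.Perm (Fin d))
    (hτ : ∀ m n, M (τ m) (τ n) = M m n) (z : Fin d → ℝ) (m : Fin d) :
    fB M m (fun n => z (τ n)) = fB M (τ m) z := by
  rw [fB_apply, fB_apply, ← Equiv.sum_comp τ (fun i => -cc M i (τ m) * z i)]
  apply Finset.sum_congr rfl
  intro i _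
  have : cc M (τ i) (τ m) = cc M i m := by
    unfold cc
    rw [hτ]
  rw [this]

theorem wyt_two {d : ℕ} (hd : 4 ≤ d) (M : CoxeterMatrix (Fin d))
    (hpd : ∀ z : Fin d → ℝ, z ≠ 0 → 0 < bil M z z) (hτ : ∀ m n, M (tau2 hd m) (tau2 hd n) = M m n)
    (hL : ∀ e, DLink M (gU hd e) (gP hd e)) (hL5 : 5 ≤ d → ∀ m n, DLink M m n) :
    ∃ vv ll : Fin 3 × Bool → Fin d → ℝ, Wyt (sS 2) (om2 hd) M d vv ll ∧
      DSym (sS 2) (om2 hd) M d vv flip6 (tau2 hd) ∧ DSym (sS 2) (om2 hd) M d ll flip6 (tau2 hd) := by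
  obtain ⟨ϖ, h1, h2, h3, h4, h5⟩ := exists_weights M hpd
  -- the symmetry of the weights
  have hsym : ∀ k n, ϖ (tau2 hd k) (tau2 hd n) = ϖ k n := by
    intro k
    have : (fun n => ϖ (tau2 hd k) (tau2 hd n)) = ϖ k := by
      apply h5
      intro m
      rw [fB_tau M (tau2 hd) hτ, h1, h1]
      simp only [EmbeddingLike.apply_eq_iff_eq]
    intro n
    exact congrFun this n
  -- the vector of the facets
  obtain ⟨lam, hl1, hl2, hl3, hl4, hl5⟩ : ∃ lam : Fin d → ℝ, (∀ n, 0 ≤ fB M n lam) ∧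
      (∀ n, lam (tau2 hd n) = lam n) ∧ (∀ e, 0 < bil M (ϖ (gU hd e)) lam) ∧
      (∀ i, 1 ≤ i → i + 1 ≤ d → ∀ v, fB M (om2 hd i v) lam = 0) ∧
      (∀ n, fB M n lam = 0 → (∃ e, n = gU hd e) ∨ (5 ≤ d ∧ ∃ e, n = gP hd e) ∨
        ∃ k, 4 ≤ k ∧ k + 1 < d ∧ n = idx hd k) := by
    by_cases hd5 : 5 ≤ d
    · refine ⟨ϖ (idx hd (d - 1)), ?_, ?_, ?_, ?_, ?_⟩
      · intro n
        rw [h1]
        split_ifs <;> norm_num
      · intro n
        have := hsym (idx hd (d - 1)) n
        rw [tau_idx hd (by omega) (by omega)] at this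
        exact this
      · intro e
        exact h4 _ _ (hL5 hd5 _ _)
      · intro i hi1 hi2 v
        rw [h1, if_neg]
        rcases cases_i hi1 with rfl | rfl | rfl | rfl | h
        · rw [om2_one]; exact (idx_ne_gU hd (by omega) (by omega) _).symm
        · rw [om2_two]; exact (idx_ne_gU hd (by omega) (by omega) _).symm
        · rw [om2_three]; exact (idx_ne_gU hd (by omega) (by omega) _).symm
        · rw [om2_four]; exact (idx_ne_gP hd (by omega) (by omega) _).symm
        · rw [om2_ge hd h, idx_inj hd (by omega) (by omega)]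
          omega
      · intro n hn
        have hn' : n ≠ idx hd (d - 1) := by
          intro h
          rw [h1, if_pos h] at hn
          exact one_ne_zero hn
        rcases cases_n hd n with h | h | ⟨k, hk, hkd, h⟩
        · exact Or.inl h
        · exact Or.inr (Or.inl ⟨hd5, h⟩)
        · refine Or.inr (Or.inr ⟨k, hk, ?_, h⟩)
          rw [h, Ne, idx_inj hd hkd (by omega)] at hn'
          omega
    · have hd4 : d = 4 := by omega
      refine ⟨ϖ (gP hd true) + ϖ (gP hd false), ?_, ?_, ?_, ?_, ?_⟩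
      · intro n
        rw [map_add, h1, h1]
        split_ifs <;> norm_num
      · intro n
        rw [Pi.add_apply, Pi.add_apply]
        have e1 := hsym (gP hd true) n
        have e2 := hsym (gP hd false) n
        rw [tau_gP] at e1 e2
        simp only [Bool.not_true, Bool.not_false] at e1 e2
        rw [e1, e2, add_comm]
      · intro e
        rw [bil_add_right]
        have hpos : 0 < bil M (ϖ (gU hd e)) (ϖ (gP hd e)) := by
          rw [bil_symm]
          exact h4 _ _ (hL e)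
        cases e
        · have := h3 (gU hd false) (gP hd true)
          linarith
        · have := h3 (gU hd true) (gP hd false)
          linarith
      · intro i hi1 hi2 v
        rw [map_add, h1, h1]
        have hne : ∀ e, om2 hd i v ≠ gP hd e := by
          intro e
          rcases cases_i hi1 with rfl | rfl | rfl | rfl | h
          · rw [om2_one]; exact gU_ne_gP hd _ _
          · rw [om2_two]; exact gU_ne_gP hd _ _
          · rw [om2_three]; exact gU_ne_gP hd _ _
          · omega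
          · omega
        rw [if_neg (hne _), if_neg (hne _), add_zero]
      · intro n hn
        rcases cases_n hd n with h | ⟨e, h⟩ | ⟨k, hk, hkd, h⟩
        · exact Or.inl h
        · exfalso
          rw [map_add, h1, h1] at hn
          cases e
          · rw [if_pos h] at hn
            split_ifs at hn <;> norm_num at hn
          · rw [if_pos h] at hn
            split_ifs at hn <;> norm_num at hn
        · omega
  -- the constant
  have hbil : ∀ x y : Fin d → ℝ, (∀ n, y (tau2 hd n) = y n) →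
      bil M (fun n => x (tau2 hd n)) y = bil M x y := by
    intro x y hy
    unfold bil
    rw [← Equiv.sum_comp (tau2 hd) (fun s => y s * fB M s x)]
    apply Finset.sum_congr rfl
    intro i _
    rw [fB_tau M (tau2 hd) hτ, hy]
  have hc : ∀ e, bil M (ϖ (gU hd (!e))) lam = bil M (ϖ (gU hd e)) lam := by
    intro e
    have e1 := hbil (ϖ (gU hd (!e))) lam hl2
    have e2 : (fun n => ϖ (gU hd (!e)) (tau2 hd n)) = ϖ (gU hd e) := by
      funext n
      have := hsym (gU hd e) n
      rwa [tau_gU] at this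
    rw [e2] at e1
    exact e1.symm
  set c : ℝ := bil M (ϖ (gU hd true)) lam with hcdef
  have hcpos : 0 < c := hl3 true
  have hcall : ∀ e, bil M (ϖ (gU hd e)) lam = c := by
    intro e
    cases e
    · exact hc true
    · rfl
  have hfv : ∀ (v : Fin 3 × Bool) n, fB M n (c⁻¹ • ϖ (gU hd (!v.2))) =
      if n = gU hd (!v.2) then c⁻¹ else 0 := by
    intro v n
    rw [map_smul, h1, smul_eq_mul]
    split_ifs <;> simp
  have hci : (0 : ℝ) < c⁻¹ := inv_pos.mpr hcpos
  have hflip : Function.Injective flip6 := by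
    intro u v h
    unfold flip6 at h
    rw [Prod.mk.injEq] at h
    have h' : u.2 = v.2 := by
      have := congrArg (fun b => !b) h.2
      simpa using this
    exact Prod.ext h.1 h'
  have hsf : ∀ i, 1 ≤ i → i ≤ d → ∀ v, sS 2 i (flip6 v) = flip6 (sS 2 i v) := by
    intro i hi1 _ v
    unfold flip6
    rcases cases_i hi1 with rfl | rfl | rfl | rfl | h
    · rw [sS_one, sS_one]
      by_cases hv : v.1 = 0
      · simp [hv]
      · simp [hv]
    · rw [sS_two, sS_two]
    · rw [sS_three, sS_three]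
    · rw [sS_ge (by omega), sS_ge (by omega)]
    · rw [sS_ge (by omega), sS_ge (by omega)]
  have hof : ∀ i, 1 ≤ i → i ≤ d → ∀ v, sS 2 i v = v → om2 hd i (flip6 v) = tau2 hd (om2 hd i v) := by
    intro i hi1 hid v _
    unfold flip6
    rcases cases_i hi1 with rfl | rfl | rfl | rfl | h
    · rw [om2_one, om2_one, tau_gU]
    · rw [om2_two, om2_two, tau_gU]
    · rw [om2_three, om2_three, tau_gU]
    · rw [om2_four, om2_four, tau_gP]
      by_cases hv : v.1 = 2
      · simp [hv]
      · simp [hv]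
    · rw [om2_ge hd h, om2_ge hd h, tau_idx hd (by omega) (by omega)]
  refine ⟨fun v => c⁻¹ • ϖ (gU hd (!v.2)), fun _ => lam, ?_, ?_, ?_⟩
  · constructor
    · -- vinv
      intro i hi1 hi2 v
      have : (sS 2 i v).2 = v.2 := by
        rcases cases_i (by omega : 1 ≤ i) with rfl | rfl | rfl | rfl | h
        · omega
        · rw [sS_two]
        · rw [sS_three]
        · rw [sS_ge (by omega)]
        · rw [sS_ge (by omega)]
      show c⁻¹ • ϖ (gU hd (!(sS 2 i v).2)) = c⁻¹ • ϖ (gU hd (!v.2))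
      rw [this]
    · -- linv
      intro i _ _ v
      rfl
    · -- vdom
      intro v n
      show 0 ≤ fB M n (c⁻¹ • ϖ (gU hd (!v.2)))
      rw [hfv]
      split_ifs
      · exact hci.le
      · exact le_rfl
    · -- ldom
      intro v n
      exact hl1 n
    · -- vwal
      intro i hi1 hi2 v _
      show fB M (om2 hd i v) (c⁻¹ • ϖ (gU hd (!v.2))) = 0
      rw [hfv, if_neg]
      rcases cases_i (by omega : 1 ≤ i) with rfl | rfl | rfl | rfl | h
      · omega
      · rw [om2_two]; exact gU_ne hd _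
      · rw [om2_three]; exact gU_ne hd _
      · rw [om2_four]; exact (gU_ne_gP hd _ _).symm
      · rw [om2_ge hd h]; exact idx_ne_gU hd (by omega) (by omega) _
    · -- lwal
      intro i hi1 hi2 v _
      exact hl4 i hi1 hi2 v
    · -- vcov
      intro v n hn
      have hn' : n ≠ gU hd (!v.2) := by
        intro h
        change fB M n (c⁻¹ • ϖ (gU hd (!v.2))) = 0 at hn
        rw [hfv, if_pos h] at hn
        exact hci.ne' hn
      rcases cases_n hd n with ⟨e, h⟩ | ⟨e, h⟩ | ⟨k, hk, hkd, h⟩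
      · have he : e = v.2 := by
          by_contra hne
          apply hn'
          rw [h, bool_ne e v.2 hne]
        subst he
        refine ⟨3, (0, v.2), by omega, by omega, ?_, ?_, ?_⟩
        · rw [sS_three]; rfl
        · rw [om2_three]; exact h.symm
        · exact reach_e (by omega) (by omega) v.1 0 v.2
      · by_cases he : e = v.2
        · subst he
          refine ⟨4, (0, v.2), by omega, by omega, sS_ge (by omega) _, ?_, ?_⟩
          · rw [om2_four]; simp [h]
          · exact reach_e (by omega) (by omega) v.1 0 v.2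
        · refine ⟨4, (2, v.2), by omega, by omega, sS_ge (by omega) _, ?_, ?_⟩
          · rw [om2_four, h, bool_ne e v.2 he]
            simp
          · exact reach_e (by omega) (by omega) v.1 2 v.2
      · refine ⟨k + 1, v, by omega, by omega, sS_ge (by omega) _, ?_, Relation.ReflTransGen.refl⟩
        rw [om2_ge hd (by omega), h]
        rfl
    · -- lcov
      intro v n hn
      rcases hl5 n hn with ⟨e, h⟩ | ⟨h5', e, h⟩ | ⟨k, hk, hkd, h⟩
      · refine ⟨3, (0, e), by omega, by omega, ?_, ?_, reach_all (by omega) _ _⟩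
        · rw [sS_three]; rfl
        · rw [om2_three]; exact h.symm
      · refine ⟨4, (0, e), by omega, by omega, sS_ge (by omega) _, ?_, reach_all (by omega) _ _⟩
        rw [om2_four]; simp [h]
      · refine ⟨k + 1, v, by omega, by omega, sS_ge (by omega) _, ?_, Relation.ReflTransGen.refl⟩
        rw [om2_ge hd (by omega), h]
        rfl
    · -- one
      intro u t
      show bil M (c⁻¹ • ϖ (gU hd (!u.2))) lam = 1
      rw [bil_smul_left, hcall, inv_mul_cancel₀ hcpos.ne']
    · exact Or.inl (fun u t => reach_all (by omega) u t)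
  · refine ⟨hflip, hsf, hof, hτ, ?_⟩
    intro v n
    show c⁻¹ * ϖ (gU hd (!(flip6 v).2)) (tau2 hd n) = c⁻¹ * ϖ (gU hd (!v.2)) n
    have := hsym (gU hd (!v.2)) n
    rw [tau_gU] at this
    show c⁻¹ * ϖ (gU hd (!!v.2)) (tau2 hd n) = c⁻¹ * ϖ (gU hd (!v.2)) n
    rw [this]
  · refine ⟨hflip, hsf, hof, hτ, ?_⟩
    intro v n
    exact hl2 n

end H73.TO
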