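import Pool.Agent.H73.TO.Real
import Pool.Agent.H73.TO.Rev
import Pool.Agent.H73.TO.PDef
import Pool.Agent.H73.TO.C2
import Pool.Agent.H73.TO.Wy2
import Pool.Agent.H73.TO.Six
import Pool.Agent.H73.TO.ExIIb
import Pool.Agent.H63.KO.FlagAct

/-! # TO.R2 : type II_2 and its dual are realized

`P.Fl` is finite (`finite_fl`). `real_II`: `exists_six` (`j = 2`) gives `T0` with `(T0.π x).1 = T.π x`, `T0.per i v = T.per i v.1` (so `hfl`), `per_typeII_a`, `per_typeII_b`, `chart_two`, `Chart.finite`, `bil_pos`, `wyt_two`, `realize` with `V = Fin 3 × Bool`, `B = Fin P.d`. `hsym`: `v0 = (0, true)`; `T.π (θ (ξ v0)) = T.π (ξ v0) = 0` by `Full`;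
`θ (ξ v0) = ψ w0 (ξ v)` (`Chart.surj`), `T0.π (ψ w0 (ξ v)) = v`, so `v.1 = 0`: `v = (0, true)`: `σ = id`, `τ = Equiv.refl _` (trivial `DSym`), or `v = (0, false) = flip6 v0`: `σ = flip6`, `τ = tau2 hd`, `DSym` from `wyt_two`. `real_II_rev`: the same for `S = revS P.sys`, then `Chart.rev`, `Wyt.rev`; the vectors of the rank 1 elements are
`ll`, and `DSym` for the reversed labels is immediate from `DSym` for `ll`. -/

namespace H73.TO

open H63.KO KOrbit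

private theorem dsym_one {V B : Type} (s : ℕ → V → V) (ω : ℕ → V → B) (M : CoxeterMatrix B) (d : ℕ)
    (vv : V → B → ℝ) : DSym s ω M d vv id (Equiv.refl B) where
  hi := Function.injective_id
  hs := fun _ _ _ _ => rfl
  hω := fun _ _ _ _ _ => rfl
  hM := fun _ _ => rfl
  hv := fun _ _ => rfl

/-- the symmetry of the reversed labels -/
theorem DSym.rev {V B : Type} {s : ℕ → V → V} {ω : ℕ → V → B} {M : CoxeterMatrix B} {d : ℕ}
    {vv : V → B → ℝ} {σ : V → V} {τ : Equiv.Perm B} (h : DSym s ω M d vv σ τ) :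
    DSym (fun i => s (d + 1 - i)) (fun i => ω (d + 1 - i)) M d vv σ τ where
  hi := h.hi
  hs := fun i h1 h2 v => h.hs (d + 1 - i) (by omega) (by omega) v
  hω := fun i h1 h2 v hv => h.hω (d + 1 - i) (by omega) (by omega) v hv
  hM := h.hM
  hv := h.hv

/-- the data common to `real_II` and `real_II_rev` -/
private theorem two_data {X : Type} [Finite X] {S : FSys X} (hd : 4 ≤ S.d) (T : Typ S (Fin 3))
    (hT : T.Full) (hs : ∀ i v, T.s i v = sII 2 i v) :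
    ∃ (M : CoxeterMatrix (Fin S.d)) (C : Chart S (sS 2) (om2 hd) M 1 S.d)
      (vv ll : Fin 3 × Bool → Fin S.d → ℝ), (∀ z : Fin S.d → ℝ, z ≠ 0 → 0 < Pool.Agent.H44.Cox.bil M z z) ∧
      Wyt (sS 2) (om2 hd) M S.d vv ll ∧
      DSym (sS 2) (om2 hd) M S.d vv flip6 (tau2 hd) ∧ DSym (sS 2) (om2 hd) M S.d ll flip6 (tau2 hd) ∧
      ∀ θ, IsAut S θ → ∃ w0, θ (C.ξ (0, true)) = C.ψ w0 (C.ξ (0, true)) ∨
        θ (C.ξ (0, true)) = C.ψ w0 (C.ξ (flip6 (0, true))) := by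
  classical
  obtain ⟨T0, h1, h2, h3⟩ := exists_six T (j := 2) le_rfl (by omega) hs
  have hfl : ∀ i v, T0.per i (flip6 v) = T0.per i v := by
    intro i v
    rw [h3, h3]; rfl
  have hp := per_typeII_a T0 (j := 2) le_rfl (by omega) h1 hfl
  have hp' := per_typeII_b T0 (j := 2) le_rfl (by omega) h1 hfl
  obtain ⟨M, C, c1, c2, c3, c4, c5⟩ := chart_two hd T0 h1 hfl hp hp'
  have hTs : T0.s = sS 2 := by funext i v; exact h1 i v
  have hfin : Finite M.Group := C.finite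
  have hpd : ∀ z : Fin S.d → ℝ, z ≠ 0 → 0 < Pool.Agent.H44.Cox.bil M z z := fun z hz => bil_pos M hz
  obtain ⟨vv, ll, w1, w2, w3⟩ := wyt_two hd M hpd c3 c4 c5
  have key : ∀ θ, IsAut S θ → ∃ w0, θ (C.ξ (0, true)) = C.ψ w0 (C.ξ (0, true)) ∨
      θ (C.ξ (0, true)) = C.ψ w0 (C.ξ (flip6 (0, true))) := by
    intro θ hθ
    obtain ⟨w0, v, hv⟩ := C.surj (θ (C.ξ (0, true)))
    refine ⟨w0, ?_⟩
    have e1 : (T0.π (θ (C.ξ (0, true)))).1 = 0 := by rw [h2, hT θ hθ, ← h2, c1]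
    have e2 : T0.π (θ (C.ξ (0, true))) = v := by rw [hv, c2, c1]
    rw [e2] at e1
    rcases v with ⟨v, e⟩
    change v = 0 at e1
    subst e1
    cases e with
    | true => exact Or.inl hv
    | false => exact Or.inr hv
  have hgen : ∀ s : ℕ → Fin 3 × Bool → Fin 3 × Bool, s = sS 2 →
      ∀ C : Chart S s (om2 hd) M 1 S.d, (∀ θ, IsAut S θ → ∃ w0, θ (C.ξ (0, true)) = C.ψ w0 (C.ξ (0, true)) ∨
        θ (C.ξ (0, true)) = C.ψ w0 (C.ξ (flip6 (0, true)))) →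
      ∃ C' : Chart S (sS 2) (om2 hd) M 1 S.d, ∀ θ, IsAut S θ → ∃ w0, θ (C'.ξ (0, true)) = C'.ψ w0 (C'.ξ (0, true)) ∨
        θ (C'.ξ (0, true)) = C'.ψ w0 (C'.ξ (flip6 (0, true))) := by
    rintro s rfl C h
    exact ⟨C, h⟩
  obtain ⟨C', hC'⟩ := hgen _ hTs C key
  exact ⟨M, C', vv, ll, hpd, w1, w2, w3, hC'⟩

theorem real_II {L : Type} [PartialOrder L] [Finite L] (P : PolyLat L) (d : ℕ) (hd : P.d = d)
    (hd4 : 4 ≤ d) (T : Typ P.sys (Fin 3)) (hT : T.Full) (hs : ∀ i v, T.s i v = sII 2 i v) :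
    ∃ Q' : Set (Euc d), IsPolytope Q' ∧ Nonempty (L ≃o Face Q') ∧ geomOrbits Q' = combOrbits Q' := by
  have hfl : Finite P.Fl := finite_fl P
  have hd4' : 4 ≤ P.sys.d := by show 4 ≤ P.d; omega
  obtain ⟨M, C, vv, ll, hpd, w1, w2, w3, key⟩ := two_data hd4' T hT hs
  refine realize P d hd (by omega) (B := Fin P.sys.d) (by rw [Fintype.card_fin]; exact hd) C hpd w1 ?_
  intro θ hθ
  obtain ⟨w0, h | h⟩ := key θ hθ
  · exact ⟨id, Equiv.refl _, dsym_one _ _ _ _ _, w0, (0, true), h⟩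
  · exact ⟨flip6, tau2 hd4', w2, w0, (0, true), h⟩

theorem real_II_rev {L : Type} [PartialOrder L] [Finite L] (P : PolyLat L) (d : ℕ) (hd : P.d = d)
    (hd4 : 4 ≤ d) (T : Typ (revS P.sys) (Fin 3)) (hT : T.Full) (hs : ∀ i v, T.s i v = sII 2 i v) :
    ∃ Q' : Set (Euc d), IsPolytope Q' ∧ Nonempty (L ≃o Face Q') ∧ geomOrbits Q' = combOrbits Q' := by
  have hfl : Finite P.Fl := finite_fl P
  have hd4' : 4 ≤ (revS P.sys).d := by show 4 ≤ P.d; omega
  obtain ⟨M, C, vv, ll, hpd, w1, w2, w3, key⟩ := two_data hd4' T hT hs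
  refine realize P d hd (by omega) (B := Fin (revS P.sys).d) (by rw [Fintype.card_fin]; exact hd)
    (Chart.rev (S := P.sys) C) hpd w1.rev ?_
  intro θ hθ
  obtain ⟨w0, h | h⟩ := key θ (isAut_rev.2 hθ)
  · exact ⟨id, Equiv.refl _, dsym_one _ _ _ _ _, w0, (0, true), h⟩
  · exact ⟨flip6, tau2 hd4', w3.rev, w0, (0, true), h⟩

end H73.TO
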