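import Pool.Agent.H73.TO.Rev

/-! # TO.TypCl : the types with three states

`T.s i` are commuting-type involutions of `Fin 3` (`s_inv`, `s_comm`, `s_out`), together transitive (`T.reach`). Each `T.s i` is the identity or one of the three transpositions; two different transpositions do not commute, so
their labels differ by exactly one (`s_comm`). Transitivity: at least two different transpositions occur, at labels `p` and `q = p + 1` say. Every other label `k` with a nontrivial `s k`: if `s k ≠ s p` then `|k - p| = 1`, if `s k ≠ s q`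
then `|k - q| = 1`; so `k = p - 1` with `s k = s q`, or `k = p + 2` with `s k = s p` (and not both: `s (p-1) = s q ≠ s p = s (p+2)` would need distance one; three different transpositions are impossible for the same reason).
Rename the states (`Typ.ren` with an `Equiv.Perm (Fin 3)`) so that the labels get the transpositions of `sI` or `sII`: if there is no other label: `s p = swap 0 1`, `s (p + 1) = swap 1 2` (type I, `j = p`);
if `k = p - 1`: `s p = swap 0 1`, `s (p ± 1) = swap 1 2` (type II, `j = p`); if `k = p + 2`: `s (p + 1) = swap 0 1`, `s p = s (p + 2) = swap 1 2` (type II, `j = p + 1`). `decide` over `Fin 3` helps: e.g. the map `s i : Fin 3 → Fin 3` is one of the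
27 functions. All nontrivial labels are in `[1, d]` by `s_out`. Both `swap 0 1`, `swap 1 2` share exactly the state 1: for two different transpositions there is a unique renaming. -/

namespace H73.TO

open H63.KO

private theorem inv_cases (f : Fin 3 → Fin 3) (h : ∀ v, f (f v) = v) :
    f = id ∨ f = ⇑(Equiv.swap (0 : Fin 3) 1) ∨ f = ⇑(Equiv.swap (0 : Fin 3) 2) ∨
      f = ⇑(Equiv.swap (1 : Fin 3) 2) := by
  revert f
  decide

private theorem ex_ren (a b : Fin 3 → Fin 3) (ha : ∀ v, a (a v) = v) (hb : ∀ v, b (b v) = v)
    (ha' : a ≠ id) (hb' : b ≠ id) (hab : a ≠ b) :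
    ∃ e : Equiv.Perm (Fin 3), (∀ v, e (a (e.symm v)) = Equiv.swap 0 1 v) ∧
      (∀ v, e (b (e.symm v)) = Equiv.swap 1 2 v) := by
  rcases inv_cases a ha with h | h | h | h
  · exact absurd h ha'
  all_goals
    rcases inv_cases b hb with h' | h' | h' | h'
    · exact absurd h' hb'
    all_goals
      subst h; subst h'
      first
        | exact absurd rfl hab
        | decide

private theorem no_comm (a b : Fin 3 → Fin 3) (ha : ∀ v, a (a v) = v) (hb : ∀ v, b (b v) = v)
    (ha' : a ≠ id) (hb' : b ≠ id) (hab : a ≠ b) : ¬ ∀ v, a (b v) = b (a v) := by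
  rcases inv_cases a ha with h | h | h | h
  · exact absurd h ha'
  all_goals
    rcases inv_cases b hb with h' | h' | h' | h'
    · exact absurd h' hb'
    all_goals
      subst h; subst h'
      first
        | exact absurd rfl hab
        | decide

private theorem fix_pt (a : Fin 3 → Fin 3) (ha : ∀ v, a (a v) = v) : ∃ v, a v = v := by
  revert a
  decide

variable {X : Type} {S : FSys X}

private theorem dist (T : Typ S (Fin 3)) {i k : ℕ} (hi : T.s i ≠ id) (hk : T.s k ≠ id)
    (hik : T.s i ≠ T.s k) : k = i + 1 ∨ i = k + 1 := by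
  have h1 : i ≠ k := fun h => hik (by rw [h])
  have h2 : ¬ (i + 2 ≤ k ∨ k + 2 ≤ i) := fun h =>
    no_comm _ _ (T.s_inv i) (T.s_inv k) hi hk hik (T.s_comm h)
  omega

private theorem rng (T : Typ S (Fin 3)) {i : ℕ} (hi : T.s i ≠ id) : 1 ≤ i ∧ i ≤ S.d := by
  by_contra h
  exact hi (funext fun v => T.s_out h v)

private theorem two_ex (T : Typ S (Fin 3)) : ∃ p, T.s p ≠ id ∧ T.s (p + 1) ≠ id ∧ T.s p ≠ T.s (p + 1) := by
  have h1 : ∃ i k, T.s i ≠ id ∧ T.s k ≠ id ∧ T.s i ≠ T.s k := by
    by_contra hcon
    push Not at hcon
    have h2 : ∃ f, ∀ i, T.s i f = f := by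
      by_cases h3 : ∃ i, T.s i ≠ id
      · obtain ⟨i, hi⟩ := h3
        obtain ⟨f, hf⟩ := fix_pt (T.s i) (T.s_inv i)
        refine ⟨f, fun k => ?_⟩
        by_cases hk : T.s k = id
        · rw [hk]; rfl
        · rw [← hcon i k hi hk, hf]
      · push Not at h3
        exact ⟨0, fun i => by rw [h3 i]; rfl⟩
    obtain ⟨f, hf⟩ := h2
    have h4 : ∀ g, Reach T.s 1 S.d f g → g = f := by
      intro g hg
      induction hg with
      | refl => rfl
      | tail _ hbc ih =>
        obtain ⟨i, _, _, rfl⟩ := hbc
        rw [ih, hf]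
    have h5 := h4 0 (T.reach f 0)
    have h6 := h4 1 (T.reach f 1)
    rw [← h5] at h6
    exact absurd h6 (by decide)
  obtain ⟨i, k, hi, hk, hik⟩ := h1
  rcases dist T hi hk hik with h | h
  · subst h
    exact ⟨i, hi, hk, hik⟩
  · subst h
    exact ⟨k, hk, hi, hik.symm⟩

theorem typ_class (T : Typ S (Fin 3)) (hT : T.Full) :
    ∃ T' : Typ S (Fin 3), T'.Full ∧
      ((∃ j, 1 ≤ j ∧ j + 1 ≤ S.d ∧ ∀ i v, T'.s i v = sI j i v) ∨
        (∃ j, 2 ≤ j ∧ j + 1 ≤ S.d ∧ ∀ i v, T'.s i v = sII j i v)) := by
  obtain ⟨p, hp, hq, hpq⟩ := two_ex T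
  have hp1 := rng T hp
  have hq1 := rng T hq
  -- every other label
  have key : ∀ k, k ≠ p → k ≠ p + 1 → T.s k ≠ id →
      (k + 1 = p ∧ T.s k = T.s (p + 1)) ∨ (k = p + 2 ∧ T.s k = T.s p) := by
    intro k h1 h2 h3
    by_cases h4 : T.s k = T.s p
    · right
      have h5 : T.s k ≠ T.s (p + 1) := by rw [h4]; exact hpq
      have h6 := dist T h3 hq h5
      exact ⟨by omega, h4⟩
    · left
      have h6 := dist T h3 hp h4
      have h7 : k + 1 = p := by omega
      refine ⟨h7, ?_⟩
      by_contra h8
      have h9 := dist T h3 hq h8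
      omega
  by_cases hB : ∃ k, k + 1 = p ∧ T.s k ≠ id
  · obtain ⟨k, hk, hk'⟩ := hB
    have hk1 := rng T hk'
    have hks : T.s k = T.s (p + 1) := by
      rcases key k (by omega) (by omega) hk' with h | h
      · exact h.2
      · omega
    obtain ⟨e, he1, he2⟩ := ex_ren (T.s p) (T.s (p + 1)) (T.s_inv p) (T.s_inv _) hp hq hpq
    refine ⟨T.ren e, Typ.ren_full e hT, Or.inr ⟨p, by omega, hq1.2, ?_⟩⟩
    intro i v
    change e (T.s i (e.symm v)) = sII p i v
    unfold sII
    by_cases h1 : i = p
    · rw [if_pos h1, h1, he1]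
    · rw [if_neg h1]
      by_cases h2 : i = p + 1 ∨ i + 1 = p
      · rw [if_pos h2]
        rcases h2 with h2 | h2
        · rw [h2, he2]
        · have : i = k := by omega
          rw [this, hks, he2]
      · rw [if_neg h2]
        have h3 : T.s i = id := by
          by_contra h3
          rcases key i h1 (by omega) h3 with h | h
          · omega
          · have h4 : T.s k ≠ T.s i := by
              rw [hks, h.2]
              exact hpq.symm
            have h5 := dist T hk' h3 h4
            omega
        rw [h3]
        simp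
  · by_cases hC : T.s (p + 2) ≠ id
    · have hk1 := rng T hC
      have hks : T.s (p + 2) = T.s p := by
        rcases key (p + 2) (by omega) (by omega) hC with h | h
        · omega
        · exact h.2
      obtain ⟨e, he1, he2⟩ := ex_ren (T.s (p + 1)) (T.s p) (T.s_inv _) (T.s_inv _) hq hp hpq.symm
      refine ⟨T.ren e, Typ.ren_full e hT, Or.inr ⟨p + 1, by omega, hk1.2, ?_⟩⟩
      intro i v
      change e (T.s i (e.symm v)) = sII (p + 1) i v
      unfold sII
      by_cases h1 : i = p + 1
      · rw [if_pos h1, h1, he1]
      · rw [if_neg h1]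
        by_cases h2 : i = p + 1 + 1 ∨ i + 1 = p + 1
        · rw [if_pos h2]
          rcases h2 with h2 | h2
          · have : i = p + 2 := by omega
            rw [this, hks, he2]
          · have : i = p := by omega
            rw [this, he2]
        · rw [if_neg h2]
          have h3 : T.s i = id := by
            by_contra h3
            rcases key i (by omega) h1 h3 with h | h
            · exact hB ⟨i, h.1, h3⟩
            · omega
          rw [h3]
          simp
    · push Not at hC
      obtain ⟨e, he1, he2⟩ := ex_ren (T.s p) (T.s (p + 1)) (T.s_inv p) (T.s_inv _) hp hq hpq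
      refine ⟨T.ren e, Typ.ren_full e hT, Or.inl ⟨p, hp1.1, hq1.2, ?_⟩⟩
      intro i v
      change e (T.s i (e.symm v)) = sI p i v
      unfold sI
      by_cases h1 : i = p
      · rw [if_pos h1, h1, he1]
      · rw [if_neg h1]
        by_cases h2 : i = p + 1
        · rw [if_pos h2, h2, he2]
        · rw [if_neg h2]
          have h3 : T.s i = id := by
            by_contra h3
            rcases key i h1 h2 h3 with h | h
            · exact hB ⟨i, h.1, h3⟩
            · apply h3
              rw [h.1, hC]
          rw [h3]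
          simp

end H73.TO
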