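import Pool.Agent.H73.TO.TypB
import Pool.Agent.H63.KO.FlagEquiv
import Pool.Agent.H63.KO.AutoPerm

/-! # TO.TypOf : the type map of a polytope with finitely many flag orbits

Compare `H63/KO/OneOrbit.lean`, where the same quotient is built (copy from there). `flagEquiv P` gives `e : P.Fl ≃ Flag L`; `π₀ φ = ⟦e φ⟧` in `MulAction.orbitRel.Quotient`, which is equivalent to `Fin n`
(`Finite.equivFinOfCardEq`; the quotient is finite because `n ≥ 1`). `fib`: if `π φ = π φ'` there is `g : L ≃o L` with `φ' = φ.act g` up to direction; `θ = Fl.act g` as a permutation (inverse `act g.symm`), it commutes with `rho`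
(`act_rho`) and preserves orbits. `s i v := π (rho i (surjInv v))`, `hs` because `act_rho`. `Full`: `auto_of_perm` (H63/KO/AutoPerm.lean): every automorphism `θ` of `P.sys` is `φ ↦ φ.act g` (for `i` outside `[1, d]` both sides are trivial: `rho_out`). -/

namespace H73.TO

open H63.KO

private theorem typOf_bij {L : Type} [PartialOrder L] {P : PolyLat L} (g : L ≃o L) :
    Function.Bijective (PolyLat.Fl.act (P := P) g) := by
  constructor
  · intro x y h
    apply PolyLat.Fl.ext'
    intro i
    have h1 : g (x.f i) = g (y.f i) := congrArg (fun z : P.Fl => z.f i) h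
    exact g.injective h1
  · intro y
    refine ⟨y.act g.symm, PolyLat.Fl.ext' fun i => ?_⟩
    show g (g.symm (y.f i)) = y.f i
    exact g.apply_symm_apply _

theorem typ_of_card {L : Type} [PartialOrder L] [Finite L] (P : PolyLat L) (n : ℕ) (hn : 1 ≤ n)
    (h : Nat.card (MulAction.orbitRel.Quotient (L ≃o L) (Flag L)) = n) :
    ∃ T : Typ P.sys (Fin n), T.Full := by
  obtain ⟨e, he⟩ := flagEquiv P
  have hrel : ∀ x y : P.Fl,
      ((⟦e x⟧ : MulAction.orbitRel.Quotient (L ≃o L) (Flag L)) = ⟦e y⟧) ↔
        ∃ g : L ≃o L, x = y.act g := by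
    intro x y
    rw [Quotient.eq]
    constructor
    · intro h
      obtain ⟨g, hg⟩ : e x ∈ MulAction.orbit (L ≃o L) (e y) := h
      refine ⟨g, e.injective ?_⟩
      rw [he]
      exact hg.symm
    · rintro ⟨g, rfl⟩
      show e (y.act g) ∈ MulAction.orbit (L ≃o L) (e y)
      exact ⟨g, (he g y).symm⟩
  have hfin : Finite (MulAction.orbitRel.Quotient (L ≃o L) (Flag L)) :=
    Nat.finite_of_card_ne_zero (by omega)
  let q := Finite.equivFinOfCardEq h
  let π : P.Fl → Fin n := fun φ => q ⟦e φ⟧
  have hπ : ∀ x y : P.Fl, π x = π y ↔ ∃ g : L ≃o L, x = y.act g := by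
    intro x y
    rw [← hrel x y]
    exact q.injective.eq_iff
  have hsurj : Function.Surjective π := by
    intro v
    obtain ⟨c, hc⟩ := Quotient.exists_rep (q.symm v)
    refine ⟨e.symm c, ?_⟩
    show q ⟦e (e.symm c)⟧ = v
    rw [Equiv.apply_symm_apply, hc, Equiv.apply_symm_apply]
  let T : Typ P.sys (Fin n) :=
    { π := π
      s := fun i v => π (rho i (Function.surjInv hsurj v))
      surj := hsurj
      hs := by
        intro i x
        have h1 : π (Function.surjInv hsurj (π x)) = π x := Function.surjInv_eq hsurj (π x)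
        obtain ⟨g, hg⟩ := (hπ _ _).1 h1
        show π (rho i x) = π (rho i (Function.surjInv hsurj (π x)))
        rw [hg, ← act_rho]
        exact ((hπ _ _).2 ⟨g, rfl⟩).symm
      fib := by
        intro x y hxy
        obtain ⟨g, hg⟩ := (hπ y x).1 hxy.symm
        refine ⟨Equiv.ofBijective _ (typOf_bij g), ?_, ?_, ?_⟩
        · intro i z
          show (rho i z).act g = rho i (z.act g)
          rw [act_rho]
        · intro z
          exact (hπ _ _).2 ⟨g, rfl⟩
        · exact hg.symm }
  refine ⟨T, ?_⟩
  intro θ hθ z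
  obtain ⟨g, hg⟩ := auto_of_perm θ hθ
  show π (θ z) = π z
  rw [hg]
  exact (hπ _ _).2 ⟨g, rfl⟩

end H73.TO
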