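import Pool.Agent.H73.TO.R1
import Pool.Agent.H73.TO.R2
import Pool.Agent.H73.TO.TypOf
import Pool.Agent.H73.TO.TypCl
import Pool.Agent.H73.TO.ExI1
import Pool.Agent.H73.TO.C3
import Pool.Agent.H73.TO.HW
import Pool.Agent.H73.TO.HX
import Pool.Agent.H73.TO.H2L
import Pool.Agent.H73.TO.CombIso

/-! # TO.Main : the row k = 3 (glue)

`polytope_lat` gives `P` with `P.d = finrank = d`; `typ_of_card` (`n = 3`), `typ_class`. Type I_j: if `j + 2 ≤ d` then `j = 1` (`no_typeI`) and `real_I`; if `j = d - 1`: `(T.rev).ren (Equiv.swap 0 2)` has type I_1 (`sI_rev`), `real_I_rev`. Type II_j: `j = 2`: `real_II`; `j = d - 1`: `T.rev` has type II_2 (`sII_rev`), `real_II_rev`;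
otherwise `3 ≤ j`, `j + 2 ≤ d`: `exists_six`, `per_typeII_a`, `per_typeII_b`, `chart_three`, `exists_wit`, `wit_false` with `polytope_H2`. At the end `combOrbits Q' = combOrbits Q = 3` because the face lattices are isomorphic (the orbit quotient is transported). -/

namespace H73.TO

open H63.KO KOrbit

theorem no_interior {L : Type} [PartialOrder L] [Fintype L] (P : PolyLat L) (hH : H2 P)
    (T : Typ P.sys (Fin 3)) {j : ℕ} (h1 : 3 ≤ j) (h2 : j + 2 ≤ P.d)
    (hs : ∀ i v, T.s i v = sII j i v) : False := by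
  have hfl : Finite P.Fl := finite_fl P
  have h2' : j + 1 ≤ P.sys.d := by show j + 1 ≤ P.d; omega
  obtain ⟨T0, a1, a2, a3⟩ := exists_six T (by omega) h2' hs
  have hfl6 : ∀ i v, T0.per i (flip6 v) = T0.per i v := by
    intro i v
    rw [a3, a3]; rfl
  have hp := per_typeII_a T0 (by omega) h2' a1 hfl6
  have hp' := per_typeII_b T0 (by omega) h2' a1 hfl6
  obtain ⟨M, C, m1, m2⟩ := chart_three T0 h1 (by show j + 2 ≤ P.d; omega) a1 hfl6 hp hp'
  obtain ⟨x, y, A, E, T', hW⟩ := exists_wit P h1 h2 C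
  exact wit_false P hH m1 m2 hW

theorem row_real {L : Type} [PartialOrder L] [Fintype L] (P : PolyLat L) (hH : H2 P) (d : ℕ)
    (hd : P.d = d) (hd4 : 4 ≤ d)
    (h3 : Nat.card (MulAction.orbitRel.Quotient (L ≃o L) (Flag L)) = 3) :
    ∃ Q' : Set (Euc d), IsPolytope Q' ∧ Nonempty (L ≃o Face Q') ∧ geomOrbits Q' = combOrbits Q' := by
  have hfl : Finite P.Fl := finite_fl P
  obtain ⟨T₁, hT₁⟩ := typ_of_card P 3 (by norm_num) h3
  obtain ⟨T, hT, hI | hII⟩ := typ_class T₁ hT₁
  · obtain ⟨j, j1, j2, hs⟩ := hI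
    change j + 1 ≤ P.d at j2
    by_cases hj : j + 2 ≤ P.d
    · by_cases hj1 : j = 1
      · subst hj1
        exact real_I P d hd hd4 T hT hs
      · exact (no_typeI T (by omega) hj hs).elim
    · have hjd : j = P.d - 1 := by omega
      refine real_I_rev P d hd hd4 (T.rev.ren (Equiv.swap 0 2)) (Typ.ren_full _ (Typ.rev_full hT)) ?_
      intro i v
      change Equiv.swap 0 2 (T.s (P.d + 1 - i) ((Equiv.swap 0 2).symm v)) = sI 1 i v
      rw [hs, Equiv.symm_swap]
      by_cases hi : i ≤ P.d + 1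
      · rw [sI_rev (d := P.d) j1 j2 hi, Equiv.swap_apply_self, Equiv.swap_apply_self]
        have e : P.d - j = 1 := by omega
        rw [e]
      · have e : P.d + 1 - i = 0 := by omega
        rw [e]
        have e1 : ∀ v, sI j 0 v = v := by
          intro v
          unfold sI
          rw [if_neg (by omega), if_neg (by omega)]
        have e2 : ∀ v, sI 1 i v = v := by
          intro v
          unfold sI
          rw [if_neg (by omega), if_neg (by omega)]
        rw [e1, e2, Equiv.swap_apply_self]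
  · obtain ⟨j, j1, j2, hs⟩ := hII
    change j + 1 ≤ P.d at j2
    by_cases hj2 : j = 2
    · subst hj2
      exact real_II P d hd hd4 T hT hs
    · by_cases hj : j + 2 ≤ P.d
      · exact (no_interior P hH T (by omega) hj hs).elim
      · refine real_II_rev P d hd hd4 T.rev (Typ.rev_full hT) ?_
        intro i v
        change T.s (P.d + 1 - i) v = sII 2 i v
        rw [hs]
        by_cases hi : i ≤ P.d + 1
        · rw [sII_rev (d := P.d) j1 j2 hi]
          have e : P.d + 1 - j = 2 := by omega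
          rw [e]
        · have e : P.d + 1 - i = 0 := by omega
          rw [e]
          unfold sII
          rw [if_neg (by omega), if_neg (by omega), if_neg (by omega), if_neg (by omega)]

theorem row_three (d : ℕ) (hd : 4 ≤ d) : PropertyR 3 d := by
  intro Q hQ hk
  obtain ⟨⟨T, rfl⟩, hint⟩ := hQ
  obtain ⟨hfin, P, hP⟩ := polytope_lat T hint
  have hPd : P.d = d := by rw [hP, finrank_euclideanSpace, Fintype.card_fin]
  have hft : Fintype {F : Set (Euc d) // IsExposed ℝ (convexHull ℝ (T : Set (Euc d))) F} :=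
    Fintype.ofFinite _
  obtain ⟨Q', h1, ⟨e⟩, h3⟩ := row_real P (polytope_H2 T P) d hPd hd hk
  exact ⟨Q', h1, ⟨e⟩, by rw [h3, ← comb_iso e, hk]⟩

end H73.TO
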