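import Pool.Agent.H73.TO.TypB

/-! # TO.Mat : Coxeter matrices from a table (complete, no sorry) -/

namespace H73.TO

open H63.KO

/-- the Coxeter matrix with the off-diagonal entries `max (m i j) (m j i)` (1 is replaced by 2) -/
def mkCox {B : Type} [DecidableEq B] (m : B → B → ℕ) : CoxeterMatrix B where
  M := fun i j => if i = j then 1 else if max (m i j) (m j i) = 1 then 2 else max (m i j) (m j i)
  isSymm := Matrix.IsSymm.ext (fun i j => by
    by_cases h : i = j
    · subst h; rfl
    · show (if j = i then 1 else if max (m j i) (m i j) = 1 then 2 else max (m j i) (m i j)) =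
        (if i = j then 1 else if max (m i j) (m j i) = 1 then 2 else max (m i j) (m j i))
      rw [if_neg h, if_neg (Ne.symm h), max_comm])
  diagonal := by intro i; simp
  off_diagonal := by
    intro i j h
    rw [if_neg h]
    split_ifs with h1
    · norm_num
    · exact h1

theorem mkCox_apply {B : Type} [DecidableEq B] {m : B → B → ℕ} {i j : B} (h : i ≠ j)
    (h1 : m i j ≠ 1) (h2 : m j i ≤ m i j) : mkCox m i j = m i j := by
  show (if i = j then 1 else if max (m i j) (m j i) = 1 then 2 else max (m i j) (m j i)) = m i j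
  rw [if_neg h, max_eq_left h2, if_neg h1]

theorem mkCox_apply' {B : Type} [DecidableEq B] {m : B → B → ℕ} {i j : B} (h : i ≠ j)
    (h1 : m j i ≠ 1) (h2 : m i j ≤ m j i) : mkCox m i j = m j i := by
  show (if i = j then 1 else if max (m i j) (m j i) = 1 then 2 else max (m i j) (m j i)) = m j i
  rw [if_neg h, max_eq_right h2, if_neg h1]

theorem mkCox_self {B : Type} [DecidableEq B] {m : B → B → ℕ} (i : B) : mkCox m i i = 1 :=
  (mkCox m).diagonal i

variable {X : Type} {S : FSys X}

/-- the table of type I_1 (numbers `0 = Z`, `1 = Q`, `2 = R`, `i - 1 = W_i`) -/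
noncomputable def tab1 (T : Typ S (Fin 3)) (k l : ℕ) : ℕ :=
  if k = 0 ∧ l = 1 then T.per 2 0 else if k = 1 ∧ l = 2 then T.per 2 1 / 2
  else if k = 1 ∧ l = 3 then T.per 3 0 else if k = 2 ∧ l = 3 then T.per 3 2
  else if 3 ≤ k ∧ l = k + 1 then T.per l 0 else 2

/-- the Coxeter matrix of type I_1 -/
noncomputable def cox1 (T : Typ S (Fin 3)) : CoxeterMatrix (Fin S.d) :=
  mkCox (fun p q => tab1 T p.val q.val)

/-- the table of type II_2 (numbers `0, 1 = U`, `2, 3 = P`, `i - 1 = W_i`) -/
noncomputable def tab2 (T : Typ S (Fin 3 × Bool)) (k l : ℕ) : ℕ :=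
  if (k = 0 ∧ l = 2) ∨ (k = 1 ∧ l = 3) then T.per 3 (0, true)
  else if k = 2 ∧ l = 3 then T.per 3 (1, true) / 2
  else if (k = 2 ∨ k = 3) ∧ l = 4 then T.per 4 (0, true)
  else if 4 ≤ k ∧ l = k + 1 then T.per l (0, true) else 2

/-- the Coxeter matrix of type II_2 -/
noncomputable def cox2 (T : Typ S (Fin 3 × Bool)) : CoxeterMatrix (Fin S.d) :=
  mkCox (fun p q => tab2 T p.val q.val)

/-- the table of the interior type II_j (`(0, e) = U e`, `(1, e) = P e`, `(2, e) = R e`) -/
noncomputable def tab3 (T : Typ S (Fin 3 × Bool)) (j : ℕ) (p q : Fin 3 × Bool) : ℕ :=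
  if p.1 = 0 ∧ q.1 = 1 ∧ p.2 = q.2 then T.per (j + 1) (0, true)
  else if p.1 = 2 ∧ q.1 = 0 ∧ p.2 ≠ q.2 then T.per (j - 2) (0, true)
  else if p.1 = 1 ∧ q.1 = 1 then T.per (j + 1) (1, true) / 2
  else if p.1 = 2 ∧ q.1 = 2 then T.per (j - 2) (1, true) / 2 else 2

/-- the Coxeter matrix of the interior type II_j -/
noncomputable def cox3 (T : Typ S (Fin 3 × Bool)) (j : ℕ) : CoxeterMatrix (Fin 3 × Bool) :=
  mkCox (tab3 T j)

end H73.TO
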