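import Pool.Agent.H73.TO.CPot
import Pool.Agent.H80.Cox.Parabolic

/-! # TO.NoInf : a Coxeter labelling has no entry 0 (infinite order) outside the diagonal

`X` is nonempty (`h.cov m` gives a state). `M.Group` is finite (`finite_group`), so `FinS cs Finset.univ` (`FinS.of_finite`, H80/Cox/Parabolic.lean) for `cs = M.toCoxeterSystem`: there is `w` with `rho cs w (al r) ≤ 0` for all `r`.
`K0_two` for the pair `m, n` with `M m n = 0` gives the contradiction (`rho cs w (al m + al n) ≤ 0`). -/

namespace H73.TO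

open H63.KO Pool.Agent.H80.Cox

variable {X V B : Type} {S : FSys X}

theorem no_inf [Finite X] [Fintype B] [DecidableEq B] {T : Typ S V} {M : CoxeterMatrix B}
    {ω : ℕ → V → B} {a b : ℕ} (h : CLab T M ω a b) {m n : B} (hmn : m ≠ n) : M m n ≠ 0 := by
  intro h0
  obtain ⟨_, v, _⟩ := h.cov m
  obtain ⟨x, _⟩ := T.surj v
  have : Nonempty X := ⟨x⟩
  have : Finite M.Group := finite_group h
  obtain ⟨w, _, hw⟩ := FinS.of_finite M.toCoxeterSystem (L := Finset.univ) (Set.toFinite _)
  refine K0_two M.toCoxeterSystem hmn h0 (w := w) ?_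
  rw [map_add]
  exact add_nonpos (hw m (Finset.mem_univ _)) (hw n (Finset.mem_univ _))

end H73.TO
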