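import Pool.Agent.H73.TO.TypB
import Pool.Agent.H63.KO.Cyc

/-! # TO.Pot : the potential theorem for labels which depend only on the state

`S.univ` (H63/KO/Sys.lean) for `R = Set.univ`, `g i x = w i (T.π x)`. The commutation hypothesis is `hcomm` (`T.hs`). The local hypothesis for the labels `i, i + 1` is the
lemma `cyc` (H63/KO/Cyc.lean) for `α = ρ i`, `β = ρ (i + 1)`, `R = univ`, `ga x = w i (T.π x)`, `gb x = w (i + 1) (T.π x)`; its last hypothesis is about the iterates of
`(x, h) ↦ (ρ i (ρ (i+1) x), h * gb x * ga (ρ (i+1) x))`; the second coordinate depends only on the state of `x`, so it follows from `hrel` at `v = T.π x`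
(semiconjugacy `(x, h) ↦ (T.π x, h)`, left multiplication by `h` commutes with the step, `T.per i (T.π x) = S.per i x`), the first coordinate is `S.per_iter`.
`fpf` of the flag system gives `fα`, `fβ`; `R` is `univ` so the closure hypotheses are trivial. -/

namespace H73.TO

open H63.KO

variable {X V : Type} {S : FSys X}

theorem pot [Finite X] (T : Typ S V) {G : Type} [Group G] (w : ℕ → V → G) {a b : ℕ} (ha : 1 ≤ a)
    (hab : a < b) (hb : b ≤ S.d) (hinv : ∀ i, a ≤ i → i ≤ b → ∀ v, w i v * w i (T.s i v) = 1)
    (hcomm : ∀ i k, a ≤ i → i + 2 ≤ k → k ≤ b → ∀ v, w i v * w k (T.s i v) = w k v * w i (T.s k v))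
    (hrel : ∀ i, a ≤ i → i + 1 ≤ b → ∀ v,
      ((fun p : V × G => (T.s i (T.s (i + 1) p.1), p.2 * w (i + 1) p.1 * w i (T.s (i + 1) p.1)))^[
        T.per i v] (v, 1)).2 = 1) :
    ∃ F : X → G, ∀ i, a ≤ i → i ≤ b → ∀ x, F (S.ρ i x) = F x * w i (T.π x) := by
  obtain ⟨F, hF⟩ := S.univ G a b Set.univ (fun i x => w i (T.π x)) ha hab hb
    (fun _ _ _ _ _ => trivial)
    (fun i j h1 h2 h3 x _ => by
      simp only [T.hs]
      exact hcomm i j h1 h2 h3 (T.π x))
    (fun i h1 h2 => by
      obtain ⟨u, hu⟩ := cyc (S.ρ i) (S.ρ (i + 1)) (S.inv i) (S.inv (i + 1))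
        (S.fpf i (by omega) (by omega)) (S.fpf (i + 1) (by omega) (by omega)) Set.univ
        (fun _ _ => trivial) (fun _ _ => trivial) (fun x => w i (T.π x))
        (fun x => w (i + 1) (T.π x))
        (fun x _ => by
          simp only [T.hs]
          exact hinv i h1 (by omega) (T.π x))
        (fun x _ => by
          simp only [T.hs]
          exact hinv (i + 1) (by omega) h2 (T.π x))
        (fun x _ h => by
          have key : ∀ k : ℕ, (fun p : X × G => (S.ρ i (S.ρ (i + 1) p.1),
              p.2 * w (i + 1) (T.π p.1) * w i (T.π (S.ρ (i + 1) p.1))))^[k] (x, h) =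
              ((fun z => S.ρ i (S.ρ (i + 1) z))^[k] x,
                h * ((fun p : V × G => (T.s i (T.s (i + 1) p.1),
                  p.2 * w (i + 1) p.1 * w i (T.s (i + 1) p.1)))^[k] (T.π x, 1)).2) ∧
              ((fun p : V × G => (T.s i (T.s (i + 1) p.1),
                  p.2 * w (i + 1) p.1 * w i (T.s (i + 1) p.1)))^[k] (T.π x, 1)).1 =
                T.π ((fun z => S.ρ i (S.ρ (i + 1) z))^[k] x) := by
            intro k
            induction k with
            | zero => exact ⟨by simp, rfl⟩
            | succ k ih =>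
              rw [Function.iterate_succ_apply', Function.iterate_succ_apply',
                Function.iterate_succ_apply', ih.1]
              refine ⟨Prod.ext rfl ?_, ?_⟩
              · simp only [ih.2, T.hs]
                simp only [mul_assoc]
              · simp only [ih.2, T.hs]
          have h5 := (key (S.per i x)).1
          have h6 := hrel i h1 h2 (T.π x)
          rw [T.per_pi] at h6
          rw [h6, mul_one] at h5
          refine h5.trans (Prod.ext ?_ rfl)
          exact S.per_iter i x)
      exact ⟨u, hu⟩)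
  exact ⟨F, fun i h1 h2 x => hF i h1 h2 x trivial⟩

end H73.TO
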