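import Pool.Agent.H73.TO.CPot

/-! # TO.PsiA : a Coxeter labelling gives an action of the Coxeter group

Given: `h : CLab T M ω a b`, `hR : CRel T M ω a b`, base flags `ξ v` with `T.π (ξ v) = v` joined by the edges, and for every generator `n` an automorphism `θ n` with `θ n (ξ v) = ρ i (ξ v)` whenever `ω i v = n`, `s i v = v`, `i ∈ [a, b]`.
`θ n * θ n = 1`: at a pair `(i, v)` of `n` (`h.cov`): `θ n (θ n (ξ v)) = θ n (ρ i (ξ v)) = ρ i (θ n (ξ v)) = ρ i (ρ i (ξ v)) = ξ v`; `aut_eq`. For `m ≠ n`, `M m n ≠ 0` use `hR`; it suffices to show that `(θ m * θ n) ^ (M m n)` fixes one flag (`aut_eq`). Write `ξ = ξ v`.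
(1) far labels `i, k` at `v`: `θ m θ n ξ = θ m ρ k ξ = ρ k θ m ξ = ρ k ρ i ξ`, and `ρ k ρ i ρ k ρ i ξ = ξ` (`S.comm`, `S.inv`), exponent 2. (2) labels `i, i + 1` at `v`: `θ m θ n ξ = ρ (i+1) ρ i ξ` or `ρ i ρ (i+1) ξ`, so `(θ m θ n)^k ξ = (ρ (i+1) ρ i)^k ξ` (automorphisms commute with the `ρ`), and `k = per i v` fixes (`per_iter`; for the other
order use `per_symm` or invert). (3) `v' = s i v`, `ξ v' = ρ i ξ`: `θ m ξ = ρ (i+1) ξ`, `θ n (ξ v') = ρ (i+1) (ξ v')`, so `θ n ξ = ρ i (θ n (ξ v')) = ρ i ρ (i+1) ρ i ξ`, `θ m θ n ξ = ρ i ρ (i+1) ρ i (θ m ξ) = ρ i ρ (i+1) ρ i ρ (i+1) ξ`: `(θ m θ n)^k ξ = (ρ i ρ (i+1))^(2k) ξ`, `2 k = per i v`. (4) the same with the two labels exchanged.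
So `ψ = M.toCoxeterSystem.lift ⟨θ, _⟩` (`CoxeterMatrix.IsLiftable`: `∀ i i', (f i * f i') ^ M i i' = 1`; `M i i' = 0` trivial, diagonal `M i i = 1`). `ψ w` is an automorphism (`CoxeterSystem.simple_induction`, `IsAut.mul`) and preserves the states: for a generator at `ξ v` (`T.π (ρ i (ξ v)) = s i v = v`), so everywhere (`Typ.pi_aut`). -/

namespace H73.TO

open H63.KO

variable {X V B : Type} {S : FSys X}

private theorem iter_aut {α : Equiv.Perm X} (W : X → X) (hW : ∀ z, α (W z) = W (α z)) {x : X}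
    (hx : α x = W x) (k : ℕ) : (α ^ k) x = W^[k] x := by
  have hk : ∀ k z, α (W^[k] z) = W^[k] (α z) := by
    intro k
    induction k with
    | zero => intro z; rfl
    | succ k ih => intro z; rw [Function.iterate_succ_apply, ih, hW, ← Function.iterate_succ_apply]
  induction k with
  | zero => rfl
  | succ k ih =>
      rw [pow_succ', Equiv.Perm.mul_apply, ih, hk, hx, ← Function.iterate_succ_apply]

private theorem isAut_one : IsAut S (1 : Equiv.Perm X) := fun _ _ => rfl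

private theorem isAut_pow {α : Equiv.Perm X} (h : IsAut S α) (k : ℕ) : IsAut S (α ^ k) := by
  induction k with
  | zero => exact isAut_one
  | succ k ih => rw [pow_succ]; exact ih.mul h

private theorem eq_one_of {α : Equiv.Perm X} (h : IsAut S α) (k : ℕ) {x : X} (hx : (α ^ k) x = x) :
    α ^ k = 1 :=
  aut_eq (isAut_pow h k) isAut_one (x := x) (by rw [hx]; rfl)

private theorem per_iter_swap [Finite X] (i : ℕ) (x : X) :
    (fun z => S.ρ (i + 1) (S.ρ i z))^[S.per i x] x = x := by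
  rw [← S.per_symm i x]
  exact Function.iterate_minimalPeriod

theorem exists_psi [Finite X] {T : Typ S V} {M : CoxeterMatrix B} {ω : ℕ → V → B} {a b : ℕ}
    (h : CLab T M ω a b) (hR : CRel T M ω a b) (ξ : V → X) (hξ : ∀ v, T.π (ξ v) = v)
    (hedge : ∀ i, a ≤ i → i ≤ b → ∀ v, T.s i v ≠ v → ξ (T.s i v) = S.ρ i (ξ v))
    (hθ : ∀ n : B, ∃ θ : Equiv.Perm X, IsAut S θ ∧
      ∀ i, a ≤ i → i ≤ b → ∀ v, T.s i v = v → ω i v = n → θ (ξ v) = S.ρ i (ξ v)) :
    ∃ ψ : M.Group →* Equiv.Perm X, (∀ w, IsAut S (ψ w)) ∧ (∀ w x, T.π (ψ w x) = T.π x) ∧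
      ∀ i, a ≤ i → i ≤ b → ∀ v, T.s i v = v → ψ (M.simple (ω i v)) (ξ v) = S.ρ i (ξ v) := by
  classical
  choose θ hA hθ' using hθ
  have hper : ∀ i v, T.per i v = S.per i (ξ v) := by
    intro i v
    conv_lhs => rw [← hξ v]
    exact T.per_pi i (ξ v)
  have hin : ∀ n, θ n * θ n = 1 := by
    intro n
    obtain ⟨i, v, h1, h2, h3, h4⟩ := h.cov n
    refine aut_eq ((hA n).mul (hA n)) isAut_one (x := ξ v) ?_
    rw [Equiv.Perm.mul_apply, hθ' n i h1 h2 v h3 h4, hA n, hθ' n i h1 h2 v h3 h4, S.inv]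
    rfl
  have hrel : ∀ m n, (θ m * θ n) ^ (M m n) = 1 := by
    intro m n
    by_cases hmn : m = n
    · subst hmn
      rw [hin, one_pow]
    by_cases h0 : M m n = 0
    · rw [h0, pow_zero]
    have hα : IsAut S (θ m * θ n) := (hA m).mul (hA n)
    rcases hR m n hmn h0 with ⟨i, k, v, a1, a2, a3, a4, hik, a5, a6, a7, a8, a9⟩ |
      ⟨i, v, a1, a2, a3, a4, a5, a6⟩ | ⟨i, v, a1, a2, a3, a4, a5, a6, a7, a8⟩ |
      ⟨i, v, a1, a2, a3, a4, a5, a6, a7, a8⟩
    · rw [a9]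
      refine eq_one_of hα 2 (x := ξ v) ?_
      have hc : ∀ z, S.ρ i (S.ρ k z) = S.ρ k (S.ρ i z) := by
        intro z
        rcases hik with hh | hh
        · exact S.comm i k hh z
        · exact (S.comm k i hh z).symm
      have e : (θ m * θ n) (ξ v) = S.ρ k (S.ρ i (ξ v)) := by
        rw [Equiv.Perm.mul_apply, hθ' n k a3 a4 v a6 a8, hA m, hθ' m i a1 a2 v a5 a7]
      rw [pow_two, Equiv.Perm.mul_apply, e, hα, hα, e, hc, S.inv, S.inv]
    · have b1 : i ≤ b := by omega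
      have b2 : a ≤ i + 1 := by omega
      refine eq_one_of hα _ (x := ξ v) ?_
      rcases a5 with ⟨c1, c2⟩ | ⟨c1, c2⟩
      · have e : (θ m * θ n) (ξ v) = S.ρ (i + 1) (S.ρ i (ξ v)) := by
          rw [Equiv.Perm.mul_apply, hθ' n (i + 1) b2 a2 v a4 c2, hA m, hθ' m i a1 b1 v a3 c1]
        rw [iter_aut (fun z => S.ρ (i + 1) (S.ρ i z)) (fun z => by rw [hα, hα]) e, ← a6, hper]
        exact per_iter_swap i (ξ v)
      · have e : (θ m * θ n) (ξ v) = S.ρ i (S.ρ (i + 1) (ξ v)) := by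
          rw [Equiv.Perm.mul_apply, hθ' n i a1 b1 v a3 c1, hA m, hθ' m (i + 1) b2 a2 v a4 c2]
        rw [iter_aut (fun z => S.ρ i (S.ρ (i + 1) z)) (fun z => by rw [hα, hα]) e, ← a6, hper]
        exact S.per_iter i (ξ v)
    · have b1 : i ≤ b := by omega
      have b2 : a ≤ i + 1 := by omega
      refine eq_one_of hα _ (x := ξ v) ?_
      have c1 : ξ (T.s i v) = S.ρ i (ξ v) := hedge i a1 b1 v a3
      have c2 : θ n (ξ v) = S.ρ i (S.ρ (i + 1) (S.ρ i (ξ v))) := by
        have := hθ' n (i + 1) b2 a2 (T.s i v) a5 a7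
        rw [c1, hA n] at this
        rw [← this, S.inv]
      have e : (θ m * θ n) (ξ v) = (fun z => S.ρ i (S.ρ (i + 1) z))^[2] (ξ v) := by
        rw [Equiv.Perm.mul_apply, c2, hA m, hA m, hA m, hθ' m (i + 1) b2 a2 v a4 a6]
        rfl
      rw [iter_aut ((fun z => S.ρ i (S.ρ (i + 1) z))^[2])
        (fun z => by
          show (θ m * θ n) (S.ρ i (S.ρ (i + 1) (S.ρ i (S.ρ (i + 1) z)))) =
            S.ρ i (S.ρ (i + 1) (S.ρ i (S.ρ (i + 1) ((θ m * θ n) z))))
          rw [hα, hα, hα, hα]) e, ← Function.iterate_mul, ← a8, hper]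
      exact S.per_iter i (ξ v)
    · have b1 : i ≤ b := by omega
      have b2 : a ≤ i + 1 := by omega
      refine eq_one_of hα _ (x := ξ v) ?_
      have c1 : ξ (T.s (i + 1) v) = S.ρ (i + 1) (ξ v) := hedge (i + 1) b2 a2 v a3
      have c2 : θ n (ξ v) = S.ρ (i + 1) (S.ρ i (S.ρ (i + 1) (ξ v))) := by
        have := hθ' n i a1 b1 (T.s (i + 1) v) a5 a7
        rw [c1, hA n] at this
        rw [← this, S.inv]
      have e : (θ m * θ n) (ξ v) = (fun z => S.ρ (i + 1) (S.ρ i z))^[2] (ξ v) := by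
        rw [Equiv.Perm.mul_apply, c2, hA m, hA m, hA m, hθ' m i a1 b1 v a4 a6]
        rfl
      rw [iter_aut ((fun z => S.ρ (i + 1) (S.ρ i z))^[2])
        (fun z => by
          show (θ m * θ n) (S.ρ (i + 1) (S.ρ i (S.ρ (i + 1) (S.ρ i z)))) =
            S.ρ (i + 1) (S.ρ i (S.ρ (i + 1) (S.ρ i ((θ m * θ n) z))))
          rw [hα, hα, hα, hα]) e, ← Function.iterate_mul, ← a8, hper]
      exact per_iter_swap i (ξ v)
  have hπθ : ∀ n z, T.π (θ n z) = T.π z := by
    intro n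
    obtain ⟨i, v, h1, h2, h3, h4⟩ := h.cov n
    refine T.pi_aut (hA n) (x := ξ v) ?_
    rw [hθ' n i h1 h2 v h3 h4, T.hs, hξ, h3]
  let ψ : M.Group →* Equiv.Perm X := M.toCoxeterSystem.lift ⟨θ, hrel⟩
  have hψ : ∀ n, ψ (M.simple n) = θ n := by
    intro n
    have := M.toCoxeterSystem.lift_apply_simple (f := θ) hrel n
    simpa [ψ] using this
  refine ⟨ψ, ?_, ?_, ?_⟩
  · intro w
    induction w using M.toCoxeterSystem.simple_induction with
    | simple n =>
        have := hψ n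
        simp only [CoxeterMatrix.toCoxeterSystem_simple]
        rw [this]; exact hA n
    | one => rw [map_one]; exact isAut_one
    | mul w w' h1 h2 => rw [map_mul]; exact h1.mul h2
  · intro w
    induction w using M.toCoxeterSystem.simple_induction with
    | simple n =>
        intro x
        have := hψ n
        simp only [CoxeterMatrix.toCoxeterSystem_simple]
        rw [this]; exact hπθ n x
    | one => intro x; rw [map_one]; rfl
    | mul w w' h1 h2 => intro x; rw [map_mul, Equiv.Perm.mul_apply, h1, h2]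
  · intro i h1 h2 v h3
    rw [hψ]
    exact hθ' _ i h1 h2 v h3 rfl

end H73.TO
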