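import Pool.Agent.H73.TO.Wts

/-! # TO.Wy1 : Wythoff data for the type I_1

`ϖ` from `exists_weights`. `vv 0 = α • ϖ (idx 2)`, `vv 1 = vv 2 = β • ϖ (idx 0)`, `ll _ = ϖ (idx (d - 1))`, `α = 1 / bil (ϖ (idx 2)) (ϖ (idx (d-1)))`, `β = 1 / bil (ϖ (idx 0)) (ϖ (idx (d-1)))` (positive by `DLink`). `s = sI 1`: label 1 exchanges 0, 1, label 2 exchanges 1, 2. `fB M n (vv 0) = α` if `n = idx 2`, else 0, and so on.
`vinv`: only label 2 moves a state (1, 2). `vwal`: `i = 2`, `v = 0`: `idx 0`; `i = 3`: `v = 0, 1`: `idx 1`, `v = 2`: `idx 2` (here `vv 2` is a multiple of `ϖ (idx 0)`); `i ≥ 4`: `idx (i - 1)` with `i - 1 ≥ 3`. `lwal`: `i ≤ d - 1`: `ω i v = idx k` with `k ≤ d - 2` (`k ≤ 2` for `i ≤ 3`, `d ≥ 4`). `vcov`: at `v = 0`, `n ≠ idx 2`: `idx 0`: `(2, 0)`;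
`idx 1`: `(3, 0)`; `idx (i - 1)`: `(i, 0)`. At `v = 1, 2`, `n ≠ idx 0`: `idx 1`: `(3, 1)`, `idx 2`: `(3, 2)`, `idx (i-1)`: `(i, v)`; `1, 2` are joined by label 2. `lcov`, `n ≠ idx (d-1)`: `idx 0`: `(2, 0)`; `idx 1`: `(3, 0)`; `idx 2`: `(3, 2)`; `idx (i - 1)`, `4 ≤ i ≤ d - 1`: `(i, 0)`; all states are joined by the labels 1, 2. `con`: left alternative.
`idx` is injective on numbers `< d`. -/

namespace H73.TO

open Pool.Agent.H80.Cox Pool.Agent.H44.Cox

private theorem idx_inj1 {d : ℕ} (hd : 4 ≤ d) {k k' : ℕ} (hk : k < d) (hk' : k' < d) :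
    idx hd k = idx hd k' ↔ k = k' := by
  unfold idx
  rw [Fin.mk.injEq]
  omega

private theorem idx_val1 {d : ℕ} (hd : 4 ≤ d) (n : Fin d) : idx hd n.val = n := by
  apply Fin.ext
  show min n.val (d - 1) = n.val
  have := n.isLt
  omega

private theorem om1_two {d : ℕ} (hd : 4 ≤ d) {i : ℕ} (hi : i ≤ 2) (v : Fin 3) :
    om1 hd i v = idx hd 0 := by
  unfold om1
  rw [if_pos hi]

private theorem om1_three {d : ℕ} (hd : 4 ≤ d) (v : Fin 3) :
    om1 hd 3 v = if v = 2 then idx hd 2 else idx hd 1 := by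
  unfold om1
  rw [if_neg (by omega), if_pos rfl]

private theorem om1_ge {d : ℕ} (hd : 4 ≤ d) {i : ℕ} (hi : 4 ≤ i) (v : Fin 3) :
    om1 hd i v = idx hd (i - 1) := by
  unfold om1
  rw [if_neg (by omega), if_neg (by omega)]

private theorem sI_one (v : Fin 3) : sI 1 1 v = Equiv.swap 0 1 v := by
  simp [sI]

private theorem sI_two (v : Fin 3) : sI 1 2 v = Equiv.swap 1 2 v := by
  simp [sI]

private theorem sI_ge {i : ℕ} (hi : 3 ≤ i) (v : Fin 3) : sI 1 i v = v := by
  unfold sI
  rw [if_neg (by omega), if_neg (by omega)]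

private theorem step1 {V : Type} {s : ℕ → V → V} {a b : ℕ} {u v : V} (i : ℕ) (h1 : a ≤ i) (h2 : i ≤ b)
    (h : v = s i u) : Reach s a b u v :=
  Relation.ReflTransGen.single ⟨i, h1, h2, h⟩

/-- the states 1, 2 are joined by label 2 -/
private theorem reach12 {a b : ℕ} (ha : a ≤ 2) (hb : 2 ≤ b) {u v : Fin 3} (hu : u ≠ 0) (hv : v ≠ 0) :
    Reach (sI 1) a b u v := by
  have h12 : Reach (sI 1) a b 1 2 := step1 2 ha hb (by rw [sI_two]; decide)
  have h21 : Reach (sI 1) a b 2 1 := step1 2 ha hb (by rw [sI_two]; decide)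
  fin_cases u <;> fin_cases v
  all_goals first
    | exact Relation.ReflTransGen.refl
    | exact h12
    | exact h21
    | exact absurd rfl hu
    | exact absurd rfl hv

private theorem reach1 {b : ℕ} (hb : 2 ≤ b) (u v : Fin 3) : Reach (sI 1) 1 b u v := by
  have h01 : Reach (sI 1) 1 b 0 1 := step1 1 le_rfl (by omega) (by rw [sI_one]; decide)
  have h10 : Reach (sI 1) 1 b 1 0 := step1 1 le_rfl (by omega) (by rw [sI_one]; decide)
  have h : ∀ u, Reach (sI 1) 1 b u 1 := by
    intro u
    by_cases hu : u = 0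
    · rw [hu]; exact h01
    · exact reach12 (by omega) hb hu (by decide)
  have h' : ∀ u, Reach (sI 1) 1 b 1 u := by
    intro u
    by_cases hu : u = 0
    · rw [hu]; exact h10
    · exact reach12 (by omega) hb (by decide) hu
  exact (h u).trans (h' v)

theorem wyt_one {d : ℕ} (hd : 4 ≤ d) (M : CoxeterMatrix (Fin d))
    (hpd : ∀ z : Fin d → ℝ, z ≠ 0 → 0 < bil M z z) (hL : ∀ m n, DLink M m n) :
    ∃ vv ll : Fin 3 → Fin d → ℝ, Wyt (sI 1) (om1 hd) M d vv ll := by
  obtain ⟨ϖ, h1, h2, h3, h4, h5⟩ := exists_weights M hpd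
  set α : ℝ := bil M (ϖ (idx hd 2)) (ϖ (idx hd (d - 1))) with hα
  set β : ℝ := bil M (ϖ (idx hd 0)) (ϖ (idx hd (d - 1))) with hβ
  have hαpos : 0 < α := h4 _ _ (hL _ _)
  have hβpos : 0 < β := h4 _ _ (hL _ _)
  have hαi : (0 : ℝ) < α⁻¹ := inv_pos.mpr hαpos
  have hβi : (0 : ℝ) < β⁻¹ := inv_pos.mpr hβpos
  obtain ⟨vv, hv0, hv1⟩ : ∃ vv : Fin 3 → Fin d → ℝ, (vv 0 = α⁻¹ • ϖ (idx hd 2)) ∧
      ∀ v, v ≠ 0 → vv v = β⁻¹ • ϖ (idx hd 0) :=
    ⟨fun v => if v = 0 then α⁻¹ • ϖ (idx hd 2) else β⁻¹ • ϖ (idx hd 0), if_pos rfl,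
      fun v hv => if_neg hv⟩
  have f0 : ∀ n, fB M n (vv 0) = if n = idx hd 2 then α⁻¹ else 0 := by
    intro n
    rw [hv0, map_smul, h1, smul_eq_mul]
    split_ifs <;> simp
  have f1 : ∀ v n, v ≠ 0 → fB M n (vv v) = if n = idx hd 0 then β⁻¹ else 0 := by
    intro v n hv
    rw [hv1 v hv, map_smul, h1, smul_eq_mul]
    split_ifs <;> simp
  have hcases : ∀ n : Fin d, n = idx hd 0 ∨ n = idx hd 1 ∨ n = idx hd 2 ∨
      ∃ k, 3 ≤ k ∧ k < d ∧ n = idx hd k := by
    intro n
    have h := idx_val1 hd n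
    have hlt := n.isLt
    by_cases e0 : n.val = 0
    · left; rw [← h, e0]
    by_cases e1 : n.val = 1
    · right; left; rw [← h, e1]
    by_cases e2 : n.val = 2
    · right; right; left; rw [← h, e2]
    · right; right; right
      exact ⟨n.val, by omega, hlt, h.symm⟩
  refine ⟨vv, fun _ => ϖ (idx hd (d - 1)), ?_⟩
  constructor
  · -- vinv
    intro i hi1 hi2 v
    by_cases e : i = 2
    · subst e
      rw [sI_two]
      fin_cases v
      · rfl
      · show vv 2 = vv 1
        rw [hv1 2 (by decide), hv1 1 (by decide)]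
      · show vv 1 = vv 2
        rw [hv1 2 (by decide), hv1 1 (by decide)]
    · rw [sI_ge (by omega)]
  · -- linv
    intro i _ _ v
    rfl
  · -- vdom
    intro v n
    by_cases hv : v = 0
    · rw [hv, f0]
      split_ifs
      · exact hαi.le
      · exact le_rfl
    · rw [f1 v n hv]
      split_ifs
      · exact hβi.le
      · exact le_rfl
  · -- ldom
    intro v n
    show 0 ≤ fB M n (ϖ (idx hd (d - 1)))
    rw [h1]
    split_ifs <;> norm_num
  · -- vwal
    intro i hi1 hi2 v hsv
    by_cases e : i = 2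
    · subst e
      rw [om1_two hd le_rfl]
      by_cases hv : v = 0
      · rw [hv, f0, if_neg]
        rw [idx_inj1 hd (by omega) (by omega)]
        omega
      · exfalso
        rw [sI_two] at hsv
        revert hsv
        fin_cases v
        · exact absurd rfl hv
        · decide
        · decide
    by_cases e3 : i = 3
    · subst e3
      rw [om1_three]
      by_cases hv : v = 0
      · rw [hv, if_neg (by decide : ¬ (0 : Fin 3) = 2), f0, if_neg]
        rw [idx_inj1 hd (by omega) (by omega)]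
        omega
      · rw [f1 _ _ hv, if_neg]
        split_ifs
        · rw [idx_inj1 hd (by omega) (by omega)]
          omega
        · rw [idx_inj1 hd (by omega) (by omega)]
          omega
    · rw [om1_ge hd (by omega)]
      by_cases hv : v = 0
      · rw [hv, f0, if_neg]
        rw [idx_inj1 hd (by omega) (by omega)]
        omega
      · rw [f1 _ _ hv, if_neg]
        rw [idx_inj1 hd (by omega) (by omega)]
        omega
  · -- lwal
    intro i hi1 hi2 v _
    show fB M (om1 hd i v) (ϖ (idx hd (d - 1))) = 0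
    rw [h1, if_neg]
    by_cases e : i ≤ 2
    · rw [om1_two hd e, idx_inj1 hd (by omega) (by omega)]
      omega
    by_cases e3 : i = 3
    · subst e3
      rw [om1_three]
      split_ifs
      · rw [idx_inj1 hd (by omega) (by omega)]
        omega
      · rw [idx_inj1 hd (by omega) (by omega)]
        omega
    · rw [om1_ge hd (by omega), idx_inj1 hd (by omega) (by omega)]
      omega
  · -- vcov
    intro v n hn
    by_cases hv : v = 0
    · subst hv
      rw [f0] at hn
      have hn' : n ≠ idx hd 2 := by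
        intro h
        rw [if_pos h] at hn
        exact hαi.ne' hn
      rcases hcases n with h | h | h | ⟨k, hk, hkd, h⟩
      · refine ⟨2, 0, le_rfl, by omega, by rw [sI_two]; decide, ?_, Relation.ReflTransGen.refl⟩
        rw [om1_two hd le_rfl, h]
      · refine ⟨3, 0, by omega, by omega, sI_ge (by omega) _, ?_, Relation.ReflTransGen.refl⟩
        rw [om1_three, if_neg (by decide), h]
      · exact absurd h hn'
      · refine ⟨k + 1, 0, by omega, by omega, sI_ge (by omega) _, ?_, Relation.ReflTransGen.refl⟩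
        rw [om1_ge hd (by omega), h]
        rfl
    · rw [f1 v n hv] at hn
      have hn' : n ≠ idx hd 0 := by
        intro h
        rw [if_pos h] at hn
        exact hβi.ne' hn
      rcases hcases n with h | h | h | ⟨k, hk, hkd, h⟩
      · exact absurd h hn'
      · refine ⟨3, 1, by omega, by omega, sI_ge (by omega) _, ?_,
          reach12 le_rfl (by omega) hv (by decide)⟩
        rw [om1_three, if_neg (by decide), h]
      · refine ⟨3, 2, by omega, by omega, sI_ge (by omega) _, ?_,
          reach12 le_rfl (by omega) hv (by decide)⟩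
        rw [om1_three, if_pos rfl, h]
      · refine ⟨k + 1, v, by omega, by omega, sI_ge (by omega) _, ?_, Relation.ReflTransGen.refl⟩
        rw [om1_ge hd (by omega), h]
        rfl
  · -- lcov
    intro v n hn
    change fB M n (ϖ (idx hd (d - 1))) = 0 at hn
    have hn' : n ≠ idx hd (d - 1) := by
      intro h
      rw [h1, if_pos h] at hn
      exact one_ne_zero hn
    rcases hcases n with h | h | h | ⟨k, hk, hkd, h⟩
    · refine ⟨2, 0, by omega, by omega, by rw [sI_two]; decide, ?_, reach1 (by omega) _ _⟩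
      rw [om1_two hd le_rfl, h]
    · refine ⟨3, 0, by omega, by omega, sI_ge (by omega) _, ?_, reach1 (by omega) _ _⟩
      rw [om1_three, if_neg (by decide), h]
    · refine ⟨3, 2, by omega, by omega, sI_ge (by omega) _, ?_, reach1 (by omega) _ _⟩
      rw [om1_three, if_pos rfl, h]
    · have hk' : k ≠ d - 1 := by
        intro h'
        apply hn'
        rw [h, h']
      refine ⟨k + 1, v, by omega, by omega, sI_ge (by omega) _, ?_, Relation.ReflTransGen.refl⟩
      rw [om1_ge hd (by omega), h]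
      rfl
  · -- one
    intro u t
    show bil M (vv u) (ϖ (idx hd (d - 1))) = 1
    by_cases hu : u = 0
    · rw [hu, hv0, bil_smul_left, inv_mul_cancel₀ hαpos.ne']
    · rw [hv1 u hu, bil_smul_left, inv_mul_cancel₀ hβpos.ne']
  · exact Or.inl (fun u t => reach1 (by omega) u t)

end H73.TO
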