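import Pool.Agent.H73.TO.Real
import Pool.Agent.H73.TO.Rev
import Pool.Agent.H73.TO.PDef
import Pool.Agent.H73.TO.C1
import Pool.Agent.H73.TO.Wy1
import Pool.Agent.H73.TO.ExI2
import Pool.Agent.H63.KO.FlagAct

/-! # TO.R1 : type I_1 and its dual are realized

`P.Fl` is finite (`finite_fl`). `real_I`: `per_typeI` (`j = 1`), `chart_one`, `Chart.finite`, `bil_pos`, `wyt_one` (`T.s = sI 1` by `funext`; rewrite the chart), `realize` with `V = Fin 3`, `B = Fin P.d` (`P.sys.d = P.d` is definitional). `hsym`: `σ = id`, `τ = Equiv.refl _` (`DSym` is trivial), `v0 = 0`: `T.π (θ (ξ 0)) = 0` by `Full`, `θ (ξ 0) = ψ w0 (ξ v)` by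
`Chart.surj`, and `T.π (ψ w0 (ξ v)) = T.π (ξ v) = v`, so `v = 0`. `real_I_rev`: the same for `S = revS P.sys` (`S.d = P.d`), then `Chart.rev` and `Wyt.rev` (the vectors of the rank 1 elements are now `ll`), `realize` for the reversed data; an automorphism of `P.sys` is one of `revS P.sys` (`isAut_rev`). -/

namespace H73.TO

open H63.KO KOrbit

/-- the trivial symmetry -/
theorem dsym_id {V B : Type} (s : ℕ → V → V) (ω : ℕ → V → B) (M : CoxeterMatrix B) (d : ℕ)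
    (vv : V → B → ℝ) : DSym s ω M d vv id (Equiv.refl B) where
  hi := Function.injective_id
  hs := fun _ _ _ _ => rfl
  hω := fun _ _ _ _ _ => rfl
  hM := fun _ _ => rfl
  hv := fun _ _ => rfl

theorem real_I {L : Type} [PartialOrder L] [Finite L] (P : PolyLat L) (d : ℕ) (hd : P.d = d)
    (hd4 : 4 ≤ d) (T : Typ P.sys (Fin 3)) (hT : T.Full) (hs : ∀ i v, T.s i v = sI 1 i v) :
    ∃ Q' : Set (Euc d), IsPolytope Q' ∧ Nonempty (L ≃o Face Q') ∧ geomOrbits Q' = combOrbits Q' := by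
  classical
  have hfl : Finite P.Fl := finite_fl P
  have hd4' : 4 ≤ P.sys.d := by show 4 ≤ P.d; omega
  have hper : ∀ v, T.per 1 v = 3 := per_typeI T le_rfl (by show 1 + 2 ≤ P.d; omega) hs
  obtain ⟨M, C, h1, h2, h3⟩ := chart_one hd4' T hs hper
  have hTs : T.s = sI 1 := by funext i v; exact hs i v
  have hfin : Finite M.Group := C.finite
  have hpd : ∀ z : Fin P.sys.d → ℝ, z ≠ 0 → 0 < Pool.Agent.H44.Cox.bil M z z := fun z hz => bil_pos M hz
  obtain ⟨vv, ll, hW⟩ := wyt_one hd4' M hpd h3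
  have hW' : Wyt T.s (om1 hd4') M P.d vv ll := by rw [hTs]; exact hW
  refine realize P d hd (by omega) (B := Fin P.sys.d) (by rw [Fintype.card_fin]; exact hd) C hpd hW' ?_
  intro θ hθ
  refine ⟨id, Equiv.refl _, dsym_id _ _ _ _ _, ?_⟩
  obtain ⟨w0, v, hv⟩ := C.surj (θ (C.ξ 0))
  have e1 : T.π (θ (C.ξ 0)) = 0 := by rw [hT θ hθ, h1]
  have e2 : T.π (θ (C.ξ 0)) = v := by rw [hv, h2, h1]
  refine ⟨w0, 0, ?_⟩
  rw [hv, ← e2, e1]
  rfl

theorem real_I_rev {L : Type} [PartialOrder L] [Finite L] (P : PolyLat L) (d : ℕ) (hd : P.d = d)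
    (hd4 : 4 ≤ d) (T : Typ (revS P.sys) (Fin 3)) (hT : T.Full) (hs : ∀ i v, T.s i v = sI 1 i v) :
    ∃ Q' : Set (Euc d), IsPolytope Q' ∧ Nonempty (L ≃o Face Q') ∧ geomOrbits Q' = combOrbits Q' := by
  classical
  have hfl : Finite P.Fl := finite_fl P
  have hd4' : 4 ≤ (revS P.sys).d := by show 4 ≤ P.d; omega
  have hper : ∀ v, T.per 1 v = 3 := per_typeI T le_rfl (by show 1 + 2 ≤ P.d; omega) hs
  obtain ⟨M, C, h1, h2, h3⟩ := chart_one hd4' T hs hper
  have hTs : T.s = sI 1 := by funext i v; exact hs i v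
  have hfin : Finite M.Group := C.finite
  have hpd : ∀ z : Fin (revS P.sys).d → ℝ, z ≠ 0 → 0 < Pool.Agent.H44.Cox.bil M z z :=
    fun z hz => bil_pos M hz
  obtain ⟨vv, ll, hW⟩ := wyt_one hd4' M hpd h3
  have hW' : Wyt T.s (om1 hd4') M P.d vv ll := by rw [hTs]; exact hW
  refine realize P d hd (by omega) (B := Fin (revS P.sys).d) (by rw [Fintype.card_fin]; exact hd)
    (Chart.rev (S := P.sys) C) hpd hW'.rev ?_
  intro θ hθ
  refine ⟨id, Equiv.refl _, dsym_id _ _ _ _ _, ?_⟩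
  obtain ⟨w0, v, hv⟩ := C.surj (θ (C.ξ 0))
  have e1 : T.π (θ (C.ξ 0)) = 0 := by rw [hT θ (isAut_rev.2 hθ), h1]
  have e2 : T.π (θ (C.ξ 0)) = v := by rw [hv, h2, h1]
  refine ⟨w0, 0, ?_⟩
  show θ (C.ξ 0) = C.ψ w0 (C.ξ 0)
  rw [hv, ← e2, e1]

end H73.TO
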