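import Pool.Agent.H73.TO.Psi

/-! # TO.Sym : automorphisms of the flag system act linearly

`cs = M.toCoxeterSystem`, `perm z = z ∘ τ.symm` on `B → ℝ`; `perm (al n) = al (τ n)`, `fB M (τ n) (perm z) = fB M n z` (`hM`), so `sig M (τ n) (perm z) = perm (sig M n z)` and `bil M (perm x) (perm y) = bil M x y`. Let `θ (ξ v0) = ψ w0 (ξ (σ v0))`, `T z = rho cs w0 (perm z)`; `bil (T x) (T y) = bil x y` (`bil_rho`).
CLAIM: for all `w, v` there is `w'` with `θ (ψ w (ξ v)) = ψ w' (ξ (σ v))` and `rho cs w' (perm z) = T (rho cs w z)` for all `z`. It holds for `w = 1`, `v = v0`, and is preserved by `x ↦ ρ i x` (`S.conn`; every flag is `ψ w (ξ v)` for a unique `(w, v)`: `Chart.surj`, `C.inj`): if `s i v ≠ v`: `ρ i x = ψ w (ξ (s i v))`,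
`s i (σ v) = σ (s i v) ≠ σ v` (`hi`), `ρ i (ψ w' (ξ (σ v))) = ψ w' (ξ (σ (s i v)))`, the same `w'`. If `s i v = v`, `n = ω i v`: `ρ i x = ψ (w * simple n) (ξ v)`, `ρ i (ψ w' (ξ (σ v))) = ψ (w' * simple (τ n)) (ξ (σ v))` (`hω`), and `rho (w' * simple (τ n)) (perm z) = rho w' (sig (τ n) (perm z)) = rho w' (perm (sig n z)) = T (rho w (sig n z)) = T (rho (w * simple n) z)`.
With `z = vv v`: `perm (vv v) = vv (σ v)` (`hv`). -/

namespace H73.TO

open H63.KO Pool.Agent.H80.Cox Pool.Agent.H44.Cox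

variable {X V B : Type} {S : FSys X}

/-- the permutation of coordinates -/
noncomputable def pm {B : Type} (τ : Equiv.Perm B) : (B → ℝ) →ₗ[ℝ] (B → ℝ) := LinearMap.funLeft ℝ ℝ τ.symm

lemma pm_apply {B : Type} (τ : Equiv.Perm B) (z : B → ℝ) (n : B) : pm τ z n = z (τ.symm n) := rfl

lemma pm_al {B : Type} [Fintype B] [DecidableEq B] (τ : Equiv.Perm B) (n : B) : pm τ (al n) = al (τ n) := by
  funext m
  rw [pm_apply]
  by_cases h : m = τ n
  · subst h
    rw [Equiv.symm_apply_apply, al_self, al_self]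
  · have h' : τ.symm m ≠ n := fun h2 => h (by rw [← h2, Equiv.apply_symm_apply])
    rw [al_ne h, al_ne h']

section
variable {B : Type} [Fintype B] [DecidableEq B] {M : CoxeterMatrix B} {τ : Equiv.Perm B}
  (hM : ∀ m n, M (τ m) (τ n) = M m n)
include hM

lemma cc_pm (m n : B) : cc M (τ m) (τ n) = cc M m n := by
  unfold cc
  rw [hM]

lemma fB_pm (n : B) (z : B → ℝ) : fB M (τ n) (pm τ z) = fB M n z := by
  rw [fB_apply, fB_apply, ← Equiv.sum_comp τ]
  refine Finset.sum_congr rfl fun m _ => ?_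
  rw [cc_pm hM, pm_apply, Equiv.symm_apply_apply]

lemma sig_pm (n : B) (z : B → ℝ) : sig M (τ n) (pm τ z) = pm τ (sig M n z) := by
  rw [sig_apply, sig_apply, map_sub, map_smul, pm_al, fB_pm hM]

lemma bil_pm (x y : B → ℝ) : bil M (pm τ x) (pm τ y) = bil M x y := by
  unfold bil
  rw [← Equiv.sum_comp τ]
  refine Finset.sum_congr rfl fun m _ => ?_
  rw [fB_pm hM, pm_apply, Equiv.symm_apply_apply]

end

theorem sym_map [Fintype B] [DecidableEq B] {s : ℕ → V → V} {ω : ℕ → V → B} {M : CoxeterMatrix B}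
    (C : Chart S s ω M 1 S.d) {vv : V → B → ℝ} {σ : V → V} {τ : Equiv.Perm B}
    (h : DSym s ω M S.d vv σ τ) {θ : Equiv.Perm X} (hθ : IsAut S θ) {w0 : M.Group} {v0 : V}
    (h0 : θ (C.ξ v0) = C.ψ w0 (C.ξ (σ v0))) :
    ∃ T : (B → ℝ) →ₗ[ℝ] (B → ℝ), (∀ x y, bil M (T x) (T y) = bil M x y) ∧
      ∀ w v, ∃ w', θ (C.ψ w (C.ξ v)) = C.ψ w' (C.ξ (σ v)) ∧
        rho M.toCoxeterSystem w' (vv (σ v)) = T (rho M.toCoxeterSystem w (vv v)) := by
  classical
  have _ : Nonempty V := ⟨v0⟩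
  have hvv : ∀ v, pm τ (vv v) = vv (σ v) := by
    intro v
    funext n
    rw [pm_apply, ← h.hv v, Equiv.apply_symm_apply]
  refine ⟨(rho M.toCoxeterSystem w0).comp (pm τ), ?_, ?_⟩
  · intro x y
    rw [LinearMap.comp_apply, LinearMap.comp_apply, bil_rho, bil_pm h.hM]
  have key : ∀ x, ∀ w v, x = C.ψ w (C.ξ v) → ∃ w', θ x = C.ψ w' (C.ξ (σ v)) ∧
      ∀ z, rho M.toCoxeterSystem w' (pm τ z) =
        rho M.toCoxeterSystem w0 (pm τ (rho M.toCoxeterSystem w z)) := by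
    intro x
    induction S.conn (C.ξ v0) x with
    | refl =>
      intro w v hx
      have h1 : C.ψ 1 (C.ξ v0) = C.ψ w (C.ξ v) := by rw [map_one]; exact hx
      obtain ⟨h2, h3⟩ := C.inj _ _ _ _ h1
      subst h2; subst h3
      refine ⟨w0, h0, fun z => ?_⟩
      rw [rho_one]
    | @tail y _ _ hq ih =>
      obtain ⟨i, h1, h2, rfl⟩ := hq
      intro w v hx
      obtain ⟨w1, v1, hy⟩ := C.surj y
      obtain ⟨w', hw', hz⟩ := ih w1 v1 hy
      by_cases hs : s i v1 = v1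
      · have h3 : C.ψ (w1 * M.simple (ω i v1)) (C.ξ v1) = C.ψ w (C.ξ v) := by
          rw [← hx, map_mul, Equiv.Perm.mul_apply, C.semi i h1 h2 v1 hs, hy]
          exact C.aut w1 i _
        obtain ⟨h4, h5⟩ := C.inj _ _ _ _ h3
        subst h4; subst h5
        refine ⟨w' * M.simple (τ (ω i v1)), ?_, ?_⟩
        · have h6 : s i (σ v1) = σ v1 := by rw [h.hs i h1 h2, hs]
          have h7 := C.semi i h1 h2 (σ v1) h6
          rw [h.hω i h1 h2 v1 hs] at h7
          rw [hθ, hw', map_mul, Equiv.Perm.mul_apply, h7]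
          exact (C.aut w' i _).symm
        · intro z
          have h8 : ∀ n, rho M.toCoxeterSystem (M.simple n) = sig M n := fun n => rho_simple _ n
          rw [rho_mul, rho_mul, h8, h8, sig_pm h.hM, hz]
      · have h3 : C.ψ w1 (C.ξ (s i v1)) = C.ψ w (C.ξ v) := by
          rw [← hx, C.edge i h1 h2 v1 hs, hy]
          exact C.aut w1 i _
        obtain ⟨h4, h5⟩ := C.inj _ _ _ _ h3
        subst h4; subst h5
        refine ⟨w', ?_, hz⟩
        have h6 : s i (σ v1) ≠ σ v1 := by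
          rw [h.hs i h1 h2]
          exact fun h7 => hs (h.hi h7)
        have h7 := C.edge i h1 h2 (σ v1) h6
        rw [h.hs i h1 h2] at h7
        rw [hθ, hw', h7]
        exact (C.aut w' i _).symm
  intro w v
  obtain ⟨w', h1, h2⟩ := key _ w v rfl
  refine ⟨w', h1, ?_⟩
  rw [← hvv, h2]
  rfl

end H73.TO
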