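import Pool.Agent.H73.TO.Defs

/-! # TO.Trn : a positive definite form is isometric to Euclidean space

`bil M` is a positive definite symmetric bilinear form on `B → ℝ`, `card B = d`. Either make an `InnerProductSpace.Core ℝ (B → ℝ)` (on a type synonym) from `bil`, and use `stdOrthonormalBasis` / `LinearIsometryEquiv` between spaces of the same finrank; or choose an orthonormal basis for the form by
`LinearMap.BilinForm.exists_orthogonal_basis` (Mathlib: `LinearMap.BilinForm.exists_orthogonal_basis` for symmetric forms over a field of characteristic not 2) and normalise; or the square root of the Gram matrix (`Matrix.PosDef`, `A = Cᵀ C`, e.g. `Matrix.PosSemidef` decomposition), `Λ x = C x`. -/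

namespace H73.TO

open Pool.Agent.H80.Cox Pool.Agent.H44.Cox KOrbit

private theorem core_isom {V : Type} [AddCommGroup V] [Module ℝ V] [FiniteDimensional ℝ V]
    (f : V → V → ℝ) (hs : ∀ x y, f x y = f y x) (ha : ∀ x y z, f (x + y) z = f x z + f y z)
    (hm : ∀ (c : ℝ) x z, f (c • x) z = c * f x z) (hp : ∀ x, x ≠ 0 → 0 < f x x) (d : ℕ)
    (hd : Module.finrank ℝ V = d) :
    ∃ Λ : V ≃ₗ[ℝ] EuclideanSpace ℝ (Fin d), ∀ x y, inner ℝ (Λ x) (Λ y) = f x y := by
  let c : InnerProductSpace.Core ℝ V :=
    { inner := fun x y => f x y
      conj_inner_symm := fun x y => by simpa using hs y x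
      re_inner_nonneg := fun x => by
        by_cases hx : x = 0
        · subst hx
          have h0 := hm 0 0 0
          simp only [zero_smul, zero_mul] at h0
          show (0 : ℝ) ≤ f 0 0
          rw [h0]
        · exact (hp x hx).le
      add_left := fun x y z => ha x y z
      smul_left := fun x y r => by simpa using hm r x y
      definite := fun x hx => by
        by_contra h
        exact (hp x h).ne' hx }
  letI : NormedAddCommGroup V := c.toNormedAddCommGroup
  letI : InnerProductSpace ℝ V := InnerProductSpace.ofCore c.toCore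
  let b := (stdOrthonormalBasis ℝ V).reindex (finCongr hd)
  refine ⟨b.repr.toLinearEquiv, fun x y => ?_⟩
  exact b.repr.inner_map_map x y

variable {B : Type} [Fintype B] [DecidableEq B]

theorem exists_isom (M : CoxeterMatrix B) (hpd : ∀ z : B → ℝ, z ≠ 0 → 0 < bil M z z) (d : ℕ)
    (hd : Fintype.card B = d) :
    ∃ Λ : (B → ℝ) ≃ₗ[ℝ] Euc d, ∀ x y, inner ℝ (Λ x) (Λ y) = bil M x y :=
  core_isom (fun x y => bil M x y) (bil_symm M) (bil_add_left M) (bil_smul_left M) hpd d
    (by simpa using hd)

end H73.TO
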