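import Pool.Agent.H73.TO.IncC
import Pool.Agent.H73.TO.Sym
import Pool.Agent.H73.TO.Geo
import Pool.Agent.H73.TO.Trn
import Pool.Agent.H63.KO.FlagAct

/-! # TO.Real : the realization theorem

`exists_inc` gives `p₀, f₀ : L → B → ℝ`, `exists_isom` gives `Λ`; `p = Λ ∘ p₀`, `f = Λ ∘ f₀` satisfy `Inc P p f`. `Q' = hull P p P.top`: `isPolytope_hull`, `hull_iso`. For `geom_eq_comb`:
let `g : L ≃o L`, `θ φ = φ.act g` (a permutation of `P.Fl`, inverse `act g.symm`; `IsAut` by `act_rho`). `hsym` and `sym_map` give `T₀ : (B → ℝ) →ₗ (B → ℝ)` preserving `bil`, with `T₀ (rho w (vv v)) = rho w' (vv (σ v))`, `θ (ψ w (ξ v)) = ψ w' (ξ (σ v))`. For an atom `a` take a flag `ψ w (ξ v)` with rank 1 element `a`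
(`exists_flag`, `Chart.surj`): `g a = (θ (ψ w (ξ v))).f 1 = (ψ w' (ξ (σ v))).f 1`, so `p₀ (g a) = rho w' (vv (σ v)) = T₀ (p₀ a)`. `Λ T₀ Λ⁻¹` is a linear isometry of the finite dimensional space `Euc d` (`inner` preserved), so a `LinearIsometryEquiv` (`LinearIsometry.toLinearIsometryEquiv rfl`; `LinearMap.isometryOfInner`). -/

namespace H73.TO

open H63.KO KOrbit Pool.Agent.H80.Cox Pool.Agent.H44.Cox

theorem realize {L : Type} [PartialOrder L] [Finite L] (P : PolyLat L) (d : ℕ) (hd : P.d = d)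
    (hd2 : 2 ≤ d) {V B : Type} [Nonempty V] [Fintype B] [DecidableEq B] (hB : Fintype.card B = d)
    {s : ℕ → V → V} {ω : ℕ → V → B} {M : CoxeterMatrix B} (C : Chart P.sys s ω M 1 P.d)
    (hpd : ∀ z : B → ℝ, z ≠ 0 → 0 < bil M z z) {vv ll : V → B → ℝ} (h : Wyt s ω M P.d vv ll)
    (hsym : ∀ θ : Equiv.Perm P.Fl, IsAut P.sys θ → ∃ σ τ, DSym s ω M P.d vv σ τ ∧
      ∃ w0 v0, θ (C.ξ v0) = C.ψ w0 (C.ξ (σ v0))) :
    ∃ Q' : Set (Euc d), IsPolytope Q' ∧ Nonempty (L ≃o Face Q') ∧ geomOrbits Q' = combOrbits Q' := by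
  obtain ⟨p₀, f₀, hp, _, hinc⟩ := exists_inc P (by omega) C hpd h
  obtain ⟨Λ, hΛ⟩ := exists_isom M hpd d hB
  have hI : Inc P (fun a => Λ (p₀ a)) (fun a => Λ (f₀ a)) := by
    intro a b ha hb
    have h1 := hinc a b ha hb
    simp only [hΛ]
    exact h1
  obtain ⟨e, he⟩ := hull_iso (P := P) hd (by omega) hI
  refine ⟨hull P (fun a => Λ (p₀ a)) P.top, isPolytope_hull hd (by omega) hI, ⟨e⟩,
    geom_eq_comb e he ?_⟩
  intro g
  let θ : Equiv.Perm P.Fl :=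
    { toFun := fun φ => φ.act g
      invFun := fun φ => φ.act g.symm
      left_inv := by
        intro φ
        apply PolyLat.Fl.ext'
        intro i
        exact g.symm_apply_apply _
      right_inv := by
        intro φ
        apply PolyLat.Fl.ext'
        intro i
        exact g.apply_symm_apply _ }
  have hθ : IsAut P.sys θ := fun i φ => act_rho g i φ
  obtain ⟨σ, τ, hD, w0, v0, h0⟩ := hsym θ hθ
  obtain ⟨T₀, hT, hT2⟩ := sym_map C hD hθ h0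
  have key : ∀ a, P.rk a = 1 → T₀ (p₀ a) = p₀ (g a) := by
    intro a ha
    obtain ⟨φ, hφ⟩ := exists_flag (P := P) a
    rw [ha] at hφ
    obtain ⟨w, v, hwv⟩ := C.surj φ
    obtain ⟨w', h1, h2⟩ := hT2 w v
    have h3 : p₀ a = rho M.toCoxeterSystem w (vv v) := by rw [← hφ, hwv, hp]
    have h4 : g a = (θ (C.ψ w (C.ξ v))).f 1 := by
      rw [← hφ, hwv]
      rfl
    rw [h3, ← h2, h4, h1, hp]
  have hT1 : ∀ x y, inner ℝ ((Λ.toLinearMap ∘ₗ T₀ ∘ₗ Λ.symm.toLinearMap) x)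
      ((Λ.toLinearMap ∘ₗ T₀ ∘ₗ Λ.symm.toLinearMap) y) = inner ℝ x y := by
    intro x y
    show inner ℝ (Λ (T₀ (Λ.symm x))) (Λ (T₀ (Λ.symm y))) = inner ℝ x y
    rw [hΛ, hT, ← hΛ, Λ.apply_symm_apply, Λ.apply_symm_apply]
  refine ⟨((Λ.toLinearMap ∘ₗ T₀ ∘ₗ Λ.symm.toLinearMap).isometryOfInner hT1).toLinearIsometryEquiv
    rfl, fun a ha => ?_⟩
  show Λ (T₀ (Λ.symm (Λ (p₀ a)))) = Λ (p₀ (g a))
  rw [Λ.symm_apply_apply, key a ha]

end H73.TO
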