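import Pool.Agent.H73.TO.Defs

/-! # TO.TypB : elementary facts on types

Everything follows from the fields of `Typ` and from `H63/KO/Per.lean` (`per_self`, `per_succ`, `per_far`, `per_iter`, `three_le_per`, `per_pos`), because every state is
`T.π x` for some flag `x` and `T.per i (T.π x) = S.per i x` (`per_pi`: two flags with the same state are exchanged by an automorphism, and automorphisms preserve the minimal period).
`iter_per`: `T.π` is a semiconjugacy of `ρ i ∘ ρ (i+1)` to `s i ∘ s (i+1)`. `two_dvd_per`, `three_dvd_per`: `v` has minimal period 2 (3) under `s i ∘ s (i + 1)`, and the iterate with exponent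
`T.per i v` fixes it (`Function.IsPeriodicPt.minimalPeriod_dvd`). `aut_eq`: the set where `θ` and `θ'` agree is closed under all `ρ i`, `S.conn`. -/

namespace H73.TO

open H63.KO

variable {X V : Type} {S : FSys X} (T : Typ S V)

theorem Typ.s_inv (i : ℕ) (v : V) : T.s i (T.s i v) = v := by
  obtain ⟨x, rfl⟩ := T.surj v
  rw [← T.hs, ← T.hs, S.inv]

theorem Typ.s_out {i : ℕ} (h : ¬ (1 ≤ i ∧ i ≤ S.d)) (v : V) : T.s i v = v := by
  obtain ⟨x, rfl⟩ := T.surj v
  rw [← T.hs, S.out i h]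

theorem Typ.s_comm {i j : ℕ} (h : i + 2 ≤ j ∨ j + 2 ≤ i) (v : V) :
    T.s i (T.s j v) = T.s j (T.s i v) := by
  obtain ⟨x, rfl⟩ := T.surj v
  rcases h with h | h
  · rw [← T.hs, ← T.hs, ← T.hs, ← T.hs, S.comm i j h]
  · rw [← T.hs, ← T.hs, ← T.hs, ← T.hs, ← S.comm j i h]

/-- the states are connected -/
theorem Typ.reach (u v : V) : Reach T.s 1 S.d u v := by
  obtain ⟨x, rfl⟩ := T.surj u
  obtain ⟨y, rfl⟩ := T.surj v
  have h := S.conn x y
  induction h with
  | refl => exact Relation.ReflTransGen.refl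
  | tail _ hbc ih =>
    obtain ⟨i, hi1, hi2, rfl⟩ := hbc
    exact Relation.ReflTransGen.tail ih ⟨i, hi1, hi2, T.hs i _⟩

theorem IsAut.per {θ : Equiv.Perm X} (h : IsAut S θ) (i : ℕ) (x : X) : S.per i (θ x) = S.per i x := by
  unfold FSys.per
  have hsemi : Function.Semiconj θ (fun z => S.ρ i (S.ρ (i + 1) z))
      (fun z => S.ρ i (S.ρ (i + 1) z)) := by
    intro z
    simp only
    rw [h, h]
  rw [Function.minimalPeriod_eq_minimalPeriod_iff]
  intro n
  have h1 := (hsemi.iterate_right n) x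
  unfold Function.IsPeriodicPt Function.IsFixedPt
  rw [← h1]
  exact θ.injective.eq_iff

theorem Typ.per_pi (i : ℕ) (x : X) : T.per i (T.π x) = S.per i x := by
  obtain ⟨θ, h1, _, h3⟩ := T.fib x (Function.surjInv T.surj (T.π x))
    (Function.surjInv_eq T.surj (T.π x)).symm
  unfold Typ.per
  rw [← h3]
  exact h1.per i x

theorem Typ.per_self [Finite X] (i : ℕ) (v : V) : T.per i (T.s i v) = T.per i v := by
  obtain ⟨x, rfl⟩ := T.surj v
  rw [← T.hs, T.per_pi, T.per_pi, S.per_self]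

theorem Typ.per_succ [Finite X] (i : ℕ) (v : V) : T.per i (T.s (i + 1) v) = T.per i v := by
  obtain ⟨x, rfl⟩ := T.surj v
  rw [← T.hs, T.per_pi, T.per_pi, S.per_succ]

theorem Typ.per_far [Finite X] {i j : ℕ} (h : j + 2 ≤ i ∨ i + 3 ≤ j) (v : V) :
    T.per i (T.s j v) = T.per i v := by
  obtain ⟨x, rfl⟩ := T.surj v
  rw [← T.hs, T.per_pi, T.per_pi, S.per_far h]

theorem Typ.three_le_per [Finite X] {i : ℕ} (h1 : 1 ≤ i) (h2 : i + 1 ≤ S.d) (v : V) : 3 ≤ T.per i v := by
  exact S.three_le_per h1 h2 _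

theorem Typ.per_pos [Finite X] (i : ℕ) (v : V) : 0 < T.per i v := by
  exact S.per_pos i _

theorem Typ.iter_per [Finite X] (i : ℕ) (v : V) :
    (fun u => T.s i (T.s (i + 1) u))^[T.per i v] v = v := by
  obtain ⟨x, rfl⟩ := T.surj v
  have hsemi : Function.Semiconj T.π (fun z => S.ρ i (S.ρ (i + 1) z))
      (fun u => T.s i (T.s (i + 1) u)) := by
    intro z
    simp only
    rw [T.hs, T.hs]
  have h1 := (hsemi.iterate_right (T.per i (T.π x))) x
  rw [← h1, T.per_pi, S.per_iter]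

theorem Typ.two_dvd_per [Finite X] (i : ℕ) (v : V) (h1 : T.s i v ≠ v) (h2 : T.s (i + 1) v = v)
    (h3 : T.s (i + 1) (T.s i v) = T.s i v) : 2 ∣ T.per i v := by
  have h4 : Function.minimalPeriod (fun u => T.s i (T.s (i + 1) u)) v = 2 := by
    have : Fact (Nat.Prime 2) := ⟨Nat.prime_two⟩
    apply Function.minimalPeriod_eq_prime
    · change T.s i (T.s (i + 1) (T.s i (T.s (i + 1) v))) = v
      rw [h2, h3, T.s_inv]
    · intro h5
      have h6 : T.s i (T.s (i + 1) v) = v := h5
      rw [h2] at h6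
      exact h1 h6
  rw [← h4]
  exact Function.IsPeriodicPt.minimalPeriod_dvd (T.iter_per i v)

theorem Typ.two_dvd_per' [Finite X] (i : ℕ) (v : V) (h1 : T.s (i + 1) v ≠ v) (h2 : T.s i v = v)
    (h3 : T.s i (T.s (i + 1) v) = T.s (i + 1) v) : 2 ∣ T.per i v := by
  have h4 : Function.minimalPeriod (fun u => T.s i (T.s (i + 1) u)) v = 2 := by
    have : Fact (Nat.Prime 2) := ⟨Nat.prime_two⟩
    apply Function.minimalPeriod_eq_prime
    · change T.s i (T.s (i + 1) (T.s i (T.s (i + 1) v))) = v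
      rw [h3, T.s_inv, h2]
    · intro h5
      have h6 : T.s i (T.s (i + 1) v) = v := h5
      rw [h3] at h6
      exact h1 h6
  rw [← h4]
  exact Function.IsPeriodicPt.minimalPeriod_dvd (T.iter_per i v)

theorem Typ.three_dvd_per [Finite X] (i : ℕ) (v : V) (h1 : T.s i v ≠ v) (h2 : T.s (i + 1) v = v)
    (h3 : T.s (i + 1) (T.s i v) ≠ T.s i v)
    (h4 : T.s i (T.s (i + 1) (T.s i v)) = T.s (i + 1) (T.s i v)) : 3 ∣ T.per i v := by
  have h5 : Function.minimalPeriod (fun u => T.s i (T.s (i + 1) u)) v = 3 := by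
    have : Fact (Nat.Prime 3) := ⟨Nat.prime_three⟩
    apply Function.minimalPeriod_eq_prime
    · change T.s i (T.s (i + 1) (T.s i (T.s (i + 1) (T.s i (T.s (i + 1) v))))) = v
      rw [h2, h4, T.s_inv, T.s_inv]
    · intro h5
      have h6 : T.s i (T.s (i + 1) v) = v := h5
      rw [h2] at h6
      exact h1 h6
  rw [← h5]
  exact Function.IsPeriodicPt.minimalPeriod_dvd (T.iter_per i v)

theorem aut_eq {θ θ' : Equiv.Perm X} (h : IsAut S θ) (h' : IsAut S θ') {x : X} (hx : θ x = θ' x) :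
    θ = θ' := by
  apply Equiv.ext
  intro z
  have hc := S.conn x z
  induction hc with
  | refl => exact hx
  | tail _ hbc ih =>
    obtain ⟨i, _, _, rfl⟩ := hbc
    rw [h, h', ih]

theorem IsAut.mul {θ θ' : Equiv.Perm X} (h : IsAut S θ) (h' : IsAut S θ') : IsAut S (θ * θ') := by
  intro i x
  rw [Equiv.Perm.mul_apply, Equiv.Perm.mul_apply, h', h]

theorem IsAut.inv {θ : Equiv.Perm X} (h : IsAut S θ) : IsAut S θ⁻¹ := by
  intro i x
  have h1 : θ (θ⁻¹ x) = x := Equiv.apply_symm_apply θ x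
  rw [Equiv.Perm.inv_eq_iff_eq, h, h1]

/-- an automorphism which preserves the state of one flag preserves all states -/
theorem Typ.pi_aut {θ : Equiv.Perm X} (h : IsAut S θ) {x : X} (hx : T.π (θ x) = T.π x) (z : X) :
    T.π (θ z) = T.π z := by
  have hc := S.conn x z
  induction hc with
  | refl => exact hx
  | tail _ hbc ih =>
    obtain ⟨i, _, _, rfl⟩ := hbc
    rw [h, T.hs, T.hs, ih]

end H73.TO
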