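import Pool.Agent.H73.TO.Defs

/-! # TO.Wts : the dual basis (fundamental weights) and its positivity

`x ↦ (fun n => fB M n x)` is linear and injective (if all `fB M n x = 0` then `bil M x x = ∑ x n * fB M n x = 0`), so bijective: `ϖ k` is the preimage of the `k`-th unit vector. `bil M (ϖ k) (ϖ l) = ∑ n, ϖ l n * fB M n (ϖ k) = ϖ l k`.
NONNEGATIVE: `x = ϖ l`, `x = p - q` with `p = max x 0`, `q = max (-x) 0` coordinatewise. `bil x q = ∑ q n * fB n x = q l ≥ 0`, `bil p q ≤ 0` (disjoint supports, `fB M n (al m) = - cc ≤ 0` for `m ≠ n`), so `bil q q = bil p q - bil x q ≤ 0`, `q = 0`. POSITIVE: `x l > 0`: `1 = fB M l x ≤ x l` (`fB_le_term`-type estimate, H44/Cox/Lem.lean).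
If `x i > 0`, `m ≠ i`, `M i m ≠ 2` then `x m > 0`: for `m ≠ l`, `0 = fB M m x ≤ x m - cc M i m * x i` (`fB_le_term`), `cc M i m ≥ 1/2` (`half_le_cc`). Induction along `DLink`. -/

namespace H73.TO

open Pool.Agent.H80.Cox Pool.Agent.H44.Cox

variable {B : Type} [Fintype B] [DecidableEq B]

theorem exists_weights (M : CoxeterMatrix B) (hpd : ∀ z : B → ℝ, z ≠ 0 → 0 < bil M z z) :
    ∃ ϖ : B → (B → ℝ), (∀ k n, fB M n (ϖ k) = if n = k then 1 else 0) ∧
      (∀ k l, bil M (ϖ k) (ϖ l) = ϖ l k) ∧ (∀ k l, 0 ≤ bil M (ϖ k) (ϖ l)) ∧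
      (∀ k l, DLink M l k → 0 < bil M (ϖ k) (ϖ l)) ∧
      ∀ x y : B → ℝ, (∀ n, fB M n x = fB M n y) → x = y := by
  classical
  let F : (B → ℝ) →ₗ[ℝ] (B → ℝ) := LinearMap.pi (fun n => fB M n)
  have hF : ∀ x n, F x n = fB M n x := fun x n => rfl
  have hinj : Function.Injective F := by
    rw [← LinearMap.ker_eq_bot, LinearMap.ker_eq_bot']
    intro x hx
    by_contra hne
    have h1 := hpd x hne
    have h2 : bil M x x = 0 := by
      unfold bil
      apply Finset.sum_eq_zero
      intro s _
      have h3 : fB M s x = 0 := by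
        rw [← hF x s, hx]; rfl
      rw [h3, mul_zero]
    linarith
  have hsurj : Function.Surjective F := LinearMap.surjective_of_injective hinj
  choose ϖ hϖ using fun k => hsurj (Pi.single k 1)
  have h1 : ∀ k n, fB M n (ϖ k) = if n = k then 1 else 0 := by
    intro k n
    rw [← hF, hϖ, Pi.single_apply]
  have h2 : ∀ k l, bil M (ϖ k) (ϖ l) = ϖ l k := by
    intro k l
    unfold bil
    rw [Finset.sum_eq_single k]
    · rw [h1, if_pos rfl, mul_one]
    · intro b _ hb
      rw [h1, if_neg hb, mul_zero]
    · intro h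
      exact absurd (Finset.mem_univ k) h
  have h3 : ∀ l, 0 ≤ ϖ l := by
    intro l
    set p : B → ℝ := fun n => max (ϖ l n) 0 with hp
    set q : B → ℝ := fun n => max (-ϖ l n) 0 with hq
    have hpn : 0 ≤ p := fun n => le_max_right _ _
    have hqn : 0 ≤ q := fun n => le_max_right _ _
    have hx : ϖ l = p - q := by
      funext n
      simp only [Pi.sub_apply, hp, hq]
      rcases le_total 0 (ϖ l n) with h | h
      · rw [max_eq_left h, max_eq_right (by linarith)]; ring
      · rw [max_eq_right h, max_eq_left (by linarith)]; ring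
    have hq0 : q = 0 := by
      by_contra hne
      have h4 := hpd q hne
      have h5 : bil M (ϖ l) q = q l := by
        unfold bil
        rw [Finset.sum_eq_single l]
        · rw [h1, if_pos rfl, mul_one]
        · intro b _ hb
          rw [h1, if_neg hb, mul_zero]
        · intro h
          exact absurd (Finset.mem_univ l) h
      have h6 : bil M p q ≤ 0 := by
        unfold bil
        apply Finset.sum_nonpos
        intro n _
        rcases le_total 0 (ϖ l n) with h | h
        · have h7 : q n = 0 := by
            simp only [hq]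
            rw [max_eq_right (by linarith)]
          rw [h7, zero_mul]
        · have h7 : p n = 0 := by
            simp only [hp]
            rw [max_eq_right h]
          exact mul_nonpos_of_nonneg_of_nonpos (hqn n) (fB_nonpos hpn h7)
      have h7 : bil M (ϖ l) q = bil M p q - bil M q q := by
        rw [hx, bil_sub_left]
      have h8 : 0 ≤ q l := hqn l
      linarith
    rw [hx, hq0, sub_zero]
    exact hpn
  have h4 : ∀ l, 0 < ϖ l l := by
    intro l
    have h5 : fB M l (ϖ l) ≤ ϖ l l := by
      rw [fB_apply, ← Finset.add_sum_erase _ _ (Finset.mem_univ l), cc_self]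
      have h6 : ∑ i ∈ Finset.univ.erase l, -(cc M i l) * ϖ l i ≤ 0 := by
        apply Finset.sum_nonpos
        intro i hi
        rw [Finset.mem_erase] at hi
        have h7 := cc_nonneg M hi.1
        have h8 : 0 ≤ ϖ l i := h3 l i
        nlinarith [mul_nonneg h7 h8]
      linarith
    rw [h1, if_pos rfl] at h5
    linarith
  refine ⟨ϖ, h1, h2, fun k l => ?_, fun k l hkl => ?_, fun x y hxy => hinj (funext hxy)⟩
  · rw [h2]
    exact h3 l k
  · rw [h2]
    unfold DLink at hkl
    induction hkl with
    | refl => exact h4 l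
    | @tail b c _ hst ih =>
      by_cases hcl : c = l
      · rw [hcl]; exact h4 l
      · have h5 := fB_le_term (M := M) (h3 l) (r := c) (q := b) hst.1
        rw [h1, if_neg hcl] at h5
        have h6 := half_le_cc M hst.1 hst.2
        nlinarith

end H73.TO
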